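import Pool.Agent.D0H81.SR.Core

set_option autoImplicit false
set_option linter.unusedVariables false
set_option linter.deprecated false
set_option linter.unusedSectionVars false

open Set Metric Filter Topology
open scoped ContDiff NNReal

namespace Pool.Agent.D0H81.SR

variable {E : Type} [NormedAddCommGroup E] [NormedSpace ℝ E] [FiniteDimensional ℝ E]
variable {ι : Type} [Fintype ι]

/-- A finite system of covector fields on an open set of the cotangent bundle which is transported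
(up to a linear system) by the Hamiltonian flow of the family `X` and annihilates the letters of the
family annihilates all iterated brackets. -/
theorem annih {N : Type} [Fintype N] (X : ι → E → E) (hX : ∀ i, ContDiff ℝ ∞ (X i)) (κ : ι → ℝ)
    (hκ : ∀ i, 0 ≤ κ i) (O : Set (TT E)) (hO : IsOpen O) (ρ : N → TT E → Co E)
    (m : N → N → TT E → ℝ) (hρ : ∀ k, ∀ z ∈ O, DifferentiableAt ℝ (ρ k) z)
    (hm : ∀ k l, ContinuousOn (m k l) O)
    (htr : ∀ k, ∀ z ∈ O, fderiv ℝ (ρ k) z (Ham X κ z) =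
      -((ρ k z).comp (Kop X κ z)) + ∑ l, m k l z • ρ l z)
    (hann : ∀ k, ∀ z ∈ O, ∀ i, κ i ≠ 0 → ρ k z (X i z.1) = 0)
    (Y : E → E) (hY : Word X {i | κ i ≠ 0} Y) (k : N) (z : TT E) (hz : z ∈ O) :
    ρ k z (Y z.1) = 0 := by
  by_contra hne
  have hYs := word_smooth hX hY
  have hcon : ContinuousOn (fun z : TT E => ρ k z (Y z.1)) O := by
    have h1 : ContinuousOn (ρ k) O := fun z hz => (hρ k z hz).continuousAt.continuousWithinAt
    exact h1.clm_apply (hYs.continuous.comp continuous_fst).continuousOn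
  have hO1 : IsOpen (O ∩ (fun z : TT E => ρ k z (Y z.1)) ⁻¹' {0}ᶜ) :=
    hcon.isOpen_inter_preimage hO isOpen_compl_singleton
  obtain ⟨t0, ht0, c, J, hc, hcd, hJd, hJ0, hw⟩ := core X hX κ hκ _ hO1 z ⟨hz, hne⟩
  obtain ⟨ξ, hξ⟩ := hw Y hY
  -- the functions
  set y : ℝ → (N → ℝ) := fun t l => ρ l (c t) (J ξ t).1 with hy
  set y' : ℝ → (N → ℝ) := fun t l => ∑ l', m l l' (c t) * ρ l' (c t) (J ξ t).1 with hy'
  have hyd : ∀ t ∈ Icc (0:ℝ) t0, HasDerivAt y (y' t) t := by
    intro t ht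
    rw [hasDerivAt_pi]
    intro l
    have h1 : HasDerivAt (ρ l ∘ c) (fderiv ℝ (ρ l) (c t) (Ham X κ (c t))) t :=
      HasFDerivAt.comp_hasDerivAt t (hρ l _ (hc t ht).1).hasFDerivAt (hcd t ht)
    have h2 : HasDerivAt (fun t => (J ξ t).1) (fderiv ℝ (Ham X κ) (c t) (J ξ t)).1 t :=
      (ContinuousLinearMap.fst ℝ E (Co E)).hasFDerivAt.comp_hasDerivAt t (hJd ξ t ht)
    have h3 := HasDerivAt.clm_apply h1 h2
    refine h3.congr_deriv ?_
    rw [htr l _ (hc t ht).1, Ham_fst_fderiv hX]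
    simp only [Function.comp, ContinuousLinearMap.add_apply, ContinuousLinearMap.neg_apply,
      ContinuousLinearMap.comp_apply, map_add, map_sum, map_smul, smul_eq_mul,
      ContinuousLinearMap.sum_apply, ContinuousLinearMap.smul_apply, hy']
    have h4 : ∑ i, κ i * (fderiv ℝ (mom X i) (c t)) (J ξ t) * (ρ l (c t)) (X i (c t).1) = 0 := by
      refine Finset.sum_eq_zero fun i _ => ?_
      by_cases hi : κ i = 0
      · simp [hi]
      · rw [hann l _ (hc t ht).1 i hi, mul_zero]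
    rw [h4]
    ring
  have hbd : ∃ L, ∀ t ∈ Icc (0:ℝ) t0, ∀ l l', |m l l' (c t)| ≤ L := by
    have hcc : ContinuousOn c (Icc (0:ℝ) t0) := fun t ht =>
      (hcd t ht).continuousAt.continuousWithinAt
    have h1 : ∀ l l', ∃ C, ∀ t ∈ Icc (0:ℝ) t0, ‖m l l' (c t)‖ ≤ C := fun l l' =>
      isCompact_Icc.exists_bound_of_continuousOn ((hm l l').comp hcc fun t ht => (hc t ht).1)
    choose C hC using h1
    refine ⟨∑ l, ∑ l', |C l l'|, fun t ht l l' => ?_⟩
    calc |m l l' (c t)| ≤ C l l' := hC l l' t ht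
      _ ≤ |C l l'| := le_abs_self _
      _ ≤ ∑ l', |C l l'| := Finset.single_le_sum (f := fun l' => |C l l'|)
          (fun _ _ => abs_nonneg _) (Finset.mem_univ l')
      _ ≤ _ := Finset.single_le_sum (f := fun l => ∑ l', |C l l'|)
          (fun _ _ => Finset.sum_nonneg fun _ _ => abs_nonneg _) (Finset.mem_univ l)
  obtain ⟨L, hL⟩ := hbd
  have hbound : ∀ t ∈ Icc (0:ℝ) t0, ‖y' t‖ ≤ (Fintype.card N * L) * ‖y t‖ := by
    intro t ht
    have hLn : 0 ≤ (Fintype.card N : ℝ) * L := by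
      rcases isEmpty_or_nonempty N with hN | ⟨⟨l⟩⟩
      · simp
      · exact mul_nonneg (Nat.cast_nonneg _) ((abs_nonneg _).trans (hL t ht l l))
    refine (pi_norm_le_iff_of_nonneg (mul_nonneg hLn (norm_nonneg _))).2 fun l => ?_
    calc ‖y' t l‖ ≤ ∑ l', ‖m l l' (c t) * ρ l' (c t) (J ξ t).1‖ := norm_sum_le _ _
      _ ≤ ∑ l' : N, L * ‖y t‖ := by
        refine Finset.sum_le_sum fun l' _ => ?_
        rw [norm_mul]
        exact mul_le_mul (hL t ht l l') (norm_le_pi_norm (y t) l') (norm_nonneg _)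
          ((abs_nonneg _).trans (hL t ht l l'))
      _ = Fintype.card N * L * ‖y t‖ := by
        rw [Finset.sum_const, Finset.card_univ, nsmul_eq_mul]; ring
  have h0 : y 0 = 0 := by
    funext l
    simp [hy, hJ0]
  have hz0 := zero_fwd hyd hbound h0 t0 ⟨ht0.le, le_rfl⟩
  have hlast := (hc t0 ⟨ht0.le, le_rfl⟩).2
  apply hlast
  have := congrFun hz0 k
  simp only [hy, hξ] at this
  exact this

end Pool.Agent.D0H81.SR
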