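import Pool.Agent.GR.Flow

set_option autoImplicit false
set_option linter.unusedVariables false
set_option linter.deprecated false
set_option linter.unusedSectionVars false

open Set Metric Filter Topology
open scoped ContDiff NNReal

namespace Pool.Agent.D0H81.SR

/-- flow of a smooth compactly supported vector field -/
theorem flow_cpt {E : Type} [NormedAddCommGroup E] [NormedSpace ℝ E] [CompleteSpace E]
    (X : E → E) (hX : ContDiff ℝ ∞ X) (hc : HasCompactSupport X) :
    ∃ G : ℝ → E → E, ContDiff ℝ ∞ (fun q : ℝ × E => G q.1 q.2) ∧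
      (∀ p, G 0 p = p) ∧ (∀ s t p, G (s + t) p = G s (G t p)) ∧
      (∀ p t, HasDerivAt (fun t => G t p) (X (G t p)) t) := by
  obtain ⟨K, hK⟩ := hX.lipschitzWith_of_hasCompactSupport hc (by simp)
  obtain ⟨M, hM⟩ := hc.exists_bound_of_continuous hX.continuous
  have hM' : ∀ x, ‖X x‖ ≤ (Real.toNNReal M : NNReal) := fun x => (hM x).trans (Real.le_coe_toNNReal M)
  choose g h0 h1 using fun p => Pool.Agent.GR.Flow.exists_solution hK hM' p
  have hfl : Pool.Agent.GR.Flow.IsFlowOf X (fun t p => g p t) := ⟨h0, h1⟩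
  refine ⟨fun t p => g p t, ?_, h0, fun s t p => hfl.add hK s t p, h1⟩
  rw [contDiff_infty]
  intro m
  have key : ∀ m : ℕ, m ≠ 0 → ContDiff ℝ m (fun q : ℝ × E => g q.2 q.1) := by
    intro m hm
    exact Pool.Agent.GR.Flow.contDiff_flow (X := ⟨X, hX.continuous⟩) hm
      (hX.of_le (by exact_mod_cast le_top)) hK hfl
  exact (key (m + 1) (by omega)).of_le (by exact_mod_cast Nat.le_succ m)

lemma zero_fwd {F : Type} [NormedAddCommGroup F] [NormedSpace ℝ F] {D D' : ℝ → F} {a b L : ℝ}
    (h : ∀ t ∈ Icc a b, HasDerivAt D (D' t) t) (hb : ∀ t ∈ Icc a b, ‖D' t‖ ≤ L * ‖D t‖)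
    (h0 : D a = 0) : ∀ t ∈ Icc a b, D t = 0 := by
  intro t ht
  have := norm_le_gronwallBound_of_norm_deriv_right_le (f := D) (f' := D') (δ := 0) (K := L)
    (ε := 0) (a := a) (b := b) (fun t ht => (h t ht).continuousAt.continuousWithinAt)
    (fun t ht => (h t ⟨ht.1, ht.2.le⟩).hasDerivWithinAt) (by simp [h0])
    (fun t ht => by simpa using hb t ⟨ht.1, ht.2.le⟩) t ht
  rw [gronwallBound_ε0_δ0] at this
  exact norm_le_zero_iff.1 this

section dual

variable {Λ : Type} [NormedAddCommGroup Λ] [NormedSpace ℝ Λ]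
variable {E : Type} [NormedAddCommGroup E] [NormedSpace ℝ E] [FiniteDimensional ℝ E]

lemma exists_dual {ι : Type} [Fintype ι] [DecidableEq ι] (v : ι → E)
    (h : LinearIndependent ℝ v) :
    ∃ f : ι → (E →L[ℝ] ℝ), ∀ i j, f i (v j) = if i = j then 1 else 0 := by
  have hinj : Function.Injective (Fintype.linearCombination ℝ v) :=
    h.fintypeLinearCombination_injective
  obtain ⟨g, hg⟩ := LinearMap.exists_leftInverse_of_injective (Fintype.linearCombination ℝ v)
    (LinearMap.ker_eq_bot.2 hinj)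
  refine ⟨fun i => LinearMap.toContinuousLinearMap ((LinearMap.proj i).comp g), fun i j => ?_⟩
  have h1 := LinearMap.congr_fun hg (Pi.single j 1)
  simp only [LinearMap.comp_apply, Fintype.linearCombination_apply_single, one_smul,
    LinearMap.id_apply] at h1
  simp only [LinearMap.coe_toContinuousLinearMap', LinearMap.comp_apply, LinearMap.proj_apply, h1]
  simp [Pi.single_apply]

lemma exists_smooth_dual {ι : Type} [Fintype ι] [DecidableEq ι] (v : ι → Λ → E) (O : Set Λ)
    (hO : IsOpen O) (z0 : Λ) (hz0 : z0 ∈ O)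
    (hv : ∀ i, ContDiffOn ℝ ∞ (v i) O) (h : LinearIndependent ℝ (fun i => v i z0)) :
    ∃ O' ⊆ O, IsOpen O' ∧ z0 ∈ O' ∧ ∃ φ : ι → Λ → (E →L[ℝ] ℝ),
      (∀ i, ContDiffOn ℝ ∞ (φ i) O') ∧
      ∀ z ∈ O', ∀ i j, φ i z (v j z) = if i = j then 1 else 0 := by
  obtain ⟨f, hf⟩ := exists_dual _ h
  set T : Λ → ((ι → ℝ) →L[ℝ] (ι → ℝ)) := fun z => ContinuousLinearMap.pi
    (fun i => ∑ j, (f i (v j z)) • ContinuousLinearMap.proj (R := ℝ) (φ := fun _ : ι => ℝ) j)
    with hT
  have hTe : ∀ z j, T z (Pi.single j 1) = fun i => f i (v j z) := by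
    intro z j
    ext i
    simp [hT, Pi.single_apply]
  have hT0 : T z0 = 1 := by
    ext x i
    simp [hT, hf]
  have hTs : ContDiffOn ℝ ∞ T O := by
    have h1 : ∀ i : ι, ContDiffOn ℝ ∞ (fun z => ∑ j, (f i (v j z)) •
        ContinuousLinearMap.proj (R := ℝ) (φ := fun _ : ι => ℝ) j) O := by
      intro i
      refine ContDiffOn.sum fun j _ => ?_
      exact ((f i).contDiff.comp_contDiffOn (hv j)).smul contDiffOn_const
    have h2 : T = fun z => ∑ i, (ContinuousLinearMap.single ℝ (fun _ : ι => ℝ) i).comp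
        (∑ j, (f i (v j z)) • ContinuousLinearMap.proj (R := ℝ) (φ := fun _ : ι => ℝ) j) := by
      funext z
      ext x i
      simp [hT, Finset.sum_apply, Pi.single_apply]
    rw [h2]
    refine ContDiffOn.sum fun i _ => ?_
    exact contDiffOn_const.clm_comp (h1 i)
  have hun : IsOpen {x : ((ι → ℝ) →L[ℝ] (ι → ℝ)) | IsUnit x} := Units.isOpen
  refine ⟨O ∩ T ⁻¹' {x | IsUnit x}, inter_subset_left,
    hTs.continuousOn.isOpen_inter_preimage hO hun, ⟨hz0, ?_⟩,
    fun i z => ((ContinuousLinearMap.proj (R := ℝ) (φ := fun _ : ι => ℝ) i).comp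
      (Ring.inverse (T z))).comp (ContinuousLinearMap.pi f), fun i => ?_, fun z hz i j => ?_⟩
  · show IsUnit (T z0)
    rw [hT0]; exact isUnit_one
  · have h1 : ContDiffOn ℝ ∞ (fun z => Ring.inverse (T z)) (O ∩ T ⁻¹' {x | IsUnit x}) := by
      intro z hz
      obtain ⟨u, hu⟩ := hz.2
      have h3 : ContDiffAt ℝ ∞ Ring.inverse (T z) := by
        rw [← hu]; exact contDiffAt_ringInverse ℝ u
      exact h3.comp_contDiffWithinAt z ((hTs z hz.1).mono inter_subset_left)
    exact (contDiffOn_const.clm_comp h1).clm_comp contDiffOn_const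
  · have h1 : (ContinuousLinearMap.pi f) (v j z) = T z (Pi.single j 1) := by
      rw [hTe]; rfl
    have h2 : Ring.inverse (T z) * T z = 1 := Ring.inverse_mul_cancel _ hz.2
    have h3 : (Ring.inverse (T z)) (T z (Pi.single j 1)) = Pi.single j 1 := by
      have := congrArg (fun A : ((ι → ℝ) →L[ℝ] (ι → ℝ)) => A (Pi.single j 1)) h2
      simpa using this
    simp only [ContinuousLinearMap.comp_apply, h1, h3, ContinuousLinearMap.proj_apply]
    simp [Pi.single_apply]

lemma indep_of_dual {ι : Type} [Fintype ι] [DecidableEq ι] {v : ι → E} {φ : ι → (E →L[ℝ] ℝ)}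
    (h : ∀ i j, φ i (v j) = if i = j then 1 else 0) : LinearIndependent ℝ v := by
  rw [Fintype.linearIndependent_iff]
  intro g hg i
  have := congrArg (φ i) hg
  simpa [h] using this

lemma expand_of_dual {ι : Type} [Fintype ι] [DecidableEq ι] {v : ι → E} {φ : ι → (E →L[ℝ] ℝ)}
    (h : ∀ i j, φ i (v j) = if i = j then 1 else 0) {w : E} (hw : w ∈ Submodule.span ℝ (range v)) :
    w = ∑ j, φ j w • v j := by
  rw [Submodule.mem_span_range_iff_exists_fun] at hw
  obtain ⟨c, rfl⟩ := hw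
  refine Finset.sum_congr rfl fun i _ => ?_
  congr 1
  simp [h]

end dual

end Pool.Agent.D0H81.SR
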