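import Pool.Agent.D0H81.SR.Frob

set_option autoImplicit false
set_option linter.unusedVariables false
set_option linter.deprecated false
set_option linter.unusedSectionVars false

open Set Metric Filter Topology
open scoped ContDiff NNReal Matrix

namespace Pool.Agent.D0H81.SR

open VectorField (lieBracket)

lemma flow_fixed {T : Type} [NormedAddCommGroup T] [NormedSpace ℝ T] {F : T → T} {K : NNReal}
    (hK : LipschitzWith K F) {G : ℝ → T → T} (h0 : ∀ p, G 0 p = p)
    (hd : ∀ p t, HasDerivAt (fun t => G t p) (F (G t p)) t) {x : T} (hx : F x = 0) {t : ℝ}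
    (ht : 0 ≤ t) : G t x = x := by
  have h1 := zero_fwd (D := fun t => G t x - x) (D' := fun t => F (G t x)) (a := 0) (b := t)
    (L := K) (fun s _ => (hd x s).sub_const x) (fun s _ => by
      have := hK.dist_le_mul (G s x) x
      rw [hx, dist_zero_right, dist_eq_norm] at this
      exact this) (by simp [h0]) t ⟨ht, le_rfl⟩
  exact sub_eq_zero.1 h1

variable {E : Type} [NormedAddCommGroup E] [NormedSpace ℝ E] [FiniteDimensional ℝ E]
variable {κ : Type} [Fintype κ] [DecidableEq κ]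

/-- first integrals of an involutive distribution (Frobenius) -/
theorem frobenius (V : Set E) (hV : IsOpen V) (q0 : E) (hq0 : q0 ∈ V) (Y : κ → E → E)
    (hY : ∀ i, ContDiffOn ℝ ∞ (Y i) V) (θ : κ → E → Co E) (hθ : ∀ i, ContDiffOn ℝ ∞ (θ i) V)
    (hd : ∀ q ∈ V, ∀ i j, θ i q (Y j q) = if i = j then 1 else 0)
    (hc : Fintype.card κ = Module.finrank ℝ E) (s : κ → Prop) [DecidablePred s]
    (hinv : ∀ i k, s i → s k → ∀ q ∈ V, ∀ l, ¬ s l → θ l q (lieBracket ℝ (Y i) (Y k) q) = 0) :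
    ∃ V' ⊆ V, IsOpen V' ∧ q0 ∈ V' ∧ ∃ f : E → ({i // ¬ s i} → ℝ), ContDiffOn ℝ ∞ f V' ∧
      (∀ q ∈ V', ∀ i, s i → fderiv ℝ f q (Y i q) = 0) ∧
      (∀ q ∈ V', ∀ v, fderiv ℝ f q v = 0 → ∀ l, ¬ s l → θ l q v = 0) := by
  obtain ⟨V1, hV1, hV1o, hq01, G, hGs, hG0, hcomm, hGY, hYG⟩ :=
    comm_frame V hV q0 hq0 Y hY θ hθ hd hc s hinv
  -- globalise
  obtain ⟨δ, hδ, hball⟩ := Metric.isOpen_iff.1 hV1o q0 hq01
  let β : ContDiffBump q0 := ⟨δ / 4, δ / 2, by positivity, by linarith⟩
  have hβs : tsupport β ⊆ V1 := by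
    rw [β.tsupport_eq]
    exact (closedBall_subset_ball (by show δ / 2 < δ; linarith)).trans hball
  set Gt : {i // s i} → E → E := fun j q => β q • G j q with hGt
  have hGts : ∀ j, ContDiff ℝ ∞ (Gt j) := fun j => global_ext β.contDiff hV1o (hGs j) hβs
  have hGte : ∀ q ∈ ball q0 (δ / 4), ∀ j, Gt j =ᶠ[𝓝 q] G j := by
    intro q hq j
    filter_upwards [isOpen_ball.mem_nhds hq] with y hy
    have : β y = 1 := β.one_of_mem_closedBall (ball_subset_closedBall hy)
    simp [hGt, this]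
  have hsub14 : ball q0 (δ / 4) ⊆ V1 := (ball_subset_ball (by linarith)).trans hball
  set W : E × ({i // s i} → ℝ) → E × ({i // s i} → ℝ) := fun x => (∑ j, x.2 j • Gt j x.1, 0) with hW
  have hWs : ContDiff ℝ ∞ W := by
    refine ContDiff.prodMk ?_ contDiff_const
    refine ContDiff.sum fun j _ => ?_
    exact ((ContinuousLinearMap.proj (R := ℝ) (φ := fun _ : {i // s i} => ℝ) j).contDiff.comp
      contDiff_snd).smul ((hGts j).comp contDiff_fst)
  set x0 : E × ({i // s i} → ℝ) := (q0, 0) with hx0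
  let χ : ContDiffBump x0 := ⟨δ / 8, δ / 4, by positivity, by linarith⟩
  set F : E × ({i // s i} → ℝ) → E × ({i // s i} → ℝ) := fun x => χ x • W x with hF
  have hFs : ContDiff ℝ ∞ F := χ.contDiff.smul hWs
  have hFc : HasCompactSupport F := χ.hasCompactSupport.smul_right
  obtain ⟨K, hK⟩ := hFs.lipschitzWith_of_hasCompactSupport hFc (by simp)
  obtain ⟨Γ, hΓ, hΓ0, hΓadd, hΓd⟩ := flow_cpt F hFs hFc
  have hFW : ∀ x ∈ ball x0 (δ / 8), F =ᶠ[𝓝 x] W := by
    intro x hx
    filter_upwards [isOpen_ball.mem_nhds hx] with y hy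
    have : χ y = 1 := χ.one_of_mem_closedBall (ball_subset_closedBall hy)
    simp [hF, this]
  have hfst : ∀ x ∈ ball x0 (δ / 8), x.1 ∈ ball q0 (δ / 4) := by
    intro x hx
    have h1 : dist x.1 x0.1 ≤ dist x x0 := by rw [Prod.dist_eq]; exact le_max_left _ _
    have h2 : dist x x0 < δ / 8 := hx
    have h3 : dist x.1 x0.1 < δ / 4 := by linarith
    exact h3
  have hfix : ∀ q : E, ∀ t : ℝ, 0 ≤ t → Γ t (q, 0) = (q, 0) := by
    intro q t ht
    apply flow_fixed hK hΓ0 hΓd _ ht
    have : W (q, 0) = 0 := by simp [hW]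
    simp only [hF, this, smul_zero]
  have hΓc : Continuous (fun x : ℝ × (E × ({i // s i} → ℝ)) => Γ x.1 x.2) := hΓ.continuous
  -- tube
  have htube : ∀ᶠ x in 𝓝 x0, ∀ t ∈ Icc (0:ℝ) 1, Γ t x ∈ ball x0 (δ / 8) := by
    refine isCompact_Icc.eventually_forall_of_forall_eventually ?_
    intro t ht
    have h1 : Tendsto (fun z : (E × ({i // s i} → ℝ)) × ℝ => Γ z.2 z.1) (𝓝 (x0, t)) (𝓝 (Γ t x0)) :=
      (hΓc.comp (continuous_snd.prodMk continuous_fst)).tendsto (x0, t)
    rw [hfix q0 t ht.1] at h1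
    exact h1.eventually (isOpen_ball.mem_nhds (mem_ball_self (by positivity)))
  -- derivative of W
  have hWd : ∀ (y ζ : E × ({i // s i} → ℝ)), fderiv ℝ W y ζ =
      (∑ k, (ζ.2 k • Gt k y.1 + y.2 k • fderiv ℝ (Gt k) y.1 ζ.1), 0) := by
    intro y ζ
    have h1 : ∀ k ∈ Finset.univ, HasFDerivAt (fun x : E × ({i // s i} → ℝ) => x.2 k • Gt k x.1)
        (y.2 k • ((fderiv ℝ (Gt k) y.1).comp (ContinuousLinearMap.fst ℝ E ({i // s i} → ℝ))) +
        (((ContinuousLinearMap.proj (R := ℝ) (φ := fun _ : {i // s i} => ℝ) k).comp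
          (ContinuousLinearMap.snd ℝ E ({i // s i} → ℝ)))).smulRight (Gt k y.1)) y := by
      intro k _
      have a1 : HasFDerivAt (fun x : E × ({i // s i} → ℝ) => x.2 k)
          ((ContinuousLinearMap.proj (R := ℝ) (φ := fun _ : {i // s i} => ℝ) k).comp
          (ContinuousLinearMap.snd ℝ E ({i // s i} → ℝ))) y :=
        ((ContinuousLinearMap.proj (R := ℝ) (φ := fun _ : {i // s i} => ℝ) k).comp
          (ContinuousLinearMap.snd ℝ E ({i // s i} → ℝ))).hasFDerivAt
      have a2 : HasFDerivAt (fun x : E × ({i // s i} → ℝ) => Gt k x.1)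
          ((fderiv ℝ (Gt k) y.1).comp (ContinuousLinearMap.fst ℝ E ({i // s i} → ℝ))) y :=
        ((hGts k).differentiable inf_ne y.1).hasFDerivAt.comp y hasFDerivAt_fst
      exact a1.smul a2
    have h2 : HasFDerivAt W _ y := (HasFDerivAt.fun_sum h1).prodMk (hasFDerivAt_const (0 : ({i // s i} → ℝ)) y)
    rw [h2.fderiv]
    refine Prod.ext ?_ ?_
    · simp only [ContinuousLinearMap.prod_apply, ContinuousLinearMap.sum_apply,
        ContinuousLinearMap.add_apply, ContinuousLinearMap.smul_apply,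
        ContinuousLinearMap.comp_apply, ContinuousLinearMap.coe_fst',
        ContinuousLinearMap.smulRight_apply, ContinuousLinearMap.coe_snd',
        ContinuousLinearMap.proj_apply]
      exact Finset.sum_congr rfl fun k _ => add_comm _ _
    · simp
  -- the Jacobi fields
  have hJ : ∀ x, (∀ t ∈ Icc (0:ℝ) 1, Γ t x ∈ ball x0 (δ / 8)) → ∀ j : {i // s i},
      fderiv ℝ (Γ 1) x (0, Pi.single j 1) = (G j (Γ 1 x).1, Pi.single j 1) := by
    intro x hx j
    set ζ : E × ({i // s i} → ℝ) := (0, Pi.single j 1) with hζ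
    set c : ℝ → E × ({i // s i} → ℝ) := fun t => Γ t x with hcdef
    set J : ℝ → E × ({i // s i} → ℝ) := fun t => fderiv ℝ (Γ t) x ζ with hJdef
    set J' : ℝ → E × ({i // s i} → ℝ) := fun t => (t • Gt j (c t).1, Pi.single j 1) with hJ'def
    have hJd : ∀ t ∈ Icc (0:ℝ) 1, HasDerivAt J (fderiv ℝ W (c t) (J t)) t := by
      intro t ht
      have := flow_var hFs hΓ hΓd t x ζ
      rwa [(hFW _ (hx t ht)).fderiv_eq] at this
    have hJd' : ∀ t ∈ Icc (0:ℝ) 1, HasDerivAt J' (fderiv ℝ W (c t) (J' t)) t := by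
      intro t ht
      have h1 : HasDerivAt c (W (c t)) t := by
        have := hΓd x t
        rwa [(hFW _ (hx t ht)).self_of_nhds] at this
      have h2 : HasDerivAt (fun t => (c t).1) (W (c t)).1 t :=
        (ContinuousLinearMap.fst ℝ E ({i // s i} → ℝ)).hasFDerivAt.comp_hasDerivAt t h1
      have h3 : HasDerivAt (Gt j ∘ fun t => (c t).1) (fderiv ℝ (Gt j) (c t).1 (W (c t)).1) t :=
        HasFDerivAt.comp_hasDerivAt t ((hGts j).differentiable inf_ne _).hasFDerivAt h2
      have h4 : HasDerivAt (fun t => t • Gt j (c t).1) _ t := (hasDerivAt_id t).smul h3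
      have h5 : HasDerivAt J' _ t := h4.prodMk (hasDerivAt_const t (Pi.single j 1 : ({i // s i} → ℝ)))
      refine h5.congr_deriv ?_
      rw [hWd]
      refine Prod.ext ?_ rfl
      simp only [hJ'def, id, map_smul, one_smul]
      rw [Finset.sum_add_distrib]
      have h6 : ∑ k, (Pi.single j 1 : ({i // s i} → ℝ)) k • Gt k (c t).1 = Gt j (c t).1 := by
        simp [Pi.single_apply]
      rw [h6, add_comm]
      congr 1
      have h7 : (W (c t)).1 = ∑ k, (c t).2 k • Gt k (c t).1 := rfl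
      rw [h7, map_sum, Finset.smul_sum]
      refine Finset.sum_congr rfl fun k _ => ?_
      have hq := hfst _ (hx t ht)
      have h8 : lieBracket ℝ (Gt k) (Gt j) (c t).1 = 0 := by
        rw [Filter.EventuallyEq.lieBracket_vectorField_eq (hGte _ hq k) (hGte _ hq j)]
        exact hcomm _ (hsub14 hq) k j
      rw [VectorField.lieBracket, sub_eq_zero] at h8
      rw [map_smul, h8, smul_comm]
    have hcc : ContinuousOn (fun t => ‖fderiv ℝ W (c t)‖) (Icc (0:ℝ) 1) := by
      have h1 : Continuous c := hΓc.comp (continuous_id.prodMk continuous_const)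
      exact (((fderiv_smooth hWs).continuous.comp h1).norm).continuousOn
    obtain ⟨L, hL⟩ := isCompact_Icc.exists_bound_of_continuousOn hcc
    have h0 : J 0 - J' 0 = 0 := by
      have : Γ 0 = id := by funext y; exact hΓ0 y
      simp [hJdef, hJ'def, this, hζ]
    have hz := zero_fwd (D := fun t => J t - J' t) (D' := fun t => fderiv ℝ W (c t) (J t - J' t))
      (a := 0) (b := 1) (L := L) (fun t ht => by
        have := (hJd t ht).sub (hJd' t ht)
        rw [← map_sub] at this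
        exact this) (fun t ht => by
        have h1 := (fderiv ℝ W (c t)).le_opNorm (J t - J' t)
        have h2 := hL t ht
        rw [norm_norm] at h2
        exact h1.trans (mul_le_mul_of_nonneg_right h2 (norm_nonneg _))) h0 1 (by simp)
    have h1 : J 1 = J' 1 := sub_eq_zero.1 hz
    have hq1 := hfst _ (hx 1 (by simp))
    show J 1 = _
    rw [h1]
    simp only [hJ'def, one_smul]
    rw [(hGte _ hq1 j).self_of_nhds]
  -- the chart
  set ex : ({i // s i} → ℝ) × ({i // ¬ s i} → ℝ) → E × ({i // s i} → ℝ) := fun a => (q0 + ∑ l : {i // ¬ s i}, a.2 l • Y l q0, a.1) with hex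
  let exL : ({i // s i} → ℝ) × ({i // ¬ s i} → ℝ) →L[ℝ] E × ({i // s i} → ℝ) := (∑ l : {i // ¬ s i},
    ((ContinuousLinearMap.proj (R := ℝ) (φ := fun _ : {i // ¬ s i} => ℝ) l).comp
      (ContinuousLinearMap.snd ℝ ({i // s i} → ℝ) ({i // ¬ s i} → ℝ))).smulRight (Y l q0)).prod (ContinuousLinearMap.fst ℝ ({i // s i} → ℝ) ({i // ¬ s i} → ℝ))
  have hexL : ∀ a, ex a = (q0, 0) + exL a := by
    intro a
    refine Prod.ext ?_ ?_
    · simp [hex, exL, ContinuousLinearMap.sum_apply]
    · simp [hex, exL]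
  have hexd : ∀ a, HasFDerivAt ex exL a := by
    intro a
    have : ex = fun a => ((q0, 0) : E × ({i // s i} → ℝ)) + exL a := funext hexL
    rw [this]
    exact exL.hasFDerivAt.const_add _
  have hexs : ContDiff ℝ ∞ ex := by
    have : ex = fun a => ((q0, 0) : E × ({i // s i} → ℝ)) + exL a := funext hexL
    rw [this]
    exact contDiff_const.add exL.contDiff
  set H : ({i // s i} → ℝ) × ({i // ¬ s i} → ℝ) → E := fun a => (Γ 1 (ex a)).1 with hH
  have hΓ1s : ContDiff ℝ ∞ (Γ 1) := hΓ.comp (contDiff_const.prodMk contDiff_id)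
  have hHs : ContDiff ℝ ∞ H := (hΓ1s.comp hexs).fst
  have hHd : ∀ a ζ, fderiv ℝ H a ζ = (fderiv ℝ (Γ 1) (ex a) (exL ζ)).1 := by
    intro a ζ
    have h1 : HasFDerivAt H _ a :=
      ((hΓ1s.differentiable inf_ne (ex a)).hasFDerivAt.comp a (hexd a)).fst
    rw [h1.fderiv]; rfl
  set U : Set (({i // s i} → ℝ) × ({i // ¬ s i} → ℝ)) := {a | ∀ᶠ x in 𝓝 (ex a), ∀ t ∈ Icc (0:ℝ) 1, Γ t x ∈ ball x0 (δ / 8)} with hU
  have hUo : IsOpen U := (isOpen_setOf_eventually_nhds).preimage hexs.continuous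
  have hex0 : ex 0 = x0 := by simp [hex, hx0]
  have h0U : (0 : ({i // s i} → ℝ) × ({i // ¬ s i} → ℝ)) ∈ U := by
    show ∀ᶠ x in 𝓝 (ex 0), _
    rw [hex0]; exact htube
  have hHj : ∀ a ∈ U, ∀ j : {i // s i}, fderiv ℝ H a (Pi.single j 1, 0) = G j (H a) := by
    intro a ha j
    rw [hHd]
    have h1 : exL (Pi.single j 1, 0) = (0, Pi.single j 1) := by
      refine Prod.ext ?_ ?_
      · simp [exL, ContinuousLinearMap.sum_apply]
      · simp [exL]
    rw [h1, hJ (ex a) ha.self_of_nhds j]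
  have hH0 : H 0 = q0 := by
    simp only [hH, hex0, hx0, hfix q0 1 zero_le_one]
  -- derivative at zero
  have hD0 : ∀ ζ : ({i // s i} → ℝ) × ({i // ¬ s i} → ℝ), fderiv ℝ H 0 ζ = ∑ j, ζ.1 j • Y j q0 + ∑ l : {i // ¬ s i}, ζ.2 l • Y l q0 := by
    intro ζ
    have h1 : ζ = ∑ j, ζ.1 j • ((Pi.single j 1, 0) : ({i // s i} → ℝ) × ({i // ¬ s i} → ℝ)) + (0, ζ.2) := by
      refine Prod.ext ?_ ?_
      · funext k
        simp [Prod.fst_sum, Finset.sum_apply, Pi.single_apply]
      · simp [Prod.snd_sum]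
    conv_lhs => rw [h1]
    rw [map_add, map_sum]
    congr 1
    · refine Finset.sum_congr rfl fun j _ => ?_
      rw [map_smul, hHj 0 h0U j, hH0, hG0]
    · rw [hHd, hex0]
      have h2 : exL (0, ζ.2) = (∑ l : {i // ¬ s i}, ζ.2 l • Y l q0, 0) := by
        refine Prod.ext ?_ ?_
        · simp [exL, ContinuousLinearMap.sum_apply]
        · simp [exL]
      rw [h2]
      have h3 : HasFDerivAt (fun q : E => Γ 1 (q, 0)) ((fderiv ℝ (Γ 1) x0).comp
          (ContinuousLinearMap.inl ℝ E ({i // s i} → ℝ))) q0 :=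
        HasFDerivAt.comp (g := Γ 1) q0 (hΓ1s.differentiable inf_ne x0).hasFDerivAt
          (hasFDerivAt_prodMk_left q0 (0 : ({i // s i} → ℝ)))
      have h4 : (fun q : E => Γ 1 (q, 0)) = fun q => (q, (0 : ({i // s i} → ℝ))) := by
        funext q; exact hfix q 1 zero_le_one
      rw [h4] at h3
      have h5 := congrArg (fun L : E →L[ℝ] E × ({i // s i} → ℝ) => L (∑ l : {i // ¬ s i}, ζ.2 l • Y l q0))
        (h3.unique (hasFDerivAt_prodMk_left q0 (0 : ({i // s i} → ℝ))))
      simp only [ContinuousLinearMap.comp_apply, ContinuousLinearMap.inl_apply] at h5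
      rw [h5]
  have hinj : Function.Injective (fderiv ℝ H 0).toLinearMap := by
    rw [← LinearMap.ker_eq_bot, LinearMap.ker_eq_bot']
    intro ζ hζ
    have hζ' : fderiv ℝ H 0 ζ = 0 := hζ
    rw [hD0] at hζ'
    refine Prod.ext ?_ ?_
    · funext j
      have := congrArg (θ j q0) hζ'
      rw [map_add, map_sum, map_sum, map_zero] at this
      simp only [map_smul, smul_eq_mul, hd q0 hq0] at this
      have e1 : ∑ l : {i // ¬ s i}, ζ.2 l * (if (j : κ) = l then 1 else 0) = 0 :=
        Finset.sum_eq_zero fun l _ => by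
          rw [if_neg (fun h : (j : κ) = l => l.2 (h ▸ j.2)), mul_zero]
      rw [e1, add_zero] at this
      simp only [← Subtype.ext_iff] at this
      simpa using this
    · funext j
      have := congrArg (θ j q0) hζ'
      rw [map_add, map_sum, map_sum, map_zero] at this
      simp only [map_smul, smul_eq_mul, hd q0 hq0] at this
      have e1 : ∑ l : {i // s i}, ζ.1 l * (if (j : κ) = l then 1 else 0) = 0 :=
        Finset.sum_eq_zero fun l _ => by
          rw [if_neg (fun h : (j : κ) = l => j.2 (h.symm ▸ l.2)), mul_zero]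
      rw [e1, zero_add] at this
      simp only [← Subtype.ext_iff] at this
      simpa using this
  have hfin : Module.finrank ℝ (({i // s i} → ℝ) × ({i // ¬ s i} → ℝ)) = Module.finrank ℝ E := by
    rw [Module.finrank_prod, Module.finrank_fintype_fun_eq_card, Module.finrank_fintype_fun_eq_card,
      ← hc, Fintype.card_subtype_compl, ← Nat.add_sub_assoc (Fintype.card_subtype_le s)]
    omega
  let L0 : (({i // s i} → ℝ) × ({i // ¬ s i} → ℝ)) ≃ₗ[ℝ] E := LinearEquiv.ofInjectiveOfFinrankEq (fderiv ℝ H 0).toLinearMap hinj hfin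
  let L : (({i // s i} → ℝ) × ({i // ¬ s i} → ℝ)) ≃L[ℝ] E := L0.toContinuousLinearEquiv
  have hL : HasFDerivAt H (L : (({i // s i} → ℝ) × ({i // ¬ s i} → ℝ)) →L[ℝ] E) 0 := by
    have h1 := (hHs.differentiable inf_ne 0).hasFDerivAt
    have h2 : (L : (({i // s i} → ℝ) × ({i // ¬ s i} → ℝ)) →L[ℝ] E) = fderiv ℝ H 0 := by
      ext x <;> rfl
    rw [h2]; exact h1
  obtain ⟨h, hcoe, hsrc, h0s, hsymm, hinvd⟩ := local_inv H hUo hHs.contDiffOn h0U L hL
  have hq0t : q0 ∈ h.target := by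
    have := h.map_source h0s
    rwa [hcoe, hH0] at this
  have hmain : ∀ q ∈ h.target, ∃ L : (({i // s i} → ℝ) × ({i // ¬ s i} → ℝ)) →L[ℝ] E, HasFDerivAt H L (h.symm q) ∧
      (∀ v, L (fderiv ℝ h.symm q v) = v) ∧ (∀ ζ, fderiv ℝ h.symm q (L ζ) = ζ) := by
    intro q hq
    have hx := h.map_target hq
    obtain ⟨L, hL⟩ := hinvd _ hx
    have hsd : HasFDerivAt h.symm (fderiv ℝ h.symm q) q :=
      ((hsymm.contDiffAt (h.open_target.mem_nhds hq)).differentiableAt inf_ne).hasFDerivAt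
    have hHx : H (h.symm q) = q := by
      have := h.right_inv hq
      rwa [hcoe] at this
    refine ⟨L, hL, ?_, ?_⟩
    · have e1 : HasFDerivAt (H ∘ h.symm) ((L : (({i // s i} → ℝ) × ({i // ¬ s i} → ℝ)) →L[ℝ] E).comp (fderiv ℝ h.symm q)) q :=
        hL.comp q hsd
      have e2 : (H ∘ h.symm) =ᶠ[𝓝 q] id := by
        filter_upwards [h.open_target.mem_nhds hq] with y hy
        have := h.right_inv hy
        rwa [hcoe] at this
      intro v
      exact congrArg (fun L : E →L[ℝ] E => L v) (e1.unique ((hasFDerivAt_id q).congr_of_eventuallyEq e2))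
    · have hsd' : HasFDerivAt h.symm (fderiv ℝ h.symm q) (H (h.symm q)) := by rw [hHx]; exact hsd
      have e1 : HasFDerivAt (h.symm ∘ H) ((fderiv ℝ h.symm q).comp (L : (({i // s i} → ℝ) × ({i // ¬ s i} → ℝ)) →L[ℝ] E))
          (h.symm q) := hsd'.comp _ hL
      have e2 : (h.symm ∘ H) =ᶠ[𝓝 (h.symm q)] id := by
        filter_upwards [h.open_source.mem_nhds hx] with y hy
        have := h.left_inv hy
        rwa [hcoe] at this
      intro ζ
      exact congrArg (fun L : (({i // s i} → ℝ) × ({i // ¬ s i} → ℝ)) →L[ℝ] (({i // s i} → ℝ) × ({i // ¬ s i} → ℝ)) => L ζ)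
        (e1.unique ((hasFDerivAt_id _).congr_of_eventuallyEq e2))
  have hGj : ∀ q ∈ h.target, ∀ j : {i // s i}, fderiv ℝ h.symm q (G j q) = (Pi.single j 1, 0) := by
    intro q hq j
    obtain ⟨L, hL, hL1, hL2⟩ := hmain q hq
    have hx := h.map_target hq
    have h1 := hHj _ (hsrc hx) j
    have hHx : H (h.symm q) = q := by
      have := h.right_inv hq
      rwa [hcoe] at this
    rw [hL.fderiv, hHx] at h1
    rw [← h1, hL2]
  refine ⟨h.target ∩ V1, fun q hq => hV1 hq.2, h.open_target.inter hV1o, ⟨hq0t, hq01⟩,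
    fun q => (h.symm q).2, ?_, ?_, ?_⟩
  · exact (hsymm.mono inter_subset_left).snd
  · intro q hq i hi
    have hsd : HasFDerivAt h.symm (fderiv ℝ h.symm q) q :=
      ((hsymm.contDiffAt (h.open_target.mem_nhds hq.1)).differentiableAt inf_ne).hasFDerivAt
    rw [hsd.snd.fderiv]
    have h1 := hYG q hq.2 ⟨i, hi⟩
    have h2 : Submodule.span ℝ (range fun j => G j q) ≤ LinearMap.ker
        (((ContinuousLinearMap.snd ℝ ({i // s i} → ℝ) ({i // ¬ s i} → ℝ)).comp (fderiv ℝ h.symm q)).toLinearMap) := by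
      rw [Submodule.span_le]
      rintro _ ⟨j, rfl⟩
      show (fderiv ℝ h.symm q (G j q)).2 = 0
      rw [hGj q hq.1 j]
    exact h2 h1
  · intro q hq v hv l hl
    have hsd : HasFDerivAt h.symm (fderiv ℝ h.symm q) q :=
      ((hsymm.contDiffAt (h.open_target.mem_nhds hq.1)).differentiableAt inf_ne).hasFDerivAt
    rw [hsd.snd.fderiv] at hv
    have hv' : (fderiv ℝ h.symm q v).2 = 0 := hv
    obtain ⟨L, hL, hL1, hL2⟩ := hmain q hq.1
    have h1 : v = ∑ j, (fderiv ℝ h.symm q v).1 j • G j q := by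
      have h2 : fderiv ℝ h.symm q v = fderiv ℝ h.symm q (∑ j, (fderiv ℝ h.symm q v).1 j • G j q) := by
        rw [map_sum]
        simp only [map_smul, hGj q hq.1]
        refine Prod.ext ?_ ?_
        · funext k
          simp [Prod.fst_sum, Finset.sum_apply, Pi.single_apply]
        · rw [hv']
          simp [Prod.snd_sum]
      rw [← hL1 v]
      conv_lhs => rw [h2]
      rw [hL1, hL1]
    rw [h1, map_sum]
    refine Finset.sum_eq_zero fun j _ => ?_
    rw [map_smul]
    have h3 : Submodule.span ℝ (range fun j : {i // s i} => Y j q) ≤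
        LinearMap.ker (θ l q).toLinearMap := by
      rw [Submodule.span_le]
      rintro _ ⟨k, rfl⟩
      have h4 := hd q (hV1 hq.2) l k
      rw [if_neg (fun h : l = (k : κ) => hl (h.symm ▸ k.2))] at h4
      exact h4
    have h5 : θ l q (G j q) = 0 := h3 (hGY q hq.2 j)
    rw [h5, smul_zero]

end Pool.Agent.D0H81.SR
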