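import Pool.Agent.D0H81.SR.Frame
import Pool.Agent.D0H81.SR.Frob2

set_option autoImplicit false
set_option linter.unusedVariables false
set_option linter.deprecated false
set_option linter.unusedSectionVars false

open Set Metric Filter Topology
open scoped ContDiff NNReal Matrix

namespace Pool.Agent.D0H81.SR

open VectorField (lieBracket)

variable {E : Type} [NormedAddCommGroup E] [NormedSpace ℝ E] [FiniteDimensional ℝ E]
variable {A : Type} [NormedAddCommGroup A] [NormedSpace ℝ A] [FiniteDimensional ℝ A]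
variable {A' : Type} [NormedAddCommGroup A'] [NormedSpace ℝ A'] [FiniteDimensional ℝ A']

/-- product chart -/
structure Ch (W : Set E) (x : E → A) (y : E → A') (Ψ : A × A' → E) (U₁ : Set A) (U₂ : Set A') :
    Prop where
  hW : IsOpen W
  h1 : IsOpen U₁
  h2 : IsOpen U₂
  c1 : Convex ℝ U₁
  c2 : Convex ℝ U₂
  hx : ContDiffOn ℝ ∞ x W
  hy : ContDiffOn ℝ ∞ y W
  hΨ : ContDiffOn ℝ ∞ Ψ (U₁ ×ˢ U₂)
  mx : ∀ q ∈ W, x q ∈ U₁
  my : ∀ q ∈ W, y q ∈ U₂
  mΨ : ∀ a ∈ U₁, ∀ b ∈ U₂, Ψ (a, b) ∈ W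
  ex : ∀ a ∈ U₁, ∀ b ∈ U₂, x (Ψ (a, b)) = a
  ey : ∀ a ∈ U₁, ∀ b ∈ U₂, y (Ψ (a, b)) = b
  eΨ : ∀ q ∈ W, Ψ (x q, y q) = q

namespace Ch

variable {W : Set E} {x : E → A} {y : E → A'} {Ψ : A × A' → E} {U₁ : Set A} {U₂ : Set A'}
variable (h : Ch W x y Ψ U₁ U₂)

include h

lemma swap : Ch W y x (fun p => Ψ p.swap) U₂ U₁ where
  hW := h.hW
  h1 := h.h2
  h2 := h.h1
  c1 := h.c2
  c2 := h.c1
  hx := h.hy
  hy := h.hx
  hΨ := h.hΨ.comp (contDiff_snd.prodMk contDiff_fst).contDiffOn (fun p hp => ⟨hp.2, hp.1⟩)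
  mx := h.my
  my := h.mx
  mΨ := fun a ha b hb => h.mΨ b hb a ha
  ex := fun a ha b hb => h.ey b hb a ha
  ey := fun a ha b hb => h.ex b hb a ha
  eΨ := h.eΨ

lemma dx {q : E} (hq : q ∈ W) : HasFDerivAt x (fderiv ℝ x q) q :=
  ((h.hx.contDiffAt (h.hW.mem_nhds hq)).differentiableAt inf_ne).hasFDerivAt

lemma dy {q : E} (hq : q ∈ W) : HasFDerivAt y (fderiv ℝ y q) q :=
  ((h.hy.contDiffAt (h.hW.mem_nhds hq)).differentiableAt inf_ne).hasFDerivAt

lemma dΨ {a : A} (ha : a ∈ U₁) {b : A'} (hb : b ∈ U₂) :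
    HasFDerivAt Ψ (fderiv ℝ Ψ (a, b)) (a, b) :=
  ((h.hΨ.contDiffAt ((h.h1.prod h.h2).mem_nhds ⟨ha, hb⟩)).differentiableAt inf_ne).hasFDerivAt

lemma right {a : A} (ha : a ∈ U₁) {b : A'} (hb : b ∈ U₂) (v : A × A') :
    fderiv ℝ x (Ψ (a, b)) (fderiv ℝ Ψ (a, b) v) = v.1 ∧
    fderiv ℝ y (Ψ (a, b)) (fderiv ℝ Ψ (a, b) v) = v.2 := by
  have hm := h.mΨ a ha b hb
  have hn : U₁ ×ˢ U₂ ∈ 𝓝 (a, b) := (h.h1.prod h.h2).mem_nhds ⟨ha, hb⟩
  constructor
  · have e1 : HasFDerivAt (x ∘ Ψ) _ (a, b) := (h.dx hm).comp (a, b) (h.dΨ ha hb)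
    have e2 : (x ∘ Ψ) =ᶠ[𝓝 (a, b)] fun p => p.1 := by
      filter_upwards [hn] with p hp
      exact h.ex p.1 hp.1 p.2 hp.2
    have e3 : HasFDerivAt (fun p : A × A' => p.1) (ContinuousLinearMap.fst ℝ A A') (a, b) :=
      hasFDerivAt_fst
    exact congrArg (fun L : (A × A') →L[ℝ] A => L v) (e1.unique (e3.congr_of_eventuallyEq e2))
  · have e1 : HasFDerivAt (y ∘ Ψ) _ (a, b) := (h.dy hm).comp (a, b) (h.dΨ ha hb)
    have e2 : (y ∘ Ψ) =ᶠ[𝓝 (a, b)] fun p => p.2 := by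
      filter_upwards [hn] with p hp
      exact h.ey p.1 hp.1 p.2 hp.2
    have e3 : HasFDerivAt (fun p : A × A' => p.2) (ContinuousLinearMap.snd ℝ A A') (a, b) :=
      hasFDerivAt_snd
    exact congrArg (fun L : (A × A') →L[ℝ] A' => L v) (e1.unique (e3.congr_of_eventuallyEq e2))

lemma left {q : E} (hq : q ∈ W) (v : E) :
    fderiv ℝ Ψ (x q, y q) (fderiv ℝ x q v, fderiv ℝ y q v) = v := by
  have e0 : HasFDerivAt (fun q => (x q, y q)) _ q := (h.dx hq).prodMk (h.dy hq)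
  have e1 : HasFDerivAt (Ψ ∘ fun q => (x q, y q)) _ q :=
    HasFDerivAt.comp q (g := Ψ) (h.dΨ (h.mx q hq) (h.my q hq)) e0
  have e2 : (Ψ ∘ fun q => (x q, y q)) =ᶠ[𝓝 q] id := by
    filter_upwards [h.hW.mem_nhds hq] with p hp
    exact h.eΨ p hp
  exact congrArg (fun L : E →L[ℝ] E => L v)
    (e1.unique ((hasFDerivAt_id q).congr_of_eventuallyEq e2))

lemma inj {q : E} (hq : q ∈ W) {v : E} (h1 : fderiv ℝ x q v = 0) (h2 : fderiv ℝ y q v = 0) :
    v = 0 := by
  rw [← h.left hq v, h1, h2]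
  exact map_zero _

end Ch

variable {ι : Type} [Fintype ι] [DecidableEq ι] {D : Dat E ι} {lam : ι → ℝ} (c : Ctx D lam)

/-- derivative of `df(X)` in the direction of a field killed by `df` -/
lemma deriv_df {W : Set E} (hW : IsOpen W) {f : E → A} (hf : ContDiffOn ℝ ∞ f W) {X Z : E → E}
    (hX : ContDiff ℝ ∞ X) (hZ : ContDiff ℝ ∞ Z) {q : E} (hq : q ∈ W) (v : E) :
    fderiv ℝ (fun q => fderiv ℝ f q (Z q)) q v =
      fderiv ℝ (fderiv ℝ f) q v (Z q) + fderiv ℝ f q (fderiv ℝ Z q v) := by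
  have hfq : ContDiffAt ℝ ∞ f q := hf.contDiffAt (hW.mem_nhds hq)
  have hd : DifferentiableAt ℝ (fderiv ℝ f) q :=
    (hfq.fderiv_right (m := ∞) (by exact_mod_cast le_top)).differentiableAt inf_ne
  have a1 : HasFDerivAt (fun y => fderiv ℝ f y (Z y)) _ q :=
    hd.hasFDerivAt.clm_apply (hZ.differentiable inf_ne q).hasFDerivAt
  rw [a1.fderiv]
  simp only [ContinuousLinearMap.add_apply, ContinuousLinearMap.comp_apply,
    ContinuousLinearMap.flip_apply]
  rw [add_comm]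

lemma df_lie {W : Set E} (hW : IsOpen W) {f : E → A} (hf : ContDiffOn ℝ ∞ f W) {X Z : E → E}
    (hX : ContDiff ℝ ∞ X) (hZ : ContDiff ℝ ∞ Z) {q : E} (hq : q ∈ W) :
    fderiv ℝ f q (lieBracket ℝ X Z q) = fderiv ℝ (fun q => fderiv ℝ f q (Z q)) q (X q) -
      fderiv ℝ (fun q => fderiv ℝ f q (X q)) q (Z q) := by
  have hfq : ContDiffAt ℝ ∞ f q := hf.contDiffAt (hW.mem_nhds hq)
  have hsym : IsSymmSndFDerivAt ℝ f q := hfq.isSymmSndFDerivAt (by simpa using two_le_inf)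
  rw [deriv_df hW hf hX hZ hq, deriv_df hW hf hZ hX hq, VectorField.lieBracket, map_sub,
    hsym (X q) (Z q)]
  abel

/-- the cometric of a factor is killed by the letters of the other blocks -/
lemma cometric_killed {W : Set E} (hW : IsOpen W) (hWc : W ⊆ c.V) (B : ℝ → Prop) {f : E → A}
    (hf : ContDiffOn ℝ ∞ f W) (hk : ∀ j, ¬ B (lam j) → ∀ q ∈ W, fderiv ℝ f q (D.X j q) = 0)
    (η ζ : Co A) {j : ι} (hj : ¬ B (lam j)) {q : E} (hq : q ∈ W) :
    fderiv ℝ (fun q => ∑ i, η (fderiv ℝ f q (D.X i q)) * ζ (fderiv ℝ f q (D.X i q))) q (D.X j q) =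
      0 := by
  classical
  have hws : ∀ i, ContDiffOn ℝ ∞ (fun q => fderiv ℝ f q (D.X i q)) W := fun i =>
    (hf.fderiv_of_isOpen hW (by exact_mod_cast le_top)).clm_apply (D.hX i).contDiffOn
  have hwd : ∀ i, HasFDerivAt (fun q => fderiv ℝ f q (D.X i q))
      (fderiv ℝ (fun q => fderiv ℝ f q (D.X i q)) q) q := fun i =>
    (((hws i).contDiffAt (hW.mem_nhds hq)).differentiableAt inf_ne).hasFDerivAt
  set w : ι → A := fun i => fderiv ℝ f q (D.X i q) with hw
  set c' : ι → ι → ℝ := fun i l => if B (lam i) ∧ B (lam l) then c.C j i l q else 0 with hc'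
  have hanti : ∀ i l, c' i l + c' l i = 0 := by
    intro i l
    by_cases hi : B (lam i)
    · by_cases hl : B (lam l)
      · simp only [hc', hi, hl, and_self, if_true]
        by_cases hil : lam i = lam l
        · exact c.struct2 hil (fun h => hj (h ▸ hi)) q (hWc hq)
        · rw [c.struct1 (i := j) (j := i) (l := l) (fun h => hj (h ▸ hi)) (fun h => hj (h ▸ hl))
            (fun h => hil h.symm) q (hWc hq),
            c.struct1 (i := j) (j := l) (l := i) (fun h => hj (h ▸ hl)) (fun h => hj (h ▸ hi))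
            hil q (hWc hq), add_zero]
      · simp [hc', hl]
    · simp [hc', hi]
  have hDw : ∀ i, fderiv ℝ (fun q => fderiv ℝ f q (D.X i q)) q (D.X j q) = ∑ l, c' i l • w l := by
    intro i
    by_cases hi : B (lam i)
    · have hji : lam j ≠ lam i := fun h => hj (h ▸ hi)
      have h1 := df_lie hW hf (D.hX j) (D.hX i) hq
      have h2 : fderiv ℝ (fun q => fderiv ℝ f q (D.X j q)) q = 0 := by
        have : (fun q => fderiv ℝ f q (D.X j q)) =ᶠ[𝓝 q] fun _ => 0 := by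
          filter_upwards [hW.mem_nhds hq] with y hy
          exact hk j hj y hy
        rw [this.fderiv_eq]
        simp
      rw [h2, ContinuousLinearMap.zero_apply, sub_zero] at h1
      rw [← h1]
      have h3 := c.struct0 hji (hWc hq)
      rw [brk] at h3
      rw [h3, map_sum]
      refine Finset.sum_congr rfl fun l _ => ?_
      rw [map_smul]
      by_cases hl : B (lam l)
      · simp only [hc', hi, hl, and_self, if_true, hw]
      · rw [hk l hl q hq]
        simp [hw, hk l hl q hq]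
    · have h2 : fderiv ℝ (fun q => fderiv ℝ f q (D.X i q)) q = 0 := by
        have : (fun q => fderiv ℝ f q (D.X i q)) =ᶠ[𝓝 q] fun _ => 0 := by
          filter_upwards [hW.mem_nhds hq] with y hy
          exact hk i hi y hy
        rw [this.fderiv_eq]
        simp
      rw [h2, ContinuousLinearMap.zero_apply]
      symm
      refine Finset.sum_eq_zero fun l _ => ?_
      simp [hc', hi]
  have h1 : ∀ i ∈ Finset.univ, HasFDerivAt
      (fun q => η (fderiv ℝ f q (D.X i q)) * ζ (fderiv ℝ f q (D.X i q))) _ q := fun i _ =>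
    (η.hasFDerivAt.comp q (hwd i)).mul (ζ.hasFDerivAt.comp q (hwd i))
  have h2 := HasFDerivAt.fun_sum h1
  rw [h2.fderiv]
  simp only [ContinuousLinearMap.sum_apply, ContinuousLinearMap.add_apply,
    ContinuousLinearMap.smul_apply, ContinuousLinearMap.comp_apply, smul_eq_mul, hDw]
  simp only [Function.comp]
  simp only [map_sum, map_smul, smul_eq_mul, Finset.mul_sum]
  rw [Finset.sum_add_distrib]
  have h3 : ∑ i, ∑ l, η (w i) * (c' i l * ζ (w l)) = ∑ i, ∑ l, η (w l) * (c' l i * ζ (w i)) :=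
    Finset.sum_comm
  show ∑ i, ∑ l, η (w i) * (c' i l * ζ (w l)) + ∑ i, ∑ l, ζ (w i) * (c' i l * η (w l)) = 0
  rw [h3, ← Finset.sum_add_distrib]
  refine Finset.sum_eq_zero fun i _ => ?_
  rw [← Finset.sum_add_distrib]
  refine Finset.sum_eq_zero fun l _ => ?_
  have h4 := hanti i l
  have h5 : c' l i = - c' i l := by linarith
  rw [h5]
  ring

end Pool.Agent.D0H81.SR
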