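import Pool.Agent.D0H81.SR.Tcub

set_option autoImplicit false
set_option linter.unusedVariables false
set_option linter.deprecated false
set_option linter.unusedSectionVars false

open Set Metric Filter Topology
open scoped ContDiff NNReal Matrix

namespace Pool.Agent.D0H81.SR

variable {E : Type} [NormedAddCommGroup E] [NormedSpace ℝ E] [FiniteDimensional ℝ E]
variable {ι : Type} [Fintype ι] [DecidableEq ι]

/-- transition matrix -/
def Mx (S : ι → ι → E → ℝ) (q : E) : Matrix ι ι ℝ := Matrix.of fun i j => S i j q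

lemma Mx_mulVec (S : ι → ι → E → ℝ) (q : E) (v : ι → ℝ) : Mx S q *ᵥ v = MM S q v := rfl

/-- powers -/
def Pk (S : ι → ι → E → ℝ) (k : ℕ) (q : E) : ι → ι → ℝ := fun i j => (Mx S q ^ k) i j

lemma Pk_succ (S : ι → ι → E → ℝ) (k : ℕ) (q : E) (i j : ι) :
    Pk S (k + 1) q i j = ∑ l, Pk S k q i l * S l j q := by
  simp only [Pk, pow_succ, Matrix.mul_apply]
  rfl

lemma Pk_smooth_entry {S : ι → ι → E → ℝ} (hS : ∀ i j, ContDiff ℝ ∞ (S i j)) (k : ℕ) (i j : ι) :
    ContDiff ℝ ∞ (fun q => Pk S k q i j) := by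
  induction k generalizing j with
  | zero =>
    have : (fun q => Pk S 0 q i j) = fun _ => (1 : Matrix ι ι ℝ) i j := by
      funext q; simp [Pk]
    rw [this]; exact contDiff_const
  | succ k ih =>
    simp only [Pk_succ]
    exact ContDiff.sum fun l _ => (ih l).mul (hS l j)

lemma Pk_smooth {S : ι → ι → E → ℝ} (hS : ∀ i j, ContDiff ℝ ∞ (S i j)) (k : ℕ) :
    ContDiff ℝ ∞ (Pk S k) :=
  contDiff_pi.2 fun i => contDiff_pi.2 fun j => Pk_smooth_entry hS k i j

/-- pairing with two vectors -/
def Gk (S : ι → ι → E → ℝ) (x y : ι → ℝ) (k : ℕ) (q : E) : ℝ := ∑ l, (∑ i, x i * Pk S k q i l) * y l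

lemma Gk_smooth {S : ι → ι → E → ℝ} (hS : ∀ i j, ContDiff ℝ ∞ (S i j)) (x y : ι → ℝ) (k : ℕ) :
    ContDiff ℝ ∞ (Gk S x y k) :=
  ContDiff.sum fun l _ => (ContDiff.sum fun i _ =>
    contDiff_const.mul (Pk_smooth_entry hS k i l)).mul contDiff_const

namespace Dat

variable (D : Dat E ι)

lemma left_eig {q : E} (hq : q ∈ D.V) {x : ι → ℝ} {a : ℝ} (hx : MM D.S q x = a • x) (k : ℕ)
    (l : ι) : ∑ i, x i * Pk D.S k q i l = a ^ k * x l := by
  induction k generalizing l with
  | zero => simp [Pk, Matrix.one_apply]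
  | succ k ih =>
    simp only [Pk_succ, Finset.mul_sum]
    rw [Finset.sum_comm]
    have h1 : ∀ j, ∑ i, x i * (Pk D.S k q i j * D.S j l q) = (a ^ k * x j) * D.S j l q := by
      intro j
      rw [← ih j, Finset.sum_mul]
      refine Finset.sum_congr rfl fun i _ => ?_
      ring
    rw [Finset.sum_congr rfl fun j _ => h1 j]
    have h2 : ∑ j, a ^ k * x j * D.S j l q = a ^ k * MM D.S q x l := by
      rw [MM_apply, Finset.mul_sum]
      refine Finset.sum_congr rfl fun j _ => ?_
      rw [D.symm j l q hq]; ring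
    rw [h2, hx, Pi.smul_apply, smul_eq_mul]
    ring

lemma Gk_fderiv {q : E} (hq : q ∈ D.V) {x y : ι → ℝ} {a : ℝ} (hx : MM D.S q x = a • x)
    (hy : MM D.S q y = a • y) (V : E) (k : ℕ) :
    fderiv ℝ (Gk D.S x y k) q V = (k : ℝ) * a ^ (k - 1) * CC D.S q V x y := by
  induction k with
  | zero =>
    have : Gk D.S x y 0 = fun _ => ∑ l, (∑ i, x i * (1 : Matrix ι ι ℝ) i l) * y l := by
      funext q; simp [Gk, Pk]
    rw [this]
    simp
  | succ k ih =>
    have h1 : Gk D.S x y (k + 1) = fun q => ∑ l, (∑ i, x i * Pk D.S k q i l) *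
        (∑ j, D.S l j q * y j) := by
      funext q
      simp only [Gk, Pk_succ, Finset.mul_sum, Finset.sum_mul]
      rw [Finset.sum_comm]
      have : ∀ i, ∑ l, ∑ j, x i * (Pk D.S k q i j * D.S j l q) * y l =
          ∑ j, ∑ l, x i * Pk D.S k q i j * (D.S j l q * y l) := by
        intro i
        rw [Finset.sum_comm]
        refine Finset.sum_congr rfl fun j _ => Finset.sum_congr rfl fun l _ => ?_
        ring
      rw [Finset.sum_congr rfl fun i _ => this i, Finset.sum_comm]
      refine Finset.sum_congr rfl fun j _ => ?_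
      rw [Finset.sum_comm]
    have ha : ∀ l, HasFDerivAt (fun q => ∑ i, x i * Pk D.S k q i l)
        (fderiv ℝ (fun q => ∑ i, x i * Pk D.S k q i l) q) q := fun l =>
      ((ContDiff.sum fun i _ => contDiff_const.mul (Pk_smooth_entry D.hS k i l) :
        ContDiff ℝ ∞ (fun q => ∑ i, x i * Pk D.S k q i l)).differentiable inf_ne q).hasFDerivAt
    have hb : ∀ l, HasFDerivAt (fun q => ∑ j, D.S l j q * y j)
        (∑ j, y j • fderiv ℝ (D.S l j) q) q := by
      intro l
      have : ∀ j ∈ Finset.univ, HasFDerivAt (fun q => D.S l j q * y j)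
          (y j • fderiv ℝ (D.S l j) q) q := fun j _ =>
        ((D.hS l j).differentiable inf_ne q).hasFDerivAt.mul_const (y j)
      exact HasFDerivAt.fun_sum this
    have h2 : HasFDerivAt (Gk D.S x y (k + 1)) (∑ l, ((∑ i, x i * Pk D.S k q i l) •
        (∑ j, y j • fderiv ℝ (D.S l j) q) + (∑ j, D.S l j q * y j) •
          (fderiv ℝ (fun q => ∑ i, x i * Pk D.S k q i l) q))) q := by
      rw [h1]
      exact HasFDerivAt.fun_sum fun l _ => (ha l).mul (hb l)
    have h3 : HasFDerivAt (Gk D.S x y k) (∑ l, y l •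
          (fderiv ℝ (fun q => ∑ i, x i * Pk D.S k q i l) q)) q :=
      HasFDerivAt.fun_sum fun l _ => (ha l).mul_const (y l)
    rw [h3.fderiv] at ih
    rw [h2.fderiv]
    have h4 : ∀ l, ∑ j, D.S l j q * y j = a * y l := by
      intro l
      have := congrFun hy l
      simpa [MM_apply] using this
    simp only [D.left_eig hq hx, h4, Finset.sum_add_distrib]
    simp only [ContinuousLinearMap.add_apply, ContinuousLinearMap.sum_apply,
      ContinuousLinearMap.smul_apply, smul_eq_mul] at ih ⊢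
    have h5 : ∑ l, a * y l * (fderiv ℝ (fun q => ∑ i, x i * Pk D.S k q i l) q) V =
        a * ∑ l, y l * (fderiv ℝ (fun q => ∑ i, x i * Pk D.S k q i l) q) V := by
      rw [Finset.mul_sum]
      exact Finset.sum_congr rfl fun l _ => by ring
    rw [h5, ih]
    have h6 : ∑ l, a ^ k * x l * ∑ j, y j * (fderiv ℝ (D.S l j) q) V =
        a ^ k * CC D.S q V x y := by
      rw [CC_apply, Finset.mul_sum]
      refine Finset.sum_congr rfl fun l _ => ?_
      rw [Finset.mul_sum, Finset.mul_sum]
      exact Finset.sum_congr rfl fun j _ => by ring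
    rw [h6]
    rcases k with _ | k
    · simp
    · simp only [Nat.add_sub_cancel]
      push_cast
      ring

end Dat

end Pool.Agent.D0H81.SR
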