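import Pool.Agent.D0H81.SR.Const

set_option autoImplicit false
set_option linter.unusedVariables false
set_option linter.deprecated false
set_option linter.unusedSectionVars false

open Set Metric Filter Topology Polynomial
open scoped ContDiff NNReal Matrix

namespace Pool.Agent.D0H81.SR

variable {E : Type} [NormedAddCommGroup E] [NormedSpace ℝ E] [FiniteDimensional ℝ E]
variable {ι : Type} [Fintype ι] [DecidableEq ι]

lemma EB.aeval_eig {A : Matrix ι ι ℝ} {v : ι → ℝ} {a : ℝ} (h : A *ᵥ v = a • v) (F : ℝ[X]) :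
    (aeval A F) *ᵥ v = F.eval a • v := by
  induction F using Polynomial.induction_on' with
  | add p q hp hq => rw [map_add, Matrix.add_mulVec, hp, hq, eval_add, add_smul]
  | monomial n c =>
    rw [aeval_monomial, eval_monomial]
    have hpow : ∀ n : ℕ, (A ^ n) *ᵥ v = a ^ n • v := by
      intro n
      induction n with
      | zero => simp
      | succ n ih => rw [pow_succ, ← Matrix.mulVec_mulVec, h, Matrix.mulVec_smul, ih, smul_smul,
          pow_succ, mul_comm]
    rw [← Matrix.mulVec_mulVec, hpow, Matrix.mulVec_smul, Algebra.algebraMap_eq_smul_one,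
      Matrix.smul_mulVec, Matrix.one_mulVec, smul_smul, mul_comm]

lemma EB.aeval_zero {q : E} {S : ι → ι → E → ℝ} {e : ι → ι → ℝ} {μ : ι → ℝ}
    (h : EB (MM S q) e μ) {F : ℝ[X]} (hF : ∀ α, F.eval (μ α) = 0) : aeval (Mx S q) F = 0 := by
  apply Matrix.ext_of_mulVec_single
  intro i
  rw [Matrix.zero_mulVec]
  have h1 := h.exp (Pi.single i 1)
  rw [h1, Matrix.mulVec_sum]
  refine Finset.sum_eq_zero fun α _ => ?_
  have h2 : (Mx S q) *ᵥ e α = μ α • e α := h.eig α
  rw [Matrix.mulVec_smul, EB.aeval_eig h2, hF α, zero_smul, smul_zero]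

lemma aeval_entry (S : ι → ι → E → ℝ) (q : E) (F : ℝ[X]) (i j : ι) :
    (aeval (Mx S q) F) i j = ∑ k ∈ Finset.range (F.natDegree + 1), F.coeff k * Pk S k q i j := by
  rw [aeval_eq_sum_range, Matrix.sum_apply]
  rfl

namespace Dat

variable (D : Dat E ι)

theorem T3 (O : Set E) (hO : IsOpen O) (hOV : O ⊆ D.V) (hne : O.Nonempty) :
    ∃ q ∈ O, ∃ p0, (q, p0) ∈ Gset D.X D.V ∧ ∀ (e : ι → ι → ℝ) (μ : ι → ℝ), EB (MM D.S q) e μ →
      ∀ α (V : E), ∃ κ : ℝ, ∀ x y, MM D.S q x = μ α • x → MM D.S q y = μ α • y →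
        CC D.S q V x y = κ * (x ⬝ᵥ y) := by
  set rk : E → ℕ := fun q => Module.finrank ℝ
    (Submodule.span ℝ (range fun k : ℕ => Pk D.S k q)) with hrk
  obtain ⟨q1, hq1, hmax⟩ : ∃ q1 ∈ O, ∀ q ∈ O, rk q ≤ rk q1 := by
    have hbdd : BddAbove (rk '' O) := ⟨Module.finrank ℝ (ι → ι → ℝ), by
      rintro _ ⟨w, _, rfl⟩
      exact Submodule.finrank_le _⟩
    obtain ⟨w0, hw0, hw0'⟩ := Nat.sSup_mem (hne.image rk) hbdd
    refine ⟨w0, hw0, fun w hw => ?_⟩
    have h1 := le_csSup hbdd (mem_image_of_mem rk hw)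
    rw [← hw0'] at h1
    exact h1
  obtain ⟨r, a, ha1, ha2⟩ := exists_sub_basis (fun k : ℕ => Pk D.S k q1)
  have hr : rk q1 = r := by
    have := finrank_span_eq_card ha1
    rw [ha2, Fintype.card_fin] at this
    exact this
  obtain ⟨O', hO'1, hO'o, hq1', φ, hφs, hφd⟩ := exists_smooth_dual (fun i q => Pk D.S (a i) q) O hO
    q1 hq1 (fun i => (Pk_smooth D.hS (a i)).contDiffOn) ha1
  have := D.ne
  obtain ⟨⟨q, p0⟩, hqO, hqG⟩ := ample_dense D.X D.hX D.V D.hV D.hLI D.hgen {z | z.1 ∈ O'}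
    (hO'o.preimage continuous_fst) (fun z hz => hOV (hO'1 hz)) ⟨(q1, 0), hq1'⟩
  have hqO' : q ∈ O' := hqO
  have hspan : ∀ y ∈ O', ∀ k, Pk D.S k y ∈ Submodule.span ℝ (range fun i => Pk D.S (a i) y) := by
    intro z hz k
    have h1 : LinearIndependent ℝ (fun i => Pk D.S (a i) z) :=
      indep_of_dual (v := fun i => Pk D.S (a i) z) (fun i j => hφd z hz i j)
    have h2 : Submodule.span ℝ (range fun i => Pk D.S (a i) z) =
        Submodule.span ℝ (range fun k : ℕ => Pk D.S k z) := by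
      apply Submodule.eq_of_le_of_finrank_le
      · apply Submodule.span_mono
        rintro _ ⟨i, rfl⟩
        exact ⟨a i, rfl⟩
      · rw [finrank_span_eq_card h1, Fintype.card_fin, ← hr]
        exact hmax z (hO'1 hz)
    rw [h2]
    exact Submodule.subset_span ⟨k, rfl⟩
  refine ⟨q, hO'1 hqO', p0, hqG, fun e μ h α V => ?_⟩
  have hqV : q ∈ D.V := hqG.1
  set Λ : Finset ℝ := Finset.univ.image μ with hΛ
  set F : ℝ[X] := Lagrange.nodal Λ id with hF
  have hμΛ : ∀ β, μ β ∈ Λ := fun β => Finset.mem_image_of_mem _ (Finset.mem_univ β)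
  have hF0 : ∀ β, F.eval (μ β) = 0 := fun β => Lagrange.eval_nodal_at_node (v := id) (hμΛ β)
  have hF1 : (derivative F).eval (μ α) ≠ 0 := by
    have h1 := Lagrange.eval_nodal_derivative_eval_node_eq (v := (id : ℝ → ℝ)) (hμΛ α)
    simp only [id] at h1
    rw [hF, h1, Lagrange.eval_nodal, Finset.prod_ne_zero_iff]
    intro j hj
    rw [id, sub_ne_zero]
    exact (Finset.ne_of_mem_erase hj).symm
  set N := F.natDegree + 1 with hN
  set w : E → (ι → ι → ℝ) := fun q => ∑ k ∈ Finset.range N, F.coeff k • Pk D.S k q with hw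
  have hwe : ∀ y, w y = fun i j => (aeval (Mx D.S y) F) i j := by
    intro y
    funext i j
    rw [aeval_entry, hw]
    simp [Finset.sum_apply, hN]
  have hwq : w q = 0 := by
    rw [hwe, h.aeval_zero hF0]; rfl
  have hws : ContDiff ℝ ∞ w := ContDiff.sum fun k _ =>
    (Pk_smooth D.hS k).const_smul (F.coeff k)
  have hwspan : ∀ y ∈ O', w y = ∑ i, φ i y (w y) • Pk D.S (a i) y := by
    intro y hy
    apply expand_of_dual (v := fun i => Pk D.S (a i) y) (fun i j => hφd y hy i j)
    exact Submodule.sum_mem _ fun k _ => Submodule.smul_mem _ _ (hspan y hy k)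
  have hC : ∀ i, ∃ c' : E →L[ℝ] ℝ, HasFDerivAt (fun y => φ i y (w y)) c' q := fun i =>
    ⟨_, (((hφs i).contDiffAt (hO'o.mem_nhds hqO')).differentiableAt inf_ne).hasFDerivAt.clm_apply
      (hws.differentiable inf_ne q).hasFDerivAt⟩
  choose c' hc' using hC
  refine ⟨(∑ i, c' i V * μ α ^ (a i)) / (derivative F).eval (μ α), fun x y hx hy => ?_⟩
  have hG : ∀ k, HasFDerivAt (Gk D.S x y k) (fderiv ℝ (Gk D.S x y k) q) q := fun k =>
    ((Gk_smooth D.hS x y k).differentiable inf_ne q).hasFDerivAt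
  -- left side
  have hL : HasFDerivAt (fun y' => ∑ k ∈ Finset.range N, F.coeff k * Gk D.S x y k y')
      (∑ k ∈ Finset.range N, F.coeff k • fderiv ℝ (Gk D.S x y k) q) q :=
    HasFDerivAt.fun_sum fun k _ => (hG k).const_mul (F.coeff k)
  have hR : HasFDerivAt (fun y' => ∑ i, φ i y' (w y') * Gk D.S x y (a i) y')
      (∑ i, (φ i q (w q) • fderiv ℝ (Gk D.S x y (a i)) q + Gk D.S x y (a i) q • c' i)) q :=
    HasFDerivAt.fun_sum fun i _ => (hc' i).mul (hG (a i))
  have hLR : (fun y' => ∑ k ∈ Finset.range N, F.coeff k * Gk D.S x y k y') =ᶠ[𝓝 q]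
      (fun y' => ∑ i, φ i y' (w y') * Gk D.S x y (a i) y') := by
    filter_upwards [hO'o.mem_nhds hqO'] with y' hy'
    have h1 := hwspan y' hy'
    let L : (ι → ι → ℝ) →ₗ[ℝ] ℝ :=
      { toFun := fun A => ∑ l, (∑ i, x i * A i l) * y l
        map_add' := fun A B => by simp [mul_add, add_mul, Finset.sum_add_distrib]
        map_smul' := fun c A => by
          simp only [Pi.smul_apply, smul_eq_mul, Finset.mul_sum, Finset.sum_mul, RingHom.id_apply]
          refine Finset.sum_congr rfl fun l _ => Finset.sum_congr rfl fun i _ => ?_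
          ring }
    have hlin : ∀ {κ' : Type} (s : Finset κ') (c : κ' → ℝ) (A : κ' → (ι → ι → ℝ)),
        L (∑ k ∈ s, c k • A k) = ∑ k ∈ s, c k * L (A k) := by
      intro κ' s c A
      rw [map_sum]
      simp only [map_smul, smul_eq_mul]
    have h3 := hlin (Finset.range N) F.coeff (fun k => Pk D.S k y')
    have h4 := hlin Finset.univ (fun i => φ i y' (w y')) (fun i => Pk D.S (a i) y')
    rw [← h1] at h4
    exact (h3.symm.trans h4)
  have h1 := congrArg (fun L : E →L[ℝ] ℝ => L V) (hL.unique (hR.congr_of_eventuallyEq hLR))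
  simp only [ContinuousLinearMap.add_apply, ContinuousLinearMap.sum_apply,
      ContinuousLinearMap.smul_apply, smul_eq_mul, hwq, map_zero, zero_mul, zero_add,
      D.Gk_fderiv hqV hx hy] at h1
  have h2 : ∑ k ∈ Finset.range N, F.coeff k * (k * μ α ^ (k - 1) * CC D.S q V x y) =
      (derivative F).eval (μ α) * CC D.S q V x y := by
    rw [derivative_eval, sum_over_range _ (by simp), Finset.sum_mul]
    exact Finset.sum_congr rfl fun k _ => by ring
  have h3 : ∀ k, Gk D.S x y k q = μ α ^ k * (x ⬝ᵥ y) := by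
    intro k
    unfold Gk
    simp only [D.left_eig hqV hx, dotProduct, Finset.mul_sum]
    exact Finset.sum_congr rfl fun l _ => by ring
  rw [h2] at h1
  simp only [h3] at h1
  rw [div_mul_eq_mul_div, eq_div_iff hF1, mul_comm, h1, Finset.sum_mul]
  exact Finset.sum_congr rfl fun i _ => by ring

end Dat

end Pool.Agent.D0H81.SR
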