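import Pool.Agent.D0H81.SR.Const2

set_option autoImplicit false
set_option linter.unusedVariables false
set_option linter.deprecated false
set_option linter.unusedSectionVars false

open Set Metric Filter Topology Polynomial
open scoped ContDiff NNReal Matrix

namespace Pool.Agent.D0H81.SR

variable {E : Type} [NormedAddCommGroup E] [NormedSpace ℝ E] [FiniteDimensional ℝ E]
variable {ι : Type} [Fintype ι]

/-- a function killed by the letters is killed by the iterated brackets -/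
lemma kill_words {F : Type} [NormedAddCommGroup F] [NormedSpace ℝ F] {X : ι → E → E}
    (hX : ∀ i, ContDiff ℝ ∞ (X i)) {s : Set ι} {V : Set E} (hV : IsOpen V) {f : E → F}
    (hf : ContDiffOn ℝ ∞ f V) (h : ∀ i ∈ s, ∀ q ∈ V, fderiv ℝ f q (X i q) = 0) {Y : E → E}
    (hY : Word X s Y) : ∀ q ∈ V, fderiv ℝ f q (Y q) = 0 := by
  induction hY with
  | letter i hi => exact h i hi
  | br i hi Z hZ ih =>
    intro q hq
    have hfq : ContDiffAt ℝ ∞ f q := hf.contDiffAt (hV.mem_nhds hq)
    have hsym : IsSymmSndFDerivAt ℝ f q := hfq.isSymmSndFDerivAt (by simpa using two_le_inf)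
    have hd : DifferentiableAt ℝ (fderiv ℝ f) q :=
      (hfq.fderiv_right (m := ∞) (by exact_mod_cast le_top)).differentiableAt inf_ne
    have key : ∀ (W : E → E) (v : E), ContDiff ℝ ∞ W → (∀ q ∈ V, fderiv ℝ f q (W q) = 0) →
        fderiv ℝ (fderiv ℝ f) q v (W q) + fderiv ℝ f q (fderiv ℝ W q v) = 0 := by
      intro W v hW hW0
      have a1 : HasFDerivAt (fun y => fderiv ℝ f y (W y)) _ q :=
        hd.hasFDerivAt.clm_apply (hW.differentiable inf_ne q).hasFDerivAt
      have a2 : (fun y => fderiv ℝ f y (W y)) =ᶠ[𝓝 q] fun _ => 0 := by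
        filter_upwards [hV.mem_nhds hq] with y hy
        exact hW0 y hy
      have a3 := congrArg (fun L : E →L[ℝ] F => L v)
        (a1.unique ((hasFDerivAt_const (0:F) q).congr_of_eventuallyEq a2))
      simp only [ContinuousLinearMap.add_apply, ContinuousLinearMap.comp_apply,
        ContinuousLinearMap.flip_apply, ContinuousLinearMap.zero_apply] at a3
      rw [add_comm]; exact a3
    have k1 := key Z (X i q) (word_smooth hX hZ) ih
    have k2 := key (X i) (Z q) (hX i) (h i hi)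
    rw [VectorField.lieBracket, map_sub]
    rw [hsym (X i q) (Z q)] at k1
    have k3 := eq_neg_of_add_eq_zero_right k1
    have k4 := eq_neg_of_add_eq_zero_right k2
    rw [k3, k4, sub_self]

variable [DecidableEq ι]

noncomputable def tau (S : ι → ι → E → ℝ) (k : ℕ) (q : E) : ℝ := ∑ j, Pk S k q j j

lemma tau_smooth {S : ι → ι → E → ℝ} (hS : ∀ i j, ContDiff ℝ ∞ (S i j)) (k : ℕ) :
    ContDiff ℝ ∞ (tau S k) := ContDiff.sum fun j _ => Pk_smooth_entry hS k j j

lemma tau_trace (S : ι → ι → E → ℝ) (k : ℕ) (q : E) : tau S k q = (Mx S q ^ k).trace := rfl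

lemma EB.complete {M : (ι → ℝ) →ₗ[ℝ] (ι → ℝ)} {e : ι → ι → ℝ} {μ : ι → ℝ} (h : EB M e μ)
    (i l : ι) : ∑ α, e α i * e α l = if i = l then 1 else 0 := by
  have h1 := congrFun (h.exp (Pi.single l 1)) i
  simp only [dotProduct_single, mul_one, Finset.sum_apply, Pi.smul_apply, smul_eq_mul,
    Pi.single_apply] at h1
  rw [h1]
  exact Finset.sum_congr rfl fun α _ => mul_comm _ _

lemma EB.tau_eq {M : (ι → ℝ) →ₗ[ℝ] (ι → ℝ)} {e : ι → ι → ℝ} {μ : ι → ℝ} (h : EB M e μ)
    (S : ι → ι → E → ℝ) (k : ℕ) (q : E) : tau S k q = ∑ α, Gk S (e α) (e α) k q := by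
  unfold Gk tau
  simp only [Finset.sum_mul]
  rw [Finset.sum_comm]
  have h1 : ∀ l, ∑ α, ∑ i, e α i * Pk S k q i l * e α l = Pk S k q l l := by
    intro l
    rw [Finset.sum_comm]
    have h2 : ∀ i, ∑ α, e α i * Pk S k q i l * e α l = (if i = l then 1 else 0) * Pk S k q i l := by
      intro i
      rw [← h.complete i l, Finset.sum_mul]
      exact Finset.sum_congr rfl fun α _ => by ring
    rw [Finset.sum_congr rfl fun i _ => h2 i]
    simp
  exact (Finset.sum_congr rfl fun l _ => h1 l).symm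

namespace Dat

variable (D : Dat E ι)

lemma tau_deriv (k : ℕ) (i : ι) (q : E) (hq : q ∈ D.V) :
    fderiv ℝ (tau D.S k) q (D.X i q) = 0 := by
  by_contra hne
  set f : E → ℝ := fun q => fderiv ℝ (tau D.S k) q (D.X i q) with hf
  have hfc : Continuous f :=
    ((fderiv_smooth (tau_smooth D.hS k)).clm_apply (D.hX i)).continuous
  obtain ⟨y, hyO, p0, hG, hκ⟩ := D.T3 (D.V ∩ {q | f q ≠ 0})
    (D.hV.inter (isOpen_ne_fun hfc continuous_const)) inter_subset_left ⟨q, hq, hne⟩
  obtain ⟨e, μ, h⟩ := D.exists_EB hyO.1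
  apply hyO.2
  -- T4
  have hT4 : ∀ α (v : ι → ℝ), CC D.S y (XX D.X y v) (e α) (e α) = 0 := by
    intro α v
    set v1 := Pr e μ (μ α) v with hv1
    have hv : v = v1 + (v - v1) := by abel
    have h2 := D.T2 hG h (x := e α) (y := v - v1) (a := μ α) (h.eig α)
      (fun β hβ => h.dot_sub_Pr (μ α) v β hβ)
    have hM1 : MM D.S y v1 = μ α • v1 := h.M_Pr (μ α) v
    obtain ⟨κ, hκ'⟩ := hκ e μ h α (XX D.X y v1)
    have h3 := D.T1 hG hM1
    rw [hκ' v1 v1 hM1 hM1] at h3
    rw [hv, map_add, CC_add, h2, add_zero, hκ' _ _ (h.eig α) (h.eig α)]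
    rcases mul_eq_zero.1 h3 with h4 | h4
    · rw [h4, zero_mul]
    · have h5 : v1 = 0 := dotProduct_self_eq_zero.1 h4
      have h6 := hκ' (e α) (e α) (h.eig α) (h.eig α)
      rw [h5, map_zero] at h6
      rw [← h6]
      simp [CC_apply]
  have hX : D.X i y = XX D.X y (Pi.single i 1) := by
    simp [XX_apply, Pi.single_apply]
  show fderiv ℝ (tau D.S k) y (D.X i y) = 0
  have h1 : tau D.S k = fun q => ∑ α, Gk D.S (e α) (e α) k q := by
    funext q; exact h.tau_eq D.S k q
  have h2 : HasFDerivAt (tau D.S k) (∑ α, fderiv ℝ (Gk D.S (e α) (e α) k) y) y := by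
    rw [h1]
    exact HasFDerivAt.fun_sum fun α _ => ((Gk_smooth D.hS _ _ k).differentiable inf_ne y).hasFDerivAt
  rw [h2.fderiv, ContinuousLinearMap.sum_apply]
  refine Finset.sum_eq_zero fun α _ => ?_
  rw [D.Gk_fderiv hyO.1 (h.eig α) (h.eig α), hX, hT4, mul_zero]

lemma tau_fderiv (k : ℕ) (q : E) (hq : q ∈ D.V) : fderiv ℝ (tau D.S k) q = 0 := by
  have h1 : Submodule.span ℝ {v | ∃ Y, Word D.X univ Y ∧ v = Y q} ≤
      LinearMap.ker (fderiv ℝ (tau D.S k) q).toLinearMap := by
    rw [Submodule.span_le]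
    rintro _ ⟨Y, hY, rfl⟩
    exact kill_words D.hX D.hV (tau_smooth D.hS k).contDiffOn
      (fun i _ q hq => D.tau_deriv k i q hq) hY q hq
  rw [D.hgen q hq] at h1
  ext w
  exact h1 (Submodule.mem_top (x := w))

lemma tau_const (hc : IsPreconnected D.V) (k : ℕ) {q q0 : E} (hq : q ∈ D.V) (hq0 : q0 ∈ D.V) :
    tau D.S k q = tau D.S k q0 :=
  D.hV.is_const_of_fderiv_eq_zero hc
    ((tau_smooth D.hS k).differentiable inf_ne).differentiableOn
    (fun y hy => D.tau_fderiv k y hy) hq hq0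

lemma trace_aeval (hc : IsPreconnected D.V) (F : ℝ[X]) {q q0 : E} (hq : q ∈ D.V)
    (hq0 : q0 ∈ D.V) : (aeval (Mx D.S q) F).trace = (aeval (Mx D.S q0) F).trace := by
  rw [aeval_eq_sum_range, aeval_eq_sum_range, Matrix.trace_sum, Matrix.trace_sum]
  refine Finset.sum_congr rfl fun k _ => ?_
  rw [Matrix.trace_smul, Matrix.trace_smul, ← tau_trace, ← tau_trace, D.tau_const hc k hq hq0]

lemma Mx_pow_symm {q : E} (hq : q ∈ D.V) (k : ℕ) :
    (Mx D.S q ^ k).transpose = Mx D.S q ^ k := by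
  have h1 : (Mx D.S q).transpose = Mx D.S q := by
    ext i j
    exact D.symm j i q hq
  rw [Matrix.transpose_pow, h1]

lemma aeval_symm {q : E} (hq : q ∈ D.V) (F : ℝ[X]) :
    (aeval (Mx D.S q) F).transpose = aeval (Mx D.S q) F := by
  rw [aeval_eq_sum_range, Matrix.transpose_sum]
  refine Finset.sum_congr rfl fun k _ => ?_
  rw [Matrix.transpose_smul, D.Mx_pow_symm hq]

/-- the polynomial annihilating the transition matrix at `q0` annihilates it everywhere -/
theorem aeval_const (hc : IsPreconnected D.V) {F : ℝ[X]} {q q0 : E} (hq : q ∈ D.V)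
    (hq0 : q0 ∈ D.V) (h0 : aeval (Mx D.S q0) F = 0) : aeval (Mx D.S q) F = 0 := by
  have h1 := D.trace_aeval hc (F * F) hq hq0
  rw [map_mul, map_mul, h0, zero_mul, Matrix.trace_zero] at h1
  set N := aeval (Mx D.S q) F with hN
  have hNs : N.transpose = N := D.aeval_symm hq F
  have h2 : (N * N).trace = ∑ i, ∑ j, N i j ^ 2 := by
    simp only [Matrix.trace, Matrix.diag_apply, Matrix.mul_apply]
    refine Finset.sum_congr rfl fun i _ => Finset.sum_congr rfl fun j _ => ?_
    have : N j i = N i j := congrFun (congrFun hNs i) j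
    rw [this]; ring
  rw [h2] at h1
  rw [Finset.sum_eq_zero_iff_of_nonneg (fun i _ => Finset.sum_nonneg fun j _ => sq_nonneg _)] at h1
  ext i j
  have h3 := h1 i (Finset.mem_univ i)
  rw [Finset.sum_eq_zero_iff_of_nonneg (fun j _ => sq_nonneg _)] at h3
  exact pow_eq_zero_iff two_ne_zero |>.1 (h3 j (Finset.mem_univ j))

end Dat

end Pool.Agent.D0H81.SR
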