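import Pool.Agent.D0H81.SR.Ham

set_option autoImplicit false
set_option linter.unusedVariables false
set_option linter.deprecated false
set_option linter.unusedSectionVars false

open Set Metric Filter Topology
open scoped ContDiff NNReal

namespace Pool.Agent.D0H81.SR

/-- iterated brackets of the letters `X i`, `i ∈ s` -/
inductive Word {E : Type} [NormedAddCommGroup E] [NormedSpace ℝ E] {ι : Type} (X : ι → E → E)
    (s : Set ι) : (E → E) → Prop
  | letter (i : ι) (hi : i ∈ s) : Word X s (X i)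
  | br (i : ι) (hi : i ∈ s) (Z : E → E) (hZ : Word X s Z) :
      Word X s (VectorField.lieBracket ℝ (X i) Z)

section flow

variable {T : Type} [NormedAddCommGroup T] [NormedSpace ℝ T]

/-- variational equation -/
lemma flow_var {F : T → T} (hF : ContDiff ℝ ∞ F) {G : ℝ → T → T}
    (hG : ContDiff ℝ ∞ (fun q : ℝ × T => G q.1 q.2))
    (hd : ∀ p t, HasDerivAt (fun t => G t p) (F (G t p)) t) (t : ℝ) (x ζ : T) :
    HasDerivAt (fun s => fderiv ℝ (G s) x ζ) (fderiv ℝ F (G t x) (fderiv ℝ (G t) x ζ)) t := by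
  set Γ : ℝ × T → T := fun q => G q.1 q.2 with hΓ
  have h1 : ∀ s y, HasFDerivAt (G s) ((fderiv ℝ Γ (s, y)).comp (ContinuousLinearMap.inr ℝ ℝ T)) y := by
    intro s y
    have := ((hG.differentiable inf_ne (s, y)).hasFDerivAt)
    exact HasFDerivAt.comp (g := Γ) y this (hasFDerivAt_prodMk_right s y)
  have h2 : ∀ s y, fderiv ℝ Γ (s, y) (1, 0) = F (G s y) := by
    intro s y
    have h3 : HasFDerivAt Γ (fderiv ℝ Γ (s, y)) (s, y) :=
      ((hG.differentiable inf_ne (s, y)).hasFDerivAt)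
    have h4 : HasDerivAt (fun s => (s, y)) ((1 : ℝ), (0 : T)) s :=
      (hasDerivAt_id s).prodMk (hasDerivAt_const s y)
    have h5 : HasDerivAt (Γ ∘ fun s => (s, y)) (fderiv ℝ Γ (s, y) (1, 0)) s :=
      HasFDerivAt.comp_hasDerivAt s h3 h4
    exact h5.unique (hd y s)
  have hs : IsSymmSndFDerivAt ℝ Γ (t, x) :=
    hG.contDiffAt.isSymmSndFDerivAt (by simpa using two_le_inf)
  have h6 : HasFDerivAt (fderiv ℝ Γ) (fderiv ℝ (fderiv ℝ Γ) (t, x)) (t, x) :=
    ((fderiv_smooth hG).differentiable inf_ne _).hasFDerivAt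
  have h7 : HasDerivAt (fun s => (s, x)) ((1 : ℝ), (0 : T)) t :=
    (hasDerivAt_id t).prodMk (hasDerivAt_const t x)
  have h8 : HasDerivAt (fun s => fderiv ℝ Γ (s, x)) (fderiv ℝ (fderiv ℝ Γ) (t, x) (1, 0)) t :=
    h6.comp_hasDerivAt t h7
  have h9 : HasDerivAt (fun s => fderiv ℝ Γ (s, x) (0, ζ))
      (fderiv ℝ (fderiv ℝ Γ) (t, x) (1, 0) (0, ζ)) t := by
    have := h8.clm_apply (hasDerivAt_const t ((0 : ℝ), ζ))
    simpa using this
  have h10 : (fun s => fderiv ℝ (G s) x ζ) = fun s => fderiv ℝ Γ (s, x) (0, ζ) := by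
    funext s
    rw [(h1 s x).fderiv]
    simp
  rw [h10]
  refine h9.congr_deriv ?_
  rw [hs (1, 0) (0, ζ)]
  -- derivative of `y ↦ fderiv Γ (t,y) (1,0)` in direction ζ
  have h11 : HasFDerivAt (fun y => fderiv ℝ Γ (t, y))
      ((fderiv ℝ (fderiv ℝ Γ) (t, x)).comp (ContinuousLinearMap.inr ℝ ℝ T)) x :=
    HasFDerivAt.comp (g := fderiv ℝ Γ) x h6 (hasFDerivAt_prodMk_right t x)
  have h12 : HasFDerivAt (fun y => fderiv ℝ Γ (t, y) (1, 0)) _ x :=
    h11.clm_apply (hasFDerivAt_const ((1 : ℝ), (0 : T)) x)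
  have h13 : (fun y => fderiv ℝ Γ (t, y) (1, 0)) = fun y => F (G t y) := by
    funext y; exact h2 t y
  rw [h13] at h12
  have h14 : HasFDerivAt (fun y => F (G t y))
      ((fderiv ℝ F (G t x)).comp (fderiv ℝ (G t) x)) x := by
    have a1 := (hF.differentiable inf_ne (G t x)).hasFDerivAt
    have a2 := (h1 t x)
    have a3 : HasFDerivAt (G t) (fderiv ℝ (G t) x) x := by rw [a2.fderiv]; exact a2
    exact a1.comp x a3
  have h15 := congrArg (fun L : T →L[ℝ] T => L ζ) (h12.unique h14)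
  simp only [ContinuousLinearMap.add_apply, ContinuousLinearMap.comp_apply,
    ContinuousLinearMap.zero_apply, map_zero, zero_add, ContinuousLinearMap.flip_apply,
    ContinuousLinearMap.inr_apply] at h15
  exact h15

lemma flow_fderiv_eq {G : ℝ → T → T} (hG : ContDiff ℝ ∞ (fun q : ℝ × T => G q.1 q.2))
    (s : ℝ) (y ζ : T) :
    fderiv ℝ (G s) y ζ = fderiv ℝ (fun q : ℝ × T => G q.1 q.2) (s, y) (0, ζ) := by
  have := ((hG.differentiable inf_ne (s, y)).hasFDerivAt)
  have h1 : HasFDerivAt (G s) ((fderiv ℝ (fun q : ℝ × T => G q.1 q.2) (s, y)).comp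
      (ContinuousLinearMap.inr ℝ ℝ T)) y :=
    HasFDerivAt.comp (g := fun q : ℝ × T => G q.1 q.2) y this (hasFDerivAt_prodMk_right s y)
  rw [h1.fderiv]; simp

end flow

variable {E : Type} [NormedAddCommGroup E] [NormedSpace ℝ E] [FiniteDimensional ℝ E]
variable {ι : Type} [Fintype ι]

lemma word_smooth {X : ι → E → E} (hX : ∀ i, ContDiff ℝ ∞ (X i)) {s : Set ι} {Y : E → E}
    (hY : Word X s Y) : ContDiff ℝ ∞ Y := by
  induction hY with
  | letter i hi => exact hX i
  | br i hi Z hZ ih =>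
    unfold VectorField.lieBracket
    exact ((fderiv_smooth ih).clm_apply (hX i)).sub ((fderiv_smooth (hX i)).clm_apply ih)

/-- The core lemma: in every open set of the cotangent bundle there is an extremal of the family
`X` whose exponential map has differential containing all iterated brackets. -/
theorem core (X : ι → E → E) (hX : ∀ i, ContDiff ℝ ∞ (X i)) (κ : ι → ℝ) (hκ : ∀ i, 0 ≤ κ i)
    (O : Set (TT E)) (hO : IsOpen O) (zs : TT E) (hzs : zs ∈ O) :
    ∃ t0 > 0, ∃ (c : ℝ → TT E) (J : Co E → ℝ → TT E), (∀ t ∈ Icc (0:ℝ) t0, c t ∈ O) ∧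
      (∀ t ∈ Icc (0:ℝ) t0, HasDerivAt c (Ham X κ (c t)) t) ∧
      (∀ ξ, ∀ t ∈ Icc (0:ℝ) t0, HasDerivAt (J ξ) (fderiv ℝ (Ham X κ) (c t) (J ξ t)) t) ∧
      (∀ ξ, (J ξ 0).1 = 0) ∧
      ∀ Y, Word X {i | κ i ≠ 0} Y → ∃ ξ, (J ξ t0).1 = Y (c t0).1 := by
  classical
  have : ProperSpace E := FiniteDimensional.proper_real E
  -- cutoff
  obtain ⟨δ, hδ, hball⟩ := Metric.isOpen_iff.1 hO zs hzs
  let f : ContDiffBump zs := ⟨δ / 4, δ / 2, by positivity, by linarith⟩
  have hfs : ContDiff ℝ ∞ f := f.contDiff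
  have hfc : HasCompactSupport f := f.hasCompactSupport
  set H : TT E → TT E := Ham X κ with hH
  have hHs : ContDiff ℝ ∞ H := Ham_smooth hX κ
  set F : TT E → TT E := fun z => f z • H z with hF
  have hFs : ContDiff ℝ ∞ F := hfs.smul hHs
  have hFc : HasCompactSupport F := hfc.smul_right
  obtain ⟨G, hG, hG0, hGadd, hGd⟩ := flow_cpt F hFs hFc
  set x0 : Co E → TT E := fun p => (zs.1, p) with hx0
  have hx0c : Continuous x0 := continuous_const.prodMk continuous_id
  have hx0s : ContDiff ℝ ∞ x0 := contDiff_const.prodMk contDiff_id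
  -- small region
  have hcont : Continuous (fun w : ℝ × Co E => G w.1 (x0 w.2)) :=
    hG.continuous.comp (continuous_fst.prodMk (hx0c.comp continuous_snd))
  have hnb : ∀ᶠ w in 𝓝 ((0 : ℝ), zs.2), G w.1 (x0 w.2) ∈ ball zs (δ / 4) := by
    apply hcont.continuousAt.eventually
    apply isOpen_ball.mem_nhds
    simp only [hx0, hG0]
    exact mem_ball_self (by positivity)
  obtain ⟨ε, hε, hεb⟩ := Metric.eventually_nhds_iff.1 hnb
  have hreg : ∀ t : ℝ, |t| < ε → ∀ p ∈ ball zs.2 ε, G t (x0 p) ∈ ball zs (δ / 4) := by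
    intro t ht p hp
    apply hεb (y := (t, p))
    rw [Prod.dist_eq]
    refine max_lt ?_ hp
    simpa [Real.dist_eq] using ht
  have hloc : ∀ z ∈ ball zs (δ / 4), F z = H z ∧ fderiv ℝ F z = fderiv ℝ H z := by
    intro z hz
    have h1 : ∀ᶠ y in 𝓝 z, F y = H y := by
      filter_upwards [isOpen_ball.mem_nhds hz] with y hy
      have : f y = 1 := f.one_of_mem_closedBall (ball_subset_closedBall hy)
      simp [hF, this]
    exact ⟨h1.self_of_nhds, Filter.EventuallyEq.fderiv_eq h1⟩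
  have hc' : ∀ t : ℝ, |t| < ε → ∀ p ∈ ball zs.2 ε,
      HasDerivAt (fun t => G t (x0 p)) (H (G t (x0 p))) t := by
    intro t ht p hp
    have := hGd (x0 p) t
    rwa [(hloc _ (hreg t ht p hp)).1] at this
  have hM' : ∀ t : ℝ, |t| < ε → ∀ p ∈ ball zs.2 ε, ∀ ζ,
      HasDerivAt (fun s => fderiv ℝ (G s) (x0 p) ζ)
        (fderiv ℝ H (G t (x0 p)) (fderiv ℝ (G t) (x0 p) ζ)) t := by
    intro t ht p hp ζ
    have := flow_var hFs hG hGd t (x0 p) ζ
    rwa [(hloc _ (hreg t ht p hp)).2] at this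
  have hM0 : ∀ p ζ, fderiv ℝ (G 0) p ζ = ζ := by
    intro p ζ
    have : G 0 = id := by funext y; exact hG0 y
    rw [this]; simp
  -- symplecticity
  have hsymp : ∀ t : ℝ, |t| < ε → ∀ p ∈ ball zs.2 ε, ∀ ζ ζ',
      om (fderiv ℝ (G t) (x0 p) ζ) (fderiv ℝ (G t) (x0 p) ζ') = om ζ ζ' := by
    intro t ht p hp ζ ζ'
    have hder : ∀ s ∈ Ioo (-ε) ε, HasDerivAt (fun s => om (fderiv ℝ (G s) (x0 p) ζ)
        (fderiv ℝ (G s) (x0 p) ζ')) 0 s := by
      intro s hs
      have hs' : |s| < ε := abs_lt.2 hs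
      have := om_hasDerivAt (hM' s hs' p hp ζ) (hM' s hs' p hp ζ')
      refine this.congr_deriv ?_
      rw [Ham_symm hX κ, om_swap (fderiv ℝ (G s) (x0 p) ζ)]
      rw [hH]
      ring
    have hconst := isOpen_Ioo.is_const_of_deriv_eq_zero (f := fun s => om (fderiv ℝ (G s) (x0 p) ζ)
        (fderiv ℝ (G s) (x0 p) ζ')) (isPreconnected_Ioo)
        (fun s hs => (hder s hs).differentiableAt.differentiableWithinAt)
        (fun s hs => (hder s hs).deriv) (abs_lt.1 ht) (show (0:ℝ) ∈ Ioo (-ε) ε by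
          constructor <;> linarith)
    have hconst' : om (fderiv ℝ (G t) (x0 p) ζ) (fderiv ℝ (G t) (x0 p) ζ') =
      om (fderiv ℝ (G 0) (x0 p) ζ) (fderiv ℝ (G 0) (x0 p) ζ') := hconst
    rw [hconst', hM0, hM0]
  -- surjectivity
  have hsurj : ∀ t x ζ, ∃ ζ', fderiv ℝ (G t) x ζ' = ζ := by
    intro t x ζ
    have h1 : (fun y => G t (G (-t) y)) = id := by
      funext y; rw [← hGadd]; simp [hG0]
    have hx : x = G (-t) (G t x) := by rw [← hGadd]; simp [hG0]
    have hd1 : DifferentiableAt ℝ (G t) x :=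
      (hG.comp (contDiff_const.prodMk contDiff_id : ContDiff ℝ ∞ (fun y : TT E => (t, y)))).differentiable
        inf_ne x
    have hd2 : DifferentiableAt ℝ (G (-t)) (G t x) :=
      (hG.comp (contDiff_const.prodMk contDiff_id : ContDiff ℝ ∞ (fun y : TT E => (-t, y)))).differentiable
        inf_ne _
    have h2 : HasFDerivAt (fun y => G t (G (-t) y))
        ((fderiv ℝ (G t) x).comp (fderiv ℝ (G (-t)) (G t x))) (G t x) := by
      refine HasFDerivAt.comp (g := G t) _ ?_ hd2.hasFDerivAt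
      rw [← hx]; exact hd1.hasFDerivAt
    rw [h1] at h2
    have h3 := congrArg (fun L : TT E →L[ℝ] TT E => L ζ) (h2.unique (hasFDerivAt_id _))
    exact ⟨_, h3⟩
  -- the linear map A
  set A : ℝ × Co E → (Co E →ₗ[ℝ] E) := fun w => ((ContinuousLinearMap.fst ℝ E (Co E)).comp
    ((fderiv ℝ (G w.1) (x0 w.2)).comp (ContinuousLinearMap.inr ℝ E (Co E)))).toLinearMap with hA
  have hAe : ∀ w ξ, A w ξ = (fderiv ℝ (G w.1) (x0 w.2) (0, ξ)).1 := fun w ξ => rfl
  -- (e)
  have hE : ∀ t : ℝ, |t| < ε → ∀ p ∈ ball zs.2 ε, ∀ w : E,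
      (∀ ξ, A (t, p) ξ = 0 → (fderiv ℝ (G t) (x0 p) (0, ξ)).2 w = 0) →
      w ∈ LinearMap.range (A (t, p)) := by
    intro t ht p hp w hw
    by_contra hne
    obtain ⟨η, hη1, hη2⟩ := Submodule.exists_le_ker_of_notMem hne
    set ηc : Co E := LinearMap.toContinuousLinearMap η with hηc
    obtain ⟨ζ0, hζ0⟩ := hsurj t (x0 p) (0, ηc)
    have h1 : ∀ ξ' : Co E, ξ' ζ0.1 = 0 := by
      intro ξ'
      have := hsymp t ht p hp ζ0 (0, ξ')
      rw [hζ0] at this
      simp only [om, map_zero, sub_zero] at this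
      have h2 : ηc (fderiv ℝ (G t) (x0 p) (0, ξ')).1 = 0 := by
        have : (A (t, p) ξ') ∈ LinearMap.ker η := hη2 ⟨ξ', rfl⟩
        exact this
      rw [h2] at this
      simpa using this.symm
    have h2 : ζ0.1 = 0 := by
      by_contra hne'
      obtain ⟨g, hg⟩ := SeparatingDual.exists_ne_zero (R := ℝ) hne'
      exact hg (h1 g)
    have h3 : ζ0 = (0, ζ0.2) := Prod.ext h2 rfl
    rw [h3] at hζ0
    have h4 := hw ζ0.2 (by rw [hAe, hζ0])
    rw [hζ0] at h4
    exact hη1 h4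
  -- maximal rank
  set S : Set (ℝ × Co E) := Ioo 0 ε ×ˢ ball zs.2 ε with hS
  have hSo : IsOpen S := isOpen_Ioo.prod isOpen_ball
  have hSabs : ∀ w ∈ S, |w.1| < ε ∧ w.2 ∈ ball zs.2 ε := fun w hw =>
    ⟨by rw [abs_of_pos hw.1.1]; exact hw.1.2, hw.2⟩
  have hSne : S.Nonempty := ⟨(ε / 2, zs.2), ⟨by constructor <;> simp <;> linarith, mem_ball_self hε⟩⟩
  obtain ⟨w0, hw0, hmax⟩ : ∃ w0 ∈ S, ∀ w ∈ S, Module.finrank ℝ (LinearMap.range (A w)) ≤
      Module.finrank ℝ (LinearMap.range (A w0)) := by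
    set R : Set ℕ := (fun w => Module.finrank ℝ (LinearMap.range (A w))) '' S with hR
    have hbdd : BddAbove R := ⟨Module.finrank ℝ E, by
      rintro _ ⟨w, _, rfl⟩
      exact Submodule.finrank_le _⟩
    obtain ⟨w0, hw0, hw0'⟩ := Nat.sSup_mem (hSne.image _) hbdd
    refine ⟨w0, hw0, fun w hw => ?_⟩
    have h1 := le_csSup hbdd (mem_image_of_mem (fun w => Module.finrank ℝ (LinearMap.range (A w))) hw)
    rw [← hw0'] at h1
    exact h1
  set r := Module.finrank ℝ (LinearMap.range (A w0)) with hr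
  have b : Module.Basis (Fin r) ℝ (LinearMap.range (A w0)) := Module.finBasis ℝ _
  choose e he using fun j => (b j).2
  have hAs : ∀ ξ, ContDiff ℝ ∞ (fun w => A w ξ) := by
    intro ξ
    have h1 : (fun w : ℝ × Co E => A w ξ) = fun w : ℝ × Co E =>
        (fderiv ℝ (fun q : ℝ × TT E => G q.1 q.2) (w.1, x0 w.2) (0, ((0 : E), ξ))).1 := by
      funext w
      rw [hAe, flow_fderiv_eq hG]
    rw [h1]
    have h2 : ContDiff ℝ ∞ (fun w : ℝ × Co E =>
        (fderiv ℝ (fun q : ℝ × TT E => G q.1 q.2) (w.1, x0 w.2) (0, ((0 : E), ξ)))) := by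
      refine ContDiff.clm_apply ?_ contDiff_const
      exact (fderiv_smooth hG).comp (contDiff_fst.prodMk (hx0s.comp contDiff_snd))
    exact h2.fst
  have hli : LinearIndependent ℝ (fun j => A w0 (e j)) := by
    have h1 := b.linearIndependent.map' (LinearMap.range (A w0)).subtype (Submodule.ker_subtype _)
    have h2 : (fun j => A w0 (e j)) = (LinearMap.range (A w0)).subtype ∘ b := by
      funext j; exact he j
    rw [h2]; exact h1
  obtain ⟨O', hO'S, hO'o, hw0', φ, hφs, hφd⟩ := exists_smooth_dual (fun j w => A w (e j)) S hSo w0 hw0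
    (fun j => (hAs (e j)).contDiffOn) hli
  have hrange : ∀ w ∈ O', LinearMap.range (A w) = Submodule.span ℝ (range fun j => A w (e j)) := by
    intro w hw
    symm
    apply Submodule.eq_of_le_of_finrank_le
    · rw [Submodule.span_le]
      rintro _ ⟨j, rfl⟩
      exact ⟨e j, rfl⟩
    · have h1 : LinearIndependent ℝ (fun j => A w (e j)) := indep_of_dual (fun i j => hφd w hw i j)
      rw [finrank_span_eq_card h1, Fintype.card_fin]
      exact hmax w (hO'S hw)
  have hexp : ∀ w ∈ O', ∀ v ∈ LinearMap.range (A w), v = ∑ j, φ j w v • A w (e j) := by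
    intro w hw v hv
    rw [hrange w hw] at hv
    exact expand_of_dual (v := fun j => A w (e j)) (fun i j => hφd w hw i j) hv
  -- (g)
  have hg : ∀ w ∈ O', ∀ i, κ i ≠ 0 → X i (G w.1 (x0 w.2)).1 ∈ LinearMap.range (A w) := by
    rintro ⟨t, p⟩ hw i hi
    obtain ⟨ht, hp⟩ := hSabs _ (hO'S hw)
    simp only at ht hp ⊢
    refine hE t ht p hp _ fun ξ hξ => ?_
    set z := G t (x0 p) with hz
    set β := (fderiv ℝ (G t) (x0 p) (0, ξ)).2 with hβ
    have hJ : fderiv ℝ (G t) (x0 p) (0, ξ) = (0, β) := Prod.ext hξ rfl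
    -- derivative of a
    have ha : HasDerivAt (fun s => A (s, p) ξ)
        (fderiv ℝ H z (fderiv ℝ (G t) (x0 p) (0, ξ))).1 t :=
      (ContinuousLinearMap.fst ℝ E (Co E)).hasFDerivAt.comp_hasDerivAt t (hM' t ht p hp (0, ξ))
    have hline : HasDerivAt (fun s : ℝ => (s, p)) ((1:ℝ), (0 : Co E)) t :=
      (hasDerivAt_id t).prodMk (hasDerivAt_const t p)
    have hcj : ∀ j, ∃ cj', HasDerivAt (fun s => φ j (s, p) (A (s, p) ξ)) cj' t := by
      intro j
      have h1 : DifferentiableAt ℝ (φ j) (t, p) :=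
        ((hφs j).contDiffAt (hO'o.mem_nhds hw)).differentiableAt inf_ne
      have h2 : HasDerivAt (φ j ∘ fun s : ℝ => (s, p)) _ t :=
        HasFDerivAt.comp_hasDerivAt t h1.hasFDerivAt hline
      exact ⟨_, HasDerivAt.clm_apply h2 ha⟩
    choose c' hc' using hcj
    have hvj : ∀ j, ∃ vj', HasDerivAt (fun s => A (s, p) (e j)) vj' t := by
      intro j
      have h1 : DifferentiableAt ℝ (fun w => A w (e j)) (t, p) := (hAs (e j)).differentiable inf_ne _
      have h2 : HasDerivAt ((fun w => A w (e j)) ∘ fun s : ℝ => (s, p)) _ t :=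
        HasFDerivAt.comp_hasDerivAt t h1.hasFDerivAt hline
      exact ⟨_, h2⟩
    choose v' hv' using hvj
    have hsum : HasDerivAt (fun s => ∑ j, φ j (s, p) (A (s, p) ξ) • A (s, p) (e j))
        (∑ j, (φ j (t, p) (A (t, p) ξ) • v' j + c' j • A (t, p) (e j))) t :=
      HasDerivAt.fun_sum fun j _ => (hc' j).smul (hv' j)
    have hev : (fun s => A (s, p) ξ) =ᶠ[𝓝 t]
        fun s => ∑ j, φ j (s, p) (A (s, p) ξ) • A (s, p) (e j) := by
      have h1 : ∀ᶠ s in 𝓝 t, (s, p) ∈ O' :=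
        hline.continuousAt.eventually (hO'o.mem_nhds hw)
      filter_upwards [h1] with s hs
      exact hexp _ hs _ ⟨ξ, rfl⟩
    have hd := ha.unique (hsum.congr_of_eventuallyEq hev)
    have hmem : (fderiv ℝ H z (fderiv ℝ (G t) (x0 p) (0, ξ))).1 ∈ LinearMap.range (A (t, p)) := by
      rw [hd]
      refine Submodule.sum_mem _ fun j _ => ?_
      rw [hξ, map_zero, zero_smul, zero_add]
      exact Submodule.smul_mem _ _ ⟨e j, rfl⟩
    obtain ⟨ξ', hξ'⟩ := hmem
    rw [hJ, hH, Ham_fst_fderiv hX] at hξ'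
    simp only [mom_hasFDerivAt hX, map_zero, add_zero] at hξ'
    have h1 : β (A (t, p) ξ') = 0 := by
      have h2 := hsymp t ht p hp (0, ξ') (0, ξ)
      rw [hJ] at h2
      simp only [om, map_zero, sub_zero] at h2
      exact h2
    rw [hξ', map_sum] at h1
    simp only [map_smul, smul_eq_mul] at h1
    have h2 : ∀ j ∈ Finset.univ, κ j * β (X j z.1) * β (X j z.1) = 0 := by
      rw [Finset.sum_eq_zero_iff_of_nonneg] at h1
      · exact h1
      · intro j _
        rw [mul_assoc]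
        exact mul_nonneg (hκ j) (mul_self_nonneg _)
    have h3 := h2 i (Finset.mem_univ i)
    rw [mul_assoc] at h3
    rcases mul_eq_zero.1 h3 with h4 | h4
    · exact absurd h4 hi
    · exact mul_self_eq_zero.1 h4
  -- (h)
  set t0 := w0.1 with ht0
  set p0 := w0.2 with hp0
  set O2 : Set (Co E) := {p | (t0, p) ∈ O'} with hO2
  have hO2o : IsOpen O2 := hO'o.preimage (by fun_prop)
  have hp0O : p0 ∈ O2 := hw0'
  set Q : Co E → E := fun p => (G t0 (x0 p)).1 with hQ
  have hQs : ContDiff ℝ ∞ Q := by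
    have : ContDiff ℝ ∞ (fun p => G t0 (x0 p)) :=
      hG.comp (contDiff_const.prodMk hx0s)
    exact this.fst
  have hQd : ∀ p ξ, fderiv ℝ Q p ξ = A (t0, p) ξ := by
    intro p ξ
    have h1 : DifferentiableAt ℝ (G t0) (x0 p) :=
      (hG.comp (contDiff_const.prodMk contDiff_id : ContDiff ℝ ∞ (fun y : TT E => (t0, y)))).differentiable
        inf_ne _
    have h2 : HasFDerivAt x0 (ContinuousLinearMap.inr ℝ E (Co E)) p :=
      hasFDerivAt_prodMk_right zs.1 p
    have h3 : HasFDerivAt Q _ p := (h1.hasFDerivAt.comp p h2).fst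
    rw [h3.fderiv]
    rfl
  have hwords : ∀ Y, Word X {i | κ i ≠ 0} Y → ∃ η : Co E → Co E, ContDiffOn ℝ ∞ η O2 ∧
      ∀ p ∈ O2, fderiv ℝ Q p (η p) = Y (Q p) := by
    have hlet : ∀ i, κ i ≠ 0 → ∃ η : Co E → Co E, ContDiffOn ℝ ∞ η O2 ∧
      ∀ p ∈ O2, fderiv ℝ Q p (η p) = X i (Q p) := by
      intro i hi
      refine ⟨fun p => ∑ j, φ j (t0, p) (X i (Q p)) • e j, ?_, fun p hp => ?_⟩
      · refine ContDiffOn.sum fun j _ => ?_
        have h4 : ContDiffOn ℝ ∞ (fun p => φ j (t0, p)) O2 :=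
          (hφs j).comp (contDiff_const.prodMk contDiff_id).contDiffOn (fun p hp => hp)
        have h3 : ContDiffOn ℝ ∞ (fun p => φ j (t0, p) (X i (Q p))) O2 :=
          h4.clm_apply ((hX i).comp hQs).contDiffOn
        exact h3.smul contDiffOn_const
      · rw [map_sum]
        simp only [map_smul, hQd]
        exact (hexp _ hp _ (hg _ hp i hi)).symm
    intro Y hY
    induction hY with
    | letter i hi => exact hlet i hi
    | br i hi Z hZ ih =>
      obtain ⟨η1, h1s, h1⟩ := hlet i hi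
      obtain ⟨η2, h2s, h2⟩ := ih
      have hZs := word_smooth hX hZ
      refine ⟨fun p => fderiv ℝ η2 p (η1 p) - fderiv ℝ η1 p (η2 p), ?_, fun p hp => ?_⟩
      · have h3 : ∀ {η : Co E → Co E}, ContDiffOn ℝ ∞ η O2 → ContDiffOn ℝ ∞ (fderiv ℝ η) O2 :=
          fun hη => hη.fderiv_of_isOpen hO2o (by exact_mod_cast le_top)
        exact ((h3 h2s).clm_apply h1s).sub ((h3 h1s).clm_apply h2s)
      · have hsym : IsSymmSndFDerivAt ℝ Q p :=
          hQs.contDiffAt.isSymmSndFDerivAt (by simpa using two_le_inf)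
        have key : ∀ (η : Co E → Co E) (W : E → E) (v : Co E), DifferentiableAt ℝ η p →
            DifferentiableAt ℝ W (Q p) → (∀ p ∈ O2, fderiv ℝ Q p (η p) = W (Q p)) →
            fderiv ℝ (fderiv ℝ Q) p v (η p) + fderiv ℝ Q p (fderiv ℝ η p v) =
              fderiv ℝ W (Q p) (fderiv ℝ Q p v) := by
          intro η W v hη hW hηW
          have a1 : HasFDerivAt (fderiv ℝ Q) (fderiv ℝ (fderiv ℝ Q) p) p :=
            ((fderiv_smooth hQs).differentiable inf_ne p).hasFDerivAt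
          have a2 : HasFDerivAt (fun p => fderiv ℝ Q p (η p)) _ p := a1.clm_apply hη.hasFDerivAt
          have a3 : HasFDerivAt (fun p => W (Q p)) ((fderiv ℝ W (Q p)).comp (fderiv ℝ Q p)) p :=
            hW.hasFDerivAt.comp p (hQs.differentiable inf_ne p).hasFDerivAt
          have a4 : (fun p => fderiv ℝ Q p (η p)) =ᶠ[𝓝 p] fun p => W (Q p) := by
            filter_upwards [hO2o.mem_nhds hp] with y hy
            exact hηW y hy
          have a5 := congrArg (fun L : Co E →L[ℝ] E => L v)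
            (a2.unique (a3.congr_of_eventuallyEq a4))
          simp only [ContinuousLinearMap.add_apply, ContinuousLinearMap.comp_apply,
            ContinuousLinearMap.flip_apply] at a5
          rw [← a5]
          abel
        have d1 : DifferentiableAt ℝ η1 p := (h1s.contDiffAt (hO2o.mem_nhds hp)).differentiableAt inf_ne
        have d2 : DifferentiableAt ℝ η2 p := (h2s.contDiffAt (hO2o.mem_nhds hp)).differentiableAt inf_ne
        have k1 := key η2 Z (η1 p) d2 (hZs.differentiable inf_ne _) h2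
        have k2 := key η1 (X i) (η2 p) d1 ((hX i).differentiable inf_ne _) h1
        rw [h1 p hp] at k1
        rw [h2 p hp] at k2
        rw [map_sub, VectorField.lieBracket, ← k1, ← k2, hsym (η1 p) (η2 p)]
        abel
  -- conclusion
  have hw0abs := hSabs w0 hw0
  have htt : ∀ t ∈ Icc (0:ℝ) t0, |t| < ε := by
    intro t ht
    rw [abs_of_nonneg ht.1]
    exact ht.2.trans_lt hw0.1.2
  refine ⟨t0, hw0.1.1, fun t => G t (x0 p0), fun ξ t => fderiv ℝ (G t) (x0 p0) (0, ξ),
    fun t ht => ?_, fun t ht => hc' t (htt t ht) p0 hw0abs.2,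
    fun ξ t ht => hM' t (htt t ht) p0 hw0abs.2 (0, ξ), fun ξ => by simp only [hM0], fun Y hY => ?_⟩
  · apply hball
    exact ball_subset_ball (by linarith) (hreg t (htt t ht) p0 hw0abs.2)
  · obtain ⟨η, hη, hη'⟩ := hwords Y hY
    refine ⟨η p0, ?_⟩
    have := hη' p0 hp0O
    rw [hQd] at this
    exact this

end Pool.Agent.D0H81.SR
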