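import Pool.Agent.D0H81.SR.Modl

set_option autoImplicit false
set_option linter.unusedVariables false
set_option linter.deprecated false
set_option linter.unusedSectionVars false

open Set Metric Filter Topology
open scoped ContDiff NNReal Matrix

namespace Pool.Agent.D0H81.SR

variable {E : Type} [NormedAddCommGroup E] [NormedSpace ℝ E] [FiniteDimensional ℝ E]
variable {ι : Type} [Fintype ι]

open VectorField (lieBracket)

lemma Md.mono_set {V V' : Set E} (h : V' ⊆ V) {𝒴 : Set (E → E)} {Z : E → E} (hZ : Md V 𝒴 Z) :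
    Md V' 𝒴 Z := by
  induction hZ with
  | of Y hY => exact Md.of Y hY
  | zero => exact Md.zero
  | add Z Z' _ _ h1 h2 => exact Md.add _ _ h1 h2
  | smul φ Z hφ _ h1 => exact Md.smul _ _ (hφ.mono h) h1
  | congr Z Z' _ he h1 => exact Md.congr _ _ h1 (fun q hq => he q (h hq))

lemma Md.sub {V : Set E} {𝒴 : Set (E → E)} {Z Z' : E → E} (h : Md V 𝒴 Z) (h' : Md V 𝒴 Z') :
    Md V 𝒴 (fun q => Z q - Z' q) := by
  refine Md.congr _ _ (Md.add _ _ h (Md.smul (fun _ => (-1 : ℝ)) _ contDiffOn_const h')) ?_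
  intro q _
  rw [neg_one_smul, sub_eq_add_neg]

namespace Ctx

variable [DecidableEq ι] {D : Dat E ι} {lam : ι → ℝ} (c : Ctx D lam)

/-- words of the blocks in `B` -/
def zB (X : ι → E → E) (lam : ι → ℝ) (B : ℝ → Prop) : Set (E → E) :=
  {Y | ∃ a, B a ∧ Word X {i | lam i = a} Y}

lemma zB_smooth {B : ℝ → Prop} {Y : E → E} (h : Y ∈ zB D.X lam B) {V : Set E} :
    ContDiffOn ℝ ∞ Y V := by
  obtain ⟨a, _, h⟩ := h
  exact (word_smooth D.hX h).contDiffOn

lemma md_letter (B : ℝ → Prop) {j : ι} (hj : B (lam j)) {Z : E → E}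
    (hZ : Md c.V (zB D.X lam B) Z) : Md c.V (zB D.X lam B) (lieBracket ℝ (D.X j) Z) := by
  refine Md.bracket c.hV (D.hX j).contDiffOn (fun Y hY => zB_smooth hY) (fun Y hY => Md.of _ hY)
    ?_ hZ
  rintro Y ⟨a, ha, hY⟩
  by_cases h1 : lam j = a
  · exact Md.of _ ⟨a, ha, Word.br j h1 Y hY⟩
  · refine (c.closure (Ne.symm h1) hY j rfl).bind ?_
    rintro W (hW | ⟨l, hl, rfl⟩)
    · exact Md.of _ ⟨a, ha, hW⟩
    · exact Md.of _ ⟨lam j, hj, Word.letter l hl⟩

lemma md_word (B : ℝ → Prop) {a : ℝ} (ha : B a) {W : E → E} (hW : Word D.X {i | lam i = a} W)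
    : ∀ {Z : E → E}, Md c.V (zB D.X lam B) Z → Md c.V (zB D.X lam B) (lieBracket ℝ W Z) := by
  induction hW with
  | letter i hi =>
    intro Z hZ
    have hi' : lam i = a := hi
    exact c.md_letter B (hi' ▸ ha) hZ
  | br i hi W hW ih =>
    intro Z hZ
    have hi' : lam i = a := hi
    have h1 := c.md_letter B (j := i) (hi' ▸ ha) (ih hZ)
    have h2 := ih (c.md_letter B (j := i) (hi' ▸ ha) hZ)
    refine Md.congr _ _ (Md.sub h1 h2) fun q hq => ?_
    have hZs : ContDiffAt ℝ ∞ Z q :=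
      (hZ.smooth (fun Y hY => zB_smooth hY)).contDiffAt (c.hV.mem_nhds hq)
    have h3 := VectorField.leibniz_identity_lieBracket minS (D.hX i).contDiffAt
      (word_smooth D.hX hW).contDiffAt hZs (x := q) (𝕜 := ℝ)
    rw [h3]
    abel

lemma open_zero {q : E} {p0 : Co E} (h0 : (q, p0) ∈ Gset D.X D.V) {w : E}
    (h : ∀ p, (q, p) ∈ Gset D.X D.V → p w = 0) : w = 0 := by
  by_contra hne
  obtain ⟨η, hη⟩ := SeparatingDual.exists_ne_zero (R := ℝ) hne
  have hGo : IsOpen (Gset D.X D.V) := Gset_open D.hX D.hV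
  have hc : Continuous (fun t : ℝ => ((q, p0 + t • η) : TT E)) := by fun_prop
  have h1 := hc.tendsto 0
  simp only [zero_smul, add_zero] at h1
  obtain ⟨ε, hε, hε'⟩ := Metric.eventually_nhds_iff.1 (h1.eventually (hGo.mem_nhds h0))
  have h2 := h _ (hε' (y := ε / 2) (by
    rw [Real.dist_eq, sub_zero, abs_of_pos (by positivity)]; linarith))
  have h3 := h p0 h0
  rw [ContinuousLinearMap.add_apply, h3, zero_add, ContinuousLinearMap.smul_apply, smul_eq_mul] at h2
  rcases mul_eq_zero.1 h2 with h4 | h4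
  · linarith
  · exact hη h4

theorem decomp {q0 : E} (hq0 : q0 ∈ c.V) : ∃ V2 ⊆ c.V, IsOpen V2 ∧ q0 ∈ V2 ∧
    ∃ (Y : Fin (Module.finrank ℝ E) → E → E) (b : Fin (Module.finrank ℝ E) → ℝ)
      (θ : Fin (Module.finrank ℝ E) → E → Co E),
      (∀ i, Word D.X {k | lam k = b i} (Y i)) ∧ (∀ i, ContDiffOn ℝ ∞ (θ i) V2) ∧
      (∀ q ∈ V2, ∀ i j, θ i q (Y j q) = if i = j then 1 else 0) ∧
      (∀ a Z, Word D.X {k | lam k = a} Z → ∀ q ∈ V2, ∀ l, b l ≠ a → θ l q (Z q) = 0) ∧
      (∀ (B : ℝ → Prop) i k, B (b i) → B (b k) → ∀ q ∈ V2, ∀ l, ¬ B (b l) →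
        θ l q (lieBracket ℝ (Y i) (Y k) q) = 0) := by
  set 𝒜 : Set (E → E) := {Y | ∃ a, Word D.X {i | lam i = a} Y} with h𝒜
  have hspan : Submodule.span ℝ (range fun Y : 𝒜 => (Y : E → E) q0) = ⊤ := by
    rw [eq_top_iff, ← D.hgen q0 (c.sub hq0), Submodule.span_le]
    rintro _ ⟨Z, hZ, rfl⟩
    refine (c.all_words hZ).pt hq0 _ ?_
    intro Y hY
    exact Submodule.subset_span ⟨⟨Y, hY⟩, rfl⟩
  obtain ⟨r, a, ha1, ha2⟩ := exists_sub_basis (fun Y : 𝒜 => (Y : E → E) q0)
  have hr : r = Module.finrank ℝ E := by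
    have h4 := finrank_span_eq_card ha1
    rw [ha2, hspan, finrank_top, Fintype.card_fin] at h4
    exact h4.symm
  subst hr
  choose b hb using fun i => (a i).2
  obtain ⟨V2, hV2, hV2o, hq02, θ, hθs, hθd⟩ := exists_smooth_dual (fun i q => (a i : E → E) q) c.V
    c.hV q0 hq0 (fun i => (word_smooth D.hX (hb i)).contDiffOn) ha1
  obtain ⟨P, hP, hP1, hP2⟩ := D.exists_P
  have hwords : ∀ a' Z, Word D.X {k | lam k = a'} Z → ∀ q ∈ V2, ∀ l, b l ≠ a' →
      θ l q (Z q) = 0 := by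
    intro a' Z hZ q hq l hl
    have hZs := word_smooth D.hX hZ
    revert q
    apply dense_q (D := D) hV2o (hV2.trans c.sub) ((hθs l).continuousOn.clm_apply
      hZs.continuous.continuousOn)
    rintro q hq ⟨p0, hp0⟩
    have hexp : Z q = ∑ j, θ j q (Z q) • (a j : E → E) q := by
      apply expand_of_dual (v := fun j => (a j : E → E) q) (φ := fun j => θ j q) (hθd q hq)
      rw [(indep_of_dual (v := fun j => (a j : E → E) q)
        (hθd q hq)).span_eq_top_of_card_eq_finrank' (by simp)]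
      trivial
    have hw : ∑ j, (θ j q (Z q) * (b j - a')) • (a j : E → E) q = 0 := by
      apply open_zero hp0
      intro p hp
      have h1 := c.isd.block hP hP1 hP2 a' Z hZ hp
      have h2 : ∀ j, P (q, p) ((a j : E → E) q) = b j * p ((a j : E → E) q) := fun j =>
        c.isd.block hP hP1 hP2 (b j) _ (hb j) hp
      simp only at h1
      rw [hexp, map_sum, map_sum] at h1
      simp only [map_smul, smul_eq_mul, h2] at h1
      rw [map_sum]
      simp only [map_smul, smul_eq_mul, mul_sub, sub_mul, Finset.sum_sub_distrib]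
      rw [Finset.mul_sum] at h1
      rw [sub_eq_zero]
      calc _ = ∑ j, θ j q (Z q) * (b j * p ((a j : E → E) q)) :=
            Finset.sum_congr rfl fun j _ => by ring
        _ = _ := h1
        _ = _ := Finset.sum_congr rfl fun j _ => by ring
    have h3 := congrArg (θ l q) hw
    rw [map_sum, map_zero] at h3
    simp only [map_smul, smul_eq_mul, hθd q hq] at h3
    simp only [mul_ite, mul_one, mul_zero, Finset.sum_ite_eq, Finset.mem_univ, if_true] at h3
    exact (mul_eq_zero.1 h3).resolve_right (sub_ne_zero.2 hl)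
  refine ⟨V2, hV2, hV2o, hq02, fun i => (a i : E → E), b, θ, hb, hθs, hθd, hwords, ?_⟩
  intro B i k hi hk q hq l hl
  have h1 : Md c.V (zB D.X lam B) (lieBracket ℝ (a i : E → E) (a k : E → E)) :=
    c.md_word B hi (hb i) (Md.of _ ⟨b k, hk, hb k⟩)
  have h2 := h1.pt (hV2 hq) (LinearMap.ker (θ l q).toLinearMap) (by
    rintro Y ⟨a', ha', hY⟩
    exact hwords a' Y hY q hq l (fun h => hl (h ▸ ha')))
  exact h2

end Ctx

end Pool.Agent.D0H81.SR
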