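import Mathlib

set_option autoImplicit false

open Set

open scoped ContDiff

/-!
Sub-Riemannian structures in local coordinates: `E` is a finite-dimensional real normed space,
`U ⊆ E` an open set (the manifold), the tangent space at every point is `E`, the cotangent bundle
is `E × (E →L[ℝ] ℝ)`.
-/

namespace Pool.Agent.D0H81.SR

variable {E : Type} [NormedAddCommGroup E] [NormedSpace ℝ E]

/-- `X` is a smooth vector field on the open set `W`, tangent to `D`. -/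
def IsSection (D : E → Submodule ℝ E) (W : Set E) (X : E → E) : Prop :=
  ContDiffOn ℝ ∞ X W ∧ ∀ q ∈ W, X q ∈ D q

/-- `D` is a smooth distribution on `U`: near every point it is spanned by a smooth frame. -/
def IsDistribution (U : Set E) (D : E → Submodule ℝ E) : Prop :=
  ∀ q ∈ U, ∃ W ⊆ U, IsOpen W ∧ q ∈ W ∧ ∃ (m : ℕ) (X : Fin m → E → E),
    (∀ i, ContDiffOn ℝ ∞ (X i) W) ∧
    ∀ y ∈ W, LinearIndependent ℝ (fun i => X i y) ∧
      Submodule.span ℝ (range fun i => X i y) = D y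

/-- the space of smooth vector fields on `W` tangent to `D` -/
def sectionSpace (D : E → Submodule ℝ E) (W : Set E) : Submodule ℝ (E → E) where
  carrier := {X | IsSection D W X}
  add_mem' := fun {_ _} hX hY => ⟨hX.1.add hY.1, fun q hq => (D q).add_mem (hX.2 q hq) (hY.2 q hq)⟩
  zero_mem' := ⟨contDiffOn_const, fun q _ => (D q).zero_mem⟩
  smul_mem' := fun c _ hX => ⟨contDiffOn_const.smul hX.1, fun q hq => (D q).smul_mem c (hX.2 q hq)⟩

/-- `layer D W j` is the space of vector fields on `W` written `D^(j+1)`: `D^1` consists of the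
sections of `D` over `W` and `D^(j+1) = D^j + [D, D^j]`. -/
def layer (D : E → Submodule ℝ E) (W : Set E) : ℕ → Submodule ℝ (E → E)
  | 0 => sectionSpace D W
  | j + 1 => layer D W j ⊔ Submodule.span ℝ
      {Z | ∃ X Y, IsSection D W X ∧ Y ∈ layer D W j ∧ Z = VectorField.lieBracket ℝ X Y}

/-- `D` is bracket-generating on `U`: for every `q ∈ U` some `D^j(q)` is the whole tangent
space. -/
def IsBracketGenerating (U : Set E) (D : E → Submodule ℝ E) : Prop :=
  ∀ q ∈ U, ∃ W ⊆ U, IsOpen W ∧ q ∈ W ∧ ∃ j, ∀ v : E, ∃ Z ∈ layer D W j, Z q = v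

/-- `g` is a sub-Riemannian metric on `(U, D)`: for `q ∈ U` the restriction of `g q` to `D q` is
an inner product, depending smoothly on `q`. The values of `g q` off `D q` are irrelevant. -/
structure IsMetric (U : Set E) (D : E → Submodule ℝ E) (g : E → E → E → ℝ) : Prop where
  add : ∀ q ∈ U, ∀ u ∈ D q, ∀ v ∈ D q, ∀ w ∈ D q, g q (u + v) w = g q u w + g q v w
  smul : ∀ q ∈ U, ∀ a : ℝ, ∀ v ∈ D q, ∀ w ∈ D q, g q (a • v) w = a * g q v w
  symm : ∀ q ∈ U, ∀ v ∈ D q, ∀ w ∈ D q, g q v w = g q w v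
  pos : ∀ q ∈ U, ∀ v ∈ D q, v ≠ 0 → 0 < g q v v
  smooth : ∀ W ⊆ U, IsOpen W → ∀ X Y, IsSection D W X → IsSection D W Y →
    ContDiffOn ℝ ∞ (fun q => g q (X q) (Y q)) W

/-- `(U, D, g)` is a sub-Riemannian structure: `U` is open and connected, `D` is a smooth
bracket-generating distribution on `U` and `g` is a sub-Riemannian metric on `(U, D)`. -/
structure IsSubRiemannian (U : Set E) (D : E → Submodule ℝ E) (g : E → E → E → ℝ) : Prop where
  isOpen : IsOpen U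
  connected : IsConnected U
  distribution : IsDistribution U D
  bracket : IsBracketGenerating U D
  metric : IsMetric U D g

/-- `h(q, p)`, the square of the operator norm of `p` restricted to `D q` with respect to `g q`;
a point of the cotangent bundle is written `z = (q, p)`. -/
noncomputable def ham (D : E → Submodule ℝ E) (g : E → E → E → ℝ) (z : E × (E →L[ℝ] ℝ)) : ℝ :=
  sSup {r | ∃ v ∈ D z.1, g z.1 v v ≤ 1 ∧ r = |z.2 v|} ^ 2

/-- `H` is differentiable at `z`, with differential `ζ ↦ ℓ ζ`. -/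
def HasDifferential {F : Type} [NormedAddCommGroup F] [NormedSpace ℝ F] (H : F → ℝ) (z : F)
    (ℓ : F → ℝ) : Prop :=
  ∃ L : F →L[ℝ] ℝ, HasFDerivAt H L z ∧ ∀ ζ, L ζ = ℓ ζ

/-- `w` is the value at `z` of the Hamiltonian vector field of `H`: `H` is differentiable at `z`
and `dH(z) = σ(w, ·)`, with the canonical symplectic form `σ(w, ζ) = ζ_p(w_q) - w_p(ζ_q)`. -/
def IsHamVec (H : E × (E →L[ℝ] ℝ) → ℝ) (z w : E × (E →L[ℝ] ℝ)) : Prop :=
  HasDifferential H z fun ζ => ζ.2 w.1 - w.2 ζ.1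

/-- `c` is a normal extremal of `g` over `V`, on the interval `I`: an integral curve of the
Hamiltonian field of `h` on a nonzero level set of `h`. -/
def IsNormalExtremal (D : E → Submodule ℝ E) (g : E → E → E → ℝ) (V : Set E) (I : Set ℝ)
    (c : ℝ → E × (E →L[ℝ] ℝ)) : Prop :=
  (∀ t ∈ I, (c t).1 ∈ V ∧ ∃ w, IsHamVec (ham D g) (c t) w ∧ HasDerivAt c w t) ∧
  ∃ r : ℝ, r ≠ 0 ∧ ∀ t ∈ I, ham D g (c t) = r

/-- `z` lies in `D^⊥` (the zero section excluded): a nonzero covector annihilating `D`. -/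
def IsAnnihilating (D : E → Submodule ℝ E) (z : E × (E →L[ℝ] ℝ)) : Prop :=
  z.2 ≠ 0 ∧ ∀ v ∈ D z.1, z.2 v = 0

/-- the values at `z` of the Hamiltonian fields of the functions `H_X(q, p) = p(X(q))`, `X` a
smooth vector field tangent to `D` near the base point of `z` -/
def hamSet (D : E → Submodule ℝ E) (V : Set E) (z : E × (E →L[ℝ] ℝ)) :
    Set (E × (E →L[ℝ] ℝ)) :=
  {w | ∃ (W : Set E) (X : E → E), W ⊆ V ∧ IsOpen W ∧ z.1 ∈ W ∧ IsSection D W X ∧
    IsHamVec (fun z => z.2 (X z.1)) z w}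

/-- `w` lies in the linear span of the set `s`. -/
def IsInSpan {F : Type} [NormedAddCommGroup F] [NormedSpace ℝ F] (s : Set F) (w : F) : Prop :=
  w ∈ Submodule.span ℝ s

/-- the curve `c` has at `t` a derivative lying in the span of the Hamiltonian fields of `H_X`,
`X` tangent to `D` -/
def IsTangentAt (D : E → Submodule ℝ E) (V : Set E) (c : ℝ → E × (E →L[ℝ] ℝ)) (t : ℝ) : Prop :=
  ∃ w, IsInSpan (hamSet D V (c t)) w ∧ HasDerivAt c w t

/-- `c` is an abnormal extremal of `D` over `V`, on the interval `I`: a locally absolutely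
continuous curve of nonzero covectors annihilating `D`, whose projection is not a single point and
which is tangent almost everywhere to the span of the Hamiltonian fields of
`H_X(q, p) = p(X(q))`, `X` tangent to `D`. -/
def IsAbnormalExtremal (D : E → Submodule ℝ E) (V : Set E) (I : Set ℝ)
    (c : ℝ → E × (E →L[ℝ] ℝ)) : Prop :=
  (∀ t ∈ I, (c t).1 ∈ V ∧ IsAnnihilating D (c t)) ∧
  (∀ a ∈ I, ∀ b ∈ I, AbsolutelyContinuousOnInterval c a b) ∧
  (∃ s ∈ I, ∃ t ∈ I, (c s).1 ≠ (c t).1) ∧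
  ∀ᵐ t : ℝ, t ∈ I → IsTangentAt D V c t

/-- `γ` restricted to the interval `I` is a geodesic of `g` in `V`: the projection of a normal or
abnormal extremal over `V`. -/
def IsGeodesic (D : E → Submodule ℝ E) (g : E → E → E → ℝ) (V : Set E) (I : Set ℝ)
    (γ : ℝ → E) : Prop :=
  ∃ c : ℝ → E × (E →L[ℝ] ℝ), (∀ t ∈ I, (c t).1 = γ t) ∧
    (IsNormalExtremal D g V I c ∨ IsAbnormalExtremal D V I c)

/-- every geodesic of `g` in `V`, on any nonempty open interval, is after an affine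
reparametrisation a geodesic of `g'` in `V` -/
def GeodesicsAffineIn (D : E → Submodule ℝ E) (g g' : E → E → E → ℝ) (V : Set E) : Prop :=
  ∀ (I : Set ℝ) (γ : ℝ → E), IsOpen I → I.OrdConnected → I.Nonempty → IsGeodesic D g V I γ →
    ∃ a b : ℝ, a ≠ 0 ∧ IsGeodesic D g' V {s | a * s + b ∈ I} (fun s => γ (a * s + b))

/-- `g` and `g'` have the same geodesics in `V` up to affine reparametrisation. -/
def AffinelyEquivalent (D : E → Submodule ℝ E) (g g' : E → E → E → ℝ) (V : Set E) : Prop :=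
  GeodesicsAffineIn D g g' V ∧ GeodesicsAffineIn D g' g V

/-- `g'` is constantly proportional to `g` on `V`: `g' = κ g` on `D`, with a constant `κ > 0`. -/
def ConstProportional (D : E → Submodule ℝ E) (g g' : E → E → E → ℝ) (V : Set E) : Prop :=
  ∃ κ : ℝ, 0 < κ ∧ ∀ q ∈ V, ∀ v ∈ D q, ∀ w ∈ D q, g' q v w = κ * g q v w

/-- `Φ` is a diffeomorphism of the open set `W` onto the open set `W'`, with inverse `Ψ`. -/
structure IsDiffeo {E' : Type} [NormedAddCommGroup E'] [NormedSpace ℝ E'] (W : Set E)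
    (W' : Set E') (Φ : E → E') (Ψ : E' → E) : Prop where
  smooth : ContDiffOn ℝ ∞ Φ W
  smooth_inv : ContDiffOn ℝ ∞ Ψ W'
  maps : MapsTo Φ W W'
  maps_inv : MapsTo Ψ W' W
  left : ∀ q ∈ W, Ψ (Φ q) = q
  right : ∀ x ∈ W', Φ (Ψ x) = x

/-- `Φ` identifies `(D, g)` on `W` with `(D', g')`: `dΦ(q)` maps `D(q)` onto `D'(Φ(q))` and `g` to
`g'`. -/
def IsIsometricOn {E' : Type} [NormedAddCommGroup E'] [NormedSpace ℝ E'] (W : Set E)
    (D : E → Submodule ℝ E) (g : E → E → E → ℝ) (D' : E' → Submodule ℝ E')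
    (g' : E' → E' → E' → ℝ) (Φ : E → E') : Prop :=
  ∀ q ∈ W, (∀ v, v ∈ D q ↔ fderiv ℝ Φ q v ∈ D' (Φ q)) ∧
    ∀ v ∈ D q, g q v v = g' (Φ q) (fderiv ℝ Φ q v) (fderiv ℝ Φ q v)

/-- the product distribution: `v` lies in it iff both components lie in `D₁`, `D₂` -/
def prodDist {E₁ E₂ : Type} [NormedAddCommGroup E₁] [NormedSpace ℝ E₁] [NormedAddCommGroup E₂]
    [NormedSpace ℝ E₂] (D₁ : E₁ → Submodule ℝ E₁) (D₂ : E₂ → Submodule ℝ E₂) (x : E₁ × E₂) :
    Submodule ℝ (E₁ × E₂) :=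
  (D₁ x.1).prod (D₂ x.2)

/-- the product metric -/
def prodMetric {E₁ E₂ : Type} (g₁ : E₁ → E₁ → E₁ → ℝ) (g₂ : E₂ → E₂ → E₂ → ℝ)
    (x v w : E₁ × E₂) : ℝ :=
  g₁ x.1 v.1 w.1 + g₂ x.2 v.2 w.2

/-- a sub-Riemannian structure on an open subset of `ℝⁿ`, of positive dimension and rank -/
structure IsFactor {n : ℕ} (U : Set (Fin n → ℝ)) (D : (Fin n → ℝ) → Submodule ℝ (Fin n → ℝ))
    (g : (Fin n → ℝ) → (Fin n → ℝ) → (Fin n → ℝ) → ℝ) : Prop where
  dim : 0 < n
  rank : ∀ x ∈ U, D x ≠ ⊥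
  sub : IsSubRiemannian U D g

/-- `(U, D, g)` is a direct product of two sub-Riemannian structures near `q₀`: some open
`W ⊆ U` around `q₀` is mapped by a diffeomorphism `Φ` onto a product `U₁ × U₂`, with
`(Uᵢ, Dᵢ, gᵢ)` sub-Riemannian structures of positive dimension and positive rank, such that `Φ`
identifies `D` and `g` with the product distribution and the product metric. -/
def IsProductNear (U : Set E) (D : E → Submodule ℝ E) (g : E → E → E → ℝ) (q₀ : E) : Prop :=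
  ∃ (n₁ n₂ : ℕ) (U₁ : Set (Fin n₁ → ℝ)) (U₂ : Set (Fin n₂ → ℝ))
    (D₁ : (Fin n₁ → ℝ) → Submodule ℝ (Fin n₁ → ℝ)) (D₂ : (Fin n₂ → ℝ) → Submodule ℝ (Fin n₂ → ℝ))
    (g₁ : (Fin n₁ → ℝ) → (Fin n₁ → ℝ) → (Fin n₁ → ℝ) → ℝ)
    (g₂ : (Fin n₂ → ℝ) → (Fin n₂ → ℝ) → (Fin n₂ → ℝ) → ℝ)
    (W : Set E) (Φ : E → (Fin n₁ → ℝ) × (Fin n₂ → ℝ)) (Ψ : (Fin n₁ → ℝ) × (Fin n₂ → ℝ) → E),
    IsFactor U₁ D₁ g₁ ∧ IsFactor U₂ D₂ g₂ ∧ W ⊆ U ∧ IsOpen W ∧ q₀ ∈ W ∧
    IsDiffeo W (U₁ ×ˢ U₂) Φ Ψ ∧ IsIsometricOn W D g (prodDist D₁ D₂) (prodMetric g₁ g₂) Φ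

end Pool.Agent.D0H81.SR
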