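import Pool.Agent.D0H81.SR.Const3

set_option autoImplicit false
set_option linter.unusedVariables false
set_option linter.deprecated false
set_option linter.unusedSectionVars false

open Set Metric Filter Topology
open scoped ContDiff NNReal Matrix

namespace Pool.Agent.D0H81.SR

variable {E : Type} [NormedAddCommGroup E] [NormedSpace ℝ E] [FiniteDimensional ℝ E]
variable {ι : Type} [Fintype ι]

lemma om_Ham {X : ι → E → E} (κ κ' : ι → ℝ) (z : TT E) :
    om (Ham X κ z) (Ham X κ' z) =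
      - z.2 (bb X z.1 (fun i => κ i * mom X i z) (fun i => κ' i * mom X i z)) := by
  have h2 : ∀ (κ κ' : ι → ℝ), (Ham X κ' z).2 (Ham X κ z).1 =
      - ∑ i, ∑ j, (κ i * mom X i z * (κ' j * mom X j z)) * z.2 (fderiv ℝ (X j) z.1 (X i z.1)) := by
    intro κ κ'
    simp only [Ham, Kop, ContinuousLinearMap.neg_apply, ContinuousLinearMap.comp_apply,
      ContinuousLinearMap.sum_apply, ContinuousLinearMap.smul_apply, map_sum, map_smul, smul_eq_mul]
    rw [← Finset.sum_neg_distrib]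
    refine Finset.sum_congr rfl fun i _ => ?_
    rw [mul_neg, Finset.mul_sum]
    congr 1
    refine Finset.sum_congr rfl fun j _ => ?_
    ring
  have h1 : z.2 (bb X z.1 (fun i => κ i * mom X i z) (fun i => κ' i * mom X i z)) =
      ∑ i, ∑ j, (κ i * mom X i z * (κ' j * mom X j z)) * z.2 (fderiv ℝ (X j) z.1 (X i z.1)) -
      ∑ i, ∑ j, (κ i * mom X i z * (κ' j * mom X j z)) * z.2 (fderiv ℝ (X i) z.1 (X j z.1)) := by
    rw [bb_apply]
    simp only [map_sum, map_smul, smul_eq_mul, brk, VectorField.lieBracket, map_sub, mul_sub,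
      Finset.sum_sub_distrib]
  rw [h1, om, h2, h2]
  rw [Finset.sum_comm (f := fun i j => (κ' i * mom X i z * (κ j * mom X j z)) *
    z.2 (fderiv ℝ (X j) z.1 (X i z.1)))]
  have e1 : ∀ i j, κ' i * mom X i z * (κ j * mom X j z) * z.2 ((fderiv ℝ (X j) z.1) (X i z.1)) =
      κ j * mom X j z * (κ' i * mom X i z) * z.2 ((fderiv ℝ (X j) z.1) (X i z.1)) := by
    intro i j; ring
  simp only [e1]
  ring

/-- Poisson commuting energies have commuting Hamiltonian fields -/
lemma Ham_comm {X : ι → E → E} (hX : ∀ i, ContDiff ℝ ∞ (X i)) (κ κ' : ι → ℝ) {O : Set (TT E)}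
    (hO : IsOpen O) (h : ∀ z ∈ O, om (Ham X κ z) (Ham X κ' z) = 0) {z : TT E} (hz : z ∈ O) :
    fderiv ℝ (Ham X κ) z (Ham X κ' z) = fderiv ℝ (Ham X κ') z (Ham X κ z) := by
  rw [← sub_eq_zero]
  apply om_nondeg
  intro ζ
  have h0 : HasFDerivAt (Ham X κ) (fderiv ℝ (Ham X κ) z) z :=
    ((Ham_smooth hX κ).differentiable inf_ne z).hasFDerivAt
  have h0' : HasFDerivAt (Ham X κ') (fderiv ℝ (Ham X κ') z) z :=
    ((Ham_smooth hX κ').differentiable inf_ne z).hasFDerivAt
  have hl : HasDerivAt (fun t : ℝ => z + t • ζ) ζ 0 := by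
    have := ((hasDerivAt_id (0:ℝ)).smul_const ζ).const_add z
    simpa using this
  have a1 : HasDerivAt (fun t : ℝ => Ham X κ (z + t • ζ)) (fderiv ℝ (Ham X κ) z ζ) 0 := by
    have : HasFDerivAt (Ham X κ) (fderiv ℝ (Ham X κ) z) (z + (0:ℝ) • ζ) := by simpa using h0
    exact HasFDerivAt.comp_hasDerivAt 0 this hl
  have a2 : HasDerivAt (fun t : ℝ => Ham X κ' (z + t • ζ)) (fderiv ℝ (Ham X κ') z ζ) 0 := by
    have : HasFDerivAt (Ham X κ') (fderiv ℝ (Ham X κ') z) (z + (0:ℝ) • ζ) := by simpa using h0'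
    exact HasFDerivAt.comp_hasDerivAt 0 this hl
  have a3 := om_hasDerivAt a1 a2
  have a4 : (fun t : ℝ => om (Ham X κ (z + t • ζ)) (Ham X κ' (z + t • ζ))) =ᶠ[𝓝 0] fun _ => 0 := by
    have hc : Tendsto (fun t : ℝ => z + t • ζ) (𝓝 0) (𝓝 z) := by
      have := hl.continuousAt.tendsto
      simpa using this
    filter_upwards [hc.eventually (hO.mem_nhds hz)] with t ht
    exact h _ ht
  have a5 := a3.unique ((hasDerivAt_const (0:ℝ) (0:ℝ)).congr_of_eventuallyEq a4)
  simp only [zero_smul, add_zero] at a5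
  rw [om_sub_left, Ham_symm hX κ, Ham_symm hX κ' z (Ham X κ z) ζ]
  rw [om_swap (Ham X κ z)] at a5
  linarith

/-- restriction to a block -/
noncomputable def blk (lam : ι → ℝ) (a : ℝ) (u : ι → ℝ) : ι → ℝ := fun k => if lam k = a then u k else 0

structure Dat.IsDiag (D : Dat E ι) (lam : ι → ℝ) [DecidableEq ι] : Prop where
  pos : ∀ i, 0 < lam i
  diag : ∀ i j q, D.S i j q = if i = j then lam i else 0

namespace Dat

variable [DecidableEq ι] {D : Dat E ι} {lam : ι → ℝ}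

lemma IsDiag.MM (h : D.IsDiag lam) (q : E) (v : ι → ℝ) : MM D.S q v = fun k => lam k * v k := by
  funext k
  simp [MM_apply, h.diag]

lemma IsDiag.fd (h : D.IsDiag lam) (i j : ι) (q : E) : fderiv ℝ (D.S i j) q = 0 := by
  have : D.S i j = fun _ => if i = j then lam i else 0 := by funext q; exact h.diag i j q
  rw [this]; simp

lemma IsDiag.CC (h : D.IsDiag lam) (q V : E) (x y : ι → ℝ) : CC D.S q V x y = 0 := by
  simp [CC_apply, h.fd]

lemma IsDiag.inh (h : D.IsDiag lam) (z : TT E) : inh D.X D.S z = 0 := by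
  simp [SR.inh, h.fd]

lemma IsDiag.eb (h : D.IsDiag lam) (q : E) :
    EB (SR.MM D.S q) (fun α => Pi.single α 1) lam := by
  refine ⟨fun α => ?_, fun α β => ?_, fun v => ?_⟩
  · rw [h.MM]
    funext k
    by_cases hk : k = α
    · subst hk; simp
    · simp [hk]
  · simp [Pi.single_apply, eq_comm]
  · funext k
    simp [Finset.sum_apply, Pi.single_apply]

lemma IsDiag.eig_blk (h : D.IsDiag lam) (q : E) (a : ℝ) (u : ι → ℝ) :
    SR.MM D.S q (blk lam a u) = a • blk lam a u := by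
  rw [h.MM]
  funext k
  simp only [blk, Pi.smul_apply, smul_eq_mul]
  split_ifs with hk
  · rw [hk]
  · simp

/-- the trilinear form at a point -/
noncomputable def tt (X : ι → E → E) (q : E) (ψ : ι → Co E) (x y w : ι → ℝ) : ℝ :=
  ∑ l, ψ l (bb X q x y) * w l

lemma tt_add1 (X : ι → E → E) (q : E) (ψ : ι → Co E) (x x' y w : ι → ℝ) :
    tt X q ψ (x + x') y w = tt X q ψ x y w + tt X q ψ x' y w := by
  simp [tt, add_mul, Finset.sum_add_distrib]

lemma tt_swap (X : ι → E → E) (q : E) (ψ : ι → Co E) (x y w : ι → ℝ) :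
    tt X q ψ x y w = - tt X q ψ y x w := by
  unfold tt
  rw [← Finset.sum_neg_distrib]
  refine Finset.sum_congr rfl fun l _ => ?_
  rw [bb_swap, map_neg, neg_mul]

lemma tt_add3 (X : ι → E → E) (q : E) (ψ : ι → Co E) (x y w w' : ι → ℝ) :
    tt X q ψ x y (w + w') = tt X q ψ x y w + tt X q ψ x y w' := by
  simp [tt, mul_add, Finset.sum_add_distrib]

lemma tt_smul3 (X : ι → E → E) (q : E) (ψ : ι → Co E) (x y w : ι → ℝ) (c : ℝ) :
    tt X q ψ x y (c • w) = c * tt X q ψ x y w := by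
  simp only [tt, Pi.smul_apply, smul_eq_mul, Finset.mul_sum]
  exact Finset.sum_congr rfl fun l _ => by ring

lemma IsDiag.key (h : D.IsDiag lam) {q : E} {p0 : Co E} (h0 : (q, p0) ∈ Gset D.X D.V)
    {ψ : ι → Co E} (hψ : ∀ i j, ψ i (D.X j q) = if i = j then 1 else 0) (a : ℝ)
    {x y : ι → ℝ} (hx : SR.MM D.S q x = a • x)
    (hy : ∀ α, lam α = a → y α = 0) :
    tt D.X q ψ y x (SR.MM D.S q y - a • y) = 0 := by
  have h1 := D.cub_zero h0 hψ (h.eb q) a (x + y)
  unfold cub at h1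
  have hPy : Pr (fun α => Pi.single α 1) lam a y = 0 := by
    apply (h.eb q).Pr_zero
    intro α hα
    simp [hy α hα]
  have hPx := (h.eb q).Pr_eig hx
  rw [map_add, hPx, hPy, add_zero, add_sub_cancel_left, h.CC, h.CC] at h1
  simp only [mul_zero, sub_zero, add_zero, map_add, hx] at h1
  unfold tt
  rw [← h1]
  refine Finset.sum_congr rfl fun l _ => ?_
  simp only [Pi.add_apply, Pi.sub_apply, Pi.smul_apply, smul_eq_mul]
  ring

lemma IsDiag.supp (h : D.IsDiag lam) {q : E} {a b : ℝ} {x : ι → ℝ} (hx : SR.MM D.S q x = a • x)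
    (hab : a ≠ b) (α : ι) (hα : lam α = b) : x α = 0 := by
  rw [h.MM] at hx
  have h1 := congrFun hx α
  simp only [Pi.smul_apply, smul_eq_mul, hα] at h1
  have h2 : (a - b) * x α = 0 := by linarith
  exact (mul_eq_zero.1 h2).resolve_left (sub_ne_zero.2 hab)

lemma IsDiag.t2 (h : D.IsDiag lam) {q : E} {p0 : Co E} (h0 : (q, p0) ∈ Gset D.X D.V)
    {ψ : ι → Co E} (hψ : ∀ i j, ψ i (D.X j q) = if i = j then 1 else 0) {a b : ℝ}
    {x y : ι → ℝ} (hx : SR.MM D.S q x = a • x) (hy : SR.MM D.S q y = b • y) (hab : a ≠ b) :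
    tt D.X q ψ y x y = 0 := by
  have h1 := h.key h0 hψ a hx (h.supp hy hab.symm)
  rw [hy, ← sub_smul, tt_smul3] at h1
  exact (mul_eq_zero.1 h1).resolve_left (sub_ne_zero.2 hab.symm)

lemma IsDiag.t3' (h : D.IsDiag lam) {q : E} {p0 : Co E} (h0 : (q, p0) ∈ Gset D.X D.V)
    {ψ : ι → Co E} (hψ : ∀ i j, ψ i (D.X j q) = if i = j then 1 else 0) {a b c : ℝ}
    {x y w : ι → ℝ} (hx : SR.MM D.S q x = a • x) (hy : SR.MM D.S q y = b • y)
    (hw : SR.MM D.S q w = c • w) (hab : a ≠ b) (hac : a ≠ c) :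
    (c - a) * tt D.X q ψ y x w + (b - a) * tt D.X q ψ w x y = 0 := by
  have h1 := h.key h0 hψ a hx (y := y + w) (fun α hα => by
    simp [h.supp hy hab.symm α hα, h.supp hw hac.symm α hα])
  have h2 : SR.MM D.S q (y + w) - a • (y + w) = (b - a) • y + (c - a) • w := by
    rw [map_add, hy, hw, smul_add, sub_smul, sub_smul]; abel
  rw [h2] at h1
  simp only [tt_add1, tt_add3, tt_smul3, h.t2 h0 hψ hx hy hab, h.t2 h0 hψ hx hw hac] at h1
  linarith

lemma IsDiag.t3 (h : D.IsDiag lam) {q : E} {p0 : Co E} (h0 : (q, p0) ∈ Gset D.X D.V)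
    {ψ : ι → Co E} (hψ : ∀ i j, ψ i (D.X j q) = if i = j then 1 else 0) {a b c : ℝ}
    {x y w : ι → ℝ} (hx : SR.MM D.S q x = a • x) (hy : SR.MM D.S q y = b • y)
    (hw : SR.MM D.S q w = c • w) (hab : a ≠ b) (hac : a ≠ c) (hbc : b ≠ c) :
    tt D.X q ψ x y w = 0 := by
  have r1 := h.t3' h0 hψ hx hy hw hab hac
  have r2 := h.t3' h0 hψ hy hx hw hab.symm hbc
  have r3 := h.t3' h0 hψ hw hx hy hac.symm hbc.symm
  rw [tt_swap D.X q ψ y x w, tt_swap D.X q ψ w x y] at r1
  rw [tt_swap D.X q ψ w y x] at r2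
  set A := tt D.X q ψ x y w
  set B := tt D.X q ψ x w y
  set C := tt D.X q ψ y w x
  have h1 : (b - c) * (c - a) * A = 0 := by
    linear_combination (-(b - c) / 2) * r1 + ((a-c)/2) * r2 - ((b - a)/2) * r3
  rcases mul_eq_zero.1 h1 with h2 | h2
  · rcases mul_eq_zero.1 h2 with h3 | h3
    · exact absurd (sub_eq_zero.1 h3) hbc
    · exact absurd (sub_eq_zero.1 h3).symm hac
  · exact h2

end Dat

end Pool.Agent.D0H81.SR
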