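import Pool.Agent.D0H81.SR.Diag

set_option autoImplicit false
set_option linter.unusedVariables false
set_option linter.deprecated false
set_option linter.unusedSectionVars false

open Set Metric Filter Topology
open scoped ContDiff NNReal Matrix

namespace Pool.Agent.D0H81.SR

variable {E : Type} [NormedAddCommGroup E] [NormedSpace ℝ E] [FiniteDimensional ℝ E]
variable {ι : Type} [Fintype ι]

namespace Dat

variable [DecidableEq ι] {D : Dat E ι} {lam : ι → ℝ}

lemma blk_sum (lam : ι → ℝ) (K : ℝ → ℝ) (u : ι → ℝ) :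
    (fun i => K (lam i) * u i) = ∑ c ∈ Finset.univ.image lam, K c • blk lam c u := by
  funext i
  simp only [Finset.sum_apply, Pi.smul_apply, smul_eq_mul, blk]
  rw [Finset.sum_eq_single (lam i)]
  · simp
  · intro b _ hb
    simp [hb.symm]
  · intro h
    exact absurd (Finset.mem_image_of_mem lam (Finset.mem_univ i)) h

lemma blk_sum' (lam : ι → ℝ) (u : ι → ℝ) :
    u = ∑ c ∈ Finset.univ.image lam, blk lam c u := by
  have := blk_sum lam (fun _ => 1) u
  simpa using this

lemma tt_sum3 (X : ι → E → E) (q : E) (ψ : ι → Co E) (x y : ι → ℝ) {κ : Type} (s : Finset κ)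
    (w : κ → ι → ℝ) : tt X q ψ x y (∑ c ∈ s, w c) = ∑ c ∈ s, tt X q ψ x y (w c) := by
  unfold tt
  simp only [Finset.sum_apply, Finset.mul_sum]
  rw [Finset.sum_comm]

lemma IsDiag.blk_pair (h : D.IsDiag lam) (a b : ℝ) (z : TT E) (hz : z.1 ∈ D.V) :
    z.2 (bb D.X z.1 (blk lam a (mv D.X z)) (blk lam b (mv D.X z))) = 0 := by
  by_cases hab : a = b
  · subst hab; rw [bb_self, map_zero]
  have hmv := mv_cont (X := D.X) D.hX
  have hblk : ∀ a, Continuous (fun z => blk lam a (mv D.X z)) := by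
    intro a
    refine continuous_pi fun k => ?_
    unfold blk
    by_cases hk : lam k = a
    · simp only [hk, if_true]; exact (continuous_apply k).comp hmv
    · simp only [hk, if_false]; exact continuous_const
  apply D.dense_ext (f := fun z => z.2 (bb D.X z.1 (blk lam a (mv D.X z)) (blk lam b (mv D.X z))))
    (continuous_snd.clm_apply (bb_cont D.hX (hblk a) (hblk b))) ?_ z hz
  rintro ⟨q, p⟩ hG
  simp only
  obtain ⟨ψ, hψ⟩ := exists_dual _ (D.hLI q hG.1)
  set u := mv D.X (q, p) with hu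
  have hx := h.eig_blk q a u
  have hy := h.eig_blk q b u
  have hmem := D.bb_eig hG.1 hx hy hab
  have hexp := expand_of_dual hψ hmem
  rw [hexp, map_sum]
  have h1 : ∑ l, p ((ψ l) (bb D.X q (blk lam a u) (blk lam b u)) • D.X l q) =
      tt D.X q ψ (blk lam a u) (blk lam b u) u := by
    unfold tt
    refine Finset.sum_congr rfl fun l _ => ?_
    rw [map_smul, smul_eq_mul]
    rfl
  rw [h1]
  have h2 : tt D.X q ψ (blk lam a u) (blk lam b u) u =
      tt D.X q ψ (blk lam a u) (blk lam b u) (∑ c ∈ Finset.univ.image lam, blk lam c u) := by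
    rw [← blk_sum' lam u]
  rw [h2, tt_sum3]
  refine Finset.sum_eq_zero fun c _ => ?_
  by_cases hca : c = a
  · subst hca
    exact h.t2 hG hψ hy hx (Ne.symm hab)
  · by_cases hcb : c = b
    · subst hcb
      rw [tt_swap, h.t2 hG hψ hx hy hab, neg_zero]
    · exact h.t3 hG hψ hx hy (h.eig_blk q c u) hab (Ne.symm hca) (Ne.symm hcb)

lemma IsDiag.wt_pair (h : D.IsDiag lam) (K K' : ℝ → ℝ) (z : TT E) (hz : z.1 ∈ D.V) :
    om (Ham D.X (fun i => K (lam i)) z) (Ham D.X (fun i => K' (lam i)) z) = 0 := by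
  rw [om_Ham, neg_eq_zero]
  have e1 : (fun i => K (lam i) * mom D.X i z) =
      ∑ c ∈ Finset.univ.image lam, K c • blk lam c (mv D.X z) := blk_sum lam K (mv D.X z)
  have e2 : (fun i => K' (lam i) * mom D.X i z) =
      ∑ c ∈ Finset.univ.image lam, K' c • blk lam c (mv D.X z) := blk_sum lam K' (mv D.X z)
  rw [e1, e2, map_sum, map_sum]
  refine Finset.sum_eq_zero fun b _ => ?_
  rw [map_sum, LinearMap.sum_apply, map_sum]
  refine Finset.sum_eq_zero fun a _ => ?_
  rw [LinearMap.map_smul, LinearMap.map_smul, LinearMap.smul_apply, map_smul, map_smul,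
    h.blk_pair a b z hz, smul_zero, smul_zero]

lemma IsDiag.comm (h : D.IsDiag lam) (K K' : ℝ → ℝ) {z : TT E} (hz : z.1 ∈ D.V) :
    fderiv ℝ (Ham D.X (fun i => K (lam i))) z (Ham D.X (fun i => K' (lam i)) z) =
      fderiv ℝ (Ham D.X (fun i => K' (lam i))) z (Ham D.X (fun i => K (lam i)) z) :=
  Ham_comm D.hX _ _ (O := {z | z.1 ∈ D.V}) (D.hV.preimage continuous_fst)
    (fun z hz => h.wt_pair K K' z hz) hz

/-- the lift is transported along every partial Hamiltonian flow -/
theorem IsDiag.pder (h : D.IsDiag lam) {P : TT E → Co E}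
    (hP : ContDiffOn ℝ ∞ P (Gset D.X D.V))
    (hP1 : ∀ z ∈ Gset D.X D.V, ∀ k, P z (D.X k z.1) = ∑ j, D.S k j z.1 * mom D.X j z)
    (hP2 : ∀ z ∈ Gset D.X D.V, fderiv ℝ P z (Ham D.X 1 z) =
      -((P z).comp (Kop D.X 1 z)) + SR.inh D.X D.S z) (K : ℝ → ℝ) {z : TT E}
    (hz : z ∈ Gset D.X D.V) :
    fderiv ℝ P z (Ham D.X (fun i => K (lam i)) z) =
      -((P z).comp (Kop D.X (fun i => K (lam i)) z)) := by
  have hGo : IsOpen (Gset D.X D.V) := Gset_open D.hX D.hV
  set G := Gset D.X D.V with hG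
  have hP1' : ∀ z ∈ G, ∀ k, P z (D.X k z.1) = lam k * mom D.X k z := by
    intro z hz k
    rw [hP1 z hz k]
    simp [h.diag]
  set κ : ι → ℝ := fun i => K (lam i) with hκ
  set A := Ham D.X 1 with hA
  set B := Ham D.X κ with hB
  set At := Ham D.X (fun i => (lam i)⁻¹) with hAt
  set Bt := Ham D.X (fun i => K (lam i) * (lam i)⁻¹) with hBt
  set Φ : TT E → TT E := fun z => (z.1, P z) with hΦ
  have hΦs : ContDiffOn ℝ ∞ Φ G := contDiff_fst.contDiffOn.prodMk hP
  have hmomΦ : ∀ z ∈ G, ∀ i, mom D.X i (Φ z) = lam i * mom D.X i z := fun z hz i => hP1' z hz i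
  have hKop : ∀ z ∈ G, Kop D.X (fun i => K (lam i) * (lam i)⁻¹) (Φ z) = Kop D.X κ z := by
    intro z hz
    unfold Kop
    refine Finset.sum_congr rfl fun i _ => ?_
    rw [hmomΦ z hz]
    congr 1
    have := (h.pos i).ne'
    simp only [hκ]
    field_simp
  have hKop1 : ∀ z ∈ G, Kop D.X (fun i => (lam i)⁻¹) (Φ z) = Kop D.X 1 z := by
    intro z hz
    unfold Kop
    refine Finset.sum_congr rfl fun i _ => ?_
    rw [hmomΦ z hz]
    congr 1
    have := (h.pos i).ne'
    simp only [Pi.one_apply]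
    field_simp
  have hBt1 : ∀ z ∈ G, Bt (Φ z) = ((B z).1, -((P z).comp (Kop D.X κ z))) := by
    intro z hz
    refine Prod.ext ?_ ?_
    · simp only [hBt, hB, Ham]
      refine Finset.sum_congr rfl fun i _ => ?_
      rw [hmomΦ z hz]
      congr 1
      have := (h.pos i).ne'
      simp only [hκ]
      field_simp
    · simp only [hBt, Ham]
      rw [hKop z hz]
  have hAt1 : ∀ z ∈ G, At (Φ z) = ((A z).1, -((P z).comp (Kop D.X 1 z))) := by
    intro z hz
    refine Prod.ext ?_ ?_
    · simp only [hAt, hA, Ham]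
      refine Finset.sum_congr rfl fun i _ => ?_
      rw [hmomΦ z hz]
      congr 1
      have := (h.pos i).ne'
      simp only [Pi.one_apply]
      field_simp
    · simp only [hAt, Ham]
      rw [hKop1 z hz]
  have hPd : ∀ z ∈ G, HasFDerivAt P (fderiv ℝ P z) z := fun z hz =>
    ((hP.contDiffAt (hGo.mem_nhds hz)).differentiableAt inf_ne).hasFDerivAt
  have hΦd : ∀ z ∈ G, HasFDerivAt Φ (fderiv ℝ Φ z) z := fun z hz =>
    ((hΦs.contDiffAt (hGo.mem_nhds hz)).differentiableAt inf_ne).hasFDerivAt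
  have hΦe : ∀ z ∈ G, ∀ ζ, fderiv ℝ Φ z ζ = (ζ.1, fderiv ℝ P z ζ) := by
    intro z hz ζ
    have h1 : HasFDerivAt Φ ((ContinuousLinearMap.fst ℝ E (E →L[ℝ] ℝ)).prod (fderiv ℝ P z)) z :=
      hasFDerivAt_fst.prodMk (hPd z hz)
    rw [h1.fderiv]; rfl
  have hint : ∀ z ∈ G, fderiv ℝ Φ z (A z) = At (Φ z) := by
    intro z hz
    rw [hΦe z hz, hAt1 z hz, hA, hP2 z hz, h.inh, add_zero]
  -- the defect
  set α : TT E → Co E := fun z => fderiv ℝ P z (B z) + (P z).comp (Kop D.X κ z) with hα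
  have hψ : ∀ z ∈ G, fderiv ℝ Φ z (B z) - Bt (Φ z) = (0, α z) := by
    intro z hz
    rw [hΦe z hz, hBt1 z hz, hα]
    refine Prod.ext ?_ ?_
    · simp
    · simp
  have hfP : ContDiffOn ℝ ∞ (fderiv ℝ P) G := hP.fderiv_of_isOpen hGo (by exact_mod_cast le_top)
  have hαs : ContDiffOn ℝ ∞ α G :=
    (hfP.clm_apply (Ham_smooth D.hX κ).contDiffOn).add (hP.clm_comp (Kop_smooth D.hX κ).contDiffOn)
  have hαd : ∀ z ∈ G, HasFDerivAt α (fderiv ℝ α z) z := fun z hz =>
    ((hαs.contDiffAt (hGo.mem_nhds hz)).differentiableAt inf_ne).hasFDerivAt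
  -- the derivative of the defect along `A`
  have hmain : ∀ z ∈ G, fderiv ℝ At (Φ z) (0, α z) = (0, fderiv ℝ α z (A z)) := by
    intro z hz
    have hsym : IsSymmSndFDerivAt ℝ Φ z :=
      (hΦs.contDiffAt (hGo.mem_nhds hz)).isSymmSndFDerivAt (by simpa using two_le_inf)
    have hdd : HasFDerivAt (fderiv ℝ Φ) (fderiv ℝ (fderiv ℝ Φ) z) z :=
      (((hΦs.contDiffAt (hGo.mem_nhds hz)).fderiv_right (m := ∞)
        (by exact_mod_cast le_top)).differentiableAt inf_ne).hasFDerivAt
    have hAd : HasFDerivAt A (fderiv ℝ A z) z := ((Ham_smooth D.hX 1).differentiable inf_ne z).hasFDerivAt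
    have hBd : HasFDerivAt B (fderiv ℝ B z) z := ((Ham_smooth D.hX κ).differentiable inf_ne z).hasFDerivAt
    have hAtd : HasFDerivAt At (fderiv ℝ At (Φ z)) (Φ z) :=
      ((Ham_smooth D.hX _).differentiable inf_ne _).hasFDerivAt
    have hBtd : HasFDerivAt Bt (fderiv ℝ Bt (Φ z)) (Φ z) :=
      ((Ham_smooth D.hX _).differentiable inf_ne _).hasFDerivAt
    -- (1)
    have a1 : HasFDerivAt (fun z => fderiv ℝ Φ z (A z)) _ z := hdd.clm_apply hAd
    have a2 : HasFDerivAt (fun z => At (Φ z)) ((fderiv ℝ At (Φ z)).comp (fderiv ℝ Φ z)) z :=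
      hAtd.comp z (hΦd z hz)
    have a3 : (fun z => fderiv ℝ Φ z (A z)) =ᶠ[𝓝 z] (fun z => At (Φ z)) := by
      filter_upwards [hGo.mem_nhds hz] with y hy
      exact hint y hy
    have a4 := congrArg (fun L : TT E →L[ℝ] TT E => L (B z)) (a1.unique (a2.congr_of_eventuallyEq a3))
    simp only [ContinuousLinearMap.add_apply, ContinuousLinearMap.comp_apply,
      ContinuousLinearMap.flip_apply] at a4
    -- (2)
    have b1 : HasFDerivAt (fun z => fderiv ℝ Φ z (B z)) _ z := hdd.clm_apply hBd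
    have b2 : HasFDerivAt (fun z => Bt (Φ z)) ((fderiv ℝ Bt (Φ z)).comp (fderiv ℝ Φ z)) z :=
      hBtd.comp z (hΦd z hz)
    have b3 : (fun z => fderiv ℝ Φ z (B z) - Bt (Φ z)) =ᶠ[𝓝 z] (fun z => ((0 : E), α z)) := by
      filter_upwards [hGo.mem_nhds hz] with y hy
      exact hψ y hy
    have b4 : HasFDerivAt (fun z => ((0 : E), α z))
        ((0 : TT E →L[ℝ] E).prod (fderiv ℝ α z)) z :=
      (hasFDerivAt_const (0:E) z).prodMk (hαd z hz)
    have b5 := congrArg (fun L : TT E →L[ℝ] TT E => L (A z))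
      ((b1.sub b2).unique (b4.congr_of_eventuallyEq b3))
    simp only [ContinuousLinearMap.add_apply, ContinuousLinearMap.comp_apply,
      ContinuousLinearMap.flip_apply, ContinuousLinearMap.sub_apply] at b5
    -- commutation
    have c1 : fderiv ℝ A z (B z) = fderiv ℝ B z (A z) := by
      have := h.comm (fun _ => 1) K hz.1
      exact this
    have c2 : fderiv ℝ At (Φ z) (Bt (Φ z)) = fderiv ℝ Bt (Φ z) (At (Φ z)) :=
      h.comm (fun x => x⁻¹) (fun x => K x * x⁻¹) (z := Φ z) hz.1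
    rw [hint z hz, ← c2, ← c1, hsym (A z) (B z)] at b5
    have d1 : fderiv ℝ Φ z (B z) = Bt (Φ z) + (0, α z) := by
      rw [← hψ z hz]; abel
    rw [d1, map_add] at a4
    have d2 : fderiv ℝ At (Φ z) (0, α z) =
        ((fderiv ℝ Φ z) ((fderiv ℝ A z) (B z)) + ((fderiv ℝ (fderiv ℝ Φ) z) (B z)) (A z)) -
        fderiv ℝ At (Φ z) (Bt (Φ z)) := by
      rw [a4]; abel
    rw [d2, b5]
    rfl
  have hann : ∀ z ∈ G, ∀ i, α z (D.X i z.1) = 0 := by
    intro z hz i
    have h1 := congrArg Prod.fst (hmain z hz)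
    rw [hAt, Ham_fst_fderiv D.hX] at h1
    simp only [mom_hasFDerivAt D.hX, map_zero, add_zero] at h1
    have h2 := Fintype.linearIndependent_iff.1 (D.hLI z.1 hz.1) _ h1 i
    exact (mul_eq_zero.1 h2).resolve_left (inv_ne_zero (h.pos i).ne')
  have htr : ∀ z ∈ G, fderiv ℝ α z (A z) = -((α z).comp (Kop D.X 1 z)) := by
    intro z hz
    ext v
    have h1 := congrArg Prod.snd (hmain z hz)
    simp only at h1
    rw [← h1]
    have h2 := Ham_symm D.hX (fun i => (lam i)⁻¹) (Φ z) (0, α z) (v, 0)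
    simp only [om, map_zero, ContinuousLinearMap.zero_apply, zero_sub, sub_zero] at h2
    rw [Ham_fst_fderiv D.hX] at h2
    simp only [map_add, map_sum, map_smul, smul_eq_mul] at h2
    have h3 : ∑ i, (lam i)⁻¹ * (fderiv ℝ (mom D.X i) (Φ z)) (v, 0) * α z (D.X i (Φ z).1) = 0 := by
      refine Finset.sum_eq_zero fun i _ => ?_
      have : α z (D.X i (Φ z).1) = 0 := hann z hz i
      rw [this, mul_zero]
    rw [h3, zero_add, hKop1 z hz] at h2
    rw [ContinuousLinearMap.neg_apply, ContinuousLinearMap.comp_apply]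
    linarith
  have hres := annih (N := Unit) D.X D.hX 1 (fun _ => zero_le_one) G hGo (fun _ => α)
    (fun _ _ _ => 0) (fun _ z hz => (hαd z hz).differentiableAt) (fun _ _ => continuousOn_const)
    (fun _ z hz => by
      simp only [zero_smul, Finset.sum_const_zero, add_zero]
      exact htr z hz) (fun _ z hz i _ => hann z hz i)
  have huniv : {i : ι | (1 : ι → ℝ) i ≠ 0} = univ := by ext; simp
  rw [huniv] at hres
  have hα0 : α z = 0 := by
    have h2 : Submodule.span ℝ {v | ∃ Y, Word D.X univ Y ∧ v = Y z.1} ≤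
        LinearMap.ker (α z).toLinearMap := by
      rw [Submodule.span_le]
      rintro _ ⟨Y, hY, rfl⟩
      exact hres Y hY () z hz
    rw [D.hgen z.1 hz.1] at h2
    ext w
    exact h2 (Submodule.mem_top (x := w))
  exact eq_neg_of_add_eq_zero_left hα0

/-- the key rigidity: on the span of the iterated brackets of a block the lift is a multiple of the
covector -/
theorem IsDiag.block (h : D.IsDiag lam) {P : TT E → Co E}
    (hP : ContDiffOn ℝ ∞ P (Gset D.X D.V))
    (hP1 : ∀ z ∈ Gset D.X D.V, ∀ k, P z (D.X k z.1) = ∑ j, D.S k j z.1 * mom D.X j z)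
    (hP2 : ∀ z ∈ Gset D.X D.V, fderiv ℝ P z (Ham D.X 1 z) =
      -((P z).comp (Kop D.X 1 z)) + SR.inh D.X D.S z) (a : ℝ) (Y : E → E)
    (hY : Word D.X {i | lam i = a} Y) {z : TT E} (hz : z ∈ Gset D.X D.V) :
    P z (Y z.1) = a * z.2 (Y z.1) := by
  have hGo : IsOpen (Gset D.X D.V) := Gset_open D.hX D.hV
  set K : ℝ → ℝ := fun x => if x = a then 1 else 0 with hK
  set κ : ι → ℝ := fun i => K (lam i) with hκ
  have hPd : ∀ z ∈ Gset D.X D.V, HasFDerivAt P (fderiv ℝ P z) z := fun z hz =>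
    ((hP.contDiffAt (hGo.mem_nhds hz)).differentiableAt inf_ne).hasFDerivAt
  have hQd : ∀ z ∈ Gset D.X D.V, HasFDerivAt (fun z : TT E => P z - a • z.2)
      (fderiv ℝ P z - a • ContinuousLinearMap.snd ℝ E (E →L[ℝ] ℝ)) z := fun z hz => by
    have h0 : HasFDerivAt (fun z : TT E => z.2) (ContinuousLinearMap.snd ℝ E (E →L[ℝ] ℝ)) z :=
      hasFDerivAt_snd
    exact (hPd z hz).sub (h0.const_smul a)
  have hset : {i : ι | κ i ≠ 0} = {i | lam i = a} := by
    ext i
    simp [hκ, hK]
  have hres := annih (N := Unit) D.X D.hX κ (fun i => by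
      simp only [hκ, hK]; split_ifs <;> norm_num) (Gset D.X D.V) hGo
    (fun _ z => P z - a • z.2)
    (fun _ _ _ => 0) (fun _ z hz => (hQd z hz).differentiableAt) (fun _ _ => continuousOn_const)
    (fun _ z hz => by
      simp only [zero_smul, Finset.sum_const_zero, add_zero]
      rw [(hQd z hz).fderiv, ContinuousLinearMap.sub_apply, h.pder hP hP1 hP2 K hz]
      ext v
      simp only [Ham, ContinuousLinearMap.sub_apply, ContinuousLinearMap.neg_apply,
        ContinuousLinearMap.comp_apply, ContinuousLinearMap.smul_apply,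
        ContinuousLinearMap.coe_snd', smul_eq_mul, hκ]
      ring)
    (fun _ z hz i hi => by
      have hi' : lam i = a := by
        have : i ∈ {i : ι | κ i ≠ 0} := hi
        rw [hset] at this; exact this
      simp only [ContinuousLinearMap.sub_apply, ContinuousLinearMap.smul_apply, hP1 z hz i,
        h.diag, smul_eq_mul]
      simp [hi', mom])
  rw [hset] at hres
  have := hres Y hY () z hz
  simp only [ContinuousLinearMap.sub_apply, ContinuousLinearMap.smul_apply, smul_eq_mul] at this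
  linarith

end Dat

end Pool.Agent.D0H81.SR
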