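import Pool.Agent.D0H81.SR.Eqs

set_option autoImplicit false
set_option linter.unusedVariables false
set_option linter.deprecated false
set_option linter.unusedSectionVars false

open Set Metric Filter Topology
open scoped ContDiff NNReal

namespace Pool.Agent.D0H81.SR

variable {E : Type} [NormedAddCommGroup E] [NormedSpace ℝ E] [FiniteDimensional ℝ E]
variable {ι : Type} [Fintype ι]

lemma brk_smooth {X : ι → E → E} (hX : ∀ i, ContDiff ℝ ∞ (X i)) (i j : ι) :
    ContDiff ℝ ∞ (brk X i j) := by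
  unfold brk VectorField.lieBracket
  exact ((fderiv_smooth (hX j)).clm_apply (hX i)).sub ((fderiv_smooth (hX i)).clm_apply (hX j))

lemma mv_cont {X : ι → E → E} (hX : ∀ i, ContDiff ℝ ∞ (X i)) : Continuous (mv X) :=
  continuous_pi fun i => (mom_smooth hX i).continuous

lemma MM_cont {S : ι → ι → E → ℝ} (hS : ∀ i j, ContDiff ℝ ∞ (S i j)) {a : TT E → (ι → ℝ)}
    (ha : Continuous a) : Continuous (fun z : TT E => MM S z.1 (a z)) := by
  refine continuous_pi fun i => ?_
  simp only [MM_apply]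
  refine continuous_finset_sum _ fun j _ => ?_
  exact ((hS i j).continuous.comp continuous_fst).mul ((continuous_apply j).comp ha)

lemma XX_cont {X : ι → E → E} (hX : ∀ i, ContDiff ℝ ∞ (X i)) {a : TT E → (ι → ℝ)}
    (ha : Continuous a) : Continuous (fun z : TT E => XX X z.1 (a z)) := by
  simp only [XX_apply]
  refine continuous_finset_sum _ fun j _ => ?_
  exact ((continuous_apply j).comp ha).smul ((hX j).continuous.comp continuous_fst)

lemma bb_cont {X : ι → E → E} (hX : ∀ i, ContDiff ℝ ∞ (X i)) {a b : TT E → (ι → ℝ)}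
    (ha : Continuous a) (hb : Continuous b) :
    Continuous (fun z : TT E => bb X z.1 (a z) (b z)) := by
  simp only [bb_apply]
  refine continuous_finset_sum _ fun i _ => continuous_finset_sum _ fun j _ => ?_
  exact (((continuous_apply i).comp ha).mul ((continuous_apply j).comp hb)).smul
    ((brk_smooth hX i j).continuous.comp continuous_fst)

lemma CC_cont {S : ι → ι → E → ℝ} (hS : ∀ i j, ContDiff ℝ ∞ (S i j)) {V : TT E → E}
    (hV : Continuous V) {a b : TT E → (ι → ℝ)}
    (ha : Continuous a) (hb : Continuous b) :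
    Continuous (fun z : TT E => CC S z.1 (V z) (a z) (b z)) := by
  simp only [CC_apply]
  refine continuous_finset_sum _ fun i _ => continuous_finset_sum _ fun j _ => ?_
  refine (((continuous_apply i).comp ha).mul ((continuous_apply j).comp hb)).mul ?_
  exact ((fderiv_smooth (hS i j)).continuous.comp continuous_fst).clm_apply hV

lemma mv_surj {X : ι → E → E} {q : E} (h : LinearIndependent ℝ (fun i => X i q)) (u : ι → ℝ) :
    ∃ p : Co E, mv X (q, p) = u := by
  classical
  obtain ⟨f, hf⟩ := exists_dual _ h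
  refine ⟨∑ i, u i • f i, ?_⟩
  funext j
  simp [mv, mom, hf]

/-- a function on `ι → ℝ` behaving like a cubic form -/
structure IsCubic (F : (ι → ℝ) → ℝ) : Prop where
  diff : ∀ u w, F (u + (3:ℝ) • w) - 3 * F (u + (2:ℝ) • w) + 3 * F (u + w) - F u = 6 * F w
  scale : ∀ (t : ℝ) w, F (t • w) = t ^ 3 * F w

lemma IsCubic.zero {F : (ι → ℝ) → ℝ} (h : IsCubic F) {u0 : ι → ℝ}
    (h0 : ∀ᶠ u in 𝓝 u0, F u = 0) (v : ι → ℝ) : F v = 0 := by
  have h1 : ∀ᶠ t in 𝓝 (0:ℝ), F (u0 + (3:ℝ) • (t • v)) = 0 ∧ F (u0 + (2:ℝ) • (t • v)) = 0 ∧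
      F (u0 + t • v) = 0 := by
    have c1 : Tendsto (fun t : ℝ => u0 + (3:ℝ) • (t • v)) (𝓝 0) (𝓝 u0) := by
      have : Continuous (fun t : ℝ => u0 + (3:ℝ) • (t • v)) := by fun_prop
      have h2 := this.tendsto 0
      simpa using h2
    have c2 : Tendsto (fun t : ℝ => u0 + (2:ℝ) • (t • v)) (𝓝 0) (𝓝 u0) := by
      have : Continuous (fun t : ℝ => u0 + (2:ℝ) • (t • v)) := by fun_prop
      have h2 := this.tendsto 0
      simpa using h2
    have c3 : Tendsto (fun t : ℝ => u0 + t • v) (𝓝 0) (𝓝 u0) := by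
      have : Continuous (fun t : ℝ => u0 + t • v) := by fun_prop
      have h2 := this.tendsto 0
      simpa using h2
    filter_upwards [c1.eventually h0, c2.eventually h0, c3.eventually h0] with t a b c
    exact ⟨a, b, c⟩
  obtain ⟨ε, hε, hε'⟩ := Metric.eventually_nhds_iff.1 h1
  obtain ⟨a, b, c⟩ := hε' (y := ε / 2) (by rw [Real.dist_eq, sub_zero, abs_of_pos (by positivity)]; linarith)
  have h2 := h.diff u0 ((ε / 2) • v)
  rw [a, b, c, h0.self_of_nhds, h.scale] at h2
  have h3 : (ε / 2) ^ 3 ≠ 0 := by positivity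
  have h4 : (ε / 2) ^ 3 * F v = 0 := by linarith
  exact (mul_eq_zero.1 h4).resolve_left h3

namespace Dat

variable (D : Dat E ι)

lemma dense_ext {f : TT E → ℝ} (hf : Continuous f) (h : ∀ z ∈ Gset D.X D.V, f z = 0) (z : TT E)
    (hz : z.1 ∈ D.V) : f z = 0 := by
  by_contra hne
  have := D.ne
  obtain ⟨y, hy1, hy2⟩ := ample_dense D.X D.hX D.V D.hV D.hLI D.hgen
    ({z | z.1 ∈ D.V} ∩ {z | f z ≠ 0}) ((D.hV.preimage continuous_fst).inter
      (isOpen_ne_fun hf continuous_const)) (fun z hz => hz.1) ⟨z, hz, hne⟩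
  exact hy1.2 (h y hy2)

/-- first consequence: the energy of the second metric is a first integral -/
lemma c0 (z : TT E) (hz : z.1 ∈ D.V) :
    z.2 (bb D.X z.1 (mv D.X z) (MM D.S z.1 (mv D.X z))) =
      - (1 / 2) * CC D.S z.1 (XX D.X z.1 (mv D.X z)) (mv D.X z) (mv D.X z) := by
  obtain ⟨P, hP, hP1, hP2⟩ := D.exists_P
  have hmv := mv_cont (X := D.X) D.hX
  have key := D.dense_ext (f := fun z => z.2 (bb D.X z.1 (mv D.X z) (MM D.S z.1 (mv D.X z))) +
      (1 / 2) * CC D.S z.1 (XX D.X z.1 (mv D.X z)) (mv D.X z) (mv D.X z)) ?_ ?_ z hz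
  · linarith
  · exact (continuous_snd.clm_apply (bb_cont D.hX hmv (MM_cont D.hS hmv))).add
      (continuous_const.mul (CC_cont D.hS (XX_cont D.hX hmv) hmv hmv))
  · intro z hz
    have := D.eq_x hP hP1 hP2 hz (mv D.X z)
    rw [bb_self, map_zero] at this
    linarith

lemma bb_ann {q : E} (hq : q ∈ D.V) {ξ : Co E} (hξ : ∀ i, ξ (D.X i q) = 0) (u : ι → ℝ) :
    ξ (bb D.X q u (MM D.S q u)) = 0 := by
  obtain ⟨p, hp⟩ := mv_surj (D.hLI q hq) u
  have h1 := D.c0 (q, p) hq
  have h2 := D.c0 (q, p + ξ) hq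
  have h3 : mv D.X (q, p + ξ) = mv D.X (q, p) := by
    funext i
    simp [mv, mom, hξ]
  rw [h3] at h2
  simp only [hp] at h1 h2
  rw [ContinuousLinearMap.add_apply, h1] at h2
  linarith

lemma bb_ann' {q : E} (hq : q ∈ D.V) {ξ : Co E} (hξ : ∀ i, ξ (D.X i q) = 0) (u v : ι → ℝ) :
    ξ (bb D.X q u (MM D.S q v)) = ξ (bb D.X q (MM D.S q u) v) := by
  have h1 := D.bb_ann hq hξ (u + v)
  have h2 := D.bb_ann hq hξ u
  have h3 := D.bb_ann hq hξ v
  simp only [map_add, LinearMap.add_apply, h2, h3] at h1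
  rw [bb_swap D.X q v (MM D.S q u), map_neg] at h1
  linarith

/-- brackets of different eigenvectors are horizontal -/
lemma bb_eig {q : E} (hq : q ∈ D.V) {x y : ι → ℝ} {a b : ℝ} (hx : MM D.S q x = a • x)
    (hy : MM D.S q y = b • y) (hab : a ≠ b) :
    bb D.X q x y ∈ Submodule.span ℝ (range fun i => D.X i q) := by
  by_contra hne
  obtain ⟨η, hη1, hη2⟩ := Submodule.exists_le_ker_of_notMem hne
  set ξ : Co E := LinearMap.toContinuousLinearMap η with hξ
  have h0 : ∀ i, ξ (D.X i q) = 0 := fun i => hη2 (Submodule.subset_span ⟨i, rfl⟩)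
  have h1 := D.bb_ann' hq h0 x y
  rw [hx, hy] at h1
  simp only [map_smul, LinearMap.smul_apply, smul_eq_mul] at h1
  have h2 : (b - a) * ξ (bb D.X q x y) = 0 := by linarith
  rcases mul_eq_zero.1 h2 with h3 | h3
  · exact hab (by linarith)
  · exact hη1 h3

end Dat

end Pool.Agent.D0H81.SR
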