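import Pool.Agent.D0H81.SR.Lift

set_option autoImplicit false
set_option linter.unusedVariables false
set_option linter.deprecated false
set_option linter.unusedSectionVars false

open Set Metric Filter Topology
open scoped ContDiff NNReal

namespace Pool.Agent.D0H81.SR

variable {E : Type} [NormedAddCommGroup E] [NormedSpace ℝ E] [FiniteDimensional ℝ E]
variable {ι : Type} [Fintype ι]

/-- bracket of frame fields -/
noncomputable def brk (X : ι → E → E) (i j : ι) (q : E) : E :=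
  VectorField.lieBracket ℝ (X i) (X j) q

lemma brk_swap (X : ι → E → E) (i j : ι) (q : E) : brk X i j q = - brk X j i q := by
  simp [brk, VectorField.lieBracket]

/-- bilinear extension of the brackets at a point -/
noncomputable def bb (X : ι → E → E) (q : E) : (ι → ℝ) →ₗ[ℝ] (ι → ℝ) →ₗ[ℝ] E :=
  LinearMap.mk₂ ℝ (fun v w => ∑ i, ∑ j, (v i * w j) • brk X i j q)
    (fun v v' w => by simp [add_mul, add_smul, Finset.sum_add_distrib])
    (fun c v w => by simp [Finset.smul_sum, smul_smul, mul_assoc])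
    (fun v w w' => by simp [mul_add, add_smul, Finset.sum_add_distrib])
    (fun c v w => by simp [Finset.smul_sum, smul_smul, mul_left_comm])

lemma bb_apply (X : ι → E → E) (q : E) (v w : ι → ℝ) :
    bb X q v w = ∑ i, ∑ j, (v i * w j) • brk X i j q := rfl

lemma bb_swap (X : ι → E → E) (q : E) (v w : ι → ℝ) : bb X q v w = - bb X q w v := by
  rw [bb_apply, bb_apply, Finset.sum_comm, ← Finset.sum_neg_distrib]
  refine Finset.sum_congr rfl fun i _ => ?_
  rw [← Finset.sum_neg_distrib]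
  refine Finset.sum_congr rfl fun j _ => ?_
  rw [brk_swap X j i, mul_comm, smul_neg]

lemma bb_self (X : ι → E → E) (q : E) (v : ι → ℝ) : bb X q v v = 0 := by
  have h := bb_swap X q v v
  have h2 : (2 : ℝ) • bb X q v v = 0 := by
    rw [two_smul]
    nth_rewrite 1 [h]
    simp
  exact (smul_eq_zero.1 h2).resolve_left two_ne_zero

/-- the frame as a linear map -/
noncomputable def XX (X : ι → E → E) (q : E) : (ι → ℝ) →ₗ[ℝ] E where
  toFun v := ∑ i, v i • X i q
  map_add' v w := by simp [add_smul, Finset.sum_add_distrib]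
  map_smul' c v := by simp [Finset.smul_sum, smul_smul]

lemma XX_apply (X : ι → E → E) (q : E) (v : ι → ℝ) : XX X q v = ∑ i, v i • X i q := rfl

/-- derivative of the transition matrix as a bilinear form -/
noncomputable def CC (S : ι → ι → E → ℝ) (q : E) (V : E) : (ι → ℝ) →ₗ[ℝ] (ι → ℝ) →ₗ[ℝ] ℝ :=
  LinearMap.mk₂ ℝ (fun v w => ∑ i, ∑ j, v i * w j * fderiv ℝ (S i j) q V)
    (fun v v' w => by simp [add_mul, Finset.sum_add_distrib])
    (fun c v w => by simp [Finset.mul_sum, mul_assoc])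
    (fun v w w' => by simp [mul_add, add_mul, Finset.sum_add_distrib])
    (fun c v w => by simp [Finset.mul_sum, mul_left_comm, mul_assoc])

lemma CC_apply (S : ι → ι → E → ℝ) (q : E) (V : E) (v w : ι → ℝ) :
    CC S q V v w = ∑ i, ∑ j, v i * w j * fderiv ℝ (S i j) q V := rfl

lemma CC_add (S : ι → ι → E → ℝ) (q : E) (V V' : E) (v w : ι → ℝ) :
    CC S q (V + V') v w = CC S q V v w + CC S q V' v w := by
  simp [CC_apply, mul_add, Finset.sum_add_distrib]

lemma CC_smul (S : ι → ι → E → ℝ) (q : E) (c : ℝ) (V : E) (v w : ι → ℝ) :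
    CC S q (c • V) v w = c * CC S q V v w := by
  simp [CC_apply, Finset.mul_sum, mul_left_comm]

noncomputable def MM (S : ι → ι → E → ℝ) (q : E) : (ι → ℝ) →ₗ[ℝ] (ι → ℝ) where
  toFun v := fun k => ∑ j, S k j q * v j
  map_add' v w := by funext k; simp [mul_add, Finset.sum_add_distrib]
  map_smul' c v := by funext k; simp [Finset.mul_sum, mul_left_comm]

lemma MM_apply (S : ι → ι → E → ℝ) (q : E) (v : ι → ℝ) (k : ι) :
    MM S q v k = ∑ j, S k j q * v j := rfl

/-- vector of momenta -/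
noncomputable def mv (X : ι → E → E) (z : TT E) : ι → ℝ := fun i => mom X i z

lemma Ham_fst (X : ι → E → E) (z : TT E) : (Ham X 1 z).1 = XX X z.1 (mv X z) := by
  simp [Ham, XX_apply, mv]

lemma mom_Ham {X : ι → E → E} (hX : ∀ i, ContDiff ℝ ∞ (X i)) (κ : ι → ℝ) (j : ι) (z : TT E) :
    fderiv ℝ (mom X j) z (Ham X κ z) = ∑ i, κ i * mom X i z * z.2 (brk X i j z.1) := by
  rw [mom_hasFDerivAt hX]
  simp only [Ham, Kop, ContinuousLinearMap.neg_apply, ContinuousLinearMap.comp_apply,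
    ContinuousLinearMap.sum_apply, ContinuousLinearMap.smul_apply, map_sum, map_smul, smul_eq_mul,
    brk, VectorField.lieBracket, map_sub, mul_sub, Finset.sum_sub_distrib]
  ring

namespace Dat

variable (D : Dat E ι)

lemma CC_symm {q : E} (hq : q ∈ D.V) (V : E) (v w : ι → ℝ) :
    CC D.S q V v w = CC D.S q V w v := by
  rw [CC_apply, CC_apply, Finset.sum_comm]
  refine Finset.sum_congr rfl fun i _ => Finset.sum_congr rfl fun j _ => ?_
  have : fderiv ℝ (D.S j i) q = fderiv ℝ (D.S i j) q := by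
    apply Filter.EventuallyEq.fderiv_eq
    filter_upwards [D.hV.mem_nhds hq] with y hy
    exact D.symm j i y hy
  rw [this]; ring

/-- the basic equation -/
lemma eq_k {P : TT E → Co E} (hP : ContDiffOn ℝ ∞ P (Gset D.X D.V))
    (hP1 : ∀ z ∈ Gset D.X D.V, ∀ k, P z (D.X k z.1) = ∑ j, D.S k j z.1 * mom D.X j z)
    (hP2 : ∀ z ∈ Gset D.X D.V, fderiv ℝ P z (Ham D.X 1 z) =
      -((P z).comp (Kop D.X 1 z)) + inh D.X D.S z) {z : TT E} (hz : z ∈ Gset D.X D.V) (k : ι) :
    ∑ i, mom D.X i z * P z (brk D.X i k z.1) + inh D.X D.S z (D.X k z.1) =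
      ∑ j, fderiv ℝ (D.S k j) z.1 (XX D.X z.1 (mv D.X z)) * mom D.X j z +
      ∑ j, D.S k j z.1 * ∑ i, mom D.X i z * z.2 (brk D.X i j z.1) := by
  have hGo : IsOpen (Gset D.X D.V) := Gset_open D.hX D.hV
  have a1 : HasFDerivAt P (fderiv ℝ P z) z :=
    ((hP.contDiffAt (hGo.mem_nhds hz)).differentiableAt inf_ne).hasFDerivAt
  have a2 : HasFDerivAt (fun z : TT E => D.X k z.1)
      ((fderiv ℝ (D.X k) z.1).comp (ContinuousLinearMap.fst ℝ E (E →L[ℝ] ℝ))) z :=
    ((D.hX k).differentiable inf_ne z.1).hasFDerivAt.comp z hasFDerivAt_fst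
  have a3 : HasFDerivAt (fun z : TT E => P z (D.X k z.1)) _ z := a1.clm_apply a2
  have a4 : ∀ j ∈ Finset.univ, HasFDerivAt (fun z : TT E => D.S k j z.1 * mom D.X j z)
      (D.S k j z.1 • fderiv ℝ (mom D.X j) z + mom D.X j z •
        ((fderiv ℝ (D.S k j) z.1).comp (ContinuousLinearMap.fst ℝ E (E →L[ℝ] ℝ)))) z := by
    intro j _
    have b1 : HasFDerivAt (fun z : TT E => D.S k j z.1)
        ((fderiv ℝ (D.S k j) z.1).comp (ContinuousLinearMap.fst ℝ E (E →L[ℝ] ℝ))) z :=
      ((D.hS k j).differentiable inf_ne z.1).hasFDerivAt.comp z hasFDerivAt_fst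
    have b2 : HasFDerivAt (mom D.X j) (fderiv ℝ (mom D.X j) z) z :=
      ((mom_smooth D.hX j).differentiable inf_ne z).hasFDerivAt
    exact b1.mul b2
  have a5 := HasFDerivAt.fun_sum a4
  have a6 : (fun z : TT E => P z (D.X k z.1)) =ᶠ[𝓝 z] fun z => ∑ j, D.S k j z.1 * mom D.X j z := by
    filter_upwards [hGo.mem_nhds hz] with y hy
    exact hP1 y hy k
  have a7 := congrArg (fun L : TT E →L[ℝ] ℝ => L (Ham D.X 1 z))
    (a3.unique (a5.congr_of_eventuallyEq a6))
  simp only [ContinuousLinearMap.add_apply, ContinuousLinearMap.comp_apply,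
    ContinuousLinearMap.flip_apply, ContinuousLinearMap.sum_apply, ContinuousLinearMap.smul_apply,
    ContinuousLinearMap.coe_fst', smul_eq_mul, mom_Ham D.hX, hP2 z hz,
    ContinuousLinearMap.neg_apply, Pi.one_apply, one_mul] at a7
  have a8 : (fderiv ℝ (D.X k) z.1) (Ham D.X 1 z).1 - Kop D.X 1 z (D.X k z.1) =
      ∑ i, mom D.X i z • brk D.X i k z.1 := by
    simp only [Ham, Kop, Pi.one_apply, one_mul, map_sum, map_smul, ContinuousLinearMap.sum_apply,
      ContinuousLinearMap.smul_apply, brk, VectorField.lieBracket, smul_sub,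
      Finset.sum_sub_distrib]
  have a9 : ∑ i, mom D.X i z * P z (brk D.X i k z.1) =
      P z ((fderiv ℝ (D.X k) z.1) (Ham D.X 1 z).1) - P z (Kop D.X 1 z (D.X k z.1)) := by
    rw [← map_sub, a8]
    simp
  rw [a9]
  rw [Finset.sum_add_distrib] at a7
  rw [Ham_fst] at a7 ⊢
  have a10 : ∑ j, mom D.X j z * fderiv ℝ (D.S k j) z.1 (XX D.X z.1 (mv D.X z)) =
      ∑ j, fderiv ℝ (D.S k j) z.1 (XX D.X z.1 (mv D.X z)) * mom D.X j z :=
    Finset.sum_congr rfl fun j _ => mul_comm _ _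
  rw [a10] at a7
  linarith

lemma inh_apply (z : TT E) (V : E) :
    inh D.X D.S z V = 1 / 2 * CC D.S z.1 V (mv D.X z) (mv D.X z) := by
  simp [inh, CC_apply, mv, Finset.mul_sum]

/-- the basic equation, paired with a vector -/
lemma eq_x {P : TT E → Co E} (hP : ContDiffOn ℝ ∞ P (Gset D.X D.V))
    (hP1 : ∀ z ∈ Gset D.X D.V, ∀ k, P z (D.X k z.1) = ∑ j, D.S k j z.1 * mom D.X j z)
    (hP2 : ∀ z ∈ Gset D.X D.V, fderiv ℝ P z (Ham D.X 1 z) =
      -((P z).comp (Kop D.X 1 z)) + inh D.X D.S z) {z : TT E} (hz : z ∈ Gset D.X D.V)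
    (x : ι → ℝ) :
    P z (bb D.X z.1 (mv D.X z) x) + 1 / 2 * CC D.S z.1 (XX D.X z.1 x) (mv D.X z) (mv D.X z) =
      CC D.S z.1 (XX D.X z.1 (mv D.X z)) x (mv D.X z) +
      z.2 (bb D.X z.1 (mv D.X z) (MM D.S z.1 x)) := by
  have h := fun k => D.eq_k hP hP1 hP2 hz k
  have h1 : ∑ k, x k * (∑ i, mom D.X i z * P z (brk D.X i k z.1) + inh D.X D.S z (D.X k z.1)) =
      ∑ k, x k * (∑ j, fderiv ℝ (D.S k j) z.1 (XX D.X z.1 (mv D.X z)) * mom D.X j z +
      ∑ j, D.S k j z.1 * ∑ i, mom D.X i z * z.2 (brk D.X i j z.1)) :=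
    Finset.sum_congr rfl fun k _ => by rw [h k]
  simp only [mul_add, Finset.sum_add_distrib] at h1
  have e1 : P z (bb D.X z.1 (mv D.X z) x) =
      ∑ k, x k * ∑ i, mom D.X i z * P z (brk D.X i k z.1) := by
    rw [bb_apply, Finset.sum_comm]
    simp only [map_sum, map_smul, smul_eq_mul, Finset.mul_sum, mv]
    refine Finset.sum_congr rfl fun k _ => Finset.sum_congr rfl fun i _ => ?_
    ring
  have e2 : 1 / 2 * CC D.S z.1 (XX D.X z.1 x) (mv D.X z) (mv D.X z) =
      ∑ k, x k * inh D.X D.S z (D.X k z.1) := by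
    rw [← D.inh_apply, XX_apply, map_sum]
    simp
  have e3 : CC D.S z.1 (XX D.X z.1 (mv D.X z)) x (mv D.X z) =
      ∑ k, x k * ∑ j, fderiv ℝ (D.S k j) z.1 (XX D.X z.1 (mv D.X z)) * mom D.X j z := by
    rw [CC_apply]
    simp only [Finset.mul_sum, mv]
    refine Finset.sum_congr rfl fun k _ => Finset.sum_congr rfl fun i _ => ?_
    ring
  have e4 : z.2 (bb D.X z.1 (mv D.X z) (MM D.S z.1 x)) =
      ∑ k, x k * ∑ j, D.S k j z.1 * ∑ i, mom D.X i z * z.2 (brk D.X i j z.1) := by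
    set B : ι → ℝ := fun j => ∑ i, mom D.X i z * z.2 (brk D.X i j z.1) with hB
    have e4a : z.2 (bb D.X z.1 (mv D.X z) (MM D.S z.1 x)) = ∑ j, MM D.S z.1 x j * B j := by
      rw [bb_apply, Finset.sum_comm]
      simp only [map_sum, map_smul, smul_eq_mul, mv]
      refine Finset.sum_congr rfl fun j _ => ?_
      rw [hB]
      simp only [Finset.mul_sum]
      refine Finset.sum_congr rfl fun i _ => ?_
      ring
    rw [e4a]
    have e4b : ∀ k, x k * ∑ j, D.S k j z.1 * B j = ∑ j, D.S j k z.1 * x k * B j := by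
      intro k
      rw [Finset.mul_sum]
      refine Finset.sum_congr rfl fun j _ => ?_
      rw [D.symm k j z.1 hz.1]; ring
    rw [Finset.sum_congr rfl fun k _ => e4b k]
    simp only [MM_apply, Finset.sum_mul]
    rw [Finset.sum_comm]
  rw [e1, e2, e3, e4]
  exact h1

end Dat

end Pool.Agent.D0H81.SR
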