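import Pool.Agent.D0H81.SR.Chart

set_option autoImplicit false
set_option linter.unusedVariables false
set_option linter.deprecated false
set_option linter.unusedSectionVars false

open Set Metric Filter Topology
open scoped ContDiff NNReal Matrix

namespace Pool.Agent.D0H81.SR

open VectorField (lieBracket)

variable {E : Type} [NormedAddCommGroup E] [NormedSpace ℝ E] [FiniteDimensional ℝ E]
variable {A : Type} [NormedAddCommGroup A] [NormedSpace ℝ A] [FiniteDimensional ℝ A]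
variable {A' : Type} [NormedAddCommGroup A'] [NormedSpace ℝ A'] [FiniteDimensional ℝ A']
variable {ι : Type} [Fintype ι] [DecidableEq ι] {D : Dat E ι} {lam : ι → ℝ} (c : Ctx D lam)

lemma sum_sub {M : Type} [AddCommMonoid M] {p : ι → Prop} [DecidablePred p] {f : ι → M}
    (h0 : ∀ i, ¬ p i → f i = 0) : ∑ i : {i // p i}, f i = ∑ i, f i := by
  rw [← Fintype.sum_subtype_add_sum_subtype p f,
    Finset.sum_eq_zero (s := (Finset.univ : Finset {x // ¬ p x})) (fun i _ => h0 i i.2), add_zero]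

/-- reduction of a vector field to the slice -/
noncomputable def bar (x : E → A) (Ψ : A × A' → E) (b0 : A') (Z : E → E) : A → A :=
  fun a => fderiv ℝ x (Ψ (a, b0)) (Z (Ψ (a, b0)))

/-- everything about the splitting for the factor `B` -/
structure Spl (c : Ctx D lam) (W : Set E) (x : E → A) (y : E → A') (Ψ : A × A' → E) (U₁ : Set A)
    (U₂ : Set A') (B : ℝ → Prop) : Prop where
  ch : Ch W x y Ψ U₁ U₂
  sub : W ⊆ c.V
  kx : ∀ a', ¬ B a' → ∀ Z, Word D.X {k | lam k = a'} Z → ∀ q ∈ W, fderiv ℝ x q (Z q) = 0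
  ky : ∀ a', B a' → ∀ Z, Word D.X {k | lam k = a'} Z → ∀ q ∈ W, fderiv ℝ y q (Z q) = 0
  ex : ∃ (κ : Type) (_ : Fintype κ) (Y : κ → E → E) (b : κ → ℝ) (θ : κ → E → Co E),
    (∀ l, Word D.X {k | lam k = b l} (Y l)) ∧ ∀ q ∈ W, ∀ v, v = ∑ l, θ l q v • Y l q

namespace Spl

variable {c} {W : Set E} {x : E → A} {y : E → A'} {Ψ : A × A' → E} {U₁ : Set A} {U₂ : Set A'}
  {B : ℝ → Prop} [DecidablePred B] (h : Spl c W x y Ψ U₁ U₂ B) {b0 : A'} (hb0 : b0 ∈ U₂)

include h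

lemma swap : Spl c W y x (fun p => Ψ p.swap) U₂ U₁ (fun a => ¬ B a) where
  ch := h.ch.swap
  sub := h.sub
  kx := fun a' ha' => h.ky a' (not_not.1 ha')
  ky := fun a' ha' => h.kx a' ha'
  ex := h.ex

include hb0

lemma bar_smooth {Z : E → E} (hZ : ContDiff ℝ ∞ Z) : ContDiffOn ℝ ∞ (bar x Ψ b0 Z) U₁ := by
  have h1 : ContDiffOn ℝ ∞ (fun q => fderiv ℝ x q (Z q)) W :=
    (h.ch.hx.fderiv_of_isOpen h.ch.hW (by exact_mod_cast le_top)).clm_apply hZ.contDiffOn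
  have h2 : ContDiffOn ℝ ∞ (fun a : A => Ψ (a, b0)) U₁ :=
    h.ch.hΨ.comp (contDiff_id.prodMk contDiff_const).contDiffOn (fun a ha => ⟨ha, hb0⟩)
  exact h1.comp h2 (fun a ha => h.ch.mΨ a ha b0 hb0)

lemma bar_slice {a' : ℝ} (ha' : B a') {Z : E → E} (hZ : Word D.X {k | lam k = a'} Z) {a : A}
    (ha : a ∈ U₁) : fderiv ℝ Ψ (a, b0) (bar x Ψ b0 Z a, 0) = Z (Ψ (a, b0)) := by
  have h1 := h.ch.left (h.ch.mΨ a ha b0 hb0) (Z (Ψ (a, b0)))
  rw [h.ch.ex a ha b0 hb0, h.ch.ey a ha b0 hb0, h.ky a' ha' Z hZ _ (h.ch.mΨ a ha b0 hb0)] at h1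
  exact h1

lemma bar_deriv {a' : ℝ} (ha' : B a') {Z Z' : E → E} (hZ : Word D.X {k | lam k = a'} Z)
    (hZ' : ContDiff ℝ ∞ Z') {a : A} (ha : a ∈ U₁) :
    fderiv ℝ (bar x Ψ b0 Z') a (bar x Ψ b0 Z a) =
      fderiv ℝ (fun q => fderiv ℝ x q (Z' q)) (Ψ (a, b0)) (Z (Ψ (a, b0))) := by
  have hm := h.ch.mΨ a ha b0 hb0
  have h1 : ContDiffOn ℝ ∞ (fun q => fderiv ℝ x q (Z' q)) W :=
    (h.ch.hx.fderiv_of_isOpen h.ch.hW (by exact_mod_cast le_top)).clm_apply hZ'.contDiffOn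
  have h2 : HasFDerivAt (fun q => fderiv ℝ x q (Z' q))
      (fderiv ℝ (fun q => fderiv ℝ x q (Z' q)) (Ψ (a, b0))) (Ψ (a, b0)) :=
    ((h1.contDiffAt (h.ch.hW.mem_nhds hm)).differentiableAt inf_ne).hasFDerivAt
  have h3 : HasFDerivAt (fun a : A => Ψ (a, b0)) _ a :=
    HasFDerivAt.comp a (g := Ψ) (h.ch.dΨ ha hb0) (hasFDerivAt_prodMk_left a b0)
  have h4 : HasFDerivAt (bar x Ψ b0 Z') _ a :=
    HasFDerivAt.comp (g := fun q => fderiv ℝ x q (Z' q)) a h2 h3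
  rw [h4.fderiv]
  simp only [ContinuousLinearMap.comp_apply, ContinuousLinearMap.inl_apply]
  rw [h.bar_slice hb0 ha' hZ ha]

lemma bar_lie {a' a'' : ℝ} (ha' : B a') (ha'' : B a'') {Z Z' : E → E}
    (hZ : Word D.X {k | lam k = a'} Z) (hZ' : Word D.X {k | lam k = a''} Z') {a : A}
    (ha : a ∈ U₁) : lieBracket ℝ (bar x Ψ b0 Z) (bar x Ψ b0 Z') a =
      bar x Ψ b0 (lieBracket ℝ Z Z') a := by
  have hm := h.ch.mΨ a ha b0 hb0
  rw [VectorField.lieBracket, h.bar_deriv hb0 ha' hZ (word_smooth D.hX hZ') ha,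
    h.bar_deriv hb0 ha'' hZ' (word_smooth D.hX hZ) ha]
  exact (df_lie h.ch.hW h.ch.hx (word_smooth D.hX hZ) (word_smooth D.hX hZ') hm).symm

omit h hb0 in
/-- the frame of the factor -/
noncomputable def xi (D : Dat E ι) (lam : ι → ℝ) (x : E → A) (Ψ : A × A' → E) (B : ℝ → Prop)
    (b0 : A') : {i // B (lam i)} → A → A := fun i => bar x Ψ b0 (D.X i)

lemma xi_smooth (i : {i // B (lam i)}) : ContDiffOn ℝ ∞ (xi D lam x Ψ B b0 i) U₁ :=
  h.bar_smooth hb0 (D.hX i)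

lemma xi_indep {a : A} (ha : a ∈ U₁) :
    LinearIndependent ℝ (fun i => xi D lam x Ψ B b0 i a) := by
  rw [Fintype.linearIndependent_iff]
  intro g hg
  have hm := h.ch.mΨ a ha b0 hb0
  have h1 : ∑ i : {i // B (lam i)}, g i • D.X i (Ψ (a, b0)) = 0 := by
    have h2 := congrArg (fun v : A => fderiv ℝ Ψ (a, b0) (v, 0)) hg
    have h3 : ∀ v : A, fderiv ℝ Ψ (a, b0) (v, 0) =
        ((fderiv ℝ Ψ (a, b0)).comp (ContinuousLinearMap.inl ℝ A A')) v := fun v => rfl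
    simp only [h3, map_sum, map_smul, map_zero] at h2
    rw [← h2]
    refine Finset.sum_congr rfl fun i _ => ?_
    rw [← h3]
    have := h.bar_slice hb0 i.2 (Word.letter (i : ι) rfl) ha
    rw [← this]
    rfl
  have h2 := (D.hLI _ (c.sub (h.sub hm))).comp (fun i : {i // B (lam i)} => (i : ι))
    Subtype.val_injective
  exact Fintype.linearIndependent_iff.1 h2 g h1

lemma bar_layer {a' : ℝ} (ha' : B a') {Z : E → E} (hZ : Word D.X {k | lam k = a'} Z) :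
    ∃ j, bar x Ψ b0 Z ∈ layer (frD (xi D lam x Ψ B b0)) U₁ j := by
  have hsec : ∀ i, lam i = a' → IsSection (frD (xi D lam x Ψ B b0)) U₁ (bar x Ψ b0 (D.X i)) := by
    intro i hi
    refine ⟨h.bar_smooth hb0 (D.hX i), fun q _ => ?_⟩
    exact mem_frD (xi D lam x Ψ B b0) q ⟨i, hi.symm ▸ ha'⟩
  induction hZ with
  | letter i hi => exact ⟨0, hsec i hi⟩
  | br i hi Z hZ ih =>
    obtain ⟨j, hj⟩ := ih
    refine ⟨j + 1, layer_congr (layer_lie (hsec i hi) hj) fun q hq => ?_⟩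
    exact (h.bar_lie hb0 ha' ha' (Word.letter i hi) hZ hq).symm

lemma bracket : IsBracketGenerating U₁ (frD (xi D lam x Ψ B b0)) := by
  classical
  obtain ⟨κ, hκ, Y, b, θ, hY, hexp⟩ := h.ex
  have h1 : ∀ l : κ, ∃ j, B (b l) → bar x Ψ b0 (Y l) ∈ layer (frD (xi D lam x Ψ B b0)) U₁ j := by
    intro l
    by_cases hl : B (b l)
    · obtain ⟨j, hj⟩ := h.bar_layer hb0 hl (hY l)
      exact ⟨j, fun _ => hj⟩
    · exact ⟨0, fun h => absurd h hl⟩
  choose j hj using h1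
  intro a ha
  have hm := h.ch.mΨ a ha b0 hb0
  refine ⟨U₁, subset_rfl, h.ch.h1, ha, Finset.univ.sup j, fun v => ?_⟩
  set w : E := fderiv ℝ Ψ (a, b0) (v, 0) with hw
  refine ⟨∑ l, (if B (b l) then θ l (Ψ (a, b0)) w else 0) • bar x Ψ b0 (Y l), ?_, ?_⟩
  · refine Submodule.sum_mem _ fun l _ => ?_
    by_cases hl : B (b l)
    · exact Submodule.smul_mem _ _ (layer_mono _ _ (Finset.le_sup (Finset.mem_univ l)) (hj l hl))
    · rw [if_neg hl, zero_smul]; exact Submodule.zero_mem _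
  · have h2 : fderiv ℝ x (Ψ (a, b0)) w = v := (h.ch.right ha hb0 (v, 0)).1
    rw [hexp _ hm w, map_sum] at h2
    rw [← h2, Finset.sum_apply]
    refine Finset.sum_congr rfl fun l _ => ?_
    rw [Pi.smul_apply, map_smul]
    by_cases hl : B (b l)
    · rw [if_pos hl]; rfl
    · rw [if_neg hl, h.kx _ hl _ (hY l) _ hm, zero_smul, smul_zero]

lemma subR (hne : U₁.Nonempty) :
    IsSubRiemannian U₁ (frD (xi D lam x Ψ B b0)) (frg (xi D lam x Ψ B b0)) where
  isOpen := h.ch.h1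
  connected := ⟨hne, h.ch.c1.isPreconnected⟩
  distribution := frD_distribution h.ch.h1 (fun i => h.xi_smooth hb0 i)
    (fun a ha => h.xi_indep hb0 ha)
  bracket := h.bracket hb0
  metric := frg_metric h.ch.h1 (fun i => h.xi_smooth hb0 i) (fun a ha => h.xi_indep hb0 ha)

lemma rank (i0 : ι) (hi0 : B (lam i0)) {a : A} (ha : a ∈ U₁) :
    frD (xi D lam x Ψ B b0) a ≠ ⊥ := by
  intro hbot
  have h1 := mem_frD (xi D lam x Ψ B b0) a ⟨i0, hi0⟩
  rw [hbot, Submodule.mem_bot] at h1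
  exact (h.xi_indep hb0 ha).ne_zero ⟨i0, hi0⟩ h1

lemma cometric_eq {q : E} (hq : q ∈ W) (η ζ : Co A) :
    ∑ i : {i // B (lam i)}, η (fderiv ℝ x q (D.X i q)) * ζ (fderiv ℝ x q (D.X i q)) =
    ∑ i : {i // B (lam i)}, η (xi D lam x Ψ B b0 i (x q)) * ζ (xi D lam x Ψ B b0 i (x q)) := by
  classical
  obtain ⟨κ, hκ, Y, b, θ, hY, hexp⟩ := h.ex
  set F : E → ℝ := fun q => ∑ i, η (fderiv ℝ x q (D.X i q)) * ζ (fderiv ℝ x q (D.X i q)) with hF
  have hk : ∀ j, ¬ B (lam j) → ∀ q ∈ W, fderiv ℝ x q (D.X j q) = 0 := fun j hj q hq =>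
    h.kx _ hj _ (Word.letter j rfl) q hq
  have hws : ∀ i, ContDiffOn ℝ ∞ (fun q => fderiv ℝ x q (D.X i q)) W := fun i =>
    (h.ch.hx.fderiv_of_isOpen h.ch.hW (by exact_mod_cast le_top)).clm_apply (D.hX i).contDiffOn
  have hFs : ContDiffOn ℝ ∞ F W := ContDiffOn.sum fun i _ =>
    (η.contDiff.comp_contDiffOn (hws i)).mul (ζ.contDiff.comp_contDiffOn (hws i))
  have hFk : ∀ a', ¬ B a' → ∀ Z, Word D.X {k | lam k = a'} Z → ∀ q ∈ W, fderiv ℝ F q (Z q) = 0 := by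
    intro a' ha' Z hZ
    refine kill_words D.hX h.ch.hW hFs ?_ hZ
    intro j hj q hq
    have hj' : lam j = a' := hj
    exact cometric_killed c h.ch.hW h.sub B h.ch.hx hk η ζ (hj'.symm ▸ ha') hq
  have hFv : ∀ q ∈ W, ∀ v, fderiv ℝ x q v = 0 → fderiv ℝ F q v = 0 := by
    intro q hq v hv
    set v1 : E := ∑ l, (if B (b l) then θ l q v else 0) • Y l q with hv1
    set v2 : E := ∑ l, (if B (b l) then 0 else θ l q v) • Y l q with hv2
    have e1 : v = v1 + v2 := by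
      rw [hv1, hv2, ← Finset.sum_add_distrib]
      conv_lhs => rw [hexp q hq v]
      refine Finset.sum_congr rfl fun l _ => ?_
      by_cases hl : B (b l) <;> simp [hl]
    have e2 : fderiv ℝ x q v2 = 0 := by
      rw [hv2, map_sum]
      refine Finset.sum_eq_zero fun l _ => ?_
      by_cases hl : B (b l)
      · rw [if_pos hl, zero_smul, map_zero]
      · rw [map_smul, h.kx _ hl _ (hY l) q hq, smul_zero]
    have e3 : fderiv ℝ y q v1 = 0 := by
      rw [hv1, map_sum]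
      refine Finset.sum_eq_zero fun l _ => ?_
      by_cases hl : B (b l)
      · rw [map_smul, h.ky _ hl _ (hY l) q hq, smul_zero]
      · rw [if_neg hl, zero_smul, map_zero]
    have e4 : fderiv ℝ x q v1 = 0 := by
      rw [e1, map_add, e2, add_zero] at hv
      exact hv
    have e5 : v1 = 0 := h.ch.inj hq e4 e3
    rw [e1, e5, zero_add, hv2, map_sum]
    refine Finset.sum_eq_zero fun l _ => ?_
    by_cases hl : B (b l)
    · rw [if_pos hl, zero_smul, map_zero]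
    · rw [map_smul, hFk _ hl _ (hY l) q hq, smul_zero]
  have hxq := h.ch.mx q hq
  have hconst : ∀ b1 ∈ U₂, ∀ b2 ∈ U₂, F (Ψ (x q, b1)) = F (Ψ (x q, b2)) := by
    have hd : ∀ b1 ∈ U₂, HasFDerivAt (fun b1 => F (Ψ (x q, b1))) (0 : A' →L[ℝ] ℝ) b1 := by
      intro b1 hb1
      have hm := h.ch.mΨ (x q) hxq b1 hb1
      have g1 : HasFDerivAt F (fderiv ℝ F (Ψ (x q, b1))) (Ψ (x q, b1)) :=
        ((hFs.contDiffAt (h.ch.hW.mem_nhds hm)).differentiableAt inf_ne).hasFDerivAt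
      have g2 : HasFDerivAt (fun b1 : A' => Ψ (x q, b1)) _ b1 :=
        HasFDerivAt.comp b1 (g := Ψ) (h.ch.dΨ hxq hb1) (hasFDerivAt_prodMk_right (x q) b1)
      have g3 : HasFDerivAt (fun b1 : A' => F (Ψ (x q, b1))) _ b1 :=
        HasFDerivAt.comp (g := F) b1 g1 g2
      refine g3.congr_fderiv ?_
      ext v
      simp only [ContinuousLinearMap.comp_apply, ContinuousLinearMap.inr_apply,
        ContinuousLinearMap.zero_apply]
      exact hFv _ hm _ (h.ch.right hxq hb1 (0, v)).1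
    intro b1 hb1 b2 hb2
    refine h.ch.h2.is_const_of_fderiv_eq_zero h.ch.c2.isPreconnected
      (fun z hz => (hd z hz).differentiableAt.differentiableWithinAt)
      (fun z hz => (hd z hz).fderiv) hb1 hb2
  have h1 := hconst (y q) (h.ch.my q hq) b0 hb0
  rw [h.ch.eΨ q hq] at h1
  have h2 : ∀ q ∈ W, ∑ i : {i // B (lam i)}, η (fderiv ℝ x q (D.X i q)) *
      ζ (fderiv ℝ x q (D.X i q)) = F q := by
    intro q hq
    refine sum_sub (p := fun i => B (lam i))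
      (f := fun i => η (fderiv ℝ x q (D.X i q)) * ζ (fderiv ℝ x q (D.X i q))) fun i hi => ?_
    rw [hk i hi q hq, map_zero, zero_mul]
  rw [h2 q hq, h1, ← h2 _ (h.ch.mΨ _ hxq b0 hb0)]
  rfl

lemma frg_eq {q : E} (hq : q ∈ W) (g : {i // B (lam i)} → ℝ) :
    frg (xi D lam x Ψ B b0) (x q) (∑ i : {i // B (lam i)}, g i • fderiv ℝ x q (D.X i q))
      (∑ i : {i // B (lam i)}, g i • fderiv ℝ x q (D.X i q)) = ∑ i, g i * g i :=
  orth_of_cometric (u := fun i : {i // B (lam i)} => fderiv ℝ x q (D.X i q))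
    (ξ := fun i => xi D lam x Ψ B b0 i (x q)) (f := coef (xi D lam x Ψ B b0) (x q))
    (coef_spec (h.xi_indep hb0 (h.ch.mx q hq))) (h.cometric_eq hb0 hq) g

lemma frD_eq {q : E} (hq : q ∈ W) : frD (xi D lam x Ψ B b0) (x q) =
    Submodule.span ℝ (range fun i : {i // B (lam i)} => fderiv ℝ x q (D.X i q)) :=
  le_antisymm
    (span_le_of_cometric (fun η ζ => (h.cometric_eq hb0 hq η ζ).symm))
    (span_le_of_cometric (fun η ζ => h.cometric_eq hb0 hq η ζ))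

end Spl

end Pool.Agent.D0H81.SR
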