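import Pool.Agent.D0H81.SR.ToDat

set_option autoImplicit false
set_option linter.unusedVariables false
set_option linter.deprecated false
set_option linter.unusedSectionVars false

open Set Metric Filter Topology
open scoped ContDiff NNReal Matrix

namespace Pool.Agent.D0H81.SR

open VectorField (lieBracket)

variable {E : Type} [NormedAddCommGroup E] [NormedSpace ℝ E] [FiniteDimensional ℝ E]

/-- globalisation of local frames -/
lemma mkLoc {V : Set E} {D : E → Submodule ℝ E} {g g' : E → E → E → ℝ} {m : ℕ} {W : Set E}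
    (hW : IsOpen W) (hWV : W ⊆ V) {q0 : E} (hq0 : q0 ∈ W) {X X' : Fin m → E → E}
    (hX : ∀ i, ContDiffOn ℝ ∞ (X i) W) (hX' : ∀ i, ContDiffOn ℝ ∞ (X' i) W)
    (on : ∀ q ∈ W, ∀ i j, g q (X i q) (X j q) = if i = j then 1 else 0)
    (on' : ∀ q ∈ W, ∀ i j, g' q (X' i q) (X' j q) = if i = j then 1 else 0)
    (sp : ∀ q ∈ W, Submodule.span ℝ (range fun i => X i q) = D q)
    (sp' : ∀ q ∈ W, Submodule.span ℝ (range fun i => X' i q) = D q)
    (S : Fin m → Fin m → E → ℝ) (hS : ∀ i j, ContDiffOn ℝ ∞ (S i j) W)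
    (eS : ∀ q ∈ W, ∀ i j, S i j q = g' q (X i q) (X j q)) :
    ∃ L : Loc V D g g' m, q0 ∈ L.B ∧ L.B ⊆ W ∧ IsPreconnected L.B ∧
      (∀ q ∈ L.B, ∀ i, L.X i q = X i q) := by
  obtain ⟨δ, hδ, hball⟩ := Metric.isOpen_iff.1 hW q0 hq0
  let β : ContDiffBump q0 := ⟨δ / 4, δ / 2, by positivity, by linarith⟩
  have hβs : tsupport β ⊆ W := by
    rw [β.tsupport_eq]
    exact (closedBall_subset_ball (by show δ / 2 < δ; linarith)).trans hball
  have hβ1 : ∀ q ∈ ball q0 (δ / 4), β q = 1 := fun q hq =>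
    β.one_of_mem_closedBall (ball_subset_closedBall hq)
  have hsub : ball q0 (δ / 4) ⊆ W := (ball_subset_ball (by linarith)).trans hball
  refine ⟨{ B := ball q0 (δ / 4)
            hB := isOpen_ball
            sub := hsub.trans hWV
            X := fun i q => β q • X i q
            X' := fun i q => β q • X' i q
            hX := fun i => global_ext β.contDiff hW (hX i) hβs
            hX' := fun i => global_ext β.contDiff hW (hX' i) hβs
            on := ?_
            on' := ?_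
            sp := ?_
            sp' := ?_
            S := fun i j q => β q • S i j q
            hS := fun i j => global_ext β.contDiff hW (hS i j) hβs
            eS := ?_ }, mem_ball_self (by positivity), hsub, (convex_ball _ _).isPreconnected, ?_⟩
  · intro q hq i j
    simp only [hβ1 q hq, one_smul]
    exact on q (hsub hq) i j
  · intro q hq i j
    simp only [hβ1 q hq, one_smul]
    exact on' q (hsub hq) i j
  · intro q hq
    simp only [hβ1 q hq, one_smul]
    exact sp q (hsub hq)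
  · intro q hq
    simp only [hβ1 q hq, one_smul]
    exact sp' q (hsub hq)
  · intro q hq i j
    simp only [hβ1 q hq, one_smul]
    exact eS q (hsub hq) i j
  · intro q hq i
    simp only [hβ1 q hq, one_smul]

/-- the metrics are proportional with factor `κ` at `q` -/
def PropAt (D : E → Submodule ℝ E) (g g' : E → E → E → ℝ) (κ : ℝ) (q : E) : Prop :=
  ∀ v ∈ D q, ∀ w ∈ D q, g' q v w = κ * g q v w

lemma propAt_of_frame {V : Set E} {D : E → Submodule ℝ E} {g g' : E → E → E → ℝ}
    (hg : IsMetric V D g) (hg' : IsMetric V D g') {m : ℕ} {q : E} (hq : q ∈ V) {x : Fin m → E}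
    (hsp : Submodule.span ℝ (range x) = D q)
    (κ : ℝ) (h : ∀ i j, g' q (x i) (x j) = κ * g q (x i) (x j)) : PropAt D g g' κ q := by
  have hx : ∀ i, x i ∈ D q := fun i => by rw [← hsp]; exact Submodule.subset_span ⟨i, rfl⟩
  intro v hv w hw
  rw [← hsp, Submodule.mem_span_range_iff_exists_fun] at hv hw
  obtain ⟨a, rfl⟩ := hv
  obtain ⟨b, rfl⟩ := hw
  have hw' : ∑ i, b i • x i ∈ D q := Submodule.sum_mem _ fun j hj => (D q).smul_mem _ (hx j)
  rw [hg'.sum hq _ a x (fun i _ => hx i) hw', hg.sum hq _ a x (fun i _ => hx i) hw',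
    Finset.mul_sum]
  refine Finset.sum_congr rfl fun i _ => ?_
  rw [hg'.sum_right hq _ b x (fun i _ => hx i) (hx i),
    hg.sum_right hq _ b x (fun i _ => hx i) (hx i), Finset.mul_sum, Finset.mul_sum,
    Finset.mul_sum]
  refine Finset.sum_congr rfl fun j _ => ?_
  rw [h i j]
  ring

/-- existence of the first local frames -/
lemma first_loc {U V : Set E} {D : E → Submodule ℝ E} {g g' : E → E → E → ℝ} (hVU : V ⊆ U)
    (hV : IsOpen V) (hD : IsDistribution U D) (hg : IsMetric V D g) (hg' : IsMetric V D g')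
    {q0 : E} (hq0 : q0 ∈ V) :
    ∃ (m : ℕ) (L : Loc V D g g' m), q0 ∈ L.B ∧ IsPreconnected L.B := by
  obtain ⟨W0, hW0U, hW0, hqW0, m, F, hF, hF2⟩ := hD q0 (hVU hq0)
  set W : Set E := W0 ∩ V with hW
  have hWo : IsOpen W := hW0.inter hV
  have hWV : W ⊆ V := inter_subset_right
  have hFs : ∀ i, ContDiffOn ℝ ∞ (F i) W := fun i => (hF i).mono inter_subset_left
  have hLI : ∀ q ∈ W, LinearIndependent ℝ (fun i => F i q) := fun q hq => (hF2 q hq.1).1
  have hsp : ∀ q ∈ W, Submodule.span ℝ (range fun i => F i q) = D q := fun q hq => (hF2 q hq.1).2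
  obtain ⟨X, hX, on, -, sp, -⟩ := exists_on hWo (hg.mono hWV) (hg.mono hWV) F (fun _ => 1) hFs hLI
    hsp (fun i q hq w hw => by rw [one_mul])
  obtain ⟨X', hX', on', -, sp', -⟩ := exists_on hWo (hg'.mono hWV) (hg'.mono hWV) F (fun _ => 1)
    hFs hLI hsp (fun i q hq w hw => by rw [one_mul])
  have hmem : ∀ i, ∀ q ∈ W, X i q ∈ D q := fun i q hq => by
    rw [← sp q hq]; exact Submodule.subset_span ⟨i, rfl⟩
  obtain ⟨L, h1, h2, h3, h4⟩ := mkLoc hWo hWV ⟨hqW0, hq0⟩ hX hX' on on' sp sp'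
    (fun i j q => g' q (X i q) (X j q))
    (fun i j => hg'.smooth W hWV hWo _ _ ⟨hX i, hmem i⟩ ⟨hX j, hmem j⟩) (fun q hq i j => rfl)
  exact ⟨m, L, h1, h3⟩

/-- proportionality propagates locally -/
theorem local_const {U V : Set E} {D : E → Submodule ℝ E} {g g' : E → E → E → ℝ} (hVU : V ⊆ U)
    (hV : IsOpen V) (hD : IsDistribution U D) (hbr : IsBracketGenerating U D)
    (hg : IsMetric V D g) (hg' : IsMetric V D g')
    (haff : GeodesicsAffineIn D g g' V) {q0 : E} (hq0 : q0 ∈ V) :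
    ∃ B ⊆ V, IsOpen B ∧ q0 ∈ B ∧ ∀ κ : ℝ, ∀ q1 ∈ B, PropAt D g g' κ q1 →
      ∀ q ∈ B, PropAt D g g' κ q := by
  obtain ⟨m, L, hqB, hpre⟩ := first_loc hVU hV hD hg hg' hq0
  refine ⟨L.B, L.sub, L.hB, hqB, ?_⟩
  intro κ q1 hq1 hP q hq
  rcases Nat.eq_zero_or_pos m with h0 | hm
  · subst h0
    have hbot : D q = ⊥ := by
      rw [← L.sp q hq]
      simp
    intro v hv w hw
    rw [hbot, Submodule.mem_bot] at hv
    subst hv
    rw [hg.zero (L.sub hq) hw, hg'.zero (L.sub hq) hw, mul_zero]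
  · set Dt : Dat E (Fin m) := L.toDat hg hg' hVU hbr haff hm with hDt
    have hS : ∀ q ∈ L.B, ∀ i j, Dt.S i j q = g' q (L.X i q) (L.X j q) := fun q hq i j => L.eS q hq i j
    have h1 : Polynomial.aeval (Mx Dt.S q1) (Polynomial.X - Polynomial.C κ) = 0 := by
      rw [map_sub, Polynomial.aeval_X, Polynomial.aeval_C, sub_eq_zero]
      ext i j
      show Dt.S i j q1 = _
      rw [hS q1 hq1, hP _ (L.memX hq1 i) _ (L.memX hq1 j), L.on q1 hq1, Matrix.algebraMap_matrix_apply]
      split_ifs <;> simp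
    have h2 := Dt.aeval_const (q := q) (q0 := q1) hpre hq hq1 h1
    rw [map_sub, Polynomial.aeval_X, Polynomial.aeval_C, sub_eq_zero] at h2
    refine propAt_of_frame hg hg' (L.sub hq) (x := fun i => L.X i q) (L.sp q hq) κ fun i j => ?_
    have h3 : Dt.S i j q = (algebraMap ℝ (Matrix (Fin m) (Fin m) ℝ) κ) i j :=
      congrFun (congrFun h2 i) j
    rw [hS q hq, Matrix.algebraMap_matrix_apply] at h3
    rw [h3, L.on q hq]
    split_ifs <;> simp

/-- the local theorem -/
theorem local_main {U V : Set E} {D : E → Submodule ℝ E} {g g' : E → E → E → ℝ} (hVU : V ⊆ U)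
    (hV : IsOpen V) (hD : IsDistribution U D) (hbr : IsBracketGenerating U D)
    (hg : IsMetric V D g) (hg' : IsMetric V D g')
    (haff : GeodesicsAffineIn D g g' V) {q0 : E} (hq0 : q0 ∈ V) :
    IsProductNear U D g q0 ∨ ∃ B ⊆ V, IsOpen B ∧ q0 ∈ B ∧ ConstProportional D g g' B := by
  obtain ⟨m, L, hqB, hpre⟩ := first_loc hVU hV hD hg hg' hq0
  rcases Nat.eq_zero_or_pos m with h0 | hm
  · right
    refine ⟨L.B, L.sub, L.hB, hqB, 1, one_pos, ?_⟩
    subst h0
    intro q hq v hv w hw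
    have hbot : D q = ⊥ := by
      rw [← L.sp q hq]
      simp
    rw [hbot, Submodule.mem_bot] at hv
    subst hv
    rw [hg.zero (L.sub hq) hw, hg'.zero (L.sub hq) hw, mul_zero]
  set Dt : Dat E (Fin m) := L.toDat hg hg' hVU hbr haff hm with hDt
  have hS : ∀ q ∈ L.B, ∀ i j, Dt.S i j q = g' q (L.X i q) (L.X j q) := fun q hq i j => L.eS q hq i j
  obtain ⟨μ, v, hv, hveig, hvLI⟩ := Dt.eigframe hpre hqB
  -- adapted frame
  set F : Fin m → E → E := fun i q => ∑ k, v i k q • L.X k q with hF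
  have hFs : ∀ i, ContDiff ℝ ∞ (F i) := fun i => ContDiff.sum fun k _ => (hv i k).smul (L.hX k)
  have hF0 : LinearIndependent ℝ (fun i => F i q0) := by
    rw [Fintype.linearIndependent_iff]
    intro a ha
    have h1 : ∑ k, (∑ i, a i * v i k q0) • L.X k q0 = 0 := by
      rw [← ha]
      simp only [hF, Finset.smul_sum, Finset.sum_smul, smul_smul]
      exact Finset.sum_comm
    have h2 := Fintype.linearIndependent_iff.1 (L.indep hg hqB) _ h1
    have h3 : ∑ i, a i • (fun k => v i k q0) = 0 := by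
      funext k
      rw [Finset.sum_apply]
      exact h2 k
    exact Fintype.linearIndependent_iff.1 hvLI a h3
  obtain ⟨W, hWB, hWo, hqW, φ, -, hφd⟩ := exists_smooth_dual (fun i q => F i q) L.B L.hB q0 hqB
    (fun i => (hFs i).contDiffOn) hF0
  have hWV : W ⊆ V := hWB.trans L.sub
  have hFLI : ∀ q ∈ W, LinearIndependent ℝ (fun i => F i q) := fun q hq =>
    indep_of_dual (v := fun i => F i q) (φ := fun i => φ i q) (hφd q hq)
  have hFmem : ∀ i, ∀ q ∈ W, F i q ∈ D q := fun i q hq =>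
    Submodule.sum_mem _ fun k _ => (D q).smul_mem _ (L.memX (hWB hq) k)
  have hFsp : ∀ q ∈ W, Submodule.span ℝ (range fun i => F i q) = D q := by
    intro q hq
    apply Submodule.eq_of_le_of_finrank_eq
    · rw [Submodule.span_le]
      rintro _ ⟨i, rfl⟩
      exact hFmem i q hq
    · rw [finrank_span_eq_card (hFLI q hq), ← L.sp q (hWB hq),
        finrank_span_eq_card (L.indep hg (hWB hq))]
  have hFeig : ∀ i, ∀ q ∈ W, ∀ w ∈ D q, g' q (F i q) w = μ i * g q (F i q) w := by
    intro i q hq w hw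
    have hqB' := hWB hq
    have hqV := hWV hq
    rw [← L.sp q hqB', Submodule.mem_span_range_iff_exists_fun] at hw
    obtain ⟨b, rfl⟩ := hw
    rw [hg'.sum_right hqV _ b _ (fun i _ => L.memX hqB' i) (hFmem i q hq),
      hg.sum_right hqV _ b _ (fun i _ => L.memX hqB' i) (hFmem i q hq), Finset.mul_sum]
    refine Finset.sum_congr rfl fun l _ => ?_
    have h1 : g' q (F i q) (L.X l q) = ∑ k, v i k q * g' q (L.X k q) (L.X l q) :=
      hg'.sum hqV _ (fun k => v i k q) _ (fun k _ => L.memX hqB' k) (L.memX hqB' l)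
    have h2 : g q (F i q) (L.X l q) = ∑ k, v i k q * g q (L.X k q) (L.X l q) :=
      hg.sum hqV _ (fun k => v i k q) _ (fun k _ => L.memX hqB' k) (L.memX hqB' l)
    have h3 : g q (F i q) (L.X l q) = v i l q := by
      rw [h2]
      simp [L.on q hqB']
    have h4 : g' q (F i q) (L.X l q) = μ i * v i l q := by
      rw [h1, ← hveig i q hqB' l]
      refine Finset.sum_congr rfl fun k _ => ?_
      rw [hS q hqB', hg'.symm q hqV _ (L.memX hqB' k) _ (L.memX hqB' l)]
      ring
    rw [h3, h4]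
    ring
  obtain ⟨X, hX, on, hXLI, sp, heig⟩ := exists_on hWo (hg.mono hWV) (hg'.mono hWV) F μ
    (fun i => (hFs i).contDiffOn) hFLI hFsp hFeig
  have hXmem : ∀ i, ∀ q ∈ W, X i q ∈ D q := fun i q hq => by
    rw [← sp q hq]; exact Submodule.subset_span ⟨i, rfl⟩
  have hgram : ∀ q ∈ W, ∀ i j, g' q (X i q) (X j q) = if i = j then μ i else 0 := by
    intro q hq i j
    rw [heig i q hq _ (hXmem j q hq), on q hq]
    split_ifs <;> simp
  have hμ : ∀ i, 0 < μ i := by
    intro i
    have h1 := hg'.pos q0 hq0 (X i q0) (hXmem i q0 hqW) ((hXLI q0 hqW).ne_zero i)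
    rw [hgram q0 hqW, if_pos rfl] at h1
    exact h1
  obtain ⟨L2, hqB2, hB2W, -, hX2⟩ := mkLoc (D := D) (g := g) (g' := g') hWo hWV hqW (X := X)
    (X' := L.X') hX (fun i => (L.hX' i).contDiffOn) on (fun q hq => L.on' q (hWB hq)) sp
    (fun q hq => L.sp' q (hWB hq)) (fun i j _ => if i = j then μ i else 0)
    (fun i j => contDiffOn_const) (fun q hq i j => (hgram q hq i j).symm)
  -- replace `S` by the constants
  set L3 : Loc V D g g' m :=
    { B := L2.B
      hB := L2.hB
      sub := L2.sub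
      X := L2.X
      X' := L2.X'
      hX := L2.hX
      hX' := L2.hX'
      on := L2.on
      on' := L2.on'
      sp := L2.sp
      sp' := L2.sp'
      S := fun i j _ => if i = j then μ i else 0
      hS := fun i j => contDiff_const
      eS := fun q hq i j => by
        rw [hX2 q hq, hX2 q hq, hgram q (hB2W hq)] } with hL3
  set D3 : Dat E (Fin m) := L3.toDat hg hg' hVU hbr haff hm with hD3
  have hdiag : D3.IsDiag μ := ⟨hμ, fun i j q => rfl⟩
  by_cases hall : ∃ i0 j0, μ i0 ≠ μ j0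
  · left
    obtain ⟨i0, j0, hij⟩ := hall
    obtain ⟨O', hO', hO'o, hqO, ψ, hψs, hψd⟩ := exists_smooth_dual (fun i x => D3.X i x) D3.V
      D3.hV q0 hqB2 (fun i => (D3.hX i).contDiffOn) (D3.hLI q0 hqB2)
    let c : Ctx D3 μ :=
      { V := O'
        hV := hO'o
        sub := hO'
        ψ := ψ
        hψ := hψs
        dual := hψd
        isd := hdiag }
    refine product c (q0 := q0) hqO hij (fun q hq => hVU (L2.sub (hO' hq)))
      (fun q hq => (L2.sp q (hO' hq)).symm) ?_
    intro q hq a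
    exact hg.orth_sum (L2.sub (hO' hq)) _ (L2.memX (hO' hq)) (L2.on q (hO' hq)) a a
  · right
    push Not at hall
    refine ⟨W, hWV, hWo, hqW, μ ⟨0, hm⟩, hμ _, ?_⟩
    intro q hq
    refine propAt_of_frame hg hg' (hWV hq) (x := fun i => X i q) (sp q hq) (μ ⟨0, hm⟩)
      fun i j => ?_
    rw [hgram q hq, on q hq, hall i ⟨0, hm⟩]
    split_ifs <;> simp

end Pool.Agent.D0H81.SR
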