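import Pool.Agent.D0H81.SR.Basic

set_option autoImplicit false
set_option linter.unusedVariables false
set_option linter.deprecated false
set_option linter.unusedSectionVars false

open Set Metric Filter Topology
open scoped ContDiff NNReal

namespace Pool.Agent.D0H81.SR

/-- the dual space -/
abbrev Co (E : Type) [NormedAddCommGroup E] [NormedSpace ℝ E] : Type := E →L[ℝ] ℝ

/-- the cotangent bundle -/
abbrev TT (E : Type) [NormedAddCommGroup E] [NormedSpace ℝ E] : Type := E × (E →L[ℝ] ℝ)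

variable {E : Type} [NormedAddCommGroup E] [NormedSpace ℝ E]
variable {ι : Type} [Fintype ι]

/-- momentum functions -/
noncomputable def mom (X : ι → E → E) (i : ι) (z : TT E) : ℝ := z.2 (X i z.1)

noncomputable def Kop (X : ι → E → E) (κ : ι → ℝ) (z : TT E) : E →L[ℝ] E :=
  ∑ i, (κ i * mom X i z) • fderiv ℝ (X i) z.1

noncomputable def Ham (X : ι → E → E) (κ : ι → ℝ) (z : TT E) : TT E :=
  (∑ i, (κ i * mom X i z) • X i z.1, -(z.2.comp (Kop X κ z)))

/-- the Hamiltonian function -/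
noncomputable def hk (X : ι → E → E) (κ : ι → ℝ) (z : TT E) : ℝ :=
  (1 / 2) * ∑ i, κ i * mom X i z ^ 2

/-- canonical symplectic form -/
noncomputable def om (x y : TT E) : ℝ := y.2 x.1 - x.2 y.1

lemma mom_smooth {X : ι → E → E} (hX : ∀ i, ContDiff ℝ ∞ (X i)) (i : ι) :
    ContDiff ℝ ∞ (mom X i) :=
  contDiff_snd.clm_apply ((hX i).comp contDiff_fst)

lemma fderiv_smooth {F : Type} [NormedAddCommGroup F] [NormedSpace ℝ F] {Y : E → F}
    (hY : ContDiff ℝ ∞ Y) : ContDiff ℝ ∞ (fderiv ℝ Y) :=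
  hY.fderiv_right (by exact_mod_cast le_top)

lemma Kop_smooth {X : ι → E → E} (hX : ∀ i, ContDiff ℝ ∞ (X i)) (κ : ι → ℝ) :
    ContDiff ℝ ∞ (Kop X κ) := by
  unfold Kop
  refine ContDiff.sum fun i _ => ?_
  exact (contDiff_const.mul (mom_smooth hX i)).smul ((fderiv_smooth (hX i)).comp contDiff_fst)

lemma Ham_smooth {X : ι → E → E} (hX : ∀ i, ContDiff ℝ ∞ (X i)) (κ : ι → ℝ) :
    ContDiff ℝ ∞ (Ham X κ) := by
  unfold Ham
  refine ContDiff.prodMk ?_ ?_
  · refine ContDiff.sum fun i _ => ?_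
    exact (contDiff_const.mul (mom_smooth hX i)).smul ((hX i).comp contDiff_fst)
  · exact (contDiff_snd.clm_comp (Kop_smooth hX κ)).neg

lemma hk_smooth {X : ι → E → E} (hX : ∀ i, ContDiff ℝ ∞ (X i)) (κ : ι → ℝ) :
    ContDiff ℝ ∞ (hk X κ) := by
  unfold hk
  refine contDiff_const.mul (ContDiff.sum fun i _ => ?_)
  exact contDiff_const.mul ((mom_smooth hX i).pow 2)

lemma inf_ne : (∞ : WithTop ℕ∞) ≠ 0 := by simp

lemma two_le_inf : (2 : WithTop ℕ∞) ≤ ∞ := by
  have : ((2 : ℕ∞) : WithTop ℕ∞) ≤ ((⊤ : ℕ∞) : WithTop ℕ∞) := WithTop.coe_le_coe.2 le_top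
  exact this

lemma one_le_inf : (1 : WithTop ℕ∞) ≤ ∞ := by exact_mod_cast le_top

lemma mom_hasFDerivAt {X : ι → E → E} (hX : ∀ i, ContDiff ℝ ∞ (X i)) (i : ι) (z ζ : TT E) :
    fderiv ℝ (mom X i) z ζ = ζ.2 (X i z.1) + z.2 (fderiv ℝ (X i) z.1 ζ.1) := by
  have h1 : HasFDerivAt (fun z : TT E => z.2) (ContinuousLinearMap.snd ℝ E (E →L[ℝ] ℝ)) z :=
    hasFDerivAt_snd
  have h2 : HasFDerivAt (fun z : TT E => X i z.1)
      ((fderiv ℝ (X i) z.1).comp (ContinuousLinearMap.fst ℝ E (E →L[ℝ] ℝ))) z :=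
    ((hX i).differentiable inf_ne z.1).hasFDerivAt.comp z hasFDerivAt_fst
  have h3 : HasFDerivAt (mom X i) _ z := h1.clm_apply h2
  rw [h3.fderiv]
  simp [add_comm]

lemma Ham_fst_fderiv {X : ι → E → E} (hX : ∀ i, ContDiff ℝ ∞ (X i)) (κ : ι → ℝ) (z ζ : TT E) :
    (fderiv ℝ (Ham X κ) z ζ).1 =
      ∑ i, (κ i * fderiv ℝ (mom X i) z ζ) • X i z.1 + Kop X κ z ζ.1 := by
  have h0 : HasFDerivAt (Ham X κ) (fderiv ℝ (Ham X κ) z) z :=
    ((Ham_smooth hX κ).differentiable inf_ne z).hasFDerivAt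
  have h1 : HasFDerivAt (fun z => (Ham X κ z).1) _ z := h0.fst
  have h2 : HasFDerivAt (fun z => (Ham X κ z).1) (∑ i, ((κ i * mom X i z) •
      ((fderiv ℝ (X i) z.1).comp (ContinuousLinearMap.fst ℝ E (E →L[ℝ] ℝ))) +
      (κ i • fderiv ℝ (mom X i) z).smulRight (X i z.1))) z := by
    have h3 : ∀ i ∈ Finset.univ, HasFDerivAt (fun z : TT E => (κ i * mom X i z) • X i z.1)
        ((κ i * mom X i z) • ((fderiv ℝ (X i) z.1).comp
          (ContinuousLinearMap.fst ℝ E (E →L[ℝ] ℝ))) +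
        (κ i • fderiv ℝ (mom X i) z).smulRight (X i z.1)) z := by
      intro i _
      have h4 : HasFDerivAt (mom X i) (fderiv ℝ (mom X i) z) z :=
        ((mom_smooth hX i).differentiable inf_ne z).hasFDerivAt
      have h5 : HasFDerivAt (fun z : TT E => X i z.1)
          ((fderiv ℝ (X i) z.1).comp (ContinuousLinearMap.fst ℝ E (E →L[ℝ] ℝ))) z :=
        ((hX i).differentiable inf_ne z.1).hasFDerivAt.comp z hasFDerivAt_fst
      exact (h4.const_mul (κ i)).smul h5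
    exact HasFDerivAt.fun_sum h3
  have h3 := congrArg (fun L : TT E →L[ℝ] E => L ζ) (h1.unique h2)
  simp only [ContinuousLinearMap.comp_apply, ContinuousLinearMap.coe_fst'] at h3
  rw [h3]
  simp only [ContinuousLinearMap.sum_apply, ContinuousLinearMap.add_apply,
    ContinuousLinearMap.smul_apply, ContinuousLinearMap.comp_apply,
    ContinuousLinearMap.coe_fst', ContinuousLinearMap.smulRight_apply, Finset.sum_add_distrib, Kop,
    smul_eq_mul]
  rw [add_comm]

lemma hk_fderiv {X : ι → E → E} (hX : ∀ i, ContDiff ℝ ∞ (X i)) (κ : ι → ℝ) (z ζ : TT E) :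
    fderiv ℝ (hk X κ) z ζ = om (Ham X κ z) ζ := by
  have h3 : ∀ i ∈ Finset.univ, HasFDerivAt (fun z : TT E => κ i * mom X i z ^ 2)
      (κ i • ((2 * mom X i z) • fderiv ℝ (mom X i) z)) z := by
    intro i _
    have h4 : HasFDerivAt (mom X i) (fderiv ℝ (mom X i) z) z :=
      ((mom_smooth hX i).differentiable inf_ne z).hasFDerivAt
    have := h4.pow 2
    simp only [Nat.add_one_sub_one, pow_one, nsmul_eq_mul, Nat.cast_ofNat] at this
    exact this.const_mul (κ i)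
  have h4 : HasFDerivAt (hk X κ) ((1/2 : ℝ) • ∑ i, (κ i • ((2 * mom X i z) • fderiv ℝ (mom X i) z))) z :=
    (HasFDerivAt.fun_sum h3).const_mul (1/2)
  rw [h4.fderiv]
  simp only [ContinuousLinearMap.smul_apply, ContinuousLinearMap.sum_apply, smul_eq_mul,
    mom_hasFDerivAt hX, om, Ham, Kop, map_sum, map_smul, ContinuousLinearMap.neg_apply,
    ContinuousLinearMap.comp_apply, sub_neg_eq_add]
  rw [Finset.mul_sum, ← Finset.sum_add_distrib]
  refine Finset.sum_congr rfl fun i _ => ?_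
  ring

lemma om_add_left (x y z : TT E) : om (x + y) z = om x z + om y z := by
  simp [om]; ring
lemma om_swap (x y : TT E) : om x y = - om y x := by
  simp [om]
lemma om_smul_left (c : ℝ) (x y : TT E) : om (c • x) y = c * om x y := by
  simp [om]; ring

lemma om_sub_left (x y z : TT E) : om (x - y) z = om x z - om y z := by
  simp [om]; ring

lemma om_nondeg [FiniteDimensional ℝ E] {x : TT E} (h : ∀ y, om x y = 0) : x = 0 := by
  have h1 : x.1 = 0 := by
    by_contra hne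
    obtain ⟨f, hf⟩ := SeparatingDual.exists_ne_zero (R := ℝ) hne
    have := h (0, f)
    simp [om] at this
    exact hf this
  have h2 : x.2 = 0 := by
    ext v
    have := h (v, 0)
    simp [om] at this
    simpa using this
  exact Prod.ext h1 h2

/-- symmetry of the Hessian -/
lemma Ham_symm {X : ι → E → E} (hX : ∀ i, ContDiff ℝ ∞ (X i)) (κ : ι → ℝ) (z ζ ζ' : TT E) :
    om (fderiv ℝ (Ham X κ) z ζ) ζ' = om (fderiv ℝ (Ham X κ) z ζ') ζ := by
  have hs : IsSymmSndFDerivAt ℝ (hk X κ) z :=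
    (hk_smooth hX κ).contDiffAt.isSymmSndFDerivAt (by simpa using two_le_inf)
  have key : ∀ ζ ζ' : TT E, fderiv ℝ (fderiv ℝ (hk X κ)) z ζ ζ' =
      om (fderiv ℝ (Ham X κ) z ζ) ζ' := by
    intro ζ ζ'
    have h1 : HasFDerivAt (fderiv ℝ (hk X κ)) (fderiv ℝ (fderiv ℝ (hk X κ)) z) z :=
      ((fderiv_smooth (hk_smooth hX κ)).differentiable inf_ne z).hasFDerivAt
    have h2 : HasFDerivAt (fun z => fderiv ℝ (hk X κ) z ζ') _ z :=
      h1.clm_apply (hasFDerivAt_const ζ' z)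
    have h3 : (fun z => fderiv ℝ (hk X κ) z ζ') = fun z => om (Ham X κ z) ζ' := by
      funext z; exact hk_fderiv hX κ z ζ'
    rw [h3] at h2
    have h0 : HasFDerivAt (Ham X κ) (fderiv ℝ (Ham X κ) z) z :=
      ((Ham_smooth hX κ).differentiable inf_ne z).hasFDerivAt
    have h4 : HasFDerivAt (fun z => om (Ham X κ z) ζ')
        ((ζ'.2.comp ((ContinuousLinearMap.fst ℝ E (E →L[ℝ] ℝ)).comp (fderiv ℝ (Ham X κ) z))) -
        ((ContinuousLinearMap.apply ℝ ℝ ζ'.1).comp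
          ((ContinuousLinearMap.snd ℝ E (E →L[ℝ] ℝ)).comp (fderiv ℝ (Ham X κ) z)))) z := by
      have a1 := ζ'.2.hasFDerivAt.comp z h0.fst
      have a2 := ((ContinuousLinearMap.apply ℝ ℝ ζ'.1)).hasFDerivAt.comp z h0.snd
      exact a1.sub a2
    have h5 := congrArg (fun L : TT E →L[ℝ] ℝ => L ζ) (h2.unique h4)
    simp only [ContinuousLinearMap.add_apply, ContinuousLinearMap.comp_apply,
      ContinuousLinearMap.sub_apply] at h5
    simp only [ContinuousLinearMap.zero_apply, map_zero, zero_add,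
      ContinuousLinearMap.flip_apply] at h5
    rw [h5]
    rfl
  rw [← key, ← key]
  exact hs ζ ζ'

lemma om_hasDerivAt {x y : ℝ → TT E} {x' y' : TT E} {t : ℝ} (hx : HasDerivAt x x' t)
    (hy : HasDerivAt y y' t) :
    HasDerivAt (fun t => om (x t) (y t)) (om x' (y t) + om (x t) y') t := by
  have hx1 : HasDerivAt (fun t => (x t).1) x'.1 t :=
    (ContinuousLinearMap.fst ℝ E (E →L[ℝ] ℝ)).hasFDerivAt.comp_hasDerivAt t hx
  have hx2 : HasDerivAt (fun t => (x t).2) x'.2 t :=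
    (ContinuousLinearMap.snd ℝ E (E →L[ℝ] ℝ)).hasFDerivAt.comp_hasDerivAt t hx
  have hy1 : HasDerivAt (fun t => (y t).1) y'.1 t :=
    (ContinuousLinearMap.fst ℝ E (E →L[ℝ] ℝ)).hasFDerivAt.comp_hasDerivAt t hy
  have hy2 : HasDerivAt (fun t => (y t).2) y'.2 t :=
    (ContinuousLinearMap.snd ℝ E (E →L[ℝ] ℝ)).hasFDerivAt.comp_hasDerivAt t hy
  have := (hy2.clm_apply hx1).sub (hx2.clm_apply hy1)
  refine this.congr_deriv ?_
  simp only [om]
  ring

end Pool.Agent.D0H81.SR
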