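import Pool.Agent.D0H81.SR.Defs
import Pool.Agent.D0H81.SR.Ham

set_option autoImplicit false
set_option linter.unusedVariables false
set_option linter.deprecated false
set_option linter.unusedSectionVars false

open Set Metric Filter Topology
open scoped ContDiff NNReal Matrix

namespace Pool.Agent.D0H81.SR

section frame

variable {A : Type} [NormedAddCommGroup A] [NormedSpace ℝ A] [FiniteDimensional ℝ A]
variable {κ : Type} [Fintype κ] [DecidableEq κ]

open Classical in
/-- coefficient functionals of a frame -/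
noncomputable def coef (ξ : κ → A → A) (x : A) : κ → Co A :=
  if h : LinearIndependent ℝ (fun i => ξ i x) then (exists_dual _ h).choose else 0

lemma coef_spec {ξ : κ → A → A} {x : A} (h : LinearIndependent ℝ (fun i => ξ i x)) (i j : κ) :
    coef ξ x i (ξ j x) = if i = j then 1 else 0 := by
  rw [coef, dif_pos h]; exact (exists_dual _ h).choose_spec i j

/-- the distribution spanned by a frame -/
def frD (ξ : κ → A → A) (x : A) : Submodule ℝ A := Submodule.span ℝ (range fun i => ξ i x)

/-- the metric making a frame orthonormal -/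
noncomputable def frg (ξ : κ → A → A) (x v w : A) : ℝ := ∑ i, coef ξ x i v * coef ξ x i w

lemma mem_frD (ξ : κ → A → A) (x : A) (i : κ) : ξ i x ∈ frD ξ x :=
  Submodule.subset_span ⟨i, rfl⟩

lemma coef_eq {ξ : κ → A → A} {x : A} (h : LinearIndependent ℝ (fun i => ξ i x))
    {φ : κ → Co A} (hφ : ∀ i j, φ i (ξ j x) = if i = j then 1 else 0) {v : A} (hv : v ∈ frD ξ x)
    (i : κ) : coef ξ x i v = φ i v := by
  have h1 := expand_of_dual (v := fun j => ξ j x) (φ := φ) hφ hv
  rw [h1, map_sum, map_sum]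
  refine Finset.sum_congr rfl fun j _ => ?_
  rw [map_smul, map_smul, coef_spec h, hφ]

lemma frD_distribution {ξ : κ → A → A} {U : Set A} (hU : IsOpen U)
    (hs : ∀ i, ContDiffOn ℝ ∞ (ξ i) U) (hLI : ∀ x ∈ U, LinearIndependent ℝ (fun i => ξ i x)) :
    IsDistribution U (frD ξ) := by
  intro q hq
  let e := Fintype.equivFin κ
  refine ⟨U, subset_rfl, hU, hq, Fintype.card κ, fun i => ξ (e.symm i), fun i => hs _, ?_⟩
  intro y hy
  refine ⟨(hLI y hy).comp _ e.symm.injective, ?_⟩
  unfold frD
  congr 1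
  exact (e.symm.surjective.range_comp (fun i => ξ i y))

lemma frg_metric {ξ : κ → A → A} {U : Set A} (hU : IsOpen U)
    (hs : ∀ i, ContDiffOn ℝ ∞ (ξ i) U) (hLI : ∀ x ∈ U, LinearIndependent ℝ (fun i => ξ i x)) :
    IsMetric U (frD ξ) (frg ξ) where
  add q hq u hu v hv w hw := by
    simp only [frg, map_add, add_mul, Finset.sum_add_distrib]
  smul q hq a v hv w hw := by
    simp only [frg, map_smul, smul_eq_mul, Finset.mul_sum]
    exact Finset.sum_congr rfl fun i _ => by ring
  symm q hq v hv w hw := by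
    simp only [frg]
    exact Finset.sum_congr rfl fun i _ => by ring
  pos q hq v hv hne := by
    have h1 := expand_of_dual (v := fun j => ξ j q) (φ := coef ξ q) (coef_spec (hLI q hq)) hv
    have h2 : ∃ i, coef ξ q i v ≠ 0 := by
      by_contra hcon
      push Not at hcon
      apply hne
      rw [h1]
      exact Finset.sum_eq_zero fun i _ => by rw [hcon i, zero_smul]
    obtain ⟨i, hi⟩ := h2
    exact Finset.sum_pos' (fun j _ => mul_self_nonneg _) ⟨i, Finset.mem_univ i, mul_self_pos.2 hi⟩
  smooth W hW hWo X Y hX hY := by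
    intro y hy
    obtain ⟨O', hO', hO'o, hy', φ, hφs, hφd⟩ := exists_smooth_dual (fun i x => ξ i x) W hWo y hy
      (fun i => (hs i).mono hW) (hLI y (hW hy))
    have h1 : ∀ x ∈ O', frg ξ x (X x) (Y x) = ∑ i, φ i x (X x) * φ i x (Y x) := by
      intro x hx
      refine Finset.sum_congr rfl fun i _ => ?_
      have hx' := hO' hx
      rw [coef_eq (hLI x (hW hx')) (φ := fun i => φ i x) (hφd x hx) (hX.2 x hx') i,
        coef_eq (hLI x (hW hx')) (φ := fun i => φ i x) (hφd x hx) (hY.2 x hx') i]
    have h2 : ContDiffOn ℝ ∞ (fun x => ∑ i, φ i x (X x) * φ i x (Y x)) O' :=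
      ContDiffOn.sum fun i _ => ((hφs i).clm_apply (hX.1.mono hO')).mul
        ((hφs i).clm_apply (hY.1.mono hO'))
    have h3 : ContDiffAt ℝ ∞ (fun q => frg ξ q (X q) (Y q)) y := by
      refine (h2.contDiffAt (hO'o.mem_nhds hy')).congr_of_eventuallyEq ?_
      filter_upwards [hO'o.mem_nhds hy'] with x hx
      exact h1 x hx
    exact h3.contDiffWithinAt

/-- two independent families with the same cometric differ by an orthogonal matrix -/
lemma span_le_of_cometric {u ξ : κ → A}
    (hG : ∀ η ζ : Co A, ∑ i, η (u i) * ζ (u i) = ∑ i, η (ξ i) * ζ (ξ i)) :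
    Submodule.span ℝ (range u) ≤ Submodule.span ℝ (range ξ) := by
  rw [Submodule.span_le]
  rintro _ ⟨j, rfl⟩
  by_contra hne
  obtain ⟨f, hf1, hf2⟩ := Submodule.exists_le_ker_of_notMem hne
  have h1 := hG (LinearMap.toContinuousLinearMap f) (LinearMap.toContinuousLinearMap f)
  have h2 : ∑ i, (LinearMap.toContinuousLinearMap f) (ξ i) * (LinearMap.toContinuousLinearMap f) (ξ i) = 0 := by
    refine Finset.sum_eq_zero fun i _ => ?_
    have : f (ξ i) = 0 := hf2 (Submodule.subset_span ⟨i, rfl⟩)
    simp [this]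
  rw [h2, Finset.sum_eq_zero_iff_of_nonneg (fun i _ => mul_self_nonneg _)] at h1
  have h3 := h1 j (Finset.mem_univ j)
  exact hf1 (mul_self_eq_zero.1 h3)

lemma orth_of_cometric {u ξ : κ → A} {f : κ → Co A}
    (hf : ∀ i j, f i (ξ j) = if i = j then 1 else 0)
    (hG : ∀ η ζ : Co A, ∑ i, η (u i) * ζ (u i) = ∑ i, η (ξ i) * ζ (ξ i)) (c : κ → ℝ) :
    ∑ i, f i (∑ j, c j • u j) * f i (∑ j, c j • u j) = ∑ j, c j * c j := by
  set O : Matrix κ κ ℝ := Matrix.of fun i j => f i (u j) with hO
  have h1 : O * Oᵀ = 1 := by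
    ext i k
    rw [Matrix.mul_apply, Matrix.one_apply]
    have := hG (f i) (f k)
    simp only [Matrix.transpose_apply, hO, Matrix.of_apply]
    rw [this]
    simp only [hf]
    simp
  have h2 : Oᵀ * O = 1 := mul_eq_one_comm.1 h1
  have h3 : ∀ i, f i (∑ j, c j • u j) = (O *ᵥ c) i := by
    intro i
    rw [map_sum]
    simp only [map_smul, smul_eq_mul, Matrix.mulVec, dotProduct, hO, Matrix.of_apply]
    exact Finset.sum_congr rfl fun j _ => mul_comm _ _
  simp only [h3]
  have h4 : (O *ᵥ c) ⬝ᵥ (O *ᵥ c) = c ⬝ᵥ c := by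
    rw [Matrix.dotProduct_mulVec, Matrix.vecMul_mulVec, h2, Matrix.vecMul_one]
  exact h4

end frame

/-- vector fields equal on `W` to an element of a layer are in the layer -/
lemma layer_zero_le {E : Type} [NormedAddCommGroup E] [NormedSpace ℝ E] (D : E → Submodule ℝ E)
    (W : Set E) (j : ℕ) : sectionSpace D W ≤ layer D W j := by
  induction j with
  | zero => exact le_rfl
  | succ j ih => exact ih.trans (le_sup_left)

lemma layer_mono {E : Type} [NormedAddCommGroup E] [NormedSpace ℝ E] (D : E → Submodule ℝ E)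
    (W : Set E) {i j : ℕ} (h : i ≤ j) : layer D W i ≤ layer D W j := by
  induction h with
  | refl => exact le_rfl
  | step _ ih => exact ih.trans (le_sup_left)

lemma layer_congr {E : Type} [NormedAddCommGroup E] [NormedSpace ℝ E] {D : E → Submodule ℝ E}
    {W : Set E} {j : ℕ} {Z Z' : E → E} (h : Z ∈ layer D W j) (he : ∀ q ∈ W, Z' q = Z q) :
    Z' ∈ layer D W j := by
  have h1 : Z' - Z ∈ sectionSpace D W := by
    refine ⟨?_, ?_⟩
    · refine (contDiffOn_const (c := (0 : E))).congr fun q hq => ?_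
      simp [he q hq]
    · intro q hq
      simp [he q hq]
  have h2 := (layer D W j).add_mem h (layer_zero_le D W j h1)
  simpa using h2

lemma layer_lie {E : Type} [NormedAddCommGroup E] [NormedSpace ℝ E] {D : E → Submodule ℝ E}
    {W : Set E} {j : ℕ} {X Y : E → E} (hX : IsSection D W X) (hY : Y ∈ layer D W j) :
    VectorField.lieBracket ℝ X Y ∈ layer D W (j + 1) :=
  (le_sup_right : _ ≤ layer D W (j + 1)) (Submodule.subset_span ⟨X, Y, hX, hY, rfl⟩)

end Pool.Agent.D0H81.SR
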