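import Pool.Agent.D0H81.SR.Decomp

set_option autoImplicit false
set_option linter.unusedVariables false
set_option linter.deprecated false
set_option linter.unusedSectionVars false

open Set Metric Filter Topology
open scoped ContDiff NNReal Matrix

namespace Pool.Agent.D0H81.SR

open VectorField (lieBracket)

/-- globalisation by a cutoff -/
lemma global_ext {A B : Type} [NormedAddCommGroup A] [NormedSpace ℝ A] [NormedAddCommGroup B]
    [NormedSpace ℝ B] {β : A → ℝ} (hβ : ContDiff ℝ ∞ β) {f : A → B} {V : Set A} (hV : IsOpen V)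
    (hf : ContDiffOn ℝ ∞ f V) (hs : tsupport β ⊆ V) : ContDiff ℝ ∞ (fun x => β x • f x) := by
  rw [contDiff_iff_contDiffAt]
  intro x
  by_cases hx : x ∈ tsupport β
  · exact hβ.contDiffAt.smul (hf.contDiffAt (hV.mem_nhds (hs hx)))
  · have h1 : (fun x => β x • f x) =ᶠ[𝓝 x] fun _ => 0 := by
      filter_upwards [(isClosed_tsupport β).isOpen_compl.mem_nhds hx] with y hy
      rw [image_eq_zero_of_notMem_tsupport hy, zero_smul]
    exact contDiffAt_const.congr_of_eventuallyEq h1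

/-- inverse function theorem, smooth on open sets -/
theorem local_inv {A B : Type} [NormedAddCommGroup A] [NormedSpace ℝ A] [CompleteSpace A]
    [NormedAddCommGroup B] [NormedSpace ℝ B] (H : A → B) {U : Set A} (hU : IsOpen U)
    (hH : ContDiffOn ℝ ∞ H U) {a : A} (ha : a ∈ U) (L : A ≃L[ℝ] B)
    (hL : HasFDerivAt H (L : A →L[ℝ] B) a) :
    ∃ h : OpenPartialHomeomorph A B, (h : A → B) = H ∧ h.source ⊆ U ∧ a ∈ h.source ∧
      ContDiffOn ℝ ∞ h.symm h.target ∧
      (∀ x ∈ h.source, ∃ L : A ≃L[ℝ] B, HasFDerivAt H (L : A →L[ℝ] B) x) := by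
  have hHa : ContDiffAt ℝ ∞ H a := hH.contDiffAt (hU.mem_nhds ha)
  set h0 := hHa.toOpenPartialHomeomorph H hL inf_ne with hh0
  have hfc : ContinuousOn (fderiv ℝ H) U :=
    (hH.fderiv_of_isOpen (m := ∞) hU (by exact_mod_cast le_top)).continuousOn
  have hO : IsOpen (U ∩ (fderiv ℝ H) ⁻¹' (range ((↑) : (A ≃L[ℝ] B) → (A →L[ℝ] B)))) :=
    hfc.isOpen_inter_preimage hU ContinuousLinearEquiv.isOpen
  refine ⟨h0.restrOpen _ hO, rfl, ?_, ?_, ?_, ?_⟩
  · intro x hx
    rw [OpenPartialHomeomorph.restrOpen_source] at hx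
    exact hx.2.1
  · rw [OpenPartialHomeomorph.restrOpen_source]
    exact ⟨hHa.mem_toOpenPartialHomeomorph_source hL inf_ne, ha, ⟨L, hL.fderiv.symm⟩⟩
  · intro y hy
    have hx : (h0.restrOpen _ hO).symm y ∈ (h0.restrOpen _ hO).source :=
      (h0.restrOpen _ hO).map_target hy
    rw [OpenPartialHomeomorph.restrOpen_source] at hx
    obtain ⟨L', hL'⟩ := hx.2.2
    refine ((h0.restrOpen _ hO).contDiffAt_symm (f₀' := L') hy ?_ ?_).contDiffWithinAt
    · rw [hL']
      exact ((hH.contDiffAt (hU.mem_nhds hx.2.1)).differentiableAt inf_ne).hasFDerivAt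
    · exact hH.contDiffAt (hU.mem_nhds hx.2.1)
  · intro x hx
    rw [OpenPartialHomeomorph.restrOpen_source] at hx
    obtain ⟨L', hL'⟩ := hx.2.2
    refine ⟨L', ?_⟩
    rw [hL']
    exact ((hH.contDiffAt (hU.mem_nhds hx.2.1)).differentiableAt inf_ne).hasFDerivAt

variable {E : Type} [NormedAddCommGroup E] [NormedSpace ℝ E] [FiniteDimensional ℝ E]

lemma lieBracket_swap' (V W : E → E) : lieBracket ℝ V W = fun q => - lieBracket ℝ W V q := by
  funext q
  rw [VectorField.lieBracket_swap]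

lemma Md.neg {V : Set E} {𝒴 : Set (E → E)} {Z : E → E} (h : Md V 𝒴 Z) :
    Md V 𝒴 (fun q => - Z q) := by
  refine Md.congr _ _ (Md.smul (fun _ => (-1 : ℝ)) _ contDiffOn_const h) ?_
  intro q _
  rw [neg_one_smul]

/-- involutive families: brackets of module elements stay in the module -/
lemma Md.invol {V : Set E} (hV : IsOpen V) {𝒴 : Set (E → E)}
    (hs : ∀ Y ∈ 𝒴, ContDiffOn ℝ ∞ Y V)
    (hb : ∀ Y ∈ 𝒴, ∀ Y' ∈ 𝒴, Md V 𝒴 (lieBracket ℝ Y Y')) {Z Z' : E → E} (hZ : Md V 𝒴 Z)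
    (hZ' : Md V 𝒴 Z') : Md V 𝒴 (lieBracket ℝ Z Z') := by
  have h1 : ∀ Y ∈ 𝒴, Md V 𝒴 (lieBracket ℝ Y Z') := fun Y hY =>
    Md.bracket hV (hs Y hY) hs (fun Y hY => Md.of _ hY) (hb Y hY) hZ'
  refine Md.bracket hV (hZ.smooth hs) hs (fun Y hY => Md.of _ hY) (fun Y hY => ?_) hZ'
  have h2 : Md V 𝒴 (lieBracket ℝ Y Z) :=
    Md.bracket hV (hs Y hY) hs (fun Y hY => Md.of _ hY) (hb Y hY) hZ
  rw [lieBracket_swap']
  exact h2.neg

section comm

variable {κ : Type} [Fintype κ] [DecidableEq κ]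

/-- commuting frame of an involutive distribution -/
theorem comm_frame (V : Set E) (hV : IsOpen V) (q0 : E) (hq0 : q0 ∈ V) (Y : κ → E → E)
    (hY : ∀ i, ContDiffOn ℝ ∞ (Y i) V) (θ : κ → E → Co E) (hθ : ∀ i, ContDiffOn ℝ ∞ (θ i) V)
    (hd : ∀ q ∈ V, ∀ i j, θ i q (Y j q) = if i = j then 1 else 0)
    (hc : Fintype.card κ = Module.finrank ℝ E) (s : κ → Prop) [DecidablePred s]
    (hinv : ∀ i k, s i → s k → ∀ q ∈ V, ∀ l, ¬ s l → θ l q (lieBracket ℝ (Y i) (Y k) q) = 0) :
    ∃ V1 ⊆ V, IsOpen V1 ∧ q0 ∈ V1 ∧ ∃ G : {i // s i} → E → E, (∀ i, ContDiffOn ℝ ∞ (G i) V1) ∧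
      (∀ i, G i q0 = Y i q0) ∧ (∀ q ∈ V1, ∀ i j, lieBracket ℝ (G i) (G j) q = 0) ∧
      (∀ q ∈ V1, ∀ i, G i q ∈ Submodule.span ℝ (range fun j : {i // s i} => Y j q)) ∧
      (∀ q ∈ V1, ∀ i : {i // s i}, Y i q ∈ Submodule.span ℝ (range fun j => G j q)) := by
  set v : {i // s i} → E → ({i // s i} → ℝ) := fun j q i => θ i q0 (Y j q) with hv
  have hvs : ∀ j, ContDiffOn ℝ ∞ (v j) V := fun j =>
    contDiffOn_pi.2 fun i => (θ i q0).contDiff.comp_contDiffOn (hY j)
  have hv0 : ∀ j, v j q0 = Pi.single j 1 := by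
    intro j
    funext i
    simp only [hv, hd q0 hq0, Pi.single_apply, Subtype.ext_iff]
  have hli : LinearIndependent ℝ (fun j => v j q0) := by
    simp only [hv0]
    have h := (Pi.basisFun ℝ {i // s i}).linearIndependent
    have e : (⇑(Pi.basisFun ℝ {i // s i})) = fun j => Pi.single j 1 := by
      funext j; exact Pi.basisFun_apply ℝ _ j
    rw [e] at h; exact h
  obtain ⟨V1, hV1, hV1o, hq01, φ, hφs, hφd⟩ := exists_smooth_dual v V hV q0 hq0 hvs hli
  set G : {i // s i} → E → E := fun j q => ∑ i, φ i q (Pi.single j 1) • Y i q with hG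
  have hYs : ∀ i, ContDiffOn ℝ ∞ (Y i) V1 := fun i => (hY i).mono hV1
  have hφs' : ∀ i j, ContDiffOn ℝ ∞ (fun q => φ i q (Pi.single j 1)) V1 := fun i j =>
    (hφs i).clm_apply contDiffOn_const
  have hGs : ∀ j, ContDiffOn ℝ ∞ (G j) V1 := fun j =>
    ContDiffOn.sum fun i _ => (hφs' i j).smul (hYs i)
  have hexpv : ∀ q ∈ V1, ∀ w : {i // s i} → ℝ, w = ∑ i, φ i q w • v i q := by
    intro q hq w
    apply expand_of_dual (v := fun i => v i q) (φ := fun i => φ i q) (hφd q hq)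
    rw [(indep_of_dual (v := fun i => v i q)
      (hφd q hq)).span_eq_top_of_card_eq_finrank' (by simp)]
    trivial
  have hθG : ∀ q ∈ V1, ∀ j k : {i // s i}, θ k q0 (G j q) = if k = j then 1 else 0 := by
    intro q hq j k
    have h1 := congrFun (hexpv q hq (Pi.single j 1)) k
    rw [Finset.sum_apply] at h1
    simp only [hG, map_sum, map_smul, smul_eq_mul]
    rw [← Pi.single_apply, h1]
    rfl
  have hG0 : ∀ i, G i q0 = Y i q0 := by
    intro j
    simp only [hG]
    have h1 : ∀ i, φ i q0 (Pi.single j 1) = if i = j then 1 else 0 := by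
      intro i
      rw [← hv0 j, hφd q0 hq01]
    simp [h1]
  set 𝒴 : Set (E → E) := {Z | ∃ i, s i ∧ Z = Y i} with h𝒴
  have h𝒴s : ∀ Z ∈ 𝒴, ContDiffOn ℝ ∞ Z V1 := by
    rintro Z ⟨i, _, rfl⟩; exact hYs i
  have hexpY : ∀ q ∈ V, ∀ w : E, w = ∑ i, θ i q w • Y i q := by
    intro q hq w
    apply expand_of_dual (v := fun i => Y i q) (φ := fun i => θ i q) (hd q hq)
    rw [(indep_of_dual (v := fun i => Y i q)
      (hd q hq)).span_eq_top_of_card_eq_finrank' hc]
    trivial
  have hfd : ∀ {Z : E → E}, ContDiffOn ℝ ∞ Z V1 → ContDiffOn ℝ ∞ (fderiv ℝ Z) V1 :=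
    fun hZ => hZ.fderiv_of_isOpen hV1o (by exact_mod_cast le_top)
  have hbr : ∀ Z ∈ 𝒴, ∀ Z' ∈ 𝒴, Md V1 𝒴 (lieBracket ℝ Z Z') := by
    rintro _ ⟨i, hi, rfl⟩ _ ⟨k, hk, rfl⟩
    have hbs : ContDiffOn ℝ ∞ (lieBracket ℝ (Y i) (Y k)) V1 :=
      ((hfd (hYs k)).clm_apply (hYs i)).sub ((hfd (hYs i)).clm_apply (hYs k))
    refine Md.congr (fun q => ∑ l, θ l q (lieBracket ℝ (Y i) (Y k) q) • Y l q) _ ?_
      (fun q hq => hexpY q (hV1 hq) _)
    refine Md.sum Finset.univ (fun l q => θ l q (lieBracket ℝ (Y i) (Y k) q) • Y l q) fun l _ => ?_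
    by_cases hl : s l
    · exact Md.smul _ _ (((hθ l).mono hV1).clm_apply hbs) (Md.of _ ⟨l, hl, rfl⟩)
    · refine Md.congr _ _ Md.zero fun q hq => ?_
      rw [hinv i k hi hk q (hV1 hq) l hl, zero_smul]
  have hGm : ∀ j, Md V1 𝒴 (G j) := fun j =>
    Md.sum Finset.univ (fun i q => φ i q (Pi.single j 1) • Y i q)
      fun i _ => Md.smul _ _ (hφs' i j) (Md.of _ ⟨i, i.2, rfl⟩)
  refine ⟨V1, hV1, hV1o, hq01, G, hGs, hG0, ?_, ?_, ?_⟩
  · intro q hq i j
    have hm := Md.invol hV1o h𝒴s hbr (hGm i) (hGm j)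
    set w := lieBracket ℝ (G i) (G j) q with hw
    have h1 : ∀ l, ¬ s l → θ l q w = 0 := by
      intro l hl
      have := hm.pt hq (LinearMap.ker (θ l q).toLinearMap) (by
        rintro _ ⟨k, hk, rfl⟩
        have h2 := hd q (hV1 hq) l k
        rw [if_neg (by rintro rfl; exact hl hk)] at h2
        exact h2)
      exact this
    have h2 : ∀ k : {i // s i}, θ k q0 w = 0 := by
      intro k
      have hder : ∀ a b, θ k q0 (fderiv ℝ (G a) q b) = 0 := by
        intro a b
        have e1 : HasFDerivAt (G a) (fderiv ℝ (G a) q) q :=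
          (((hGs a).contDiffAt (hV1o.mem_nhds hq)).differentiableAt inf_ne).hasFDerivAt
        have e2 : HasFDerivAt (fun y => θ k q0 (G a y)) ((θ k q0).comp (fderiv ℝ (G a) q)) q :=
          (θ k q0).hasFDerivAt.comp q e1
        have e3 : (fun y => θ k q0 (G a y)) =ᶠ[𝓝 q] fun _ => if k = a then 1 else 0 := by
          filter_upwards [hV1o.mem_nhds hq] with y hy
          exact hθG y hy a k
        have e4 := congrArg (fun L : E →L[ℝ] ℝ => L b)
          (e2.unique ((hasFDerivAt_const _ q).congr_of_eventuallyEq e3))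
        exact e4
      rw [hw, VectorField.lieBracket, map_sub, hder, hder, sub_zero]
    have h3 : w = ∑ l : {i // s i}, θ l q w • Y l q := by
      have h4 := hexpY q (hV1 hq) w
      rw [← Finset.sum_filter_add_sum_filter_not Finset.univ s] at h4
      rw [Finset.sum_eq_zero (s := Finset.univ.filter fun x => ¬ s x), add_zero] at h4
      · rw [Finset.sum_subtype (Finset.univ.filter s) (p := s) (by simp)] at h4
        exact h4
      · intro l hl
        rw [h1 l (Finset.mem_filter.1 hl).2, zero_smul]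
    have h4 : ∑ l : {i // s i}, θ l q w • v l q = 0 := by
      funext k
      have := h2 k
      rw [h3, map_sum] at this
      simp only [map_smul, smul_eq_mul] at this
      simp only [Finset.sum_apply, Pi.smul_apply, smul_eq_mul, Pi.zero_apply, hv]
      exact this
    have h5 : ∀ l : {i // s i}, θ l q w = 0 := by
      intro l
      have := congrArg (φ l q) h4
      simpa [hφd q hq] using this
    rw [h3]
    simp [h5]
  · intro q hq i
    simp only [hG]
    refine Submodule.sum_mem _ fun j _ => Submodule.smul_mem _ _ (Submodule.subset_span ⟨j, rfl⟩)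
  · intro q hq i
    have h1 : Y i q = ∑ k, v i q k • G k q := by
      simp only [hG, Finset.smul_sum]
      rw [Finset.sum_comm]
      have h2 : ∀ j : {i // s i}, ∑ k, v i q k • (φ j q) (Pi.single k 1) • Y (↑j) q =
          (φ j q (v i q)) • Y j q := by
        intro j
        have h3 : v i q = ∑ k, v i q k • (Pi.single k 1 : {i // s i} → ℝ) := by
          funext l
          simp [Finset.sum_apply, Pi.single_apply]
        conv_rhs => rw [h3, map_sum, Finset.sum_smul]
        refine Finset.sum_congr rfl fun k _ => ?_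
        rw [map_smul, smul_smul, smul_eq_mul]
      rw [Finset.sum_congr rfl fun j _ => h2 j]
      simp [hφd q hq]
    rw [h1]
    exact Submodule.sum_mem _ fun j _ => Submodule.smul_mem _ _ (Submodule.subset_span ⟨j, rfl⟩)

end comm

end Pool.Agent.D0H81.SR
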