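import Pool.Agent.D0H81.SR.Jets

set_option autoImplicit false
set_option linter.unusedVariables false
set_option linter.deprecated false
set_option linter.unusedSectionVars false

open Set Metric Filter Topology
open scoped ContDiff NNReal

namespace Pool.Agent.D0H81.SR

variable {E : Type} [NormedAddCommGroup E] [NormedSpace ℝ E] [FiniteDimensional ℝ E]
variable {ι : Type} [Fintype ι]

/-- inhomogeneous term -/
noncomputable def inh (X : ι → E → E) (S : ι → ι → E → ℝ) (z : TT E) : Co E :=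
  (1 / 2 : ℝ) • ∑ i, ∑ l, (mom X i z * mom X l z) • fderiv ℝ (S i l) z.1

/-- frame, transition matrix and the lifting hypothesis coming from affine equivalence -/
structure Dat (E : Type) [NormedAddCommGroup E] [NormedSpace ℝ E] [FiniteDimensional ℝ E]
    (ι : Type) [Fintype ι] where
  X : ι → E → E
  S : ι → ι → E → ℝ
  V : Set E
  hX : ∀ i, ContDiff ℝ ∞ (X i)
  hS : ∀ i j, ContDiff ℝ ∞ (S i j)
  hV : IsOpen V
  ne : Nonempty ι
  hLI : ∀ q ∈ V, LinearIndependent ℝ (fun i => X i q)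
  hgen : ∀ q ∈ V, Submodule.span ℝ {v | ∃ Y, Word X univ Y ∧ v = Y q} = ⊤
  symm : ∀ i j, ∀ q ∈ V, S i j q = S j i q
  lift : ∀ z ∈ Gset X V, ∃ ε > 0, ∃ (c : ℝ → TT E) (P : ℝ → Co E), c 0 = z ∧
    ∀ t ∈ Ioo (-ε) ε, (c t).1 ∈ V ∧ HasDerivAt c (Ham X 1 (c t)) t ∧
      HasDerivAt P (-((P t).comp (Kop X 1 (c t))) + inh X S (c t)) t ∧
      ∀ k, P t (X k (c t).1) = ∑ j, S k j (c t).1 * mom X j (c t)

/-- the values of the lift on the jets -/
noncomputable def gj (X : ι → E → E) (S : ι → ι → E → ℝ) : ℕ → ι → TT E → ℝ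
  | 0, k => fun z => ∑ j, S k j z.1 * mom X j z
  | j + 1, k => fun (z : TT E) =>
      fderiv ℝ (fun z : TT E => gj X S j k z) z (Ham X 1 z) - inh X S z (Zj X j k z)

lemma inh_smooth {X : ι → E → E} {S : ι → ι → E → ℝ} (hX : ∀ i, ContDiff ℝ ∞ (X i))
    (hS : ∀ i j, ContDiff ℝ ∞ (S i j)) : ContDiff ℝ ∞ (inh X S) := by
  have h : ContDiff ℝ ∞ (fun z : TT E => ∑ i, ∑ l, (mom X i z * mom X l z) • fderiv ℝ (S i l) z.1) := by
    refine ContDiff.sum fun i _ => ?_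
    refine ContDiff.sum fun l _ => ?_
    exact ((mom_smooth hX i).mul (mom_smooth hX l)).smul ((fderiv_smooth (hS i l)).comp contDiff_fst)
  exact h.const_smul (1 / 2 : ℝ)

lemma gj_smooth {X : ι → E → E} {S : ι → ι → E → ℝ} (hX : ∀ i, ContDiff ℝ ∞ (X i))
    (hS : ∀ i j, ContDiff ℝ ∞ (S i j)) (j : ℕ) (k : ι) : ContDiff ℝ ∞ (gj X S j k) := by
  induction j with
  | zero =>
    exact ContDiff.sum fun j _ => ((hS k j).comp contDiff_fst).mul (mom_smooth hX j)
  | succ j ih =>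
    exact ((fderiv_smooth ih).clm_apply (Ham_smooth hX 1)).sub
      ((inh_smooth hX hS).clm_apply (Zj_smooth hX j k))

variable (D : Dat E ι)

lemma Dat.lift_jets {z : TT E} {ε : ℝ} {c : ℝ → TT E} {P : ℝ → Co E}
    (h : ∀ t ∈ Ioo (-ε) ε, (c t).1 ∈ D.V ∧ HasDerivAt c (Ham D.X 1 (c t)) t ∧
      HasDerivAt P (-((P t).comp (Kop D.X 1 (c t))) + inh D.X D.S (c t)) t ∧
      ∀ k, P t (D.X k (c t).1) = ∑ j, D.S k j (c t).1 * mom D.X j (c t)) (j : ℕ) (k : ι) :
    ∀ t ∈ Ioo (-ε) ε, P t (Zj D.X j k (c t)) = gj D.X D.S j k (c t) := by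
  induction j with
  | zero => intro t ht; exact (h t ht).2.2.2 k
  | succ j ih =>
    intro t ht
    obtain ⟨h1, h2, h3, h4⟩ := h t ht
    have a1 : HasDerivAt (Zj D.X j k ∘ c) (fderiv ℝ (Zj D.X j k) (c t) (Ham D.X 1 (c t))) t :=
      HasFDerivAt.comp_hasDerivAt t ((Zj_smooth D.hX j k).differentiable inf_ne _).hasFDerivAt h2
    have a2 := HasDerivAt.clm_apply h3 a1
    have a3 : HasDerivAt (gj D.X D.S j k ∘ c)
        (fderiv ℝ (gj D.X D.S j k) (c t) (Ham D.X 1 (c t))) t :=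
      HasFDerivAt.comp_hasDerivAt t ((gj_smooth D.hX D.hS j k).differentiable inf_ne _).hasFDerivAt h2
    have a4 : (fun s => P s ((Zj D.X j k ∘ c) s)) =ᶠ[𝓝 t] (gj D.X D.S j k ∘ c) := by
      filter_upwards [isOpen_Ioo.mem_nhds ht] with s hs
      exact ih s hs
    have a5 := a2.unique (a3.congr_of_eventuallyEq a4)
    have a6 : fderiv ℝ (Zj D.X j k) (c t) (Ham D.X 1 (c t)) =
        Zj D.X (j + 1) k (c t) + Kop D.X 1 (c t) (Zj D.X j k (c t)) := by
      show _ = nab D.X (Zj D.X j k) (c t) + _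
      unfold nab
      abel
    rw [a6] at a5
    simp only [ContinuousLinearMap.add_apply, ContinuousLinearMap.neg_apply, map_add,
      ContinuousLinearMap.comp_apply, Function.comp] at a5
    show _ = fderiv ℝ (gj D.X D.S j k) (c t) (Ham D.X 1 (c t)) - inh D.X D.S (c t) (Zj D.X j k (c t))
    linarith

lemma ample_ext {X : ι → E → E} {z : TT E} (h : Ample X z) {η η' : Co E}
    (hη : ∀ j k, η (Zj X j k z) = η' (Zj X j k z)) : η = η' := by
  have h2 : Submodule.span ℝ (range fun jk : ℕ × ι => Zj X jk.1 jk.2 z) ≤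
      LinearMap.eqLocus η.toLinearMap η'.toLinearMap := by
    rw [Submodule.span_le]
    rintro _ ⟨⟨j, k⟩, rfl⟩
    exact hη j k
  rw [show Submodule.span ℝ (range fun jk : ℕ × ι => Zj X jk.1 jk.2 z) = ⊤ from h] at h2
  ext w
  exact h2 (Submodule.mem_top (x := w))

theorem Dat.exists_P : ∃ P : TT E → Co E, ContDiffOn ℝ ∞ P (Gset D.X D.V) ∧
    (∀ z ∈ Gset D.X D.V, ∀ k, P z (D.X k z.1) = ∑ j, D.S k j z.1 * mom D.X j z) ∧
    (∀ z ∈ Gset D.X D.V, fderiv ℝ P z (Ham D.X 1 z) =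
      -((P z).comp (Kop D.X 1 z)) + inh D.X D.S z) := by
  classical
  choose! ε hε c Ph hc0 hc using D.lift
  have hGo : IsOpen (Gset D.X D.V) := Gset_open D.hX D.hV
  set P : TT E → Co E := fun z => Ph z 0 with hP
  have h0 : ∀ z ∈ Gset D.X D.V, (0:ℝ) ∈ Ioo (-ε z) (ε z) := fun z hz =>
    ⟨by linarith [hε z hz], hε z hz⟩
  have hjets : ∀ z ∈ Gset D.X D.V, ∀ j k, P z (Zj D.X j k z) = gj D.X D.S j k z := by
    intro z hz j k
    have := D.lift_jets (z := z) (hc z hz) j k 0 (h0 z hz)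
    rw [hc0 z hz] at this
    exact this
  have hPs : ContDiffOn ℝ ∞ P (Gset D.X D.V) := by
    intro z0 hz0
    obtain ⟨b, hb⟩ := ample_basis hz0.2.2
    obtain ⟨O', hO'1, hO'o, hz0', φ, hφs, hφd⟩ := exists_smooth_dual
      (fun i z => Zj D.X (b i).1 (b i).2 z) (Gset D.X D.V) hGo z0 hz0
      (fun i => (Zj_smooth D.hX _ _).contDiffOn) hb
    have h1 : ∀ z ∈ O', P z = ∑ i, gj D.X D.S (b i).1 (b i).2 z • φ i z := by
      intro z hz
      have := ann_expand (v := fun i => Zj D.X (b i).1 (b i).2 z) (φ := fun i => φ i z)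
        (fun i j => hφd z hz i j) (by simp) (P z)
      rw [this]
      refine Finset.sum_congr rfl fun i _ => ?_
      rw [hjets z (hO'1 hz)]
    have h2 : ContDiffOn ℝ ∞ (fun z => ∑ i, gj D.X D.S (b i).1 (b i).2 z • φ i z) O' :=
      ContDiffOn.sum fun i _ => (gj_smooth D.hX D.hS _ _).contDiffOn.smul (hφs i)
    have h3 : ContDiffAt ℝ ∞ P z0 := by
      refine (h2.contDiffAt (hO'o.mem_nhds hz0')).congr_of_eventuallyEq ?_
      filter_upwards [hO'o.mem_nhds hz0'] with z hz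
      exact h1 z hz
    exact h3.contDiffWithinAt
  refine ⟨P, hPs, fun z hz k => hjets z hz 0 k, fun z hz => ?_⟩
  obtain ⟨h1, h2, h3, h4⟩ := hc z hz 0 (h0 z hz)
  rw [hc0 z hz] at h1 h2 h3 h4
  have a1 : HasDerivAt (P ∘ c z) (fderiv ℝ P z (Ham D.X 1 z)) 0 := by
    refine HasFDerivAt.comp_hasDerivAt 0 ?_ h2
    rw [hc0 z hz]
    exact ((hPs.contDiffAt (hGo.mem_nhds hz)).differentiableAt inf_ne).hasFDerivAt
  have a2 : (P ∘ c z) =ᶠ[𝓝 0] Ph z := by
    have e1 : ∀ᶠ t in 𝓝 (0:ℝ), c z t ∈ Gset D.X D.V := by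
      have : Tendsto (c z) (𝓝 0) (𝓝 (c z 0)) := h2.continuousAt
      rw [hc0 z hz] at this
      exact this.eventually (hGo.mem_nhds hz)
    filter_upwards [e1, isOpen_Ioo.mem_nhds (h0 z hz)] with t ht ht2
    apply ample_ext ht.2.2
    intro j k
    rw [Function.comp, hjets _ ht, D.lift_jets (z := z) (hc z hz) j k t ht2]
  have a3 := (a1.congr_of_eventuallyEq a2.symm).unique h3
  exact a3

end Pool.Agent.D0H81.SR
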