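import Pool.Agent.D0H81.SR.Ortho
import Pool.Agent.D0H81.SR.Lift

set_option autoImplicit false
set_option linter.unusedVariables false
set_option linter.deprecated false
set_option linter.unusedSectionVars false

open Set Metric Filter Topology
open scoped ContDiff NNReal Matrix

namespace Pool.Agent.D0H81.SR

variable {E : Type} [NormedAddCommGroup E] [NormedSpace ℝ E] [FiniteDimensional ℝ E]

section frames

variable {V B : Set E} {D : E → Submodule ℝ E} {g : E → E → E → ℝ} {κ : Type} [Fintype κ]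
  [DecidableEq κ] {X : κ → E → E}

lemma ham_near (hg : IsMetric V D g) (hB : IsOpen B) (hBV : B ⊆ V)
    (on : ∀ q ∈ B, ∀ i j, g q (X i q) (X j q) = if i = j then 1 else 0)
    (sp : ∀ q ∈ B, Submodule.span ℝ (range fun i => X i q) = D q) {z : TT E} (hz : z.1 ∈ B) :
    ham D g z = 2 * hk X 1 z := by
  have := ham_eq hg (hBV hz) (fun i => X i z.1) (on _ hz) (sp _ hz) z.2
  rw [show ham D g z = ham D g (z.1, z.2) from rfl, this]
  simp only [hk, Pi.one_apply, one_mul, mom]
  ring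

lemma ham_smul (hg : IsMetric V D g) (hB : IsOpen B) (hBV : B ⊆ V)
    (hX : ∀ i, ContDiff ℝ ∞ (X i))
    (on : ∀ q ∈ B, ∀ i j, g q (X i q) (X j q) = if i = j then 1 else 0)
    (sp : ∀ q ∈ B, Submodule.span ℝ (range fun i => X i q) = D q) {z : TT E} (hz : z.1 ∈ B)
    (w : TT E) : IsHamVec (ham D g) z w ↔ w = (2 : ℝ) • Ham X 1 z := by
  have h1 : ham D g =ᶠ[𝓝 z] fun z => 2 * hk X 1 z := by
    have : {z : TT E | z.1 ∈ B} ∈ 𝓝 z := (hB.preimage continuous_fst).mem_nhds hz
    filter_upwards [this] with y hy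
    exact ham_near hg hB hBV on sp hy
  have h2 : HasFDerivAt (fun z => 2 * hk X 1 z) ((2 : ℝ) • fderiv ℝ (hk X 1) z) z :=
    (((hk_smooth hX 1).differentiable inf_ne z).hasFDerivAt).const_mul 2
  have h3 : HasFDerivAt (ham D g) ((2 : ℝ) • fderiv ℝ (hk X 1) z) z := h2.congr_of_eventuallyEq h1
  have h4 : ∀ ζ, ((2 : ℝ) • fderiv ℝ (hk X 1) z) ζ = om ((2 : ℝ) • Ham X 1 z) ζ := by
    intro ζ
    rw [ContinuousLinearMap.smul_apply, hk_fderiv hX, om_smul_left, smul_eq_mul]
  constructor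
  · rintro ⟨L, hL, hLw⟩
    have h5 := hL.unique h3
    rw [← sub_eq_zero]
    apply om_nondeg
    intro ζ
    rw [om_sub_left, ← h4, ← h5, hLw]
    simp only [om]
    ring
  · rintro rfl
    exact ⟨_, h3, h4⟩

end frames

lemma ae_zero {f : ℝ → ℝ} {I : Set ℝ} (hI : IsOpen I) (hf : ContinuousOn f I)
    (h : ∀ᵐ s : ℝ, s ∈ I → f s = 0) : ∀ s ∈ I, f s = 0 := by
  have hO : IsOpen (I ∩ f ⁻¹' {0}ᶜ) := hf.isOpen_inter_preimage hI isOpen_compl_singleton
  have h1 : MeasureTheory.volume (I ∩ f ⁻¹' {0}ᶜ) = 0 := by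
    refine MeasureTheory.measure_mono_null ?_ h
    intro s hs hcon
    exact hs.2 (hcon hs.1)
  rw [hO.measure_eq_zero_iff (μ := MeasureTheory.volume)] at h1
  intro s hs
  by_contra hne
  have : s ∈ I ∩ f ⁻¹' {0}ᶜ := ⟨hs, hne⟩
  rw [h1] at this
  exact this

/-- local frames for two metrics -/
structure Loc (V : Set E) (D : E → Submodule ℝ E) (g g' : E → E → E → ℝ) (m : ℕ) where
  B : Set E
  hB : IsOpen B
  sub : B ⊆ V
  X : Fin m → E → E
  X' : Fin m → E → E
  hX : ∀ i, ContDiff ℝ ∞ (X i)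
  hX' : ∀ i, ContDiff ℝ ∞ (X' i)
  on : ∀ q ∈ B, ∀ i j, g q (X i q) (X j q) = if i = j then 1 else 0
  on' : ∀ q ∈ B, ∀ i j, g' q (X' i q) (X' j q) = if i = j then 1 else 0
  sp : ∀ q ∈ B, Submodule.span ℝ (range fun i => X i q) = D q
  sp' : ∀ q ∈ B, Submodule.span ℝ (range fun i => X' i q) = D q
  S : Fin m → Fin m → E → ℝ
  hS : ∀ i j, ContDiff ℝ ∞ (S i j)
  eS : ∀ q ∈ B, ∀ i j, S i j q = g' q (X i q) (X j q)

namespace Loc

variable {V : Set E} {D : E → Submodule ℝ E} {g g' : E → E → E → ℝ} {m : ℕ}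
  (L : Loc V D g g' m) (hg : IsMetric V D g) (hg' : IsMetric V D g')

lemma memX {q : E} (hq : q ∈ L.B) (i : Fin m) : L.X i q ∈ D q := by
  rw [← L.sp q hq]; exact Submodule.subset_span ⟨i, rfl⟩

lemma memX' {q : E} (hq : q ∈ L.B) (i : Fin m) : L.X' i q ∈ D q := by
  rw [← L.sp' q hq]; exact Submodule.subset_span ⟨i, rfl⟩

include hg in
lemma indep {q : E} (hq : q ∈ L.B) : LinearIndependent ℝ (fun i => L.X i q) :=
  hg.orth_indep (L.sub hq) _ (L.memX hq) (L.on q hq)

include hg' in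
lemma indep' {q : E} (hq : q ∈ L.B) : LinearIndependent ℝ (fun i => L.X' i q) :=
  hg'.orth_indep (L.sub hq) _ (L.memX' hq) (L.on' q hq)

/-- transition matrix -/
def Bm (k i : Fin m) (q : E) : ℝ := g' q (L.X k q) (L.X' i q)

include hg' in
lemma Bm_smooth (k i : Fin m) : ContDiffOn ℝ ∞ (L.Bm k i) L.B :=
  hg'.smooth L.B L.sub L.hB _ _ ⟨(L.hX k).contDiffOn, fun q hq => L.memX hq k⟩
    ⟨(L.hX' i).contDiffOn, fun q hq => L.memX' hq i⟩

include hg' in
lemma X_eq (k : Fin m) {q : E} (hq : q ∈ L.B) : L.X k q = ∑ i, L.Bm k i q • L.X' i q := by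
  have h1 : L.X k q ∈ Submodule.span ℝ (range fun i => L.X' i q) := by
    rw [L.sp' q hq]; exact L.memX hq k
  rw [Submodule.mem_span_range_iff_exists_fun] at h1
  obtain ⟨a, ha⟩ := h1
  have h2 : ∀ i, L.Bm k i q = a i := by
    intro i
    rw [Bm, ← ha, hg'.sum (L.sub hq) _ a _ (fun i _ => L.memX' hq i) (L.memX' hq i)]
    simp [L.on' q hq]
  simp only [h2]
  exact ha.symm

include hg' in
lemma S_eq (k l : Fin m) {q : E} (hq : q ∈ L.B) :
    L.S k l q = ∑ i, L.Bm k i q * L.Bm l i q := by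
  rw [L.eS q hq, L.X_eq hg' k hq, L.X_eq hg' l hq]
  exact hg'.orth_sum (L.sub hq) _ (L.memX' hq) (L.on' q hq) _ _

include hg' in
lemma fderiv_X (k : Fin m) {q : E} (hq : q ∈ L.B) (v : E) : fderiv ℝ (L.X k) q v =
    ∑ i, (L.Bm k i q • fderiv ℝ (L.X' i) q v + fderiv ℝ (L.Bm k i) q v • L.X' i q) := by
  have h1 : L.X k =ᶠ[𝓝 q] fun q => ∑ i, L.Bm k i q • L.X' i q := by
    filter_upwards [L.hB.mem_nhds hq] with y hy
    exact L.X_eq hg' k hy
  rw [h1.fderiv_eq]
  have h2 : ∀ i ∈ Finset.univ, HasFDerivAt (fun q => L.Bm k i q • L.X' i q) _ q := fun i _ =>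
    ((((L.Bm_smooth hg' k i).contDiffAt (L.hB.mem_nhds hq)).differentiableAt
      inf_ne).hasFDerivAt).smul ((L.hX' i).differentiable inf_ne q).hasFDerivAt
  rw [(HasFDerivAt.fun_sum h2).fderiv]
  simp only [ContinuousLinearMap.sum_apply, ContinuousLinearMap.add_apply,
    ContinuousLinearMap.smul_apply, ContinuousLinearMap.smulRight_apply]

include hg' in
lemma fderiv_S (k l : Fin m) {q : E} (hq : q ∈ L.B) (v : E) : fderiv ℝ (L.S k l) q v =
    ∑ i, (L.Bm k i q * fderiv ℝ (L.Bm l i) q v + L.Bm l i q * fderiv ℝ (L.Bm k i) q v) := by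
  have h1 : L.S k l =ᶠ[𝓝 q] fun q => ∑ i, L.Bm k i q * L.Bm l i q := by
    filter_upwards [L.hB.mem_nhds hq] with y hy
    exact L.S_eq hg' k l hy
  rw [h1.fderiv_eq]
  have hb : ∀ k i, HasFDerivAt (L.Bm k i) (fderiv ℝ (L.Bm k i) q) q := fun k i =>
    (((L.Bm_smooth hg' k i).contDiffAt (L.hB.mem_nhds hq)).differentiableAt inf_ne).hasFDerivAt
  have h2 : ∀ i ∈ Finset.univ, HasFDerivAt (fun q => L.Bm k i q * L.Bm l i q) _ q := fun i _ =>
    (hb k i).mul (hb l i)
  rw [(HasFDerivAt.fun_sum h2).fderiv]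
  simp only [ContinuousLinearMap.sum_apply, ContinuousLinearMap.add_apply,
    ContinuousLinearMap.smul_apply, smul_eq_mul]

include hg in
lemma hamvec {z : TT E} (hz : z.1 ∈ L.B) (w : TT E) :
    IsHamVec (ham D g) z w ↔ w = (2 : ℝ) • Ham L.X 1 z :=
  ham_smul hg L.hB L.sub L.hX L.on L.sp hz w

include hg' in
lemma hamvec' {z : TT E} (hz : z.1 ∈ L.B) (w : TT E) :
    IsHamVec (ham D g') z w ↔ w = (2 : ℝ) • Ham L.X' 1 z :=
  ham_smul hg' L.hB L.sub L.hX' L.on' L.sp' hz w

include hg' in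
/-- the lift from a normal extremal of `g'` -/
lemma normal_lift {I : Set ℝ} (hI : IsOpen I) {c : ℝ → TT E}
    (hc : ∀ t ∈ I, (c t).1 ∈ L.B ∧ HasDerivAt c (Ham L.X 1 (c t)) t) {a b : ℝ} (ha : a ≠ 0)
    {e : ℝ → TT E} (he : ∀ s, a * s + b ∈ I → (e s).1 = (c (a * s + b)).1)
    (hN : IsNormalExtremal D g' V {s | a * s + b ∈ I} e) :
    ∀ t ∈ I, HasDerivAt (fun t => (2 / a) • (e ((t - b) / a)).2)
      (-(((2 / a) • (e ((t - b) / a)).2).comp (Kop L.X 1 (c t))) + inh L.X L.S (c t)) t ∧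
      ∀ k, ((2 / a) • (e ((t - b) / a)).2) (L.X k (c t).1) =
        ∑ j, L.S k j (c t).1 * mom L.X j (c t) := by
  intro t ht
  set s : ℝ := (t - b) / a with hs
  have has : a * s + b = t := by rw [hs]; field_simp; ring
  obtain ⟨hcB, hcd⟩ := hc t ht
  have hsI : s ∈ {s | a * s + b ∈ I} := by show a * s + b ∈ I; rw [has]; exact ht
  obtain ⟨-, w, hw, hed⟩ := hN.1 s hsI
  have hes : (e s).1 = (c t).1 := by rw [he s hsI, has]
  have hzB : (e s).1 ∈ L.B := by rw [hes]; exact hcB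
  rw [L.hamvec' hg' hzB] at hw
  set P : Co E := (2 / a) • (e s).2 with hP
  set q : E := (c t).1 with hq
  -- derivative of the projection
  have h1 : HasDerivAt (fun s => (e s).1) w.1 s :=
    (ContinuousLinearMap.fst ℝ E (E →L[ℝ] ℝ)).hasFDerivAt.comp_hasDerivAt s hed
  have h2 : HasDerivAt (fun s => (c (a * s + b)).1) (a • (Ham L.X 1 (c t)).1) s := by
    have h3 : HasDerivAt (fun s : ℝ => a * s + b) a s := by
      simpa using ((hasDerivAt_id s).const_mul a).add_const b
    have h4 : HasDerivAt c (Ham L.X 1 (c t)) (a * s + b) := by rw [has]; exact hcd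
    have h5 := h4.scomp s h3
    have h6 := (ContinuousLinearMap.fst ℝ E (E →L[ℝ] ℝ)).hasFDerivAt.comp_hasDerivAt s h5
    exact h6
  have hIs : IsOpen {s | a * s + b ∈ I} := hI.preimage (by fun_prop)
  have h3 : (fun s => (e s).1) =ᶠ[𝓝 s] fun s => (c (a * s + b)).1 := by
    filter_upwards [hIs.mem_nhds hsI] with r hr
    exact he r hr
  have h4 : w.1 = a • (Ham L.X 1 (c t)).1 := h1.unique (h2.congr_of_eventuallyEq h3)
  have hu : ∑ k, mom L.X k (c t) • L.X k q = ∑ i, P (L.X' i q) • L.X' i q := by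
    rw [hw] at h4
    simp only [Prod.smul_fst, Ham, Pi.one_apply, one_mul, hes, mom] at h4
    have h5 := congrArg (fun v => a⁻¹ • v) h4
    simp only [smul_smul, inv_mul_cancel₀ ha, one_smul] at h5
    rw [show ∑ k, mom L.X k (c t) • L.X k q = ∑ i, (c t).2 (L.X i (c t).1) • L.X i (c t).1 from rfl,
      ← h5, Finset.smul_sum]
    refine Finset.sum_congr rfl fun i _ => ?_
    rw [smul_smul]
    congr 1
    simp only [hP, ContinuousLinearMap.smul_apply, smul_eq_mul]
    field_simp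
  have hui : ∀ i, P (L.X' i q) = ∑ k, mom L.X k (c t) * L.Bm k i q := by
    have h5 : ∑ i, (P (L.X' i q) - ∑ k, mom L.X k (c t) * L.Bm k i q) • L.X' i q = 0 := by
      simp only [sub_smul, Finset.sum_sub_distrib]
      rw [← hu, sub_eq_zero]
      simp only [Finset.sum_smul]
      rw [Finset.sum_comm]
      refine Finset.sum_congr rfl fun k _ => ?_
      conv_lhs => rw [L.X_eq hg' k hcB]
      rw [Finset.smul_sum]
      exact Finset.sum_congr rfl fun i _ => by rw [smul_smul]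
    intro i
    exact sub_eq_zero.1 (Fintype.linearIndependent_iff.1 (L.indep' hg' hcB) _ h5 i)
  refine ⟨?_, ?_⟩
  · have h5 : HasDerivAt (fun t : ℝ => (t - b) / a) (1 / a) t :=
      ((hasDerivAt_id t).sub_const b).div_const a
    have h6 : HasDerivAt (fun s => (e s).2) w.2 s :=
      (ContinuousLinearMap.snd ℝ E (E →L[ℝ] ℝ)).hasFDerivAt.comp_hasDerivAt s hed
    have h7 : HasDerivAt (fun t => (e ((t - b) / a)).2) ((1 / a) • w.2) t :=
      HasDerivAt.scomp (h := fun t => (t - b) / a) (g₁ := fun s => (e s).2) t h6 h5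
    have h8 := h7.const_smul (2 / a)
    refine h8.congr_deriv ?_
    ext v
    have hw2 : w.2 v = -(2 * ∑ i, mom L.X' i (e s) * (e s).2 (fderiv ℝ (L.X' i) q v)) := by
      rw [hw]
      simp only [Prod.smul_snd, Ham, Kop, Pi.one_apply, one_mul, hes, ContinuousLinearMap.smul_apply,
        ContinuousLinearMap.neg_apply, ContinuousLinearMap.comp_apply,
        ContinuousLinearMap.sum_apply, map_sum, map_smul, smul_eq_mul]
      ring
    have e2 : ∀ x, (e s).2 x = a / 2 * P x := by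
      intro x
      simp only [hP, ContinuousLinearMap.smul_apply, smul_eq_mul]
      field_simp
    have hm : ∀ i, mom L.X' i (e s) = a / 2 * P (L.X' i q) := by
      intro i
      rw [mom, hes, e2]
    simp only [ContinuousLinearMap.smul_apply, smul_eq_mul, ContinuousLinearMap.add_apply,
      ContinuousLinearMap.neg_apply, ContinuousLinearMap.comp_apply]
    rw [hw2]
    have hl : 2 / a * (1 / a * -(2 * ∑ i, mom L.X' i (e s) * (e s).2 (fderiv ℝ (L.X' i) q v))) =
        - ∑ i, P (L.X' i q) * P (fderiv ℝ (L.X' i) q v) := by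
      have : ∀ i, mom L.X' i (e s) * (e s).2 (fderiv ℝ (L.X' i) q v) =
          a ^ 2 / 4 * (P (L.X' i q) * P (fderiv ℝ (L.X' i) q v)) := by
        intro i
        rw [hm, e2]
        ring
      simp only [this]
      rw [← Finset.mul_sum]
      field_simp
      ring
    rw [hl]
    have hK : P (Kop L.X 1 (c t) v) = ∑ i, P (L.X' i q) * P (fderiv ℝ (L.X' i) q v) +
        ∑ k, ∑ i, mom L.X k (c t) * (fderiv ℝ (L.Bm k i) q v * P (L.X' i q)) := by
      simp only [Kop, Pi.one_apply, one_mul, ContinuousLinearMap.sum_apply,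
        ContinuousLinearMap.smul_apply]
      rw [map_sum]
      simp only [map_smul, smul_eq_mul]
      have : ∀ k, P (fderiv ℝ (L.X k) q v) = ∑ i, (L.Bm k i q * P (fderiv ℝ (L.X' i) q v) +
          fderiv ℝ (L.Bm k i) q v * P (L.X' i q)) := by
        intro k
        rw [L.fderiv_X hg' k hcB v, map_sum]
        simp only [map_add, map_smul, smul_eq_mul]
      simp only [← hq, this, Finset.sum_add_distrib, mul_add, Finset.mul_sum]
      congr 1
      rw [Finset.sum_comm]
      refine Finset.sum_congr rfl fun i _ => ?_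
      conv_rhs => rw [hui i, Finset.sum_mul]
      exact Finset.sum_congr rfl fun k _ => by ring
    have hin : inh L.X L.S (c t) v =
        ∑ k, ∑ i, mom L.X k (c t) * (fderiv ℝ (L.Bm k i) q v * P (L.X' i q)) := by
      simp only [inh, ContinuousLinearMap.smul_apply, ContinuousLinearMap.sum_apply, smul_eq_mul]
      have h9 : ∀ k l, fderiv ℝ (L.S k l) (c t).1 v = ∑ i, (L.Bm k i q * fderiv ℝ (L.Bm l i) q v +
          L.Bm l i q * fderiv ℝ (L.Bm k i) q v) := fun k l => L.fderiv_S hg' k l hcB v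
      simp only [h9]
      set T : ℝ := ∑ k, ∑ i, mom L.X k (c t) * (fderiv ℝ (L.Bm k i) q v * P (L.X' i q)) with hT
      have e3 : ∑ k, ∑ l, mom L.X k (c t) * mom L.X l (c t) *
          ∑ i, L.Bm l i q * fderiv ℝ (L.Bm k i) q v = T := by
        rw [hT]
        refine Finset.sum_congr rfl fun k _ => ?_
        simp only [Finset.mul_sum]
        rw [Finset.sum_comm]
        refine Finset.sum_congr rfl fun i _ => ?_
        rw [hui i]
        simp only [Finset.mul_sum]
        exact Finset.sum_congr rfl fun l _ => by ring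
      have e4 : ∑ k, ∑ l, mom L.X k (c t) * mom L.X l (c t) *
          ∑ i, L.Bm k i q * fderiv ℝ (L.Bm l i) q v = T := by
        rw [← e3]
        rw [Finset.sum_comm]
        refine Finset.sum_congr rfl fun k _ => ?_
        refine Finset.sum_congr rfl fun l _ => ?_
        ring
      simp only [Finset.sum_add_distrib, mul_add]
      rw [e3, e4]
      ring
    rw [hK, hin]
    ring
  · intro k
    have h5 : L.X k q = ∑ i, L.Bm k i q • L.X' i q := L.X_eq hg' k hcB
    show P (L.X k q) = _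
    rw [h5, map_sum]
    simp only [map_smul, smul_eq_mul, hui]
    have h6 : ∀ j, L.S k j q = ∑ i, L.Bm k i q * L.Bm j i q := fun j => L.S_eq hg' k j hcB
    simp only [h6, Finset.sum_mul, Finset.mul_sum]
    rw [Finset.sum_comm]
    refine Finset.sum_congr rfl fun j _ => ?_
    exact Finset.sum_congr rfl fun i _ => by ring

end Loc

end Pool.Agent.D0H81.SR
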