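import Pool.Agent.D0H81.SR.Geo

set_option autoImplicit false
set_option linter.unusedVariables false
set_option linter.deprecated false
set_option linter.unusedSectionVars false

open Set Metric Filter Topology
open scoped ContDiff NNReal Matrix

namespace Pool.Agent.D0H81.SR

variable {E : Type} [NormedAddCommGroup E] [NormedSpace ℝ E] [FiniteDimensional ℝ E]

namespace Loc

variable {V : Set E} {D : E → Submodule ℝ E} {g g' : E → E → E → ℝ} {m : ℕ}
  (L : Loc V D g g' m) (hg : IsMetric V D g) (hg' : IsMetric V D g')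

include hg in
lemma section_hamvec {q : E} (hq : q ∈ L.B) {p : Co E} (hp : ∀ v ∈ D q, p v = 0) {W : Set E}
    {Y : E → E} (hW : IsOpen W) (hqW : q ∈ W) (hY : IsSection D W Y) {w : TT E}
    (hw : IsHamVec (fun z => z.2 (Y z.1)) (q, p) w) :
    w ∈ Submodule.span ℝ (range fun i => ((L.X i q, -(p.comp (fderiv ℝ (L.X i) q))) : TT E)) := by
  obtain ⟨O', hO', hO'o, hqO, φ, hφs, hφd⟩ := exists_smooth_dual (fun i x => L.X i x) (W ∩ L.B)
    (hW.inter L.hB) q ⟨hqW, hq⟩ (fun i => (L.hX i).contDiffOn) (L.indep hg hq)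
  have hYe : ∀ y ∈ O', Y y = ∑ i, φ i y (Y y) • L.X i y := by
    intro y hy
    apply expand_of_dual (v := fun i => L.X i y) (φ := fun i => φ i y) (hφd y hy)
    rw [L.sp y (hO' hy).2]
    exact hY.2 y (hO' hy).1
  have hYd : HasFDerivAt Y (fderiv ℝ Y q) q :=
    ((hY.1.contDiffAt (hW.mem_nhds hqW)).differentiableAt inf_ne).hasFDerivAt
  have hfs : ∀ i, ContDiffOn ℝ ∞ (fun y => φ i y (Y y)) O' := fun i =>
    (hφs i).clm_apply (hY.1.mono fun y hy => (hO' hy).1)
  have hfd : ∀ i, HasFDerivAt (fun y => φ i y (Y y)) (fderiv ℝ (fun y => φ i y (Y y)) q) q :=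
    fun i => (((hfs i).contDiffAt (hO'o.mem_nhds hqO)).differentiableAt inf_ne).hasFDerivAt
  have hDY : ∀ v, p (fderiv ℝ Y q v) = ∑ i, φ i q (Y q) * p (fderiv ℝ (L.X i) q v) := by
    intro v
    have h1 : ∀ i ∈ Finset.univ, HasFDerivAt (fun y => φ i y (Y y) • L.X i y) _ q := fun i _ =>
      (hfd i).smul ((L.hX i).differentiable inf_ne q).hasFDerivAt
    have h2 : Y =ᶠ[𝓝 q] fun y => ∑ i, φ i y (Y y) • L.X i y := by
      filter_upwards [hO'o.mem_nhds hqO] with y hy
      exact hYe y hy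
    rw [h2.fderiv_eq, (HasFDerivAt.fun_sum h1).fderiv]
    simp only [ContinuousLinearMap.sum_apply, ContinuousLinearMap.add_apply,
      ContinuousLinearMap.smul_apply, ContinuousLinearMap.smulRight_apply, map_sum, map_add,
      map_smul, smul_eq_mul, hp _ (L.memX hq _), mul_zero, add_zero]
  obtain ⟨Lf, hLf, hLw⟩ := hw
  have h1 : HasFDerivAt (fun z : TT E => z.2 (Y z.1)) _ (q, p) :=
    (hasFDerivAt_snd (p := ((q, p) : TT E))).clm_apply
      (HasFDerivAt.comp (g := Y) (q, p) hYd (hasFDerivAt_fst (p := ((q, p) : TT E))))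
  have h2 := hLf.unique h1
  have h3 : w = (Y q, -(p.comp (fderiv ℝ Y q))) := by
    rw [← sub_eq_zero]
    apply om_nondeg
    intro ζ
    have h4 := congrArg (fun L : TT E →L[ℝ] ℝ => L ζ) h2
    simp only [hLw, ContinuousLinearMap.add_apply, ContinuousLinearMap.comp_apply,
      ContinuousLinearMap.flip_apply, ContinuousLinearMap.coe_fst',
      ContinuousLinearMap.coe_snd'] at h4
    rw [om_sub_left]
    simp only [om, ContinuousLinearMap.neg_apply, ContinuousLinearMap.comp_apply]
    rw [h4]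
    simp
    ring
  rw [h3]
  have h4 : ((Y q, -(p.comp (fderiv ℝ Y q))) : TT E) =
      ∑ i, φ i q (Y q) • ((L.X i q, -(p.comp (fderiv ℝ (L.X i) q))) : TT E) := by
    refine Prod.ext ?_ ?_
    · rw [Prod.fst_sum]
      exact hYe q hqO
    · rw [Prod.snd_sum]
      ext v
      simp only [ContinuousLinearMap.neg_apply, ContinuousLinearMap.comp_apply,
        ContinuousLinearMap.sum_apply, Prod.smul_snd, ContinuousLinearMap.smul_apply, smul_eq_mul,
        mul_neg, Finset.sum_neg_distrib, hDY v]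
  rw [h4]
  exact Submodule.sum_mem _ fun i _ => Submodule.smul_mem _ _ (Submodule.subset_span ⟨i, rfl⟩)

include hg in
/-- the projection of a `g`-normal extremal through an ample covector is not abnormal -/
lemma abnormal_absurd {I : Set ℝ} (hI : IsOpen I) {c : ℝ → TT E}
    (hc : ∀ t ∈ I, (c t).1 ∈ L.B ∧ HasDerivAt c (Ham L.X 1 (c t)) t) {a b : ℝ} (ha : a ≠ 0)
    {e : ℝ → TT E} (he : ∀ s, a * s + b ∈ I → (e s).1 = (c (a * s + b)).1)
    (hA : IsAbnormalExtremal D V {s | a * s + b ∈ I} e) {t0 : ℝ} (ht0 : t0 ∈ I)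
    (hamp : Ample L.X (c t0)) : False := by
  set I' : Set ℝ := {s | a * s + b ∈ I} with hI'
  have hIo : IsOpen I' := hI.preimage (by fun_prop)
  obtain ⟨hA1, hA2, -, hA4⟩ := hA
  have hecont : ∀ s ∈ I', ContinuousAt e s := by
    intro s hs
    obtain ⟨δ, hδ, hball⟩ := Metric.isOpen_iff.1 hIo s hs
    have h1 : s - δ / 2 ∈ I' := hball (by
      rw [mem_ball, Real.dist_eq, sub_sub_cancel_left, abs_neg, abs_of_pos (by positivity)]
      linarith)
    have h2 : s + δ / 2 ∈ I' := hball (by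
      rw [mem_ball, Real.dist_eq, add_sub_cancel_left, abs_of_pos (by positivity)]
      linarith)
    have h3 := (hA2 _ h1 _ h2).continuousOn
    rw [uIcc_of_le (by linarith)] at h3
    exact h3.continuousAt (Icc_mem_nhds (by linarith) (by linarith))
  have hcs : ∀ s ∈ I', HasDerivAt (fun s => c (a * s + b)) (a • Ham L.X 1 (c (a * s + b))) s := by
    intro s hs
    have h3 : HasDerivAt (fun s : ℝ => a * s + b) a s := by
      simpa using ((hasDerivAt_id s).const_mul a).add_const b
    exact HasDerivAt.scomp (h := fun s : ℝ => a * s + b) (g₁ := c) s (hc _ hs).2 h3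
  -- the derivative of the covector
  have hder : ∀ᵐ s : ℝ, s ∈ I' → HasDerivAt (fun s => (e s).2)
      (-(a • ((e s).2.comp (Kop L.X 1 (c (a * s + b)))))) s := by
    filter_upwards [hA4] with s hs hsI
    obtain ⟨w, hw, hwd⟩ := hs hsI
    have hq : (e s).1 ∈ L.B := by rw [he s hsI]; exact (hc _ hsI).1
    obtain ⟨-, -, hp⟩ := hA1 s hsI
    have h1 : w ∈ Submodule.span ℝ (range fun i =>
        ((L.X i (e s).1, -((e s).2.comp (fderiv ℝ (L.X i) (e s).1))) : TT E)) := by
      refine Submodule.span_le.2 ?_ hw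
      rintro w' ⟨W, Y, -, hW, hqW, hY, hw'⟩
      exact L.section_hamvec hg hq hp hW hqW hY hw'
    rw [Submodule.mem_span_range_iff_exists_fun] at h1
    obtain ⟨u, hu⟩ := h1
    have h2 : HasDerivAt (fun s => (e s).1) w.1 s :=
      (ContinuousLinearMap.fst ℝ E (E →L[ℝ] ℝ)).hasFDerivAt.comp_hasDerivAt s hwd
    have h3 : HasDerivAt (fun s => (c (a * s + b)).1) (a • (Ham L.X 1 (c (a * s + b))).1) s :=
      (ContinuousLinearMap.fst ℝ E (E →L[ℝ] ℝ)).hasFDerivAt.comp_hasDerivAt s (hcs s hsI)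
    have h4 : (fun s => (e s).1) =ᶠ[𝓝 s] fun s => (c (a * s + b)).1 := by
      filter_upwards [hIo.mem_nhds hsI] with r hr
      exact he r hr
    have h5 : w.1 = a • (Ham L.X 1 (c (a * s + b))).1 := h2.unique (h3.congr_of_eventuallyEq h4)
    have h6 : ∑ i, (u i - a * mom L.X i (c (a * s + b))) • L.X i (e s).1 = 0 := by
      rw [← hu] at h5
      simp only [Prod.fst_sum, Prod.smul_fst, Ham, Pi.one_apply, one_mul, ← he s hsI] at h5
      simp only [sub_smul, Finset.sum_sub_distrib, h5, Finset.smul_sum, smul_smul, sub_self]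
    have h7 : ∀ i, u i = a * mom L.X i (c (a * s + b)) := fun i =>
      sub_eq_zero.1 (Fintype.linearIndependent_iff.1 (L.indep hg hq) _ h6 i)
    have h8 : HasDerivAt (fun s => (e s).2) w.2 s :=
      (ContinuousLinearMap.snd ℝ E (E →L[ℝ] ℝ)).hasFDerivAt.comp_hasDerivAt s hwd
    refine h8.congr_deriv ?_
    rw [← hu]
    ext v
    simp only [Prod.snd_sum, Prod.smul_snd, ContinuousLinearMap.sum_apply,
      ContinuousLinearMap.smul_apply, ContinuousLinearMap.neg_apply,
      ContinuousLinearMap.comp_apply, smul_eq_mul, Kop, Pi.one_apply, one_mul, map_sum, map_smul,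
      ← he s hsI, h7]
    rw [Finset.mul_sum, ← Finset.sum_neg_distrib]
    refine Finset.sum_congr rfl fun i _ => ?_
    ring
  have hccont : ∀ s ∈ I', ContinuousAt (fun s => c (a * s + b)) s := fun s hs =>
    (hcs s hs).continuousAt
  have key : ∀ j k, ∀ s ∈ I', (e s).2 (Zj L.X j k (c (a * s + b))) = 0 := by
    intro j
    induction j with
    | zero =>
      intro k s hs
      show (e s).2 (L.X k (c (a * s + b)).1) = 0
      rw [← he s hs]
      exact (hA1 s hs).2.2 _ (L.memX (by rw [he s hs]; exact (hc _ hs).1) k)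
    | succ j ih =>
      intro k
      apply ae_zero hIo
      · intro s hs
        have h1 : ContinuousAt (fun s => (e s).2) s := continuousAt_snd.comp (hecont s hs)
        have h2 : ContinuousAt (fun s => Zj L.X (j + 1) k (c (a * s + b))) s :=
          ((Zj_smooth L.hX (j + 1) k).continuous.continuousAt).comp (hccont s hs)
        exact (h1.clm_apply h2).continuousWithinAt
      · filter_upwards [hder] with s hs hsI
        have h1 := hs hsI
        have h2 : HasDerivAt (fun s => Zj L.X j k (c (a * s + b)))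
            (fderiv ℝ (Zj L.X j k) (c (a * s + b)) (a • Ham L.X 1 (c (a * s + b)))) s :=
          HasFDerivAt.comp_hasDerivAt (l := Zj L.X j k) (f := fun s => c (a * s + b)) s
            ((Zj_smooth L.hX j k).differentiable inf_ne _).hasFDerivAt (hcs s hsI)
        have h3 := h1.clm_apply h2
        have h4 : (fun s => (e s).2 (Zj L.X j k (c (a * s + b)))) =ᶠ[𝓝 s] fun _ => 0 := by
          filter_upwards [hIo.mem_nhds hsI] with r hr
          exact ih k r hr
        have h5 := h3.unique ((hasDerivAt_const s (0 : ℝ)).congr_of_eventuallyEq h4)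
        have h6 : Zj L.X (j + 1) k (c (a * s + b)) =
            fderiv ℝ (Zj L.X j k) (c (a * s + b)) (Ham L.X 1 (c (a * s + b))) -
            Kop L.X 1 (c (a * s + b)) (Zj L.X j k (c (a * s + b))) := rfl
        rw [h6, map_sub]
        simp only [ContinuousLinearMap.neg_apply, ContinuousLinearMap.smul_apply,
          ContinuousLinearMap.comp_apply, map_smul, smul_eq_mul] at h5
        have h7 : a * ((e s).2 (fderiv ℝ (Zj L.X j k) (c (a * s + b)) (Ham L.X 1 (c (a * s + b)))) -
            (e s).2 (Kop L.X 1 (c (a * s + b)) (Zj L.X j k (c (a * s + b))))) = 0 := by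
          linarith
        exact (mul_eq_zero.1 h7).resolve_left ha
  set s0 : ℝ := (t0 - b) / a with hs0
  have h1 : a * s0 + b = t0 := by rw [hs0]; field_simp; ring
  have hs0I : s0 ∈ I' := by show a * s0 + b ∈ I; rw [h1]; exact ht0
  have h2 : (e s0).2 = 0 := by
    apply ample_ext hamp
    intro j k
    have := key j k s0 hs0I
    rw [h1] at this
    rw [this]
    rfl
  exact (hA1 s0 hs0I).2.1 h2

include hg hg' in
/-- the lifting property of affinely equivalent metrics -/
theorem lift (haff : GeodesicsAffineIn D g g' V) : ∀ z ∈ Gset L.X L.B, ∃ ε > 0,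
    ∃ (c : ℝ → TT E) (P : ℝ → Co E), c 0 = z ∧
    ∀ t ∈ Ioo (-ε) ε, (c t).1 ∈ L.B ∧ HasDerivAt c (Ham L.X 1 (c t)) t ∧
      HasDerivAt P (-((P t).comp (Kop L.X 1 (c t))) + inh L.X L.S (c t)) t ∧
      ∀ k, P t (L.X k (c t).1) = ∑ j, L.S k j (c t).1 * mom L.X j (c t) := by
  intro z hz
  obtain ⟨c, hc0, ε0, hε0, hc⟩ :=
    ContDiffAt.exists_forall_mem_closedBall_exists_eq_forall_mem_Ioo_hasDerivAt₀
      ((Ham_smooth L.hX 1).contDiffAt (x := z) |>.of_le one_le_inf) (0 : ℝ)
  have hcont : ContinuousAt c 0 := (hc 0 ⟨by linarith, by linarith⟩).continuousAt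
  have hGo : IsOpen (Gset L.X L.B) := Gset_open L.hX L.hB
  have hev : ∀ᶠ t in 𝓝 (0 : ℝ), c t ∈ Gset L.X L.B := by
    have : Tendsto c (𝓝 0) (𝓝 z) := by
      have := hcont.tendsto
      rwa [hc0] at this
    exact this.eventually (hGo.mem_nhds hz)
  obtain ⟨ε1, hε1, hball⟩ := Metric.eventually_nhds_iff.1 hev
  set ε : ℝ := min ε0 ε1 with hε
  have hεpos : 0 < ε := lt_min hε0 hε1
  set I : Set ℝ := Ioo (-ε) ε with hI
  have hIo : IsOpen I := isOpen_Ioo
  have h0I : (0 : ℝ) ∈ I := ⟨by linarith, hεpos⟩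
  have hcI : ∀ t ∈ I, HasDerivAt c (Ham L.X 1 (c t)) t := fun t ht =>
    hc t ⟨by linarith [ht.1, min_le_left ε0 ε1], by linarith [ht.2, min_le_left ε0 ε1]⟩
  have hcG : ∀ t ∈ I, c t ∈ Gset L.X L.B := fun t ht => hball (by
    rw [Real.dist_eq, sub_zero, abs_lt]
    exact ⟨by linarith [ht.1, min_le_right ε0 ε1], by linarith [ht.2, min_le_right ε0 ε1]⟩)
  have hcB : ∀ t ∈ I, (c t).1 ∈ L.B ∧ HasDerivAt c (Ham L.X 1 (c t)) t := fun t ht =>
    ⟨(hcG t ht).1, hcI t ht⟩
  -- the normal extremal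
  set e0 : ℝ → TT E := fun t => ((c t).1, (1 / 2 : ℝ) • (c t).2) with he0
  have hN : IsNormalExtremal D g V I e0 := by
    refine ⟨fun t ht => ⟨L.sub (hcG t ht).1, (2 : ℝ) • Ham L.X 1 (e0 t), ?_, ?_⟩, ?_⟩
    · exact (L.hamvec hg (z := e0 t) (hcG t ht).1 _).2 rfl
    · have h1 := hcI t ht
      have h2 : HasDerivAt (fun t => (c t).1) (Ham L.X 1 (c t)).1 t :=
        (ContinuousLinearMap.fst ℝ E (E →L[ℝ] ℝ)).hasFDerivAt.comp_hasDerivAt t h1
      have h3 : HasDerivAt (fun t => (c t).2) (Ham L.X 1 (c t)).2 t :=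
        (ContinuousLinearMap.snd ℝ E (E →L[ℝ] ℝ)).hasFDerivAt.comp_hasDerivAt t h1
      have h4 := h2.prodMk (h3.const_smul (1 / 2 : ℝ))
      refine h4.congr_deriv ?_
      refine Prod.ext ?_ ?_
      · simp only [Ham, Prod.smul_fst, he0, mom, Pi.one_apply, one_mul,
          ContinuousLinearMap.smul_apply, smul_eq_mul, Finset.smul_sum, smul_smul]
        refine Finset.sum_congr rfl fun i _ => ?_
        congr 1
        ring
      · ext v
        simp only [Ham, Prod.smul_snd, he0, mom, Kop, Pi.one_apply, one_mul,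
          ContinuousLinearMap.smul_apply, ContinuousLinearMap.neg_apply,
          ContinuousLinearMap.comp_apply, ContinuousLinearMap.sum_apply, map_sum, map_smul,
          smul_eq_mul]
        rw [← Finset.sum_neg_distrib, ← Finset.sum_neg_distrib, Finset.mul_sum, Finset.mul_sum]
        refine Finset.sum_congr rfl fun i _ => ?_
        ring
    · have hconst : ∀ t ∈ I, hk L.X 1 (c t) = hk L.X 1 (c 0) := by
        have hd : ∀ t ∈ I, HasDerivAt (fun t => hk L.X 1 (c t)) 0 t := by
          intro t ht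
          have h1 : HasDerivAt (hk L.X 1 ∘ c) (fderiv ℝ (hk L.X 1) (c t) (Ham L.X 1 (c t))) t :=
            HasFDerivAt.comp_hasDerivAt t
              ((hk_smooth L.hX 1).differentiable inf_ne _).hasFDerivAt (hcI t ht)
          rw [hk_fderiv L.hX] at h1
          have h2 : om (Ham L.X 1 (c t)) (Ham L.X 1 (c t)) = 0 := by simp [om]
          rw [h2] at h1
          exact h1
        intro t ht
        exact hIo.is_const_of_deriv_eq_zero (isPreconnected_Ioo)
          (fun s hs => (hd s hs).differentiableAt.differentiableWithinAt)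
          (fun s hs => (hd s hs).deriv) ht h0I
      refine ⟨(1 / 2) * hk L.X 1 z, ?_, ?_⟩
      · exact mul_ne_zero (by norm_num) hz.2.1
      · intro t ht
        rw [ham_near hg L.hB L.sub L.on L.sp (z := e0 t) (hcG t ht).1]
        have h1 : hk L.X 1 (e0 t) = (1 / 4) * hk L.X 1 (c t) := by
          simp only [hk, mom, he0, Pi.one_apply, one_mul, ContinuousLinearMap.smul_apply,
            smul_eq_mul, mul_pow]
          rw [← Finset.mul_sum]
          ring
        rw [h1, hconst t ht, hc0]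
        ring
  obtain ⟨a, b, ha, e, he, hne⟩ := haff I (fun t => (c t).1) hIo (ordConnected_Ioo) ⟨0, h0I⟩
    ⟨e0, fun t _ => rfl, Or.inl hN⟩
  have he' : ∀ s, a * s + b ∈ I → (e s).1 = (c (a * s + b)).1 := fun s hs => he s hs
  rcases hne with hN' | hA'
  · have h1 := L.normal_lift hg' hIo hcB ha he' hN'
    exact ⟨ε, hεpos, c, fun t => (2 / a) • (e ((t - b) / a)).2, hc0, fun t ht =>
      ⟨(hcB t ht).1, (hcB t ht).2, (h1 t ht).1, (h1 t ht).2⟩⟩
  · exfalso
    refine L.abnormal_absurd hg hIo hcB ha he' hA' h0I ?_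
    rw [hc0]
    exact hz.2.2

end Loc

end Pool.Agent.D0H81.SR
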