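import Pool.Agent.D0H81.SR.Annih

set_option autoImplicit false
set_option linter.unusedVariables false
set_option linter.deprecated false
set_option linter.unusedSectionVars false

open Set Metric Filter Topology
open scoped ContDiff NNReal

namespace Pool.Agent.D0H81.SR

variable {E : Type} [NormedAddCommGroup E] [NormedSpace ℝ E] [FiniteDimensional ℝ E]
variable {ι : Type} [Fintype ι]

lemma exists_sub_basis {α : Type} (v : α → E) : ∃ (r : ℕ) (a : Fin r → α),
    LinearIndependent ℝ (fun i => v (a i)) ∧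
    Submodule.span ℝ (range fun i => v (a i)) = Submodule.span ℝ (range v) := by
  obtain ⟨b, hb, hspan, hli⟩ := exists_linearIndependent ℝ (range v)
  have hfin : b.Finite := hli.setFinite
  have : Fintype b := hfin.fintype
  let e : Fin (Fintype.card b) ≃ b := (Fintype.equivFin b).symm
  choose a ha using fun i : Fin (Fintype.card b) => hb (e i).2
  refine ⟨Fintype.card b, a, ?_, ?_⟩
  · have h1 : (fun i => v (a i)) = (fun x : b => (x : E)) ∘ e := by
      funext i; exact ha i
    rw [h1]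
    exact hli.comp e e.injective
  · rw [← hspan]
    congr 1
    ext x
    constructor
    · rintro ⟨i, rfl⟩
      simp only [ha]
      exact (e i).2
    · intro hx
      exact ⟨e.symm ⟨x, hx⟩, by simp only [ha]; simp⟩

/-- covariant derivative along `Ham` of `E`-valued functions -/
noncomputable def nab (X : ι → E → E) (Z : TT E → E) (z : TT E) : E :=
  fderiv ℝ Z z (Ham X 1 z) - Kop X 1 z (Z z)

noncomputable def Zj (X : ι → E → E) : ℕ → ι → TT E → E
  | 0, k => fun z => X k z.1
  | j + 1, k => nab X (Zj X j k)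

lemma Zj_smooth {X : ι → E → E} (hX : ∀ i, ContDiff ℝ ∞ (X i)) (j : ℕ) (k : ι) :
    ContDiff ℝ ∞ (Zj X j k) := by
  induction j with
  | zero => exact (hX k).comp contDiff_fst
  | succ j ih =>
    show ContDiff ℝ ∞ (fun z => fderiv ℝ (Zj X j k) z (Ham X 1 z) - Kop X 1 z (Zj X j k z))
    exact ((fderiv_smooth ih).clm_apply (Ham_smooth hX 1)).sub ((Kop_smooth hX 1).clm_apply ih)

def Ample (X : ι → E → E) (z : TT E) : Prop :=
  Submodule.span ℝ (range fun jk : ℕ × ι => Zj X jk.1 jk.2 z) = ⊤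

def Gset (X : ι → E → E) (V : Set E) : Set (TT E) := {z | z.1 ∈ V ∧ hk X 1 z ≠ 0 ∧ Ample X z}

lemma ample_basis {X : ι → E → E} {z : TT E} (h : Ample X z) :
    ∃ b : Fin (Module.finrank ℝ E) → ℕ × ι,
      LinearIndependent ℝ (fun i => Zj X (b i).1 (b i).2 z) := by
  obtain ⟨r, a, h1, h2⟩ := exists_sub_basis (fun jk : ℕ × ι => Zj X jk.1 jk.2 z)
  have h3 : r = Module.finrank ℝ E := by
    have h4 := finrank_span_eq_card h1
    rw [h2, h, finrank_top, Fintype.card_fin] at h4
    exact h4.symm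
  subst h3
  exact ⟨a, h1⟩

lemma ample_of_indep {X : ι → E → E} {z : TT E} (b : Fin (Module.finrank ℝ E) → ℕ × ι)
    (h : LinearIndependent ℝ (fun i => Zj X (b i).1 (b i).2 z)) : Ample X z := by
  have h1 := h.span_eq_top_of_card_eq_finrank' (by simp)
  unfold Ample
  rw [eq_top_iff, ← h1]
  apply Submodule.span_mono
  rintro _ ⟨i, rfl⟩
  exact ⟨b i, rfl⟩

lemma Gset_open {X : ι → E → E} (hX : ∀ i, ContDiff ℝ ∞ (X i)) {V : Set E} (hV : IsOpen V) :
    IsOpen (Gset X V) := by
  classical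
  rw [isOpen_iff_mem_nhds]
  rintro z ⟨h1, h2, h3⟩
  obtain ⟨b, hb⟩ := ample_basis h3
  obtain ⟨O', _, hO'o, hz, φ, _, hφ⟩ := exists_smooth_dual
    (fun i z => Zj X (b i).1 (b i).2 z) univ isOpen_univ z trivial
    (fun i => (Zj_smooth hX _ _).contDiffOn) hb
  have e1 : ∀ᶠ y : TT E in 𝓝 z, y.1 ∈ V := continuous_fst.continuousAt.eventually (hV.mem_nhds h1)
  have e2 : ∀ᶠ y : TT E in 𝓝 z, hk X 1 y ≠ 0 :=
    (hk_smooth hX 1).continuous.continuousAt.eventually_ne h2
  filter_upwards [e1, e2, hO'o.mem_nhds hz] with y hy1 hy2 hy3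
  exact ⟨hy1, hy2, ample_of_indep b (indep_of_dual (fun i j => hφ y hy3 i j))⟩

lemma hk_eq_zero {X : ι → E → E} {z : TT E} : hk X 1 z = 0 ↔ ∀ i, mom X i z = 0 := by
  unfold hk
  simp only [Pi.one_apply, one_mul]
  constructor
  · intro h i
    have h1 : ∑ i, mom X i z ^ 2 = 0 := by linarith
    rw [Finset.sum_eq_zero_iff_of_nonneg (fun _ _ => sq_nonneg _)] at h1
    exact pow_eq_zero_iff (two_ne_zero) |>.1 (h1 i (Finset.mem_univ i))
  · intro h
    simp [h]

lemma ann_expand {κ : Type} [Fintype κ] [DecidableEq κ] {v : κ → E} {φ : κ → Co E}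
    (h : ∀ i j, φ i (v j) = if i = j then 1 else 0) (hc : Fintype.card κ = Module.finrank ℝ E)
    (η : Co E) : η = ∑ j, η (v j) • φ j := by
  have h1 := (indep_of_dual h).span_eq_top_of_card_eq_finrank' hc
  ext w
  have h2 := expand_of_dual h (w := w) (by rw [h1]; trivial)
  conv_lhs => rw [h2]
  simp [mul_comm]

/-- ample covectors are dense -/
theorem ample_dense (X : ι → E → E) (hX : ∀ i, ContDiff ℝ ∞ (X i)) (V : Set E) (hV : IsOpen V)
    [Nonempty ι] (hLI : ∀ q ∈ V, LinearIndependent ℝ (fun i => X i q))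
    (hgen : ∀ q ∈ V, Submodule.span ℝ {v | ∃ Y, Word X univ Y ∧ v = Y q} = ⊤)
    (O : Set (TT E)) (hO : IsOpen O) (hOV : ∀ z ∈ O, z.1 ∈ V) (hne : O.Nonempty) :
    ∃ z ∈ O, z ∈ Gset X V := by
  classical
  -- first make `hk ≠ 0`
  obtain ⟨z1, hz1, hz1h⟩ : ∃ z ∈ O, hk X 1 z ≠ 0 := by
    obtain ⟨z, hz⟩ := hne
    by_cases hh : hk X 1 z = 0
    · obtain ⟨i⟩ := ‹Nonempty ι›
      obtain ⟨f, hf⟩ := exists_dual _ (hLI z.1 (hOV z hz))
      have hcont : Continuous (fun s : ℝ => ((z.1, z.2 + s • f i) : TT E)) := by fun_prop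
      have h0 : ((z.1, z.2 + (0:ℝ) • f i) : TT E) = z := by simp
      have hev : ∀ᶠ s in 𝓝 (0:ℝ), ((z.1, z.2 + s • f i) : TT E) ∈ O := by
        have h1 := hcont.tendsto 0
        simp only [h0] at h1
        exact h1.eventually (hO.mem_nhds hz)
      obtain ⟨ε, hε, hε'⟩ := Metric.eventually_nhds_iff.1 hev
      refine ⟨(z.1, z.2 + (ε / 2) • f i), hε' (by rw [Real.dist_eq, sub_zero, abs_of_pos (by positivity)]; linarith), ?_⟩
      rw [Ne, hk_eq_zero]
      intro h
      have h1 := h i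
      have h2 := hk_eq_zero.1 hh i
      simp only [mom] at h1 h2
      simp only [ContinuousLinearMap.add_apply, ContinuousLinearMap.smul_apply, hf, h2] at h1
      simp at h1
      exact hε.ne' h1
    · exact ⟨z, hz, hh⟩
  set O1 : Set (TT E) := O ∩ {z | hk X 1 z ≠ 0} with hO1
  have hO1o : IsOpen O1 := hO.inter (isOpen_ne_fun (hk_smooth hX 1).continuous continuous_const)
  set rk : TT E → ℕ := fun z => Module.finrank ℝ
    (Submodule.span ℝ (range fun jk : ℕ × ι => Zj X jk.1 jk.2 z)) with hrk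
  obtain ⟨z0, hz0, hmax⟩ : ∃ z0 ∈ O1, ∀ z ∈ O1, rk z ≤ rk z0 := by
    have hbdd : BddAbove (rk '' O1) := ⟨Module.finrank ℝ E, by
      rintro _ ⟨w, _, rfl⟩
      exact Submodule.finrank_le _⟩
    obtain ⟨w0, hw0, hw0'⟩ := Nat.sSup_mem (s := rk '' O1) ⟨_, mem_image_of_mem _ ⟨hz1, hz1h⟩⟩ hbdd
    refine ⟨w0, hw0, fun w hw => ?_⟩
    have h1 := le_csSup hbdd (mem_image_of_mem rk hw)
    rw [← hw0'] at h1
    exact h1
  refine ⟨z0, hz0.1, hOV _ hz0.1, hz0.2, ?_⟩
  obtain ⟨r, a, ha1, ha2⟩ := exists_sub_basis (fun jk : ℕ × ι => Zj X jk.1 jk.2 z0)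
  set W := Submodule.span ℝ (range fun jk : ℕ × ι => Zj X jk.1 jk.2 z0) with hW
  have hr : rk z0 = r := by
    have := finrank_span_eq_card ha1
    rw [ha2, Fintype.card_fin] at this
    exact this
  obtain ⟨W', hW'⟩ := Submodule.exists_isCompl W
  set d := Module.finrank ℝ W' with hd
  let f : Fin d → E := fun l => (Module.finBasis ℝ W' l : E)
  have hfli : LinearIndependent ℝ f :=
    (Module.finBasis ℝ W').linearIndependent.map' W'.subtype (Submodule.ker_subtype _)
  have hfspan : Submodule.span ℝ (range f) = W' := by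
    have h1 := (Module.finBasis ℝ W').span_eq
    have h2 : range f = W'.subtype '' (range (Module.finBasis ℝ W')) := by
      rw [← range_comp]; rfl
    rw [h2, Submodule.span_image, h1, Submodule.map_top, Submodule.range_subtype]
  set v : Fin r ⊕ Fin d → TT E → E := Sum.elim (fun i z => Zj X (a i).1 (a i).2 z) (fun l z => f l)
    with hv
  have hvli : LinearIndependent ℝ (fun i => v i z0) := by
    have h1 := ha1.sum_type hfli (by rw [ha2, hfspan]; exact hW'.disjoint)
    have h2 : (fun i => v i z0) = Sum.elim (fun i => Zj X (a i).1 (a i).2 z0) f := by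
      funext i
      rcases i with i | i <;> rfl
    rw [h2]; exact h1
  have hcard : Fintype.card (Fin r ⊕ Fin d) = Module.finrank ℝ E := by
    rw [Fintype.card_sum, Fintype.card_fin, Fintype.card_fin, ← hr, hd]
    exact Submodule.finrank_add_eq_of_isCompl hW'
  obtain ⟨O', hO'1, hO'o, hz0', φ, hφs, hφd⟩ := exists_smooth_dual v O1 hO1o z0 hz0
    (fun i => by
      rcases i with i | i
      · exact (Zj_smooth hX _ _).contDiffOn
      · exact contDiffOn_const) hvli
  -- `inr` functionals annihilate all jets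
  have hspan : ∀ z ∈ O', ∀ j k, Zj X j k z ∈
      Submodule.span ℝ (range fun i => Zj X (a i).1 (a i).2 z) := by
    intro z hz j k
    have h1 : LinearIndependent ℝ (fun i => Zj X (a i).1 (a i).2 z) := by
      have := (indep_of_dual (v := fun i => v i z) (fun i j => hφd z hz i j)).comp Sum.inl
        Sum.inl_injective
      exact this
    have h2 : Submodule.span ℝ (range fun i => Zj X (a i).1 (a i).2 z) =
        Submodule.span ℝ (range fun jk : ℕ × ι => Zj X jk.1 jk.2 z) := by
      apply Submodule.eq_of_le_of_finrank_le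
      · apply Submodule.span_mono
        rintro _ ⟨i, rfl⟩
        exact ⟨a i, rfl⟩
      · rw [finrank_span_eq_card h1, Fintype.card_fin, ← hr]
        exact hmax z (hO'1 hz)
    rw [h2]
    exact Submodule.subset_span ⟨(j, k), rfl⟩
  have hann : ∀ z ∈ O', ∀ l j k, φ (Sum.inr l) z (Zj X j k z) = 0 := by
    intro z hz l j k
    have h1 := hspan z hz j k
    have h2 : Submodule.span ℝ (range fun i => Zj X (a i).1 (a i).2 z) ≤
        LinearMap.ker (φ (Sum.inr l) z).toLinearMap := by
      rw [Submodule.span_le]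
      rintro _ ⟨i, rfl⟩
      have := hφd z hz (Sum.inr l) (Sum.inl i)
      simpa [hv] using this
    exact h2 h1
  have hφdiff : ∀ i, ∀ z ∈ O', DifferentiableAt ℝ (φ i) z := fun i z hz =>
    ((hφs i).contDiffAt (hO'o.mem_nhds hz)).differentiableAt inf_ne
  set m : Fin d → Fin d → TT E → ℝ := fun l l' z =>
    (fderiv ℝ (φ (Sum.inr l)) z (Ham X 1 z) + (φ (Sum.inr l) z).comp (Kop X 1 z)) (f l') with hm
  have hmc : ∀ l l', ContinuousOn (m l l') O' := by
    intro l l'
    have h1 : ContinuousOn (fderiv ℝ (φ (Sum.inr l))) O' :=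
      ((hφs (Sum.inr l)).fderiv_of_isOpen (m := ∞) hO'o (by exact_mod_cast le_top)).continuousOn
    have h2 : ContinuousOn (fun z => fderiv ℝ (φ (Sum.inr l)) z (Ham X 1 z)) O' :=
      h1.clm_apply (Ham_smooth hX 1).continuous.continuousOn
    have h3 : ContinuousOn (fun z => (φ (Sum.inr l) z).comp (Kop X 1 z)) O' :=
      (hφs (Sum.inr l)).continuousOn.clm_comp (Kop_smooth hX 1).continuous.continuousOn
    exact (h2.add h3).clm_apply continuousOn_const
  have htr : ∀ l, ∀ z ∈ O', fderiv ℝ (φ (Sum.inr l)) z (Ham X 1 z) =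
      -((φ (Sum.inr l) z).comp (Kop X 1 z)) + ∑ l', m l l' z • φ (Sum.inr l') z := by
    intro l z hz
    set η : Co E := fderiv ℝ (φ (Sum.inr l)) z (Ham X 1 z) + (φ (Sum.inr l) z).comp (Kop X 1 z)
      with hη
    have hη0 : ∀ j k, η (Zj X j k z) = 0 := by
      intro j k
      have h1 : HasFDerivAt (fun y => φ (Sum.inr l) y (Zj X j k y)) _ z :=
        (hφdiff (Sum.inr l) z hz).hasFDerivAt.clm_apply
          ((Zj_smooth hX j k).differentiable inf_ne z).hasFDerivAt
      have h2 : (fun y => φ (Sum.inr l) y (Zj X j k y)) =ᶠ[𝓝 z] fun _ => 0 := by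
        filter_upwards [hO'o.mem_nhds hz] with y hy
        exact hann y hy l j k
      have h3 := congrArg (fun L : TT E →L[ℝ] ℝ => L (Ham X 1 z))
        (h1.unique ((hasFDerivAt_const (0:ℝ) z).congr_of_eventuallyEq h2))
      simp only [ContinuousLinearMap.add_apply, ContinuousLinearMap.comp_apply,
        ContinuousLinearMap.flip_apply, ContinuousLinearMap.zero_apply] at h3
      have h4 : fderiv ℝ (Zj X j k) z (Ham X 1 z) = Zj X (j + 1) k z + Kop X 1 z (Zj X j k z) := by
        show _ = nab X (Zj X j k) z + _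
        unfold nab
        abel
      rw [h4, map_add, hann z hz l (j + 1) k, zero_add] at h3
      simp only [hη, ContinuousLinearMap.add_apply, ContinuousLinearMap.comp_apply]
      linarith
    have h5 := ann_expand (v := fun i => v i z) (φ := fun i => φ i z)
      (fun i j => hφd z hz i j) hcard η
    rw [Fintype.sum_sum_type] at h5
    have h6 : ∑ i : Fin r, η (v (Sum.inl i) z) • φ (Sum.inl i) z = 0 := by
      refine Finset.sum_eq_zero fun i _ => ?_
      have : η (v (Sum.inl i) z) = 0 := hη0 _ _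
      rw [this, zero_smul]
    rw [h6, zero_add] at h5
    have h7 : fderiv ℝ (φ (Sum.inr l)) z (Ham X 1 z) =
      -((φ (Sum.inr l) z).comp (Kop X 1 z)) + η := by rw [hη]; abel
    rw [h7, h5]
    congr 1
  have hres := annih X hX 1 (fun _ => zero_le_one) O' hO'o (fun l => φ (Sum.inr l)) m
    (fun l => hφdiff _) hmc htr (fun l z hz i _ => hann z hz l 0 i)
  have huniv : {i : ι | (1 : ι → ℝ) i ≠ 0} = univ := by ext; simp
  rw [huniv] at hres
  -- conclude
  have hd0 : d = 0 := by
    by_contra hdne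
    have l : Fin d := ⟨0, Nat.pos_of_ne_zero hdne⟩
    have h1 : φ (Sum.inr l) z0 = 0 := by
      have h2 : Submodule.span ℝ {v | ∃ Y, Word X univ Y ∧ v = Y z0.1} ≤
          LinearMap.ker (φ (Sum.inr l) z0).toLinearMap := by
        rw [Submodule.span_le]
        rintro _ ⟨Y, hY, rfl⟩
        exact hres Y hY l z0 hz0'
      rw [hgen z0.1 (hOV _ hz0.1)] at h2
      ext w
      exact h2 (Submodule.mem_top (x := w))
    have h3 := hφd z0 hz0' (Sum.inr l) (Sum.inr l)
    rw [h1] at h3
    simp at h3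
  have hW'bot : W' = ⊥ := Submodule.finrank_eq_zero.1 (hd.symm.trans hd0)
  rw [hW'bot] at hW'
  exact eq_top_of_isCompl_bot hW'

end Pool.Agent.D0H81.SR
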