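import Pool.Agent.D0H81.SR.Diag2

set_option autoImplicit false
set_option linter.unusedVariables false
set_option linter.deprecated false
set_option linter.unusedSectionVars false

open Set Metric Filter Topology
open scoped ContDiff NNReal Matrix

namespace Pool.Agent.D0H81.SR

variable {E : Type} [NormedAddCommGroup E] [NormedSpace ℝ E] [FiniteDimensional ℝ E]
variable {ι : Type} [Fintype ι]

open VectorField (lieBracket)

/-- module generated by a set of vector fields over smooth functions on `V` -/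
inductive Md (V : Set E) (𝒴 : Set (E → E)) : (E → E) → Prop
  | of (Y : E → E) (h : Y ∈ 𝒴) : Md V 𝒴 Y
  | zero : Md V 𝒴 (fun _ => 0)
  | add (Z Z' : E → E) (h : Md V 𝒴 Z) (h' : Md V 𝒴 Z') : Md V 𝒴 (fun q => Z q + Z' q)
  | smul (φ : E → ℝ) (Z : E → E) (hφ : ContDiffOn ℝ ∞ φ V) (h : Md V 𝒴 Z) :
      Md V 𝒴 (fun q => φ q • Z q)
  | congr (Z Z' : E → E) (h : Md V 𝒴 Z) (he : ∀ q ∈ V, Z' q = Z q) : Md V 𝒴 Z'

namespace Md

variable {V : Set E} {𝒴 𝒵 : Set (E → E)}

lemma bind {Z : E → E} (hZ : Md V 𝒴 Z) (h : ∀ Y ∈ 𝒴, Md V 𝒵 Y) : Md V 𝒵 Z := by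
  induction hZ with
  | of Y hY => exact h Y hY
  | zero => exact Md.zero
  | add Z Z' _ _ h1 h2 => exact Md.add _ _ h1 h2
  | smul φ Z hφ _ h1 => exact Md.smul _ _ hφ h1
  | congr Z Z' _ he h1 => exact Md.congr _ _ h1 he

lemma sum {κ : Type} (s : Finset κ) (Z : κ → E → E) (h : ∀ k ∈ s, Md V 𝒴 (Z k)) :
    Md V 𝒴 (fun q => ∑ k ∈ s, Z k q) := by
  classical
  induction s using Finset.induction_on with
  | empty => simpa using Md.zero
  | insert a s ha ih =>
    refine Md.congr (fun q => Z a q + ∑ k ∈ s, Z k q) _ ?_ (fun q _ => by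
      rw [Finset.sum_insert ha])
    exact Md.add _ _ (h a (Finset.mem_insert_self a s))
      (ih fun k hk => h k (Finset.mem_insert_of_mem hk))

lemma smooth (h : ∀ Y ∈ 𝒴, ContDiffOn ℝ ∞ Y V) {Z : E → E} (hZ : Md V 𝒴 Z) :
    ContDiffOn ℝ ∞ Z V := by
  induction hZ with
  | of Y hY => exact h Y hY
  | zero => exact contDiffOn_const
  | add Z Z' _ _ h1 h2 => exact h1.add h2
  | smul φ Z hφ _ h1 => exact hφ.smul h1
  | congr Z Z' _ he h1 => exact h1.congr he

lemma pt {q : E} (hq : q ∈ V) (W : Submodule ℝ E) (h : ∀ Y ∈ 𝒴, Y q ∈ W) {Z : E → E}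
    (hZ : Md V 𝒴 Z) : Z q ∈ W := by
  induction hZ with
  | of Y hY => exact h Y hY
  | zero => exact W.zero_mem
  | add Z Z' _ _ h1 h2 => exact W.add_mem h1 h2
  | smul φ Z hφ _ h1 => exact W.smul_mem _ h1
  | congr Z Z' _ he h1 => rw [he q hq]; exact h1

lemma bracket (hV : IsOpen V) {W : E → E} (hW : ContDiffOn ℝ ∞ W V)
    (hs : ∀ Y ∈ 𝒴, ContDiffOn ℝ ∞ Y V) (h𝒴 : ∀ Y ∈ 𝒴, Md V 𝒵 Y)
    (hb : ∀ Y ∈ 𝒴, Md V 𝒵 (lieBracket ℝ W Y)) {Z : E → E} (hZ : Md V 𝒴 Z) :
    Md V 𝒵 (lieBracket ℝ W Z) := by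
  have hd : ∀ {F : Type} [NormedAddCommGroup F] [NormedSpace ℝ F] {f : E → F},
      ContDiffOn ℝ ∞ f V → ∀ q ∈ V, DifferentiableAt ℝ f q := fun hf q hq =>
    (hf.contDiffAt (hV.mem_nhds hq)).differentiableAt inf_ne
  induction hZ with
  | of Y hY => exact hb Y hY
  | zero =>
    refine Md.congr _ _ Md.zero fun q _ => ?_
    have : (fun _ : E => (0 : E)) = 0 := rfl
    rw [this, VectorField.lieBracket_zero_right]; rfl
  | add Z Z' hZ hZ' h1 h2 =>
    refine Md.congr _ _ (Md.add _ _ h1 h2) fun q hq => ?_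
    exact VectorField.lieBracket_add_right (hd (hZ.smooth hs) q hq) (hd (hZ'.smooth hs) q hq)
  | smul φ Z hφ hZ h1 =>
    have h2 : ContDiffOn ℝ ∞ (fun q => fderiv ℝ φ q (W q)) V :=
      (hφ.fderiv_of_isOpen hV (by exact_mod_cast le_top)).clm_apply hW
    refine Md.congr _ _ (Md.add _ _ (Md.smul _ _ h2 (hZ.bind h𝒴)) (Md.smul _ _ hφ h1))
      fun q hq => ?_
    exact VectorField.lieBracket_smul_right (hd hφ q hq) (hd (hZ.smooth hs) q hq)
  | congr Z Z' hZ he h1 =>
    refine Md.congr _ _ h1 fun q hq => ?_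
    refine Filter.EventuallyEq.lieBracket_vectorField_eq (Filter.EventuallyEq.refl _ _) ?_
    filter_upwards [hV.mem_nhds hq] with y hy
    exact he y hy

end Md

lemma minS : minSmoothness ℝ 2 ≤ (∞ : WithTop ℕ∞) := by simpa using two_le_inf

/-- local dual frame context -/
structure Ctx [DecidableEq ι] (D : Dat E ι) (lam : ι → ℝ) where
  V : Set E
  hV : IsOpen V
  sub : V ⊆ D.V
  ψ : ι → E → Co E
  hψ : ∀ i, ContDiffOn ℝ ∞ (ψ i) V
  dual : ∀ q ∈ V, ∀ i j, ψ i q (D.X j q) = if i = j then 1 else 0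
  isd : D.IsDiag lam

namespace Ctx

variable [DecidableEq ι] {D : Dat E ι} {lam : ι → ℝ} (c : Ctx D lam)

lemma dense_q {V : Set E} (hV : IsOpen V) (hVD : V ⊆ D.V) {f : E → ℝ} (hf : ContinuousOn f V)
    (h : ∀ q ∈ V, (∃ p, (q, p) ∈ Gset D.X D.V) → f q = 0) : ∀ q ∈ V, f q = 0 := by
  intro q hq
  by_contra hne
  have := D.ne
  have hO : IsOpen (V ∩ f ⁻¹' {0}ᶜ) := hf.isOpen_inter_preimage hV isOpen_compl_singleton
  obtain ⟨⟨y, p⟩, hy1, hy2⟩ := ample_dense D.X D.hX D.V D.hV D.hLI D.hgen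
    {z | z.1 ∈ V ∩ f ⁻¹' {0}ᶜ} (hO.preimage continuous_fst) (fun z hz => hVD hz.1)
    ⟨(q, 0), hq, hne⟩
  exact hy1.2 (h y hy1.1 ⟨p, hy2⟩)

noncomputable def C (i j l : ι) (q : E) : ℝ := c.ψ l q (brk D.X i j q)

lemma C_smooth (i j l : ι) : ContDiffOn ℝ ∞ (c.C i j l) c.V :=
  (c.hψ l).clm_apply (brk_smooth D.hX i j).contDiffOn

lemma brk_eq_bb (X : ι → E → E) (i j : ι) (q : E) :
    brk X i j q = bb X q (Pi.single i 1) (Pi.single j 1) := by
  rw [bb_apply]
  simp [Pi.single_apply]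

include c in
lemma eig_single (i : ι) (q : E) :
    MM D.S q (Pi.single i 1) = lam i • Pi.single i 1 := (c.isd.eb q).eig i

lemma struct0 {i j : ι} (hij : lam i ≠ lam j) {q : E} (hq : q ∈ c.V) :
    brk D.X i j q = ∑ l, c.C i j l q • D.X l q := by
  have h1 := D.bb_eig (c.sub hq) (c.eig_single i q) (c.eig_single j q) hij
  rw [← brk_eq_bb] at h1
  exact expand_of_dual (c.dual q hq) h1

lemma C_eq_tt (i j l : ι) (q : E) :
    c.C i j l q = Dat.tt D.X q (fun l => c.ψ l q) (Pi.single i 1) (Pi.single j 1)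
      (Pi.single l 1) := by
  rw [Dat.tt, ← brk_eq_bb]
  simp [C, Pi.single_apply]

lemma struct1 {i j l : ι} (hij : lam i ≠ lam j) (hli : lam l ≠ lam i) (hlj : lam l ≠ lam j) :
    ∀ q ∈ c.V, c.C i j l q = 0 := by
  refine dense_q (D := D) c.hV c.sub (c.C_smooth i j l).continuousOn ?_
  rintro q hq ⟨p, hp⟩
  rw [C_eq_tt]
  exact c.isd.t3 hp (c.dual q hq) (c.eig_single i q) (c.eig_single j q) (c.eig_single l q) hij
    hli.symm hlj.symm

lemma struct2 {i j l : ι} (hjl : lam j = lam l) (hij : lam i ≠ lam j) :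
    ∀ q ∈ c.V, c.C i j l q + c.C i l j q = 0 := by
  refine dense_q (D := D) c.hV c.sub
    ((c.C_smooth i j l).continuousOn.add (c.C_smooth i l j).continuousOn) ?_
  rintro q hq ⟨p, hp⟩
  have h1 : MM D.S q (Pi.single j 1 + Pi.single l 1) =
      lam j • (Pi.single j 1 + Pi.single l 1) := by
    rw [map_add, c.eig_single, c.eig_single, ← hjl, smul_add]
  have h2 := c.isd.t2 hp (c.dual q hq) (c.eig_single i q) h1 hij
  have h3 := c.isd.t2 hp (c.dual q hq) (c.eig_single i q) (c.eig_single j q) hij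
  have h4 := c.isd.t2 hp (c.dual q hq) (c.eig_single i q) (c.eig_single l q) (hjl ▸ hij)
  rw [Dat.tt_add1, Dat.tt_add3, Dat.tt_add3, h3, h4] at h2
  rw [C_eq_tt, C_eq_tt, Dat.tt_swap D.X q _ (Pi.single i 1) (Pi.single j 1),
    Dat.tt_swap D.X q _ (Pi.single i 1) (Pi.single l 1)]
  linarith

/-- words of a block -/
def wd (X : ι → E → E) (lam : ι → ℝ) (a : ℝ) : Set (E → E) := {Y | Word X {i | lam i = a} Y}

/-- letters of a block -/
def lt (X : ι → E → E) (lam : ι → ℝ) (a : ℝ) : Set (E → E) := {Y | ∃ i, lam i = a ∧ Y = X i}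

lemma wd_smooth {a : ℝ} {Y : E → E} (h : Y ∈ wd D.X lam a) : ContDiff ℝ ∞ Y := word_smooth D.hX h

lemma letter_bracket {i j : ι} (hij : lam i ≠ lam j) :
    Md c.V (lt D.X lam (lam i) ∪ lt D.X lam (lam j)) (lieBracket ℝ (D.X i) (D.X j)) := by
  refine Md.congr (fun q => ∑ l, c.C i j l q • D.X l q) _ ?_ (fun q hq => c.struct0 hij hq)
  refine Md.sum Finset.univ (fun l q => c.C i j l q • D.X l q) fun l _ => ?_
  by_cases h1 : lam l = lam i
  · exact Md.smul _ _ (c.C_smooth i j l) (Md.of _ (Or.inl ⟨l, h1, rfl⟩))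
  · by_cases h2 : lam l = lam j
    · exact Md.smul _ _ (c.C_smooth i j l) (Md.of _ (Or.inr ⟨l, h2, rfl⟩))
    · refine Md.congr _ _ Md.zero fun q hq => ?_
      rw [c.struct1 hij h1 h2 q hq, zero_smul]

/-- closure: bracket of a letter of block `b` with a word of block `a` -/
lemma closure {a b : ℝ} (hab : a ≠ b) {Y : E → E} (hY : Word D.X {i | lam i = a} Y) :
    ∀ j, lam j = b → Md c.V (wd D.X lam a ∪ lt D.X lam b) (lieBracket ℝ (D.X j) Y) := by
  have hsm : ∀ Y ∈ wd D.X lam a ∪ lt D.X lam b, ContDiffOn ℝ ∞ Y c.V := by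
    rintro Y (hY | ⟨i, _, rfl⟩)
    · exact (wd_smooth hY).contDiffOn
    · exact (D.hX i).contDiffOn
  induction hY with
  | letter i hi =>
    intro j hj
    have hi' : lam i = a := hi
    refine (c.letter_bracket (i := j) (j := i) (by rw [hj, hi']; exact hab.symm)).bind ?_
    rintro Y (⟨l, hl, rfl⟩ | ⟨l, hl, rfl⟩)
    · exact Md.of _ (Or.inr ⟨l, hl.trans hj, rfl⟩)
    · exact Md.of _ (Or.inl (Word.letter l (hl.trans hi')))
  | br i hi Z hZ ih =>
    intro j hj
    have hi' : lam i = a := hi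
    have hZs := word_smooth D.hX hZ
    -- first term `[[X j, X i], Z]`
    have h1 : Md c.V (wd D.X lam a ∪ lt D.X lam b)
        (lieBracket ℝ (lieBracket ℝ (D.X j) (D.X i)) Z) := by
      have hji : lam j ≠ lam i := by rw [hj, hi']; exact hab.symm
      -- rewrite as sum
      have e1 : ∀ q ∈ c.V, lieBracket ℝ (lieBracket ℝ (D.X j) (D.X i)) Z q =
          ∑ l, (-(fderiv ℝ (c.C j i l) q (Z q)) • D.X l q +
            c.C j i l q • lieBracket ℝ (D.X l) Z q) := by
        intro q hq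
        have e2 : lieBracket ℝ (lieBracket ℝ (D.X j) (D.X i)) Z q =
            lieBracket ℝ (fun q => ∑ l, c.C j i l q • D.X l q) Z q := by
          refine Filter.EventuallyEq.lieBracket_vectorField_eq ?_ (Filter.EventuallyEq.refl _ _)
          filter_upwards [c.hV.mem_nhds hq] with y hy
          exact c.struct0 hji hy
        rw [e2]
        have hCd : ∀ l, DifferentiableAt ℝ (c.C j i l) q := fun l =>
          ((c.C_smooth j i l).contDiffAt (c.hV.mem_nhds hq)).differentiableAt inf_ne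
        have hXd : ∀ l, DifferentiableAt ℝ (D.X l) q := fun l => (D.hX l).differentiable inf_ne q
        have e3 : ∀ s : Finset ι, lieBracket ℝ (fun q => ∑ l ∈ s, c.C j i l q • D.X l q) Z q =
            ∑ l ∈ s, (-(fderiv ℝ (c.C j i l) q (Z q)) • D.X l q +
            c.C j i l q • lieBracket ℝ (D.X l) Z q) := by
          intro s
          induction s using Finset.induction_on with
          | empty =>
            simp only [Finset.sum_empty]
            have : (fun _ : E => (0 : E)) = 0 := rfl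
            rw [this, VectorField.lieBracket_zero_left]; rfl
          | insert l s hl ihs =>
            have e4 : (fun q => ∑ l ∈ insert l s, c.C j i l q • D.X l q) =
                (fun q => c.C j i l q • D.X l q) + fun q => ∑ l ∈ s, c.C j i l q • D.X l q := by
              funext q
              rw [Finset.sum_insert hl]; rfl
            have hd1 : DifferentiableAt ℝ (fun q => c.C j i l q • D.X l q) q := (hCd l).smul (hXd l)
            have hd2 : DifferentiableAt ℝ (fun q => ∑ l ∈ s, c.C j i l q • D.X l q) q :=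
              DifferentiableAt.fun_sum fun l _ => (hCd l).smul (hXd l)
            rw [e4, VectorField.lieBracket_add_left hd1 hd2, ihs,
              VectorField.lieBracket_smul_left (hCd l) (hXd l), Finset.sum_insert hl]
        exact e3 Finset.univ
      refine Md.congr _ _ ?_ e1
      refine Md.sum Finset.univ (fun l q => -(fderiv ℝ (c.C j i l) q (Z q)) • D.X l q +
            c.C j i l q • lieBracket ℝ (D.X l) Z q) fun l _ => ?_
      have hds : ContDiffOn ℝ ∞ (fun q => -(fderiv ℝ (c.C j i l) q (Z q))) c.V :=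
        (((c.C_smooth j i l).fderiv_of_isOpen c.hV (by exact_mod_cast le_top)).clm_apply
          hZs.contDiffOn).neg
      by_cases g1 : lam l = lam j
      · refine Md.add _ _ (Md.smul _ _ hds (Md.of _ (Or.inr ⟨l, g1.trans hj, rfl⟩)))
          (Md.smul _ _ (c.C_smooth j i l) (ih l (g1.trans hj)))
      · by_cases g2 : lam l = lam i
        · refine Md.add _ _ (Md.smul _ _ hds (Md.of _ (Or.inl (Word.letter l (g2.trans hi')))))
            (Md.smul _ _ (c.C_smooth j i l) (Md.of _ (Or.inl ?_)))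
          exact Word.br l (g2.trans hi') Z hZ
        · refine Md.congr _ _ Md.zero fun q hq => ?_
          have e5 : c.C j i l =ᶠ[𝓝 q] fun _ => 0 := by
            filter_upwards [c.hV.mem_nhds hq] with y hy
            exact c.struct1 hji g1 g2 y hy
          rw [e5.fderiv_eq, e5.self_of_nhds]
          simp
    -- second term `[X i, [X j, Z]]`
    have h2 : Md c.V (wd D.X lam a ∪ lt D.X lam b)
        (lieBracket ℝ (D.X i) (lieBracket ℝ (D.X j) Z)) := by
      refine Md.bracket c.hV (D.hX i).contDiffOn hsm (fun Y hY => Md.of _ hY) ?_ (ih j hj)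
      rintro Y (hY | ⟨l, hl, rfl⟩)
      · exact Md.of _ (Or.inl (Word.br i hi Y hY))
      · refine (c.letter_bracket (i := i) (j := l) (by rw [hl, hi']; exact hab)).bind ?_
        rintro Y (⟨m, hm, rfl⟩ | ⟨m, hm, rfl⟩)
        · exact Md.of _ (Or.inl (Word.letter m (hm.trans hi')))
        · exact Md.of _ (Or.inr ⟨m, hm.trans hl, rfl⟩)
    refine Md.congr _ _ (Md.add _ _ h1 h2) fun q hq => ?_
    exact VectorField.leibniz_identity_lieBracket minS (D.hX j).contDiffAt (D.hX i).contDiffAt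
      hZs.contDiffAt

/-- every iterated bracket is a combination of iterated brackets of the blocks -/
lemma all_words {Y : E → E} (hY : Word D.X univ Y) :
    Md c.V {Y | ∃ a, Word D.X {i | lam i = a} Y} Y := by
  induction hY with
  | letter i _ => exact Md.of _ ⟨lam i, Word.letter i rfl⟩
  | br j _ Z _ ih =>
    refine Md.bracket c.hV (D.hX j).contDiffOn ?_ (fun Y hY => Md.of _ hY) ?_ ih
    · rintro Y ⟨a, hY⟩
      exact (word_smooth D.hX hY).contDiffOn
    · rintro Y ⟨a, hY⟩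
      by_cases h1 : lam j = a
      · exact Md.of _ ⟨a, Word.br j h1 Y hY⟩
      · refine (c.closure (Ne.symm h1) hY j rfl).bind ?_
        rintro W (hW | ⟨l, hl, rfl⟩)
        · exact Md.of _ ⟨a, hW⟩
        · exact Md.of _ ⟨lam j, Word.letter l hl⟩

end Ctx

end Pool.Agent.D0H81.SR
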