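import Pool.Agent.D0H81.SR.Frame

set_option autoImplicit false
set_option linter.unusedVariables false
set_option linter.deprecated false
set_option linter.unusedSectionVars false

open Set Metric Filter Topology
open scoped ContDiff NNReal Matrix

namespace Pool.Agent.D0H81.SR

variable {E : Type} [NormedAddCommGroup E] [NormedSpace ℝ E] [FiniteDimensional ℝ E]

namespace IsMetric

variable {U : Set E} {D : E → Submodule ℝ E} {g : E → E → E → ℝ} (hg : IsMetric U D g)

include hg

lemma mono {V : Set E} (h : V ⊆ U) : IsMetric V D g where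
  add q hq := hg.add q (h hq)
  smul q hq := hg.smul q (h hq)
  symm q hq := hg.symm q (h hq)
  pos q hq := hg.pos q (h hq)
  smooth W hW := hg.smooth W (hW.trans h)

lemma zero {q : E} (hq : q ∈ U) {w : E} (hw : w ∈ D q) : g q 0 w = 0 := by
  have := hg.smul q hq 0 0 (D q).zero_mem w hw
  simpa using this

lemma neg {q : E} (hq : q ∈ U) {v w : E} (hv : v ∈ D q) (hw : w ∈ D q) :
    g q (-v) w = - g q v w := by
  have := hg.smul q hq (-1) v hv w hw
  simpa using this

lemma sub {q : E} (hq : q ∈ U) {u v w : E} (hu : u ∈ D q) (hv : v ∈ D q) (hw : w ∈ D q) :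
    g q (u - v) w = g q u w - g q v w := by
  rw [sub_eq_add_neg, hg.add q hq u hu (-v) ((D q).neg_mem hv) w hw, hg.neg hq hv hw]
  ring

lemma sum {q : E} (hq : q ∈ U) {κ : Type} (s : Finset κ) (a : κ → ℝ) (x : κ → E)
    (hx : ∀ i ∈ s, x i ∈ D q) {w : E} (hw : w ∈ D q) :
    g q (∑ i ∈ s, a i • x i) w = ∑ i ∈ s, a i * g q (x i) w := by
  classical
  induction s using Finset.induction_on with
  | empty => simpa using hg.zero hq hw
  | insert i s hi ih =>
    have h1 : ∀ j ∈ s, x j ∈ D q := fun j hj => hx j (Finset.mem_insert_of_mem hj)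
    rw [Finset.sum_insert hi, Finset.sum_insert hi,
      hg.add q hq _ ((D q).smul_mem _ (hx i (Finset.mem_insert_self i s))) _
        (Submodule.sum_mem _ fun j hj => (D q).smul_mem _ (h1 j hj)) w hw,
      hg.smul q hq _ _ (hx i (Finset.mem_insert_self i s)) w hw, ih h1]

lemma sum_right {q : E} (hq : q ∈ U) {κ : Type} (s : Finset κ) (a : κ → ℝ) (x : κ → E)
    (hx : ∀ i ∈ s, x i ∈ D q) {w : E} (hw : w ∈ D q) :
    g q w (∑ i ∈ s, a i • x i) = ∑ i ∈ s, a i * g q w (x i) := by
  rw [hg.symm q hq w hw _ (Submodule.sum_mem _ fun j hj => (D q).smul_mem _ (hx j hj)),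
    hg.sum hq s a x hx hw]
  exact Finset.sum_congr rfl fun i hi => by rw [hg.symm q hq _ (hx i hi) w hw]

lemma orth_sum {q : E} (hq : q ∈ U) {κ : Type} [Fintype κ] [DecidableEq κ] (x : κ → E)
    (hx : ∀ i, x i ∈ D q) (ho : ∀ i j, g q (x i) (x j) = if i = j then 1 else 0) (a b : κ → ℝ) :
    g q (∑ i, a i • x i) (∑ i, b i • x i) = ∑ i, a i * b i := by
  rw [hg.sum hq _ a x (fun i _ => hx i) (Submodule.sum_mem _ fun j hj => (D q).smul_mem _ (hx j))]
  refine Finset.sum_congr rfl fun i _ => ?_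
  rw [hg.sum_right hq _ b x (fun i _ => hx i) (hx i)]
  simp [ho]

lemma orth_indep {q : E} (hq : q ∈ U) {κ : Type} [Fintype κ] [DecidableEq κ] (x : κ → E)
    (hx : ∀ i, x i ∈ D q) (ho : ∀ i j, g q (x i) (x j) = if i = j then 1 else 0) :
    LinearIndependent ℝ x := by
  rw [Fintype.linearIndependent_iff]
  intro a ha i
  have h1 := hg.sum hq Finset.univ a x (fun i _ => hx i) (hx i)
  rw [ha, hg.zero hq (hx i)] at h1
  simp only [ho] at h1
  simpa using h1.symm

end IsMetric

/-- Gram-Schmidt, keeping track of eigen-blocks -/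
lemma gs {W : Set E} {D : E → Submodule ℝ E} {g g' : E → E → E → ℝ} (hW : IsOpen W)
    (hg : IsMetric W D g) (hg' : IsMetric W D g') (Ef : ℕ → E → E) (μ : ℕ → ℝ) (m : ℕ)
    (hs : ∀ i < m, IsSection D W (Ef i))
    (hLI : ∀ q ∈ W, LinearIndependent ℝ (fun i : Fin m => Ef i q))
    (he : ∀ i < m, ∀ q ∈ W, ∀ w ∈ D q, g' q (Ef i q) w = μ i * g q (Ef i q) w) :
    ∀ k ≤ m, ∃ X : ℕ → E → E, (∀ i < k, IsSection D W (X i)) ∧
      (∀ q ∈ W, ∀ i < k, ∀ j < k, g q (X i q) (X j q) = if i = j then 1 else 0) ∧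
      (∀ i < k, ∀ q ∈ W, ∀ w ∈ D q, g' q (X i q) w = μ i * g q (X i q) w) ∧
      (∀ q ∈ W, ∀ i < k, X i q ∈ Submodule.span ℝ ((fun j => Ef j q) '' {j | j < k})) := by
  intro k
  induction k with
  | zero =>
    intro _
    exact ⟨Ef, fun i hi => absurd hi (Nat.not_lt_zero i), fun q _ i hi => absurd hi (Nat.not_lt_zero i),
      fun i hi => absurd hi (Nat.not_lt_zero i), fun q _ i hi => absurd hi (Nat.not_lt_zero i)⟩
  | succ k ih =>
    intro hk
    obtain ⟨X, hX1, hX2, hX3, hX4⟩ := ih (by omega)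
    have hkm : k < m := hk
    set a : ℕ → E → ℝ := fun i q => g q (Ef k q) (X i q) with ha
    have has : ∀ i < k, ContDiffOn ℝ ∞ (a i) W := fun i hi =>
      hg.smooth W subset_rfl hW _ _ (hs k hkm) (hX1 i hi)
    set v : E → E := fun q => Ef k q - ∑ i ∈ Finset.range k, a i q • X i q with hv
    have hvs : IsSection D W v := by
      refine ⟨(hs k hkm).1.sub (ContDiffOn.sum fun i hi => ?_), fun q hq => ?_⟩
      · exact (has i (Finset.mem_range.1 hi)).smul (hX1 i (Finset.mem_range.1 hi)).1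
      · exact (D q).sub_mem ((hs k hkm).2 q hq) (Submodule.sum_mem _ fun i hi =>
          (D q).smul_mem _ ((hX1 i (Finset.mem_range.1 hi)).2 q hq))
    have hvsum : ∀ q ∈ W, ∀ w ∈ D q, g q (v q) w = g q (Ef k q) w -
        ∑ i ∈ Finset.range k, a i q * g q (X i q) w := by
      intro q hq w hw
      have hx : ∀ i ∈ Finset.range k, X i q ∈ D q := fun i hi =>
        (hX1 i (Finset.mem_range.1 hi)).2 q hq
      simp only [hv]
      rw [hg.sub hq ((hs k hkm).2 q hq) (Submodule.sum_mem _ fun i hi =>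
        (D q).smul_mem _ (hx i hi)) hw, hg.sum hq _ _ _ hx hw]
    have hvsum' : ∀ q ∈ W, ∀ w ∈ D q, g' q (v q) w = g' q (Ef k q) w -
        ∑ i ∈ Finset.range k, a i q * g' q (X i q) w := by
      intro q hq w hw
      have hx : ∀ i ∈ Finset.range k, X i q ∈ D q := fun i hi =>
        (hX1 i (Finset.mem_range.1 hi)).2 q hq
      simp only [hv]
      rw [hg'.sub hq ((hs k hkm).2 q hq) (Submodule.sum_mem _ fun i hi =>
        (D q).smul_mem _ (hx i hi)) hw, hg'.sum hq _ _ _ hx hw]
    have horth : ∀ q ∈ W, ∀ j < k, g q (v q) (X j q) = 0 := by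
      intro q hq j hj
      rw [hvsum q hq _ ((hX1 j hj).2 q hq)]
      have : ∑ i ∈ Finset.range k, a i q * g q (X i q) (X j q) = a j q := by
        rw [Finset.sum_congr rfl (g := fun i => if i = j then a i q else 0)]
        · rw [Finset.sum_ite_eq' (Finset.range k) j, if_pos (Finset.mem_range.2 hj)]
        · intro i hi
          rw [hX2 q hq i (Finset.mem_range.1 hi) j hj]
          split_ifs <;> ring
      rw [this]
      exact sub_self _
    have heig : ∀ q ∈ W, ∀ w ∈ D q, g' q (v q) w = μ k * g q (v q) w := by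
      intro q hq w hw
      rw [hvsum q hq w hw, hvsum' q hq w hw, he k hkm q hq w hw, mul_sub, Finset.mul_sum]
      congr 1
      refine Finset.sum_congr rfl fun i hi => ?_
      have hi' := Finset.mem_range.1 hi
      rw [hX3 i hi' q hq w hw]
      have h1 : μ k * a i q = μ i * a i q := by
        simp only [ha]
        rw [← he k hkm q hq _ ((hX1 i hi').2 q hq), hg'.symm q hq _ ((hs k hkm).2 q hq) _
          ((hX1 i hi').2 q hq), hX3 i hi' q hq _ ((hs k hkm).2 q hq),
          hg.symm q hq _ ((hX1 i hi').2 q hq) _ ((hs k hkm).2 q hq)]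
      calc a i q * (μ i * g q (X i q) w) = (μ i * a i q) * g q (X i q) w := by ring
        _ = _ := by rw [← h1]; ring
    have hspan : ∀ q ∈ W, ∑ i ∈ Finset.range k, a i q • X i q ∈
        Submodule.span ℝ ((fun j => Ef j q) '' {j | j < k}) := fun q hq =>
      Submodule.sum_mem _ fun i hi => Submodule.smul_mem _ _ (hX4 q hq i (Finset.mem_range.1 hi))
    have hvne : ∀ q ∈ W, v q ≠ 0 := by
      intro q hq h0
      have h1 : Ef k q ∈ Submodule.span ℝ ((fun j => Ef j q) '' {j | j < k}) := by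
        have : Ef k q = ∑ i ∈ Finset.range k, a i q • X i q := sub_eq_zero.1 h0
        rw [this]
        exact hspan q hq
      have h2 := (hLI q hq).notMem_span_image (s := {j : Fin m | (j : ℕ) < k}) (x := ⟨k, hkm⟩)
        (by simp)
      apply h2
      have h3 : (fun j => Ef j q) '' {j | j < k} =
          (fun i : Fin m => Ef i q) '' {j : Fin m | (j : ℕ) < k} := by
        ext z
        constructor
        · rintro ⟨j, hj, rfl⟩
          have hj' : j < k := hj
          exact ⟨⟨j, by omega⟩, hj', rfl⟩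
        · rintro ⟨j, hj, rfl⟩
          exact ⟨j, hj, rfl⟩
      rw [← h3]
      exact h1
    set N : E → ℝ := fun q => g q (v q) (v q) with hN
    have hNs : ContDiffOn ℝ ∞ N W := hg.smooth W subset_rfl hW _ _ hvs hvs
    have hNpos : ∀ q ∈ W, 0 < N q := fun q hq => hg.pos q hq _ (hvs.2 q hq) (hvne q hq)
    set x : E → E := fun q => (Real.sqrt (N q))⁻¹ • v q with hx
    have hxs : IsSection D W x := by
      refine ⟨?_, fun q hq => (D q).smul_mem _ (hvs.2 q hq)⟩
      have h1 : ContDiffOn ℝ ∞ (fun q => (Real.sqrt (N q))⁻¹) W :=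
        (hNs.sqrt fun q hq => (hNpos q hq).ne').inv fun q hq => (Real.sqrt_pos.2 (hNpos q hq)).ne'
      exact h1.smul hvs.1
    have hxw : ∀ q ∈ W, ∀ w ∈ D q, g q (x q) w = (Real.sqrt (N q))⁻¹ * g q (v q) w :=
      fun q hq w hw => hg.smul q hq _ _ (hvs.2 q hq) w hw
    have hxx : ∀ q ∈ W, g q (x q) (x q) = 1 := by
      intro q hq
      rw [hxw q hq _ (hxs.2 q hq), hg.symm q hq _ (hvs.2 q hq) _ (hxs.2 q hq),
        hxw q hq _ (hvs.2 q hq)]
      show (Real.sqrt (N q))⁻¹ * ((Real.sqrt (N q))⁻¹ * N q) = 1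
      have h1 : Real.sqrt (N q) ≠ 0 := (Real.sqrt_pos.2 (hNpos q hq)).ne'
      have h2 : Real.sqrt (N q) * Real.sqrt (N q) = N q := Real.mul_self_sqrt (hNpos q hq).le
      calc (Real.sqrt (N q))⁻¹ * ((Real.sqrt (N q))⁻¹ * N q)
          = (Real.sqrt (N q))⁻¹ * ((Real.sqrt (N q))⁻¹ * (Real.sqrt (N q) * Real.sqrt (N q))) := by
            rw [h2]
        _ = 1 := by field_simp
    refine ⟨fun i => if i = k then x else X i, ?_, ?_, ?_, ?_⟩
    · intro i hi
      by_cases hik : i = k
      · simp only [hik, if_true]; exact hxs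
      · simp only [hik, if_false]; exact hX1 i (by omega)
    · intro q hq i hi j hj
      by_cases hik : i = k
      · by_cases hjk : j = k
        · simp only [hik, hjk, if_true]; exact hxx q hq
        · have hj' : j < k := by omega
          simp only [hik, hjk, if_true, if_false]
          rw [hxw q hq _ ((hX1 j hj').2 q hq), horth q hq j hj', mul_zero, if_neg (Ne.symm hjk)]
      · have hi' : i < k := by omega
        by_cases hjk : j = k
        · simp only [hik, hjk, if_true, if_false]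
          rw [hg.symm q hq _ ((hX1 i hi').2 q hq) _ (hxs.2 q hq), hxw q hq _ ((hX1 i hi').2 q hq),
            horth q hq i hi', mul_zero]
        · simp only [hik, hjk, if_false]
          exact hX2 q hq i hi' j (by omega)
    · intro i hi q hq w hw
      by_cases hik : i = k
      · simp only [hik, if_true]
        rw [hxw q hq w hw, hg'.smul q hq _ _ (hvs.2 q hq) w hw, heig q hq w hw]
        ring
      · simp only [hik, if_false]
        exact hX3 i (by omega) q hq w hw
    · intro q hq i hi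
      have hmono : Submodule.span ℝ ((fun j => Ef j q) '' {j | j < k}) ≤
          Submodule.span ℝ ((fun j => Ef j q) '' {j | j < k + 1}) :=
        Submodule.span_mono (image_mono fun j hj => Nat.lt_succ_of_lt hj)
      by_cases hik : i = k
      · simp only [hik, if_true]
        refine Submodule.smul_mem _ _ (Submodule.sub_mem _ ?_ (hmono (hspan q hq)))
        exact Submodule.subset_span ⟨k, Nat.lt_succ_self k, rfl⟩
      · simp only [hik, if_false]
        exact hmono (hX4 q hq i (by omega))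

/-- orthonormal frames -/
theorem exists_on {W : Set E} {D : E → Submodule ℝ E} {g g' : E → E → E → ℝ} (hW : IsOpen W)
    (hg : IsMetric W D g) (hg' : IsMetric W D g') {m : ℕ} (F : Fin m → E → E) (μ : Fin m → ℝ)
    (hF : ∀ i, ContDiffOn ℝ ∞ (F i) W)
    (hLI : ∀ q ∈ W, LinearIndependent ℝ (fun i => F i q))
    (hsp : ∀ q ∈ W, Submodule.span ℝ (range fun i => F i q) = D q)
    (he : ∀ i, ∀ q ∈ W, ∀ w ∈ D q, g' q (F i q) w = μ i * g q (F i q) w) :
    ∃ X : Fin m → E → E, (∀ i, ContDiffOn ℝ ∞ (X i) W) ∧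
      (∀ q ∈ W, ∀ i j, g q (X i q) (X j q) = if i = j then 1 else 0) ∧
      (∀ q ∈ W, LinearIndependent ℝ (fun i => X i q)) ∧
      (∀ q ∈ W, Submodule.span ℝ (range fun i => X i q) = D q) ∧
      (∀ i, ∀ q ∈ W, ∀ w ∈ D q, g' q (X i q) w = μ i * g q (X i q) w) := by
  have hmem : ∀ i, ∀ q ∈ W, F i q ∈ D q := fun i q hq => by
    rw [← hsp q hq]; exact Submodule.subset_span ⟨i, rfl⟩
  obtain ⟨X, hX1, hX2, hX3, -⟩ := gs hW hg hg' (fun i => if h : i < m then F ⟨i, h⟩ else 0)
    (fun i => if h : i < m then μ ⟨i, h⟩ else 0) m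
    (fun i hi => by simp only [hi, dif_pos]; exact ⟨hF _, hmem _⟩)
    (fun q hq => by
      have h1 := hLI q hq
      have h2 : (fun i : Fin m => (if h : (i : ℕ) < m then F ⟨i, h⟩ else 0) q) = fun i => F i q := by
        funext i; simp [i.2]
      rw [h2]; exact h1)
    (fun i hi q hq w hw => by simp only [hi, dif_pos]; exact he _ q hq w hw) m le_rfl
  have hXm : ∀ i : Fin m, ∀ q ∈ W, X i q ∈ D q := fun i q hq => (hX1 i i.2).2 q hq
  have ho : ∀ q ∈ W, ∀ i j : Fin m, g q (X i q) (X j q) = if i = j then 1 else 0 := by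
    intro q hq i j
    rw [hX2 q hq i i.2 j j.2]
    simp only [Fin.ext_iff]
  have hXLI : ∀ q ∈ W, LinearIndependent ℝ (fun i : Fin m => X i q) := fun q hq =>
    hg.orth_indep hq _ (fun i => hXm i q hq) (ho q hq)
  refine ⟨fun i => X i, fun i => (hX1 i i.2).1, ho, hXLI, fun q hq => ?_, ?_⟩
  · apply Submodule.eq_of_le_of_finrank_eq
    · rw [Submodule.span_le]
      rintro _ ⟨i, rfl⟩
      exact hXm i q hq
    · rw [finrank_span_eq_card (hXLI q hq), ← hsp q hq, finrank_span_eq_card (hLI q hq)]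
  · intro i q hq w hw
    have := hX3 i i.2 q hq w hw
    simpa using this

/-- `h` in an orthonormal frame -/
lemma ham_eq {U : Set E} {D : E → Submodule ℝ E} {g : E → E → E → ℝ} (hg : IsMetric U D g)
    {κ : Type} [Fintype κ] [DecidableEq κ] {q : E} (hq : q ∈ U) (x : κ → E)
    (ho : ∀ i j, g q (x i) (x j) = if i = j then 1 else 0)
    (hsp : Submodule.span ℝ (range x) = D q) (p : Co E) :
    ham D g (q, p) = ∑ i, p (x i) ^ 2 := by
  have hx : ∀ i, x i ∈ D q := fun i => by rw [← hsp]; exact Submodule.subset_span ⟨i, rfl⟩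
  set S : ℝ := ∑ i, p (x i) ^ 2 with hS
  have hS0 : 0 ≤ S := Finset.sum_nonneg fun i _ => sq_nonneg _
  have hgr : IsGreatest {r | ∃ v ∈ D q, g q v v ≤ 1 ∧ r = |p v|} (Real.sqrt S) := by
    constructor
    · by_cases h0 : S = 0
      · refine ⟨0, (D q).zero_mem, ?_, ?_⟩
        · rw [hg.zero hq (D q).zero_mem]; exact zero_le_one
        · rw [h0]; simp
      · have hpos : 0 < S := lt_of_le_of_ne hS0 (Ne.symm h0)
        have hs : 0 < Real.sqrt S := Real.sqrt_pos.2 hpos
        have hss : Real.sqrt S * Real.sqrt S = S := Real.mul_self_sqrt hS0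
        refine ⟨∑ i, (p (x i) / Real.sqrt S) • x i, Submodule.sum_mem _ fun i _ =>
          (D q).smul_mem _ (hx i), ?_, ?_⟩
        · rw [hg.orth_sum hq x hx ho]
          have : ∑ i, p (x i) / Real.sqrt S * (p (x i) / Real.sqrt S) =
              (∑ i, p (x i) ^ 2) / (Real.sqrt S * Real.sqrt S) := by
            rw [Finset.sum_div]
            refine Finset.sum_congr rfl fun i _ => ?_
            rw [div_mul_div_comm, sq]
          rw [this, hss, ← hS, div_self h0]
        · rw [map_sum]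
          have : ∑ i, p ((p (x i) / Real.sqrt S) • x i) = S / Real.sqrt S := by
            rw [hS, Finset.sum_div]
            refine Finset.sum_congr rfl fun i _ => ?_
            rw [map_smul, smul_eq_mul]
            ring
          rw [this, Real.div_sqrt, abs_of_nonneg hs.le]
    · rintro r ⟨v, hv, hgv, rfl⟩
      rw [← hsp, Submodule.mem_span_range_iff_exists_fun] at hv
      obtain ⟨a, rfl⟩ := hv
      rw [hg.orth_sum hq x hx ho] at hgv
      apply Real.abs_le_sqrt
      rw [map_sum]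
      simp only [map_smul, smul_eq_mul]
      have h1 := Finset.sum_mul_sq_le_sq_mul_sq Finset.univ a (fun i => p (x i))
      have h2 : ∑ i, a i ^ 2 ≤ 1 := by
        refine le_trans (le_of_eq ?_) hgv
        exact Finset.sum_congr rfl fun i _ => sq (a i)
      calc (∑ i, a i * p (x i)) ^ 2 ≤ (∑ i, a i ^ 2) * S := h1
        _ ≤ 1 * S := mul_le_mul_of_nonneg_right h2 hS0
        _ = S := one_mul S
  show sSup {r | ∃ v ∈ D q, g q v v ≤ 1 ∧ r = |p v|} ^ 2 = S
  rw [hgr.csSup_eq, Real.sq_sqrt hS0]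

end Pool.Agent.D0H81.SR
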