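import Pool.Agent.D0H81.SR.Factor

set_option autoImplicit false
set_option linter.unusedVariables false
set_option linter.deprecated false
set_option linter.unusedSectionVars false

open Set Metric Filter Topology
open scoped ContDiff NNReal Matrix

namespace Pool.Agent.D0H81.SR

open VectorField (lieBracket)

variable {E : Type} [NormedAddCommGroup E] [NormedSpace ℝ E] [FiniteDimensional ℝ E]
variable {ι : Type} [Fintype ι] [DecidableEq ι] {D : Dat E ι} {lam : ι → ℝ}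

lemma dual_expand {n : ℕ} (hn : n = Module.finrank ℝ E) {Y : Fin n → E} {θ : Fin n → Co E}
    (hd : ∀ i j, θ i (Y j) = if i = j then 1 else 0) (v : E) : v = ∑ l, θ l v • Y l := by
  apply expand_of_dual (v := Y) (φ := θ) hd
  rw [(indep_of_dual (v := Y) hd).span_eq_top_of_card_eq_finrank' (by simpa using hn)]
  trivial

lemma half (c : Ctx D lam) {V2 : Set E} (hV2 : V2 ⊆ c.V) (hV2o : IsOpen V2) {q0 : E}
    (hq0 : q0 ∈ V2) {Y : Fin (Module.finrank ℝ E) → E → E} {b : Fin (Module.finrank ℝ E) → ℝ}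
    {θ : Fin (Module.finrank ℝ E) → E → Co E}
    (hY : ∀ i, Word D.X {k | lam k = b i} (Y i)) (hθ : ∀ i, ContDiffOn ℝ ∞ (θ i) V2)
    (hd : ∀ q ∈ V2, ∀ i j, θ i q (Y j q) = if i = j then 1 else 0)
    (hw : ∀ a Z, Word D.X {k | lam k = a} Z → ∀ q ∈ V2, ∀ l, b l ≠ a → θ l q (Z q) = 0)
    (hinv : ∀ (B : ℝ → Prop) i k, B (b i) → B (b k) → ∀ q ∈ V2, ∀ l, ¬ B (b l) →
        θ l q (lieBracket ℝ (Y i) (Y k) q) = 0) (B : ℝ → Prop) [DecidablePred B] :
    ∃ V' ⊆ V2, IsOpen V' ∧ q0 ∈ V' ∧ ∃ (m : ℕ) (f : E → (Fin m → ℝ)),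
      m = Fintype.card {l // B (b l)} ∧ ContDiffOn ℝ ∞ f V' ∧
      (∀ a', ¬ B a' → ∀ Z, Word D.X {k | lam k = a'} Z → ∀ q ∈ V', fderiv ℝ f q (Z q) = 0) ∧
      (∀ q ∈ V', ∀ v, fderiv ℝ f q v = 0 → ∀ l, B (b l) → θ l q v = 0) := by
  obtain ⟨V', hV', hV'o, hq0', f, hf, hf1, hf2⟩ := frobenius V2 hV2o q0 hq0 Y
    (fun i => (word_smooth D.hX (hY i)).contDiffOn) θ hθ hd (by simp) (fun i => ¬ B (b i))
    (fun i k hi hk q hq l hl => hinv (fun a => ¬ B a) i k hi hk q hq l hl)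
  have e0 : {l // B (b l)} ≃ {l // ¬ ¬ B (b l)} := Equiv.subtypeEquivRight fun l => not_not.symm
  let e : Fin (Fintype.card {l // B (b l)}) ≃ {l // ¬ ¬ B (b l)} :=
    (Fintype.equivFin {l // B (b l)}).symm.trans e0
  let R : ({l // ¬ ¬ B (b l)} → ℝ) →L[ℝ] (Fin (Fintype.card {l // B (b l)}) → ℝ) :=
    ContinuousLinearMap.pi fun k => ContinuousLinearMap.proj (R := ℝ)
      (φ := fun _ : {l // ¬ ¬ B (b l)} => ℝ) (e k)
  have hRinj : ∀ v, R v = 0 → v = 0 := by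
    intro v hv
    funext l
    have := congrFun hv (e.symm l)
    simpa [R] using this
  have hder : ∀ q ∈ V', fderiv ℝ (fun q => R (f q)) q = R.comp (fderiv ℝ f q) := by
    intro q hq
    have h1 : HasFDerivAt f (fderiv ℝ f q) q :=
      ((hf.contDiffAt (hV'o.mem_nhds hq)).differentiableAt inf_ne).hasFDerivAt
    exact (R.hasFDerivAt.comp q h1).fderiv
  refine ⟨V', hV', hV'o, hq0', _, fun q => R (f q), rfl, R.contDiff.comp_contDiffOn hf, ?_, ?_⟩
  · intro a' ha' Z hZ q hq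
    rw [hder q hq, ContinuousLinearMap.comp_apply]
    rw [dual_expand rfl (Y := fun l => Y l q) (θ := fun l => θ l q) (hd q (hV' hq)) (Z q), map_sum]
    have : ∑ l, fderiv ℝ f q (θ l q (Z q) • Y l q) = 0 := by
      refine Finset.sum_eq_zero fun l _ => ?_
      rw [map_smul]
      by_cases hl : b l = a'
      · rw [hf1 q hq l (hl.symm ▸ ha'), smul_zero]
      · rw [hw a' Z hZ q (hV' hq) l hl, zero_smul]
    rw [this, map_zero]
  · intro q hq v hv l hl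
    rw [hder q hq, ContinuousLinearMap.comp_apply] at hv
    exact hf2 q hq v (hRinj _ hv) l (not_not.2 hl)

theorem product (c : Ctx D lam) {q0 : E} (hq0 : q0 ∈ c.V) {i0 j0 : ι} (hij : lam i0 ≠ lam j0)
    {U : Set E} {Dd : E → Submodule ℝ E} {g : E → E → E → ℝ} (hU : c.V ⊆ U)
    (hD : ∀ q ∈ c.V, Dd q = Submodule.span ℝ (range fun i => D.X i q))
    (hg : ∀ q ∈ c.V, ∀ a : ι → ℝ, g q (∑ i, a i • D.X i q) (∑ i, a i • D.X i q) =
      ∑ i, a i * a i) : IsProductNear U Dd g q0 := by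
  classical
  obtain ⟨V2, hV2, hV2o, hq2, Y, b, θ, hY, hθ, hd, hw, hinv⟩ := c.decomp hq0
  let B : ℝ → Prop := fun a => a = lam i0
  obtain ⟨V', hV', hV'o, hq', m1, x, hm1, hx, hx1, hx2⟩ := half c hV2 hV2o hq2 hY hθ hd hw hinv B
  obtain ⟨V'', hV'', hV''o, hq'', m2, y, hm2, hy, hy1, hy2⟩ :=
    half c hV2 hV2o hq2 hY hθ hd hw hinv (fun a => ¬ B a)
  set W0 : Set E := V' ∩ V'' with hW0
  have hW0o : IsOpen W0 := hV'o.inter hV''o
  set Θ : E → (Fin m1 → ℝ) × (Fin m2 → ℝ) := fun q => (x q, y q) with hΘ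
  have hΘs : ContDiffOn ℝ ∞ Θ W0 := (hx.mono inter_subset_left).prodMk (hy.mono inter_subset_right)
  have hdx : ∀ q ∈ W0, HasFDerivAt x (fderiv ℝ x q) q := fun q hq =>
    ((hx.contDiffAt (hV'o.mem_nhds hq.1)).differentiableAt inf_ne).hasFDerivAt
  have hdy : ∀ q ∈ W0, HasFDerivAt y (fderiv ℝ y q) q := fun q hq =>
    ((hy.contDiffAt (hV''o.mem_nhds hq.2)).differentiableAt inf_ne).hasFDerivAt
  have hdΘ : ∀ q ∈ W0, HasFDerivAt Θ ((fderiv ℝ x q).prod (fderiv ℝ y q)) q := fun q hq =>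
    (hdx q hq).prodMk (hdy q hq)
  have hinj : ∀ q ∈ W0, ∀ v, fderiv ℝ x q v = 0 → fderiv ℝ y q v = 0 → v = 0 := by
    intro q hq v h1 h2
    rw [dual_expand rfl (Y := fun l => Y l q) (θ := fun l => θ l q) (hd q (hV' hq.1)) v]
    refine Finset.sum_eq_zero fun l _ => ?_
    have : θ l q v = 0 := by
      by_cases hl : B (b l)
      · exact hx2 q hq.1 v h1 l hl
      · exact hy2 q hq.2 v h2 l hl
    rw [this, zero_smul]
  have hq00 : q0 ∈ W0 := ⟨hq', hq''⟩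
  have hcard : m1 + m2 = Module.finrank ℝ E := by
    have h1 := Fintype.card_subtype_compl (fun l => B (b l))
    have h2 := Fintype.card_subtype_le (fun l => B (b l))
    have h3 : Fintype.card {l // ¬ B (b l)} = Fintype.card {l // (fun a => ¬ B a) (b l)} := rfl
    rw [hm1, hm2, ← h3, h1]
    rw [Fintype.card_fin] at h2 ⊢
    omega
  let L0 : E ≃ₗ[ℝ] (Fin m1 → ℝ) × (Fin m2 → ℝ) := LinearEquiv.ofInjectiveOfFinrankEq
    ((fderiv ℝ x q0).prod (fderiv ℝ y q0)).toLinearMap (by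
      rw [← LinearMap.ker_eq_bot, LinearMap.ker_eq_bot']
      intro v hv
      have hv' : (fderiv ℝ x q0 v, fderiv ℝ y q0 v) = (0, 0) := hv
      exact hinj q0 hq00 v (congrArg Prod.fst hv') (congrArg Prod.snd hv'))
    (by rw [Module.finrank_prod, Module.finrank_fin_fun, Module.finrank_fin_fun, hcard])
  let L : E ≃L[ℝ] (Fin m1 → ℝ) × (Fin m2 → ℝ) := L0.toContinuousLinearEquiv
  have hL : HasFDerivAt Θ (L : E →L[ℝ] (Fin m1 → ℝ) × (Fin m2 → ℝ)) q0 := by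
    refine (hdΘ q0 hq00).congr_fderiv ?_
    refine ContinuousLinearMap.ext fun v => ?_
    rfl
  obtain ⟨h, hcoe, hsrc, h0s, hsymm, -⟩ := local_inv Θ hW0o hΘs hq00 L hL
  have h0t : Θ q0 ∈ h.target := by
    have := h.map_source h0s
    rwa [hcoe] at this
  obtain ⟨ε, hε, hball⟩ := Metric.isOpen_iff.1 h.open_target _ h0t
  set U₁ : Set (Fin m1 → ℝ) := ball (x q0) ε with hU₁
  set U₂ : Set (Fin m2 → ℝ) := ball (y q0) ε with hU₂
  have hbox : U₁ ×ˢ U₂ ⊆ h.target := by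
    rw [hU₁, hU₂, ball_prod_same]
    exact hball
  set W : Set E := h.source ∩ Θ ⁻¹' (U₁ ×ˢ U₂) with hW
  have hWo : IsOpen W := by
    have := h.isOpen_inter_preimage (isOpen_ball.prod isOpen_ball : IsOpen (U₁ ×ˢ U₂))
    rwa [hcoe] at this
  have hWW0 : W ⊆ W0 := fun q hq => hsrc hq.1
  set Ψ : (Fin m1 → ℝ) × (Fin m2 → ℝ) → E := (h.symm : (Fin m1 → ℝ) × (Fin m2 → ℝ) → E) with hΨ
  have hr : ∀ p ∈ U₁ ×ˢ U₂, Θ (Ψ p) = p := by
    intro p hp
    have := h.right_inv (hbox hp)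
    rwa [hcoe] at this
  have hl : ∀ q ∈ W, Ψ (Θ q) = q := by
    intro q hq
    have := h.left_inv hq.1
    rwa [hcoe] at this
  have hmW : ∀ p ∈ U₁ ×ˢ U₂, Ψ p ∈ W := fun p hp =>
    ⟨h.map_target (hbox hp), by show Θ (Ψ p) ∈ U₁ ×ˢ U₂; rw [hr p hp]; exact hp⟩
  have ch : Ch W x y Ψ U₁ U₂ :=
    { hW := hWo
      h1 := isOpen_ball
      h2 := isOpen_ball
      c1 := convex_ball _ _
      c2 := convex_ball _ _
      hx := hx.mono fun q hq => (hWW0 hq).1
      hy := hy.mono fun q hq => (hWW0 hq).2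
      hΨ := hsymm.mono hbox
      mx := fun q hq => hq.2.1
      my := fun q hq => hq.2.2
      mΨ := fun a ha b hb => hmW (a, b) ⟨ha, hb⟩
      ex := fun a ha b hb => congrArg Prod.fst (hr (a, b) ⟨ha, hb⟩)
      ey := fun a ha b hb => congrArg Prod.snd (hr (a, b) ⟨ha, hb⟩)
      eΨ := hl }
  have hWc : W ⊆ c.V := fun q hq => hV2 (hV' (hWW0 hq).1)
  have spl : Spl c W x y Ψ U₁ U₂ B :=
    { ch := ch
      sub := hWc
      kx := fun a' ha' Z hZ q hq => hx1 a' ha' Z hZ q (hWW0 hq).1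
      ky := fun a' ha' Z hZ q hq => hy1 a' (not_not.2 ha') Z hZ q (hWW0 hq).2
      ex := ⟨Fin (Module.finrank ℝ E), inferInstance, Y, b, θ, hY, fun q hq v =>
        dual_expand rfl (Y := fun l => Y l q) (θ := fun l => θ l q) (hd q (hV' (hWW0 hq).1)) v⟩ }
  have spl' := spl.swap
  have hxq0 : x q0 ∈ U₁ := mem_ball_self hε
  have hyq0 : y q0 ∈ U₂ := mem_ball_self hε
  have hBi : B (lam i0) := rfl
  have hBj : ¬ B (lam j0) := fun h => hij h.symm
  have hfd : ∀ q ∈ W, fderiv ℝ Θ q = (fderiv ℝ x q).prod (fderiv ℝ y q) := fun q hq =>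
    (hdΘ q (hWW0 hq)).fderiv
  have hn1 : 0 < m1 := by
    rcases Nat.eq_zero_or_pos m1 with h0 | h0
    · exfalso
      subst h0
      exact spl.rank hyq0 i0 hBi hxq0 (Subsingleton.elim _ _)
    · exact h0
  have hn2 : 0 < m2 := by
    rcases Nat.eq_zero_or_pos m2 with h0 | h0
    · exfalso
      subst h0
      exact spl'.rank hxq0 j0 hBj hyq0 (Subsingleton.elim _ _)
    · exact h0
  -- sums
  have hsum1 : ∀ q ∈ W, ∀ a : ι → ℝ, fderiv ℝ x q (∑ i, a i • D.X i q) =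
      ∑ i : {i // B (lam i)}, a i • fderiv ℝ x q (D.X i q) := by
    intro q hq a
    rw [map_sum, sum_sub (p := fun i => B (lam i)) (f := fun i => a i • fderiv ℝ x q (D.X i q))]
    · simp only [map_smul]
    · intro i hi
      rw [spl.kx _ hi _ (Word.letter i rfl) q hq, smul_zero]
  have hsum2 : ∀ q ∈ W, ∀ a : ι → ℝ, fderiv ℝ y q (∑ i, a i • D.X i q) =
      ∑ i : {i // ¬ B (lam i)}, a i • fderiv ℝ y q (D.X i q) := by
    intro q hq a
    rw [map_sum, sum_sub (p := fun i => ¬ B (lam i)) (f := fun i => a i • fderiv ℝ y q (D.X i q))]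
    · simp only [map_smul]
    · intro i hi
      rw [spl.ky _ (not_not.1 hi) _ (Word.letter i rfl) q hq, smul_zero]
  refine ⟨m1, m2, U₁, U₂, frD (Spl.xi D lam x Ψ B (y q0)),
    frD (Spl.xi D lam y (fun p => Ψ p.swap) (fun a => ¬ B a) (x q0)),
    frg (Spl.xi D lam x Ψ B (y q0)),
    frg (Spl.xi D lam y (fun p => Ψ p.swap) (fun a => ¬ B a) (x q0)), W, Θ, Ψ,
    ⟨hn1, fun a ha => spl.rank hyq0 i0 hBi ha, spl.subR hyq0 ⟨_, hxq0⟩⟩,
    ⟨hn2, fun a ha => spl'.rank hxq0 j0 hBj ha, spl'.subR hxq0 ⟨_, hyq0⟩⟩,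
    fun q hq => hU (hWc hq), hWo, ⟨h0s, hxq0, hyq0⟩,
    ⟨hΘs.mono hWW0, hsymm.mono hbox, fun q hq => hq.2, fun p hp => hmW p hp, hl, hr⟩,
    fun q hq => ⟨?_, ?_⟩⟩
  · intro v
    rw [hfd q hq, hD q (hWc hq)]
    show _ ↔ fderiv ℝ x q v ∈ frD (Spl.xi D lam x Ψ B (y q0)) (x q) ∧ fderiv ℝ y q v ∈
      frD (Spl.xi D lam y (fun p => Ψ p.swap) (fun a => ¬ B a) (x q0)) (y q)
    rw [spl.frD_eq hyq0 hq, spl'.frD_eq hxq0 hq]
    constructor
    · intro hv
      rw [Submodule.mem_span_range_iff_exists_fun] at hv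
      obtain ⟨a, rfl⟩ := hv
      rw [hsum1 q hq, hsum2 q hq]
      exact ⟨Submodule.sum_mem _ fun i _ => Submodule.smul_mem _ _ (Submodule.subset_span ⟨i, rfl⟩),
        Submodule.sum_mem _ fun i _ => Submodule.smul_mem _ _ (Submodule.subset_span ⟨i, rfl⟩)⟩
    · rintro ⟨hv1, hv2⟩
      rw [Submodule.mem_span_range_iff_exists_fun] at hv1 hv2
      obtain ⟨a1, ha1⟩ := hv1
      obtain ⟨a2, ha2⟩ := hv2
      set a : ι → ℝ := fun i => if hi : B (lam i) then a1 ⟨i, hi⟩ else a2 ⟨i, hi⟩ with ha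
      have e1 : v - ∑ i, a i • D.X i q = 0 := by
        apply ch.inj hq
        · rw [map_sub, hsum1 q hq, ← ha1, sub_eq_zero]
          refine Finset.sum_congr rfl fun i _ => ?_
          rw [ha]
          simp only [dif_pos i.2]
        · rw [map_sub, hsum2 q hq, ← ha2, sub_eq_zero]
          refine Finset.sum_congr rfl fun i _ => ?_
          rw [ha]
          simp only [dif_neg i.2]
      rw [sub_eq_zero.1 e1]
      exact Submodule.sum_mem _ fun i _ => Submodule.smul_mem _ _ (Submodule.subset_span ⟨i, rfl⟩)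
  · intro v hv
    rw [hD q (hWc hq), Submodule.mem_span_range_iff_exists_fun] at hv
    obtain ⟨a, rfl⟩ := hv
    rw [hg q (hWc hq), hfd q hq]
    show _ = frg (Spl.xi D lam x Ψ B (y q0)) (x q) (fderiv ℝ x q (∑ i, a i • D.X i q))
        (fderiv ℝ x q (∑ i, a i • D.X i q)) +
      frg (Spl.xi D lam y (fun p => Ψ p.swap) (fun a => ¬ B a) (x q0)) (y q)
        (fderiv ℝ y q (∑ i, a i • D.X i q)) (fderiv ℝ y q (∑ i, a i • D.X i q))
    rw [hsum1 q hq, hsum2 q hq, spl.frg_eq hyq0 hq (fun i => a i),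
      spl'.frg_eq hxq0 hq (fun i => a i)]
    exact (Fintype.sum_subtype_add_sum_subtype (fun i => B (lam i)) (fun i => a i * a i)).symm

end Pool.Agent.D0H81.SR
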