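import Pool.Agent.D0H81.SR.Eig

set_option autoImplicit false
set_option linter.unusedVariables false
set_option linter.deprecated false
set_option linter.unusedSectionVars false

open Set Metric Filter Topology
open scoped ContDiff NNReal Matrix

namespace Pool.Agent.D0H81.SR

variable {E : Type} [NormedAddCommGroup E] [NormedSpace ℝ E] [FiniteDimensional ℝ E]
variable {ι : Type} [Fintype ι]

lemma spec [DecidableEq ι] (A : Matrix ι ι ℝ) (hA : A.transpose = A) :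
    ∃ (e : ι → ι → ℝ) (μ : ι → ℝ), (∀ α, A *ᵥ (e α) = μ α • e α) ∧
      (∀ α β, e α ⬝ᵥ e β = if α = β then 1 else 0) ∧
      (∀ v : ι → ℝ, v = ∑ α, (e α ⬝ᵥ v) • e α) := by
  have hH : A.IsHermitian := by
    rw [Matrix.IsHermitian, Matrix.conjTranspose_eq_transpose_of_trivial, hA]
  set e : ι → ι → ℝ := fun α => ⇑(hH.eigenvectorBasis α) with he
  have hon : ∀ α β, e α ⬝ᵥ e β = if α = β then 1 else 0 := by
    intro α β
    have h1 := orthonormal_iff_ite.1 hH.eigenvectorBasis.orthonormal β α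
    rw [EuclideanSpace.inner_eq_star_dotProduct] at h1
    simp only [star_trivial] at h1
    rw [he]
    rw [show (if α = β then (1:ℝ) else 0) = if β = α then 1 else 0 by simp [eq_comm]]
    exact h1
  refine ⟨e, hH.eigenvalues, fun α => hH.mulVec_eigenvectorBasis α, hon, fun v => ?_⟩
  set U : Matrix ι ι ℝ := Matrix.of e with hU
  have h1 : U * U.transpose = 1 := by
    ext α β
    rw [Matrix.mul_apply, Matrix.one_apply, ← hon α β]
    rfl
  have h2 : U.transpose * U = 1 := mul_eq_one_comm.1 h1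
  have h3 : v = (U.transpose * U) *ᵥ v := by rw [h2, Matrix.one_mulVec]
  rw [← Matrix.mulVec_mulVec] at h3
  conv_lhs => rw [h3]
  funext i
  rw [Matrix.mulVec, dotProduct, Finset.sum_apply]
  refine Finset.sum_congr rfl fun α _ => ?_
  simp only [Matrix.transpose_apply, hU, Matrix.of_apply, Matrix.mulVec, Pi.smul_apply, smul_eq_mul]
  ring

/-- spectral projection -/
noncomputable def Pr [DecidableEq ι] (e : ι → ι → ℝ) (μ : ι → ℝ) (a : ℝ) :
    (ι → ℝ) →ₗ[ℝ] (ι → ℝ) where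
  toFun v := ∑ α, (if μ α = a then e α ⬝ᵥ v else 0) • e α
  map_add' v w := by
    rw [← Finset.sum_add_distrib]
    refine Finset.sum_congr rfl fun α _ => ?_
    split_ifs <;> simp [dotProduct_add, add_smul]
  map_smul' c v := by
    rw [RingHom.id_apply, Finset.smul_sum]
    refine Finset.sum_congr rfl fun α _ => ?_
    split_ifs <;> simp [dotProduct_smul, smul_smul]

lemma Pr_apply [DecidableEq ι] (e : ι → ι → ℝ) (μ : ι → ℝ) (a : ℝ) (v : ι → ℝ) :
    Pr e μ a v = ∑ α, (if μ α = a then e α ⬝ᵥ v else 0) • e α := rfl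

/-- algebraic data of an eigenbasis -/
structure EB [DecidableEq ι] (M : (ι → ℝ) →ₗ[ℝ] (ι → ℝ)) (e : ι → ι → ℝ) (μ : ι → ℝ) : Prop where
  eig : ∀ α, M (e α) = μ α • e α
  on : ∀ α β, e α ⬝ᵥ e β = if α = β then 1 else 0
  exp : ∀ v : ι → ℝ, v = ∑ α, (e α ⬝ᵥ v) • e α

variable [DecidableEq ι]

lemma EB.symm {M : (ι → ℝ) →ₗ[ℝ] (ι → ℝ)} {e : ι → ι → ℝ} {μ : ι → ℝ} (h : EB M e μ)
    (α : ι) (v : ι → ℝ) : e α ⬝ᵥ M v = μ α * (e α ⬝ᵥ v) := by
  conv_lhs => rw [h.exp v]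
  rw [map_sum, dotProduct_sum]
  simp only [map_smul, h.eig, dotProduct_smul, h.on, smul_eq_mul]
  simp [mul_comm]

lemma EB.dot_eq_zero {M : (ι → ℝ) →ₗ[ℝ] (ι → ℝ)} {e : ι → ι → ℝ} {μ : ι → ℝ} (h : EB M e μ)
    {α : ι} {v : ι → ℝ} {a : ℝ} (hv : M v = a • v) (ha : μ α ≠ a) : e α ⬝ᵥ v = 0 := by
  have h1 := h.symm α v
  rw [hv, dotProduct_smul, smul_eq_mul] at h1
  have h2 : (μ α - a) * (e α ⬝ᵥ v) = 0 := by linarith
  exact (mul_eq_zero.1 h2).resolve_left (sub_ne_zero.2 ha)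

lemma EB.M_Pr {M : (ι → ℝ) →ₗ[ℝ] (ι → ℝ)} {e : ι → ι → ℝ} {μ : ι → ℝ} (h : EB M e μ)
    (a : ℝ) (v : ι → ℝ) : M (Pr e μ a v) = a • Pr e μ a v := by
  rw [Pr_apply, map_sum, Finset.smul_sum]
  refine Finset.sum_congr rfl fun α _ => ?_
  rw [map_smul, h.eig]
  split_ifs with hα
  · rw [hα, smul_comm]
  · simp

lemma EB.Pr_eig {M : (ι → ℝ) →ₗ[ℝ] (ι → ℝ)} {e : ι → ι → ℝ} {μ : ι → ℝ} (h : EB M e μ)
    {a : ℝ} {v : ι → ℝ} (hv : M v = a • v) : Pr e μ a v = v := by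
  conv_rhs => rw [h.exp v]
  rw [Pr_apply]
  refine Finset.sum_congr rfl fun α _ => ?_
  split_ifs with hα
  · rfl
  · rw [h.dot_eq_zero hv hα]

lemma EB.sub_Pr {M : (ι → ℝ) →ₗ[ℝ] (ι → ℝ)} {e : ι → ι → ℝ} {μ : ι → ℝ} (h : EB M e μ)
    (a : ℝ) (v : ι → ℝ) :
    v - Pr e μ a v = ∑ α, (if μ α = a then 0 else e α ⬝ᵥ v) • e α := by
  conv_lhs => rw [h.exp v]
  have : Pr e μ a (∑ α, (e α ⬝ᵥ v) • e α) = Pr e μ a v := by rw [← h.exp v]
  rw [this, Pr_apply, ← Finset.sum_sub_distrib]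
  refine Finset.sum_congr rfl fun α _ => ?_
  split_ifs <;> simp

lemma EB.dot_sub_Pr {M : (ι → ℝ) →ₗ[ℝ] (ι → ℝ)} {e : ι → ι → ℝ} {μ : ι → ℝ} (h : EB M e μ)
    (a : ℝ) (v : ι → ℝ) (α : ι) (hα : μ α = a) : e α ⬝ᵥ (v - Pr e μ a v) = 0 := by
  rw [h.sub_Pr, dotProduct_sum]
  refine Finset.sum_eq_zero fun β _ => ?_
  rw [dotProduct_smul, h.on]
  by_cases hab : α = β
  · subst hab; simp [hα]
  · simp [hab]

lemma EB.Pr_zero {M : (ι → ℝ) →ₗ[ℝ] (ι → ℝ)} {e : ι → ι → ℝ} {μ : ι → ℝ} (h : EB M e μ)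
    {a : ℝ} {v : ι → ℝ} (hv : ∀ α, μ α = a → e α ⬝ᵥ v = 0) : Pr e μ a v = 0 := by
  rw [Pr_apply]
  refine Finset.sum_eq_zero fun α _ => ?_
  split_ifs with hα
  · rw [hv α hα, zero_smul]
  · rw [zero_smul]

lemma Dat.exists_EB (D : Dat E ι) {q : E} (hq : q ∈ D.V) : ∃ e μ, EB (MM D.S q) e μ := by
  obtain ⟨e, μ, h1, h2, h3⟩ := spec (Matrix.of fun i j => D.S i j q) (by
    ext i j
    exact D.symm j i q hq)
  exact ⟨e, μ, ⟨h1, h2, h3⟩⟩

namespace Dat

variable (D : Dat E ι)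

/-- the cubic form -/
noncomputable def cub (q : E) (ψ : ι → Co E) (e : ι → ι → ℝ) (μ : ι → ℝ) (a : ℝ) (u : ι → ℝ) : ℝ :=
  ∑ l, ψ l (bb D.X q (u - Pr e μ a u) (Pr e μ a u)) * (MM D.S q u l - a * u l) +
    (1 / 2 * CC D.S q (XX D.X q (Pr e μ a u)) u u - CC D.S q (XX D.X q u) (Pr e μ a u) u)

lemma cub_isCubic (q : E) (ψ : ι → Co E) (e : ι → ι → ℝ) (μ : ι → ℝ) (a : ℝ) :
    IsCubic (D.cub q ψ e μ a) := by
  constructor
  · intro u w
    unfold cub
    have h1 : ∀ l, (ψ l (bb D.X q (u + (3:ℝ) • w - Pr e μ a (u + (3:ℝ) • w)) (Pr e μ a (u + (3:ℝ) • w))) *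
        (MM D.S q (u + (3:ℝ) • w) l - a * (u + (3:ℝ) • w) l)) -
        3 * (ψ l (bb D.X q (u + (2:ℝ) • w - Pr e μ a (u + (2:ℝ) • w)) (Pr e μ a (u + (2:ℝ) • w))) *
        (MM D.S q (u + (2:ℝ) • w) l - a * (u + (2:ℝ) • w) l)) +
        3 * (ψ l (bb D.X q (u + w - Pr e μ a (u + w)) (Pr e μ a (u + w))) *
        (MM D.S q (u + w) l - a * (u + w) l)) -
        (ψ l (bb D.X q (u - Pr e μ a u) (Pr e μ a u)) * (MM D.S q u l - a * u l)) =
        6 * (ψ l (bb D.X q (w - Pr e μ a w) (Pr e μ a w)) * (MM D.S q w l - a * w l)) := by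
      intro l
      simp only [map_add, map_sub, map_smul, LinearMap.add_apply, LinearMap.sub_apply,
        LinearMap.smul_apply, Pi.add_apply, Pi.smul_apply, smul_eq_mul]
      ring
    have h2 : (1 / 2 * CC D.S q (XX D.X q (Pr e μ a (u + (3:ℝ) • w))) (u + (3:ℝ) • w) (u + (3:ℝ) • w) -
          CC D.S q (XX D.X q (u + (3:ℝ) • w)) (Pr e μ a (u + (3:ℝ) • w)) (u + (3:ℝ) • w)) -
        3 * (1 / 2 * CC D.S q (XX D.X q (Pr e μ a (u + (2:ℝ) • w))) (u + (2:ℝ) • w) (u + (2:ℝ) • w) -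
          CC D.S q (XX D.X q (u + (2:ℝ) • w)) (Pr e μ a (u + (2:ℝ) • w)) (u + (2:ℝ) • w)) +
        3 * (1 / 2 * CC D.S q (XX D.X q (Pr e μ a (u + w))) (u + w) (u + w) -
          CC D.S q (XX D.X q (u + w)) (Pr e μ a (u + w)) (u + w)) -
        (1 / 2 * CC D.S q (XX D.X q (Pr e μ a u)) u u - CC D.S q (XX D.X q u) (Pr e μ a u) u) =
        6 * (1 / 2 * CC D.S q (XX D.X q (Pr e μ a w)) w w -
          CC D.S q (XX D.X q w) (Pr e μ a w) w) := by
      simp only [map_add, map_smul, LinearMap.add_apply, LinearMap.smul_apply, smul_eq_mul,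
        CC_add, CC_smul]
      ring
    have h3 := Finset.sum_congr (rfl : (Finset.univ : Finset ι) = Finset.univ) fun l _ => h1 l
    simp only [Finset.sum_add_distrib, Finset.sum_sub_distrib, ← Finset.mul_sum] at h3
    linarith
  · intro t w
    unfold cub
    rw [mul_add, Finset.mul_sum]
    congr 1
    · refine Finset.sum_congr rfl fun l _ => ?_
      simp only [← smul_sub, map_smul, LinearMap.smul_apply, Pi.smul_apply, smul_eq_mul]
      ring
    · simp only [map_smul, LinearMap.smul_apply, smul_eq_mul, CC_smul]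
      ring

lemma cub_zero {q : E} {p0 : Co E} (h0 : (q, p0) ∈ Gset D.X D.V) {ψ : ι → Co E}
    (hψ : ∀ i j, ψ i (D.X j q) = if i = j then 1 else 0)
    {e : ι → ι → ℝ} {μ : ι → ℝ} (h : EB (MM D.S q) e μ) (a : ℝ) (u : ι → ℝ) :
    D.cub q ψ e μ a u = 0 := by
  obtain ⟨P, hP, hP1, hP2⟩ := D.exists_P
  have hq : q ∈ D.V := h0.1
  apply (D.cub_isCubic q ψ e μ a).zero (u0 := mv D.X (q, p0))
  -- vectors near `mv (q,p0)` come from good covectors
  have hGo : IsOpen (Gset D.X D.V) := Gset_open D.hX D.hV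
  set p : (ι → ℝ) → Co E := fun u => p0 + ∑ i, (u i - mv D.X (q, p0) i) • ψ i with hp
  have hpc : Continuous p := by
    refine continuous_const.add (continuous_finset_sum _ fun i _ => ?_)
    exact ((continuous_apply i).sub continuous_const).smul continuous_const
  have hp0 : p (mv D.X (q, p0)) = p0 := by simp [hp]
  have hpm : ∀ u, mv D.X (q, p u) = u := by
    intro u
    funext j
    simp only [mv, mom, hp, ContinuousLinearMap.add_apply, ContinuousLinearMap.sum_apply,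
      ContinuousLinearMap.smul_apply, hψ, smul_eq_mul]
    simp
  have hev : ∀ᶠ u in 𝓝 (mv D.X (q, p0)), (q, p u) ∈ Gset D.X D.V := by
    have hc : Continuous (fun u => ((q, p u) : TT E)) := continuous_const.prodMk hpc
    have h1 := hc.tendsto (mv D.X (q, p0))
    rw [hp0] at h1
    exact h1.eventually (hGo.mem_nhds h0)
  filter_upwards [hev] with u hu
  have hx := D.eq_x hP hP1 hP2 hu (Pr e μ a u)
  simp only [hpm] at hx
  -- the bracket is horizontal
  have hb : bb D.X q u (Pr e μ a u) = bb D.X q (u - Pr e μ a u) (Pr e μ a u) := by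
    rw [map_sub, LinearMap.sub_apply, bb_self, sub_zero]
  have hmem : bb D.X q (u - Pr e μ a u) (Pr e μ a u) ∈
      Submodule.span ℝ (range fun i => D.X i q) := by
    rw [h.sub_Pr, Pr_apply, map_sum]
    refine Submodule.sum_mem _ fun β _ => ?_
    rw [map_sum, LinearMap.sum_apply]
    refine Submodule.sum_mem _ fun α _ => ?_
    rw [LinearMap.map_smul, LinearMap.map_smul, LinearMap.smul_apply]
    by_cases hα : μ α = a
    · simp [hα]
    · by_cases hβ : μ β = a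
      · refine Submodule.smul_mem _ _ (Submodule.smul_mem _ _ ?_)
        exact D.bb_eig hq (h.eig α) (h.eig β) (by rw [hβ]; exact hα)
      · simp [hβ]
  have hexp := expand_of_dual hψ hmem
  have hPw : P (q, p u) (bb D.X q (u - Pr e μ a u) (Pr e μ a u)) =
      ∑ l, ψ l (bb D.X q (u - Pr e μ a u) (Pr e μ a u)) * MM D.S q u l := by
    conv_lhs => rw [hexp]
    rw [map_sum]
    refine Finset.sum_congr rfl fun l _ => ?_
    have h1 := hP1 _ hu l
    simp only at h1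
    rw [map_smul, smul_eq_mul, h1, MM_apply]
    congr 1
    refine Finset.sum_congr rfl fun j _ => ?_
    rw [show mom D.X j (q, p u) = u j from congrFun (hpm u) j]
  have hpw : p u (bb D.X q (u - Pr e μ a u) (Pr e μ a u)) =
      ∑ l, ψ l (bb D.X q (u - Pr e μ a u) (Pr e μ a u)) * u l := by
    conv_lhs => rw [hexp]
    rw [map_sum]
    refine Finset.sum_congr rfl fun l _ => ?_
    rw [map_smul, smul_eq_mul, show p u (D.X l q) = u l from congrFun (hpm u) l]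
  rw [h.M_Pr, map_smul, map_smul, hb, hPw, hpw] at hx
  unfold cub
  simp only [mul_sub, Finset.sum_sub_distrib]
  have h9 : ∑ l, ψ l (bb D.X q (u - Pr e μ a u) (Pr e μ a u)) * (a * u l) =
      a * ∑ l, ψ l (bb D.X q (u - Pr e μ a u) (Pr e μ a u)) * u l := by
    rw [Finset.mul_sum]
    refine Finset.sum_congr rfl fun l _ => ?_
    ring
  rw [h9]
  simp only [smul_eq_mul] at hx
  linarith

lemma T1 {q : E} {p0 : Co E} (h0 : (q, p0) ∈ Gset D.X D.V)
    {x : ι → ℝ} {a : ℝ} (hx : MM D.S q x = a • x) : CC D.S q (XX D.X q x) x x = 0 := by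
  obtain ⟨ψ, hψ⟩ := exists_dual _ (D.hLI q h0.1)
  obtain ⟨e, μ, h⟩ := D.exists_EB h0.1
  have h1 := D.cub_zero h0 hψ h a x
  unfold cub at h1
  rw [h.Pr_eig hx, sub_self, map_zero] at h1
  simp at h1
  linarith

lemma T2 {q : E} {p0 : Co E} (h0 : (q, p0) ∈ Gset D.X D.V)
    {e : ι → ι → ℝ} {μ : ι → ℝ} (h : EB (MM D.S q) e μ)
    {x y : ι → ℝ} {a : ℝ} (hx : MM D.S q x = a • x) (hy : ∀ α, μ α = a → e α ⬝ᵥ y = 0) :
    CC D.S q (XX D.X q y) x x = 0 := by
  obtain ⟨ψ, hψ⟩ := exists_dual _ (D.hLI q h0.1)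
  have hPx := h.Pr_eig hx
  have hPy := h.Pr_zero hy
  have h1 := D.cub_zero h0 hψ h a (x + y)
  have h2 := D.cub_zero h0 hψ h a (x - y)
  unfold cub at h1 h2
  simp only [map_add, map_sub, hPx, hPy, add_zero, sub_zero, hx, add_sub_cancel_left,
    sub_sub_cancel_left, map_neg, LinearMap.neg_apply, LinearMap.add_apply, LinearMap.sub_apply,
    Pi.add_apply, Pi.sub_apply, Pi.smul_apply, smul_eq_mul, CC_add] at h1 h2
  have e1 : ∀ V : E, CC D.S q (XX D.X q x - V) = CC D.S q (XX D.X q x + (-1 : ℝ) • V) := by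
    intro V
    rw [neg_one_smul, sub_eq_add_neg]
  have e2 : ∀ w w' : ι → ℝ, CC D.S q (XX D.X q x - XX D.X q y) w w' =
      CC D.S q (XX D.X q x) w w' - CC D.S q (XX D.X q y) w w' := by
    intro w w'
    rw [e1, CC_add, CC_smul]; ring
  simp only [e2] at h2
  have h3 : ∀ l, ψ l (bb D.X q y x) * (a * x l + MM D.S q y l - a * (x l + y l)) =
    - (ψ l (bb D.X q y x)) * (a * x l - MM D.S q y l - a * (x l - y l)) := by
    intro l; ring
  have h4 : ∑ l, ψ l (bb D.X q y x) * (a * x l + MM D.S q y l - a * (x l + y l)) =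
    ∑ l, - (ψ l (bb D.X q y x)) * (a * x l - MM D.S q y l - a * (x l - y l)) :=
    Finset.sum_congr rfl fun l _ => h3 l
  rw [h4] at h1
  have h5 := D.CC_symm h0.1 (XX D.X q x) x y
  linarith

end Dat

end Pool.Agent.D0H81.SR
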