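import Pool.Agent.D0H81.SR.Geo2
import Pool.Agent.D0H81.SR.Product

set_option autoImplicit false
set_option linter.unusedVariables false
set_option linter.deprecated false
set_option linter.unusedSectionVars false

open Set Metric Filter Topology
open scoped ContDiff NNReal Matrix

namespace Pool.Agent.D0H81.SR

open VectorField (lieBracket)

variable {E : Type} [NormedAddCommGroup E] [NormedSpace ℝ E] [FiniteDimensional ℝ E]

/-- the module as a subspace -/
def mdSub (V : Set E) (𝒴 : Set (E → E)) : Submodule ℝ (E → E) where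
  carrier := {Z | Md V 𝒴 Z}
  add_mem' := fun {a b} ha hb => Md.add a b ha hb
  zero_mem' := Md.zero
  smul_mem' := fun c Z hZ => Md.smul (fun _ => c) Z contDiffOn_const hZ

lemma layer_le_md {D : E → Submodule ℝ E} {ι : Type} [Fintype ι] [DecidableEq ι] {X : ι → E → E}
    (hX : ∀ i, ContDiff ℝ ∞ (X i)) {W O : Set E} (hOW : O ⊆ W) (hO : IsOpen O)
    {φ : ι → E → Co E} (hφ : ∀ i, ContDiffOn ℝ ∞ (φ i) O)
    (hd : ∀ q ∈ O, ∀ i j, φ i q (X j q) = if i = j then 1 else 0)
    (hsp : ∀ q ∈ O, Submodule.span ℝ (range fun i => X i q) = D q) (j : ℕ) :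
    layer D W j ≤ mdSub O {Y | Word X univ Y} := by
  have hsec : ∀ Z, IsSection D W Z → Md O (range X) Z := by
    intro Z hZ
    refine Md.congr (fun q => ∑ i, φ i q (Z q) • X i q) _ ?_ ?_
    · refine Md.sum Finset.univ (fun i q => φ i q (Z q) • X i q) fun i _ => ?_
      exact Md.smul _ _ ((hφ i).clm_apply (hZ.1.mono hOW)) (Md.of _ ⟨i, rfl⟩)
    · intro q hq
      apply expand_of_dual (v := fun i => X i q) (φ := fun i => φ i q) (hd q hq)
      rw [hsp q hq]
      exact hZ.2 q (hOW hq)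
  have hws : ∀ Y ∈ {Y | Word X univ Y}, ContDiffOn ℝ ∞ Y O := fun Y hY =>
    (word_smooth hX hY).contDiffOn
  have hlw : ∀ Y ∈ range X, Md O {Y | Word X univ Y} Y := by
    rintro _ ⟨i, rfl⟩
    exact Md.of _ (Word.letter i (mem_univ i))
  induction j with
  | zero => exact fun Z hZ => (hsec Z hZ).bind hlw
  | succ j ih =>
    refine sup_le ih (Submodule.span_le.2 ?_)
    rintro _ ⟨Z, Y, hZ, hY, rfl⟩
    have hY' : Md O {Y | Word X univ Y} Y := ih hY
    have hYs : ContDiffOn ℝ ∞ Y O := hY'.smooth hws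
    have h1 : ∀ i, Md O {Y | Word X univ Y} (lieBracket ℝ (X i) Y) := fun i =>
      Md.bracket hO (hX i).contDiffOn hws (fun Y hY => Md.of _ hY)
        (fun Y hY => Md.of _ (Word.br i (mem_univ i) Y hY)) hY'
    have h2 : Md O {Y | Word X univ Y} (lieBracket ℝ Y Z) := by
      refine Md.bracket hO hYs ?_ hlw ?_ (hsec Z hZ)
      · rintro _ ⟨i, rfl⟩
        exact (hX i).contDiffOn
      · rintro _ ⟨i, rfl⟩
        rw [lieBracket_swap']
        exact (h1 i).neg
    show Md O {Y | Word X univ Y} (lieBracket ℝ Z Y)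
    rw [lieBracket_swap']
    exact h2.neg

namespace Loc

variable {V : Set E} {D : E → Submodule ℝ E} {g g' : E → E → E → ℝ} {m : ℕ}
  (L : Loc V D g g' m) (hg : IsMetric V D g) (hg' : IsMetric V D g')

/-- the analytic data attached to local frames of affinely equivalent metrics -/
def toDat {U : Set E} (hVU : V ⊆ U) (hbr : IsBracketGenerating U D)
    (haff : GeodesicsAffineIn D g g' V) (hm : 0 < m) : Dat E (Fin m) where
  X := L.X
  S := L.S
  V := L.B
  hX := L.hX
  hS := L.hS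
  hV := L.hB
  ne := ⟨⟨0, hm⟩⟩
  hLI := fun q hq => L.indep hg hq
  hgen := by
    intro q hq
    obtain ⟨W, hWU, hW, hqW, j, hj⟩ := hbr q (hVU (L.sub hq))
    obtain ⟨O', hO', hO'o, hqO, φ, hφs, hφd⟩ := exists_smooth_dual (fun i x => L.X i x) (W ∩ L.B)
      (hW.inter L.hB) q ⟨hqW, hq⟩ (fun i => (L.hX i).contDiffOn) (L.indep hg hq)
    have h1 := layer_le_md (D := D) L.hX (W := W) (O := O') (fun y hy => (hO' hy).1) hO'o hφs hφd
      (fun y hy => L.sp y (hO' hy).2) j
    rw [eq_top_iff]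
    intro v _
    obtain ⟨Z, hZ, rfl⟩ := hj v
    refine (h1 hZ : Md _ _ _).pt hqO _ ?_
    intro Y hY
    exact Submodule.subset_span ⟨Y, hY, rfl⟩
  symm := fun i j q hq => by
    rw [L.eS q hq, L.eS q hq]
    exact hg'.symm q (L.sub hq) _ (L.memX hq i) _ (L.memX hq j)
  lift := L.lift hg hg' haff

end Loc

open Polynomial in
lemma Dat.eigframe {ι : Type} [Fintype ι] [DecidableEq ι] (D : Dat E ι)
    (hc : IsPreconnected D.V) {q0 : E} (hq0 : q0 ∈ D.V) :
    ∃ (μ : ι → ℝ) (v : ι → ι → E → ℝ), (∀ i k, ContDiff ℝ ∞ (v i k)) ∧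
      (∀ i, ∀ q ∈ D.V, ∀ k, ∑ j, D.S k j q * v i j q = μ i * v i k q) ∧
      LinearIndependent ℝ (fun i => fun k => v i k q0) := by
  obtain ⟨e, μ, h⟩ := D.exists_EB hq0
  set Lp : ι → ℝ[X] := fun i => ∏ ν ∈ (Finset.univ.image μ).erase (μ i), (Polynomial.X - C ν) with hLp
  set F : ℝ[X] := ∏ ν ∈ Finset.univ.image μ, (Polynomial.X - C ν) with hF
  have hFL : ∀ i, (Polynomial.X - C (μ i)) * Lp i = F := fun i =>
    Finset.mul_prod_erase (Finset.univ.image μ) (fun ν => (Polynomial.X - C ν : ℝ[X]))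
      (Finset.mem_image_of_mem μ (Finset.mem_univ i))
  have hF0 : ∀ α, F.eval (μ α) = 0 := by
    intro α
    rw [← hFL α, eval_mul]
    simp
  have hFq : ∀ q ∈ D.V, aeval (Mx D.S q) F = 0 := fun q hq =>
    D.aeval_const hc hq hq0 (h.aeval_zero hF0)
  refine ⟨μ, fun i k q => (aeval (Mx D.S q) (Lp i) *ᵥ e i) k, ?_, ?_, ?_⟩
  · intro i k
    have : (fun q => (aeval (Mx D.S q) (Lp i) *ᵥ e i) k) = fun q =>
        ∑ j, (∑ n ∈ Finset.range ((Lp i).natDegree + 1), (Lp i).coeff n * Pk D.S n q k j) * e i j := by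
      funext q
      simp only [Matrix.mulVec, dotProduct, aeval_entry]
    show ContDiff ℝ ∞ (fun q => (aeval (Mx D.S q) (Lp i) *ᵥ e i) k)
    rw [this]
    exact ContDiff.sum fun j _ => (ContDiff.sum fun n _ =>
      contDiff_const.mul (Pk_smooth_entry D.hS n k j)).mul contDiff_const
  · intro i q hq k
    have h1 : Mx D.S q * aeval (Mx D.S q) (Lp i) = μ i • aeval (Mx D.S q) (Lp i) := by
      have h2 := hFq q hq
      rw [← hFL i, map_mul, map_sub, aeval_X, aeval_C, sub_mul, sub_eq_zero,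
        Algebra.algebraMap_eq_smul_one, smul_mul_assoc, one_mul] at h2
      exact h2
    have h2 : Mx D.S q *ᵥ (aeval (Mx D.S q) (Lp i) *ᵥ e i) =
        μ i • (aeval (Mx D.S q) (Lp i) *ᵥ e i) := by
      rw [Matrix.mulVec_mulVec, h1, Matrix.smul_mulVec]
    exact congrFun h2 k
  · have h1 : ∀ i, (fun k => (aeval (Mx D.S q0) (Lp i) *ᵥ e i) k) = (Lp i).eval (μ i) • e i := by
      intro i
      have h2 : (Mx D.S q0) *ᵥ e i = μ i • e i := h.eig i
      exact EB.aeval_eig h2 (Lp i)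
    simp only [h1]
    have hne : ∀ i, (Lp i).eval (μ i) ≠ 0 := by
      intro i
      rw [hLp]
      simp only [eval_prod]
      refine Finset.prod_ne_zero_iff.2 fun ν hν => ?_
      rw [eval_sub, eval_X, eval_C, sub_ne_zero]
      exact (Finset.ne_of_mem_erase hν).symm
    rw [Fintype.linearIndependent_iff]
    intro a ha i
    have h2 := congrArg (fun w => e i ⬝ᵥ w) ha
    simp only [dotProduct_sum, dotProduct_smul, h.on, smul_eq_mul, dotProduct_zero] at h2
    simp only [mul_ite, mul_one, mul_zero, Finset.sum_ite_eq, Finset.mem_univ, if_true] at h2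
    exact (mul_eq_zero.1 h2).resolve_right (hne i)

end Pool.Agent.D0H81.SR
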